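import Pool.Agent.Helper5.LE.XA
import Pool.Agent.Helper25.MOB.I2

/-!
# Block LE-X2: the error terms

Notation as in block LE-X1, `c = cc k`, `ρ = vol R`, `L = S^k`, target `I0 / 2` with `I0 = N^(-1-6e) ρ S^(2k)`; each of the three terms is `≤ I0 / 6`.
(1) `(K0 + 2) ρ^2`: `K0 ρ^2 = N^(-7e) S^(2k) ρ / N`; `2 ρ^2 ≤ 2 N^(-1/3-100κ) ρ`, and `S^(2k) / N ≥ N^(-1/3-2κ-e/8)`.
(2) `integral_om_le` (`MOB/I2`) with `H = c S^k`, `δ = r S^k` (`20 H^2 δ = 20 c^2 S^(3k) r < 1`): `∫_R om ≤ √(ρ 8 δ H (1 + log H)) = √(8 c ρ r S^(2k) (1 + log H))`; so the term is `≤ 4 ρ √(...)`; squares: `16 * 8 c ρ r S^(2k) (1 + log H) ≤ (N^(-1-6e) S^(2k) / 6)^2` because `ρ r ≤ N^(e-4/3-100κ)` and `N^(-2-12e) S^(2k) ≥ N^(-2-12e+2/3-2κ-e/8)`.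
(3) `2 * 4^k * Jm * r S^(2k) ρ * (...)`: `Jm ≤ N^(e/8)`, `r = N^(e-1)`, and the bracket is `≤ N^(-9e)`: `64 c^3 S^k ρ ≤ 64 c^3 N^(-101κ)`, `6 τ c^6 N^(-10e)`, `64 c^2 τ^2 / √S ≤ 64 c² τ² N^(-κ/2+e/8)`, `κ = 100 e`.
-/

set_option autoImplicit false

namespace Pool.Agent.Helper5.LE

open MeasureTheory Finset Filter
open Pool.Agent.Helper25.MOB

private theorem h44_k1 {k : ℕ} : (k : ℝ) * kap k = 1 / 3 - kap k := by
  unfold kap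
  have : (3 * ((k : ℝ) + 1)) ≠ 0 := by positivity
  field_simp
  ring

private theorem h44_kpos (k : ℕ) : 0 < kap k := by
  unfold kap
  positivity

private theorem h44_term1 {n ρ s2 e κ : ℝ} (hn : 1 ≤ n) (hρ : 0 < ρ)
    (hρ2 : ρ ≤ n ^ (-1 / 3 - 100 * κ)) (hs2 : 0 < s2)
    (hs2l : n ^ (2 / 3 - 2 * κ - e / 8) ≤ s2)
    (h1 : 12 * n ^ (-1 - 7 * e) ≤ n ^ (-1 - 6 * e))
    (h2 : 24 * n ^ (-1 / 3 - 100 * κ) ≤ n ^ (-1 / 3 - 6 * e - 2 * κ - e / 8)) :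
    (n ^ (-(7 * e)) * s2 / (n * ρ) + 2) * ρ ^ 2 ≤ n ^ (-1 - 6 * e) * ρ * s2 / 6 := by
  have hn0 : 0 < n := by linarith
  have e1 : n ^ (-1 - 7 * e) = n ^ (-(7 * e)) / n := by
    rw [show -1 - 7 * e = -(7 * e) - 1 by ring, Real.rpow_sub hn0, Real.rpow_one]
  have e2 : (n ^ (-(7 * e)) * s2 / (n * ρ) + 2) * ρ ^ 2
      = n ^ (-1 - 7 * e) * s2 * ρ + 2 * ρ ^ 2 := by
    rw [e1]
    field_simp
  have e3 : n ^ (-1 / 3 - 6 * e - 2 * κ - e / 8)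
      = n ^ (-1 - 6 * e) * n ^ (2 / 3 - 2 * κ - e / 8) := by
    rw [← Real.rpow_add hn0]
    congr 1
    ring
  have a1 : 12 * (n ^ (-1 - 7 * e) * s2 * ρ) ≤ n ^ (-1 - 6 * e) * ρ * s2 := by
    have := mul_le_mul_of_nonneg_right h1 (mul_pos hs2 hρ).le
    linarith
  have hp : 0 < n ^ (-1 - 6 * e) := Real.rpow_pos_of_pos hn0 _
  have a2 : 24 * ρ ^ 2 ≤ n ^ (-1 - 6 * e) * ρ * s2 := by
    calc 24 * ρ ^ 2 = 24 * ρ * ρ := by ring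
      _ ≤ (24 * n ^ (-1 / 3 - 100 * κ)) * ρ := by
          refine mul_le_mul_of_nonneg_right ?_ hρ.le
          linarith
      _ ≤ (n ^ (-1 - 6 * e) * n ^ (2 / 3 - 2 * κ - e / 8)) * ρ := by
          rw [← e3]
          exact mul_le_mul_of_nonneg_right h2 hρ.le
      _ ≤ (n ^ (-1 - 6 * e) * s2) * ρ := by gcongr
      _ = n ^ (-1 - 6 * e) * ρ * s2 := by ring
  rw [e2]
  linarith

private theorem h44_term2 {n ρ s2 e κ C r l : ℝ} (hn : 1 ≤ n) (hρ : 0 < ρ)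
    (hρ2 : ρ ≤ n ^ (-1 / 3 - 100 * κ)) (hs2 : 0 < s2)
    (hs2l : n ^ (2 / 3 - 2 * κ - e / 8) ≤ s2) (hr : r = n ^ (e - 1)) (hC : 0 ≤ C) (hl : 0 ≤ l)
    (h1 : 4608 * C * l ≤ n ^ e)
    (h2 : -100 * κ + 2 * e ≤ -12 * e - 2 * κ - e / 8) :
    4 * ρ * √(ρ * (8 * C * r * s2 * l)) ≤ n ^ (-1 - 6 * e) * ρ * s2 / 6 := by
  have hn0 : 0 < n := by linarith
  have hp : 0 < n ^ (-1 - 6 * e) := Real.rpow_pos_of_pos hn0 _
  have key : √(ρ * (8 * C * r * s2 * l)) ≤ n ^ (-1 - 6 * e) * s2 / 24 := by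
    apply Real.sqrt_le_iff.mpr
    refine ⟨by positivity, ?_⟩
    have e1 : n ^ (-1 - 6 * e) * n ^ (-1 - 6 * e) * n ^ (2 / 3 - 2 * κ - e / 8)
        = n ^ (-4 / 3 - 12 * e - 2 * κ - e / 8) := by
      rw [← Real.rpow_add hn0, ← Real.rpow_add hn0]
      congr 1
      ring
    have e2 : n ^ (-1 / 3 - 100 * κ) * n ^ (e - 1) * n ^ e = n ^ (-4 / 3 - 100 * κ + 2 * e) := by
      rw [← Real.rpow_add hn0, ← Real.rpow_add hn0]
      congr 1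
      ring
    have hr0 : 0 < r := by rw [hr]; exact Real.rpow_pos_of_pos hn0 _
    have a1 : ρ * r * (4608 * C * l) ≤ n ^ (-4 / 3 - 100 * κ + 2 * e) := by
      rw [← e2, ← hr]
      have : 0 ≤ n ^ (-1 / 3 - 100 * κ) := (Real.rpow_pos_of_pos hn0 _).le
      gcongr
    have a2 : n ^ (-4 / 3 - 100 * κ + 2 * e) ≤ n ^ (-4 / 3 - 12 * e - 2 * κ - e / 8) :=
      Real.rpow_le_rpow_of_exponent_le hn (by linarith)
    have a3 : n ^ (-4 / 3 - 12 * e - 2 * κ - e / 8) ≤ n ^ (-1 - 6 * e) * n ^ (-1 - 6 * e) * s2 := by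
      rw [← e1]
      gcongr
    have a4 := mul_le_mul_of_nonneg_right ((a1.trans a2).trans a3) hs2.le
    calc ρ * (8 * C * r * s2 * l) = (ρ * r * (4608 * C * l)) * s2 / 576 := by ring
      _ ≤ (n ^ (-1 - 6 * e) * n ^ (-1 - 6 * e) * s2 * s2) / 576 := by linarith
      _ = (n ^ (-1 - 6 * e) * s2 / 24) ^ 2 := by ring
  calc 4 * ρ * √(ρ * (8 * C * r * s2 * l)) ≤ 4 * ρ * (n ^ (-1 - 6 * e) * s2 / 24) := by
        gcongr
    _ = n ^ (-1 - 6 * e) * ρ * s2 / 6 := by ring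

private theorem h44_term3 {n ρ s2 e r J A A1 A2 A3 : ℝ} (hn : 1 ≤ n) (hρ : 0 < ρ) (hs2 : 0 < s2)
    (hr : r = n ^ (e - 1)) (he : 0 < e) (hJ0 : 0 ≤ J) (hJ : J ≤ n ^ (e / 8)) (hA : 0 ≤ A)
    (hA1 : 0 ≤ A1) (hA2 : 0 ≤ A2) (hA3 : 0 ≤ A3)
    (h1 : 36 * A * A1 ≤ n ^ (-(9 * e))) (h2 : 36 * A * A2 ≤ n ^ (-(9 * e)))
    (h3 : 36 * A * A3 ≤ n ^ (-(9 * e))) :
    2 * (A * J) * (r * s2 * ρ * (A1 + A2 + A3)) ≤ n ^ (-1 - 6 * e) * ρ * s2 / 6 := by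
  have hn0 : 0 < n := by linarith
  have a1 : 12 * A * (A1 + A2 + A3) ≤ n ^ (-(9 * e)) := by nlinarith
  have hr0 : 0 < r := by rw [hr]; exact Real.rpow_pos_of_pos hn0 _
  have e1 : n ^ (e / 8) * n ^ (e - 1) * n ^ (-(9 * e)) = n ^ (-1 - 8 * e + e / 8) := by
    rw [← Real.rpow_add hn0, ← Real.rpow_add hn0]
    congr 1
    ring
  have a2 : J * r * (12 * A * (A1 + A2 + A3)) ≤ n ^ (-1 - 8 * e + e / 8) := by
    rw [← e1, ← hr]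
    have : 0 ≤ n ^ (e / 8) := (Real.rpow_pos_of_pos hn0 _).le
    gcongr
  have a3 : n ^ (-1 - 8 * e + e / 8) ≤ n ^ (-1 - 6 * e) :=
    Real.rpow_le_rpow_of_exponent_le hn (by linarith)
  have a4 := mul_le_mul_of_nonneg_right (a2.trans a3) (mul_pos hs2 hρ).le
  calc 2 * (A * J) * (r * s2 * ρ * (A1 + A2 + A3))
      = J * r * (12 * A * (A1 + A2 + A3)) * (s2 * ρ) / 6 := by ring
    _ ≤ n ^ (-1 - 6 * e) * (s2 * ρ) / 6 := by linarith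
    _ = n ^ (-1 - 6 * e) * ρ * s2 / 6 := by ring

theorem err_ev {k : ℕ} (hk : 1 ≤ k) : ∀ᶠ N : ℕ in atTop, ∀ R : Set UnitAddCircle,
    MeasurableSet R → 0 < volume.real R →
    volume.real R ≤ (N : ℝ) ^ (-1 / 3 - 100 * kap k) →
    (KK k N (volume.real R) + 2) * (volume.real R) ^ 2 +
        4 * volume.real R *
          (∫ y in R, (om (cc k * SS k N ^ k) (rr k N * SS k N ^ k) y : ℝ)) +
        2 * (4 ^ k * JJ N) * (rr k N * (SS k N : ℝ) ^ (2 * k) * volume.real R *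
          (64 * cc k ^ 3 * (SS k N : ℝ) ^ k * volume.real R + 6 * tt k * cc k ^ 6 * kp k N +
            64 * cc k ^ 2 * (tt k : ℝ) ^ 2 / √(SS k N))) ≤
      (N : ℝ) ^ (-1 - 6 * ep k) * volume.real R * (SS k N : ℝ) ^ (2 * k) / 2 := by
  have hκ0 : 0 < kap k := h44_kpos k
  have hkκ : (k : ℝ) * kap k = 1 / 3 - kap k := h44_k1
  have hek : ep k = kap k / 100 := rfl
  have he0 : 0 < ep k := by rw [hek]; positivity
  filter_upwards [SSpow_ev hk k, SSpow_ev hk (2 * k), SSpow_ev hk 1, SSpow_ev hk (3 * k),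
    rpow_ev 12 (a := -1 - 7 * ep k) (b := -1 - 6 * ep k) (by linarith),
    rpow_ev 24 (a := -1 / 3 - 100 * kap k) (b := -1 / 3 - 6 * ep k - 2 * kap k - ep k / 8)
      (by linarith),
    rpow_ev_lt (20 * (cc k : ℝ) ^ 2) (c := 1) (a := ep k - 3 * kap k) (b := 0) one_pos
      (by linarith),
    rpow_ev (cc k : ℝ) (a := 1 / 3 - kap k) (b := 1) (by linarith),
    log_ev (4608 * (cc k : ℝ)) he0,
    natlog_ev 1 (a := ep k / 8) (by linarith),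
    rpow_ev (36 * 4 ^ k * (64 * (cc k : ℝ) ^ 3)) (a := -(101 * kap k)) (b := -(9 * ep k))
      (by linarith),
    rpow_ev (36 * 4 ^ k * (6 * (tt k : ℝ) * (cc k : ℝ) ^ 6)) (a := -(10 * ep k))
      (b := -(9 * ep k)) (by linarith),
    rpow_ev (36 * 4 ^ k * (64 * (cc k : ℝ) ^ 2 * (tt k : ℝ) ^ 2))
      (a := -((kap k - ep k / 8) / 2)) (b := -(9 * ep k)) (by linarith),
    eventually_ge_atTop 1] with N hk1 h2k h1' h3k g1 g2 g3 g4 g5 g6 g7 g8 g9 hN1 R hR hρ hρ2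
  set n : ℝ := (N : ℝ) with hn
  have hn1 : (1 : ℝ) ≤ n := by rw [hn]; exact_mod_cast hN1
  have hn0 : 0 < n := by linarith
  set ρ : ℝ := volume.real R with hρdef
  set κ : ℝ := kap k with hκdef
  set e : ℝ := ep k with hedef
  set s : ℕ := SS k N with hsdef
  obtain ⟨hs2, hskU, -⟩ := hk1
  obtain ⟨-, -, hs2kL⟩ := h2k
  obtain ⟨-, -, hs1L⟩ := h1'
  obtain ⟨-, hs3kU, -⟩ := h3k
  have hs2R : (2 : ℝ) ≤ (s : ℝ) := by exact_mod_cast hs2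
  have hs0 : (0 : ℝ) < (s : ℝ) := by linarith
  have hccR : (1 : ℝ) ≤ (cc k : ℝ) := by
    have : 1 ≤ cc k := Nat.one_le_two_pow
    exact_mod_cast this
  have hcc0 : (0 : ℝ) < (cc k : ℝ) := by linarith
  have hrr : rr k N = n ^ (e - 1) := rfl
  have hr0 : 0 < rr k N := by rw [hrr]; exact Real.rpow_pos_of_pos hn0 _
  -- exponents
  have hL2 : n ^ (2 / 3 - 2 * κ - e / 8) ≤ (s : ℝ) ^ (2 * k) := by
    have : ((2 * k : ℕ) : ℝ) * κ - e / 8 = 2 / 3 - 2 * κ - e / 8 := by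
      push_cast
      linarith [hkκ]
    rw [this] at hs2kL
    exact hs2kL
  have hUk : (s : ℝ) ^ k ≤ n ^ (1 / 3 - κ) := by
    rw [hkκ] at hskU
    exact hskU
  have hU3 : (s : ℝ) ^ (3 * k) ≤ n ^ (1 - 3 * κ) := by
    have : ((3 * k : ℕ) : ℝ) * κ = 1 - 3 * κ := by
      push_cast
      linarith [hkκ]
    rw [this] at hs3kU
    exact hs3kU
  have hs2kpos : (0 : ℝ) < (s : ℝ) ^ (2 * k) := by positivity
  -- term one
  have t1 : (KK k N ρ + 2) * ρ ^ 2 ≤ n ^ (-1 - 6 * e) * ρ * (s : ℝ) ^ (2 * k) / 6 := by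
    unfold KK
    exact h44_term1 hn1 hρ hρ2 hs2kpos hL2 g1 g2
  -- term two
  have hH1 : 1 ≤ cc k * s ^ k := Nat.one_le_iff_ne_zero.mpr (by
    have : 0 < cc k * s ^ k := Nat.mul_pos (by unfold cc; positivity) (by positivity)
    omega)
  have hHc : ((cc k * s ^ k : ℕ) : ℝ) = (cc k : ℝ) * (s : ℝ) ^ k := by push_cast; ring
  have hδ0 : 0 ≤ rr k N * (s : ℝ) ^ k := by positivity
  have h20 : 20 * ((cc k * s ^ k : ℕ) : ℝ) ^ 2 * (rr k N * (s : ℝ) ^ k) < 1 := by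
    rw [hHc]
    have e1 : n ^ (1 - 3 * κ) * n ^ (e - 1) = n ^ (e - 3 * κ) := by
      rw [← Real.rpow_add hn0]
      congr 1
      ring
    calc 20 * ((cc k : ℝ) * (s : ℝ) ^ k) ^ 2 * (rr k N * (s : ℝ) ^ k)
        = 20 * (cc k : ℝ) ^ 2 * ((s : ℝ) ^ (3 * k) * rr k N) := by ring
      _ ≤ 20 * (cc k : ℝ) ^ 2 * (n ^ (1 - 3 * κ) * n ^ (e - 1)) := by
          rw [← hrr]
          gcongr
      _ = 20 * (cc k : ℝ) ^ 2 * n ^ (e - 3 * κ) := by rw [e1]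
      _ < 1 * n ^ (0 : ℝ) := g3
      _ = 1 := by rw [Real.rpow_zero, one_mul]
  have hlog : 1 + Real.log ((cc k * s ^ k : ℕ) : ℝ) ≤ 1 + Real.log n := by
    have hpos : (0 : ℝ) < ((cc k * s ^ k : ℕ) : ℝ) := by exact_mod_cast hH1
    have : ((cc k * s ^ k : ℕ) : ℝ) ≤ n := by
      rw [hHc]
      calc (cc k : ℝ) * (s : ℝ) ^ k ≤ (cc k : ℝ) * n ^ (1 / 3 - κ) := by gcongr
        _ ≤ n ^ (1 : ℝ) := g4
        _ = n := Real.rpow_one n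
    have := Real.log_le_log hpos this
    linarith
  have hlog0 : 0 ≤ Real.log ((cc k * s ^ k : ℕ) : ℝ) := Real.log_natCast_nonneg _
  have hI := integral_om_le hH1 hδ0 h20 R hR
  have t2 : 4 * ρ * (∫ y in R, (om (cc k * s ^ k) (rr k N * (s : ℝ) ^ k) y : ℝ)) ≤
      n ^ (-1 - 6 * e) * ρ * (s : ℝ) ^ (2 * k) / 6 := by
    have h := h44_term2 (C := (cc k : ℝ)) (r := rr k N)
      (l := 1 + Real.log ((cc k * s ^ k : ℕ) : ℝ)) hn1 hρ hρ2 hs2kpos hL2 hrr hcc0.le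
      (by linarith) (by
        refine le_trans ?_ g5
        exact mul_le_mul_of_nonneg_left hlog (by positivity)) (by linarith)
    refine le_trans ?_ h
    have e2 : volume.real R * (8 * (rr k N * (s : ℝ) ^ k) * ((cc k * s ^ k : ℕ) : ℝ) *
        (1 + Real.log ((cc k * s ^ k : ℕ) : ℝ))) =
        ρ * (8 * (cc k : ℝ) * rr k N * (s : ℝ) ^ (2 * k) *
          (1 + Real.log ((cc k * s ^ k : ℕ) : ℝ))) := by
      rw [hHc]
      ring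
    rw [e2] at hI
    exact mul_le_mul_of_nonneg_left hI (by positivity)
  -- term three
  have hJ : (JJ N : ℝ) ≤ n ^ (e / 8) := by
    refine le_trans ?_ g6
    unfold JJ
    push_cast
    linarith
  have htt0 : (0 : ℝ) ≤ (tt k : ℝ) := Nat.cast_nonneg _
  have hA1 : 36 * 4 ^ k * (64 * (cc k : ℝ) ^ 3 * (s : ℝ) ^ k * ρ) ≤ n ^ (-(9 * e)) := by
    have e1 : n ^ (1 / 3 - κ) * n ^ (-1 / 3 - 100 * κ) = n ^ (-(101 * κ)) := by
      rw [← Real.rpow_add hn0]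
      congr 1
      ring
    calc 36 * 4 ^ k * (64 * (cc k : ℝ) ^ 3 * (s : ℝ) ^ k * ρ)
        = 36 * 4 ^ k * (64 * (cc k : ℝ) ^ 3) * ((s : ℝ) ^ k * ρ) := by ring
      _ ≤ 36 * 4 ^ k * (64 * (cc k : ℝ) ^ 3) * (n ^ (1 / 3 - κ) * n ^ (-1 / 3 - 100 * κ)) := by
          have : 0 ≤ n ^ (1 / 3 - κ) := (Real.rpow_pos_of_pos hn0 _).le
          gcongr
      _ ≤ n ^ (-(9 * e)) := by rw [e1]; exact g7
  have hA2 : 36 * 4 ^ k * (6 * (tt k : ℝ) * (cc k : ℝ) ^ 6 * kp k N) ≤ n ^ (-(9 * e)) := by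
    calc 36 * 4 ^ k * (6 * (tt k : ℝ) * (cc k : ℝ) ^ 6 * kp k N)
        = 36 * 4 ^ k * (6 * (tt k : ℝ) * (cc k : ℝ) ^ 6) * n ^ (-(10 * e)) := by
          unfold kp
          ring
      _ ≤ n ^ (-(9 * e)) := g8
  have hsq : n ^ ((κ - e / 8) / 2) ≤ √(s : ℝ) := by
    apply Real.le_sqrt_of_sq_le
    have h := hs1L
    simp only [Nat.cast_one, one_mul, pow_one] at h
    have e1 : (n ^ ((κ - e / 8) / 2)) ^ 2 = n ^ (κ - e / 8) := by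
      rw [← Real.rpow_natCast, ← Real.rpow_mul hn0.le]
      congr 1
      push_cast
      ring
    rw [e1]
    exact h
  have hA3 : 36 * 4 ^ k * (64 * (cc k : ℝ) ^ 2 * (tt k : ℝ) ^ 2 / √(s : ℝ)) ≤
      n ^ (-(9 * e)) := by
    have hq : 0 < n ^ ((κ - e / 8) / 2) := Real.rpow_pos_of_pos hn0 _
    calc 36 * 4 ^ k * (64 * (cc k : ℝ) ^ 2 * (tt k : ℝ) ^ 2 / √(s : ℝ))
        ≤ 36 * 4 ^ k * (64 * (cc k : ℝ) ^ 2 * (tt k : ℝ) ^ 2 / n ^ ((κ - e / 8) / 2)) := by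
          gcongr
      _ = 36 * 4 ^ k * (64 * (cc k : ℝ) ^ 2 * (tt k : ℝ) ^ 2) * n ^ (-((κ - e / 8) / 2)) := by
          rw [Real.rpow_neg hn0.le]
          ring
      _ ≤ n ^ (-(9 * e)) := g9
  have hkp0 : 0 ≤ kp k N := (Real.rpow_pos_of_pos hn0 _).le
  have t3 := h44_term3 (n := n) (ρ := ρ) (s2 := (s : ℝ) ^ (2 * k)) (e := e) (r := rr k N)
    (J := (JJ N : ℝ)) (A := 4 ^ k) (A1 := 64 * (cc k : ℝ) ^ 3 * (s : ℝ) ^ k * ρ)
    (A2 := 6 * (tt k : ℝ) * (cc k : ℝ) ^ 6 * kp k N)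
    (A3 := 64 * (cc k : ℝ) ^ 2 * (tt k : ℝ) ^ 2 / √(s : ℝ)) hn1 hρ hs2kpos hrr he0
    (Nat.cast_nonneg _) hJ (by positivity) (by positivity) (by positivity) (by positivity)
    hA1 hA2 hA3
  linarith [t1, t2, t3]

end Pool.Agent.Helper5.LE
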