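import Pool.Agent.Helper5.LE.PA
import Pool.Agent.Helper25.MOB.Bas
import Pool.Agent.Helper25.MOB.A2

/-!
# Block LE-G2: the scalar product and the L2 norm of `GA`

`inner_GA`: `∫ F conj(GA) = ∑_{P ∈ A} ∑_{m ≤ M} μ(P m) μ(m)` (orthogonality `integral_mul_conj` / `integral_ex`; `P m ≤ N`), `A = PP S (range k)`. Each term is `(-1)^k μ(m)^2` if `(P, m) = 1` (`PP_moebius`) and `0` otherwise (`P m` not squarefree). So the modulus is `≥ #{(P, m) : m prime, m ≤ M, m ∤ P} ≥ |A| (π(M) - k)` (each `P` has `k` prime factors). See `inner_FG_ge` in `MOB/A2` for the model.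
`GA_sq_le`: `GA = ∑_{n ≤ N} g(n) e(n y)`, `|g(n)| ≤ #{P ∈ A : P ∣ n} ≤ τ`; Parseval (`integral_norm_sq`); see `integral_G_sq_le` in `MOB/A2`.
-/

set_option autoImplicit false

namespace Pool.Agent.Helper5.LE

open MeasureTheory Finset
open Pool.Agent.Helper25.MOB
open scoped ComplexConjugate

/-- The Moebius function. -/
private abbrev mu68 (n : ℕ) : ℤ := ArithmeticFunction.moebius n

/-- The coefficients of `GA`. -/
private noncomputable def gc68 (A : Finset ℕ) (M n : ℕ) : ℂ :=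
  ∑ v ∈ (Icc 1 M ×ˢ A).filter (fun v => v.2 * v.1 = n), ((mu68 v.1 : ℤ) : ℂ)

private theorem maps68 {A : Finset ℕ} {M N : ℕ} (hA : ∀ P ∈ A, 0 < P ∧ P * M ≤ N) :
    ∀ v ∈ Icc 1 M ×ˢ A, v.2 * v.1 ∈ Icc 1 N := by
  intro v hv
  rw [mem_product, mem_Icc] at hv
  obtain ⟨⟨h1, h2⟩, h3⟩ := hv
  obtain ⟨h4, h5⟩ := hA v.2 h3
  rw [mem_Icc]
  exact ⟨Nat.mul_pos h4 h1, (Nat.mul_le_mul_left _ h2).trans h5⟩

private theorem GA_eq68 {A : Finset ℕ} {M N : ℕ} (hA : ∀ P ∈ A, 0 < P ∧ P * M ≤ N) (y : UnitAddCircle) :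
    GA A M y = ∑ n ∈ Icc 1 N, gc68 A M n * ex n y := by
  unfold GA gc68
  rw [← sum_product', ← sum_fiberwise_of_maps_to (maps68 hA)]
  refine sum_congr rfl fun n _ => ?_
  rw [sum_mul]
  refine sum_congr rfl fun v hv => ?_
  rw [mem_filter] at hv
  rw [hv.2]

private theorem norm_gc68 {A : Finset ℕ} {M N n τ : ℕ} (hA : ∀ P ∈ A, 0 < P ∧ P * M ≤ N)
    (hτ : ∀ n : ℕ, 0 < n → n ≤ N → (A.filter (· ∣ n)).card ≤ τ) (hn : n ∈ Icc 1 N) :
    ‖gc68 A M n‖ ≤ τ := by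
  rw [mem_Icc] at hn
  have h1 : ‖gc68 A M n‖ ≤ (((Icc 1 M ×ˢ A).filter (fun v => v.2 * v.1 = n)).card : ℝ) := by
    unfold gc68
    refine (norm_sum_le _ _).trans ?_
    rw [card_eq_sum_ones, Nat.cast_sum]
    refine sum_le_sum fun v _ => ?_
    rw [Complex.norm_intCast, Nat.cast_one]
    exact_mod_cast (ArithmeticFunction.abs_moebius_le_one (n := v.1))
  have h2 : ((Icc 1 M ×ˢ A).filter (fun v => v.2 * v.1 = n)).card ≤ (A.filter (· ∣ n)).card := by
    refine card_le_card_of_injOn (fun v => v.2) ?_ ?_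
    · intro v hv
      rw [mem_coe, mem_filter, mem_product] at hv
      rw [mem_coe, mem_filter]
      exact ⟨hv.1.2, ⟨v.1, hv.2.symm⟩⟩
    · intro v hv w hw hvw
      rw [mem_coe, mem_filter, mem_product] at hv hw
      have h5 : v.2 = w.2 := hvw
      have h6 : v.2 * v.1 = v.2 * w.1 := by
        rw [hv.2, h5, hw.2]
      have h7 : v.1 = w.1 := Nat.eq_of_mul_eq_mul_left (hA v.2 hv.1.2).1 h6
      exact Prod.ext h7 h5
  exact h1.trans (by exact_mod_cast h2.trans (hτ n (by omega) hn.2))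

/-- The terms of the inner product. -/
private theorem term68 {P k m : ℕ} (hP : ArithmeticFunction.moebius P = (-1) ^ k) (hP0 : 0 < P) :
    0 ≤ (-1) ^ k * (mu68 (P * m) * mu68 m) ∧
      (m.Prime → ¬ m ∣ P → (-1) ^ k * (mu68 (P * m) * mu68 m) = 1) := by
  have hsq : ((-1 : ℤ) ^ k) * (-1) ^ k = 1 := by
    rw [← mul_pow]
    norm_num
  by_cases hc : Nat.Coprime P m
  · have h1 : mu68 (P * m) = mu68 P * mu68 m :=
      ArithmeticFunction.isMultiplicative_moebius.map_mul_of_coprime hc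
    have h2 : mu68 P = (-1) ^ k := hP
    have h3 : (-1) ^ k * (mu68 (P * m) * mu68 m) = mu68 m * mu68 m := by
      rw [h1, h2]
      calc (-1 : ℤ) ^ k * ((-1) ^ k * mu68 m * mu68 m) = ((-1) ^ k * (-1) ^ k) * (mu68 m * mu68 m) := by ring
        _ = mu68 m * mu68 m := by rw [hsq, one_mul]
    rw [h3]
    refine ⟨mul_self_nonneg _, fun hm _ => ?_⟩
    have h4 : mu68 m = -1 := ArithmeticFunction.moebius_apply_prime hm
    rw [h4]
    norm_num
  · have h1 : mu68 (P * m) = 0 := by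
      apply ArithmeticFunction.moebius_eq_zero_of_not_squarefree
      intro hs
      exact hc (Nat.squarefree_mul_iff.1 hs).1
    rw [h1, zero_mul, mul_zero]
    refine ⟨le_rfl, fun hm hne => ?_⟩
    exact absurd ((Nat.Prime.coprime_iff_not_dvd hm).2 hne).symm hc

theorem inner_GA {S k M N : ℕ} (hS : 1 ≤ S) (h : ∀ P ∈ PP S (range k), P * M ≤ N) :
    ((PP S (range k)).card : ℝ) * ((((Icc 1 M).filter Nat.Prime).card : ℝ) - k) ≤
      ‖∫ y, F N y * conj (GA (PP S (range k)) M y)‖ := by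
  have hA : ∀ P ∈ PP S (range k), 0 < P ∧ P * M ≤ N := fun P hP => ⟨PP_pos hP, h P hP⟩
  have h1 : ∀ y : UnitAddCircle, F N y * conj (GA (PP S (range k)) M y) =
      (∑ n ∈ Icc 1 N, ((mu68 n : ℤ) : ℂ) * ex n y) *
        conj (∑ n ∈ Icc 1 N, gc68 (PP S (range k)) M n * ex n y) := fun y => by
    rw [← GA_eq68 hA y]
    rfl
  rw [integral_congr_ae (Filter.Eventually.of_forall h1), integral_mul_conj, inter_self]
  obtain ⟨T, hT⟩ : ∃ T : ℤ, T = ∑ v ∈ Icc 1 M ×ˢ PP S (range k), mu68 (v.2 * v.1) * mu68 v.1 :=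
    ⟨_, rfl⟩
  have h2 : ∑ n ∈ Icc 1 N, ((mu68 n : ℤ) : ℂ) * conj (gc68 (PP S (range k)) M n) = ((T : ℤ) : ℂ) := by
    rw [hT, ← sum_fiberwise_of_maps_to (maps68 hA), Int.cast_sum]
    refine sum_congr rfl fun n _ => ?_
    unfold gc68
    rw [map_sum, mul_sum, Int.cast_sum]
    refine sum_congr rfl fun v hv => ?_
    rw [mem_filter] at hv
    rw [hv.2, map_intCast]
    push_cast
    ring
  rw [h2, Complex.norm_intCast]
  have h3 : ((PP S (range k)).card : ℤ) * ((((Icc 1 M).filter Nat.Prime).card : ℤ) - k) ≤ (-1) ^ k * T := by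
    rw [hT, sum_product_right, mul_sum]
    have h4 : ∀ P ∈ PP S (range k), (((Icc 1 M).filter Nat.Prime).card : ℤ) - k ≤
        (-1) ^ k * ∑ m ∈ Icc 1 M, mu68 (P * m) * mu68 m := by
      intro P hP
      obtain ⟨hc, hmu⟩ := PP_moebius hS hP
      rw [card_range] at hc hmu
      have hP0 := PP_pos hP
      have h5 : (((Icc 1 M).filter Nat.Prime).card : ℤ) - k ≤
          ((((Icc 1 M).filter Nat.Prime) \ P.primeFactors).card : ℤ) := by
        have h6 := card_le_card_sdiff_add_card (s := (Icc 1 M).filter Nat.Prime) (t := P.primeFactors)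
        rw [hc] at h6
        omega
      refine h5.trans ?_
      rw [mul_sum]
      have h6 : ((((Icc 1 M).filter Nat.Prime) \ P.primeFactors).card : ℤ) =
          ∑ m ∈ ((Icc 1 M).filter Nat.Prime) \ P.primeFactors, (-1) ^ k * (mu68 (P * m) * mu68 m) := by
        rw [card_eq_sum_ones, Nat.cast_sum]
        refine sum_congr rfl fun m hm => ?_
        rw [mem_sdiff, mem_filter] at hm
        have hnd : ¬ m ∣ P := fun hd => hm.2 (Nat.mem_primeFactors.2 ⟨hm.1.2, hd, hP0.ne'⟩)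
        rw [(term68 hmu hP0).2 hm.1.2 hnd, Nat.cast_one]
      rw [h6]
      refine sum_le_sum_of_subset_of_nonneg ?_ fun m _ _ => (term68 hmu hP0).1
      intro m hm
      rw [mem_sdiff, mem_filter] at hm
      exact hm.1.1
    refine le_trans (le_of_eq ?_) (sum_le_sum h4)
    rw [sum_const, nsmul_eq_mul]
  have h4 : ((((PP S (range k)).card : ℤ) * ((((Icc 1 M).filter Nat.Prime).card : ℤ) - k) : ℤ) : ℝ) ≤
      (((-1) ^ k * T : ℤ) : ℝ) := by exact_mod_cast h3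
  have h5 : |(((-1) ^ k * T : ℤ) : ℝ)| = |(T : ℝ)| := by
    push_cast
    rw [abs_mul, abs_pow, abs_neg, abs_one, one_pow, one_mul]
  have h6 : ((((PP S (range k)).card : ℤ) * ((((Icc 1 M).filter Nat.Prime).card : ℤ) - k) : ℤ) : ℝ) ≤ |(T : ℝ)| := by
    rw [← h5]
    exact h4.trans (le_abs_self _)
  refine le_trans (le_of_eq ?_) h6
  push_cast
  ring

theorem GA_sq_le {A : Finset ℕ} {M N τ : ℕ} (hA : ∀ P ∈ A, 0 < P ∧ P * M ≤ N)
    (hτ : ∀ n : ℕ, 0 < n → n ≤ N → (A.filter (· ∣ n)).card ≤ τ) :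
    ∫ y, ‖GA A M y‖ ^ 2 ≤ (τ : ℝ) ^ 2 * N := by
  have h1 : ∀ y : UnitAddCircle, ‖GA A M y‖ ^ 2 =
      ‖∑ n ∈ Icc 1 N, gc68 A M n * ex n y‖ ^ 2 := fun y => by rw [GA_eq68 hA y]
  rw [integral_congr_ae (Filter.Eventually.of_forall h1), integral_norm_sq]
  have h2 : ∑ n ∈ Icc 1 N, ‖gc68 A M n‖ ^ 2 ≤ ∑ _n ∈ Icc 1 N, (τ : ℝ) ^ 2 := by
    refine sum_le_sum fun n hn => ?_
    exact pow_le_pow_left₀ (norm_nonneg _) (norm_gc68 hA hτ hn) 2
  refine h2.trans (le_of_eq ?_)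
  rw [sum_const, Nat.card_Icc, nsmul_eq_mul, Nat.add_sub_cancel]
  ring

end Pool.Agent.Helper5.LE
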