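import Pool.Agent.Helper5.LE.MS
import Pool.Agent.Helper25.MOB.B1
import Pool.Agent.Helper25.MOB.B2
import Pool.Agent.Helper25.MOB.B3

/-!
# Block LE-G1: the Gram inequality for a general set of labels

This is `gram_G` + `gram_S` of `Helper25/MOB/B2, B3` with the set of primes `primesIn H` replaced by an arbitrary finite set `A` of natural numbers (copy the two files and replace; the only properties used are finiteness and the kernel `exists_kernel` of `B1` with `L = 2M`: `k_m ≥ 0`, `k_m ≥ 1` for `|m| ≤ M`, `|K| ≤ 2 * 4^(Ak-1) * 2M`, `|K(x)| (2Mδ)^(2 Ak) ≤ 2M` for `‖x‖ ≥ δ`). The labels `(P, P')` with `‖P y - P' y'‖ ≤ δ` are counted by `lab A A δ y y'`.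
`GA A M y = ∑_{m ≤ M} ∑_{P ∈ A} μ(m) e(P m y)`.
-/

set_option autoImplicit false

namespace Pool.Agent.Helper5.LE

open MeasureTheory Finset
open Pool.Agent.Helper25.MOB
open scoped ComplexConjugate

theorem continuous_GA (A : Finset ℕ) (M : ℕ) : Continuous (GA A M) := by
  unfold GA
  exact continuous_finsetSum _ fun m _ => continuous_finsetSum _ fun P _ =>
    continuous_const.mul (continuous_ex _)

private noncomputable def Eh86 (A : Finset ℕ) (m : ℤ) (y : UnitAddCircle) : ℂ :=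
  ∑ h ∈ A, ex m (h • y)

private noncomputable def wh86 (A : Finset ℕ) (M : ℕ) (y : UnitAddCircle) : ℂ :=
  conj (GA A M y) / ((‖GA A M y‖ : ℝ) : ℂ)

private lemma w_mul_G_g86 (A : Finset ℕ) (M : ℕ) (y : UnitAddCircle) :
    wh86 A M y * GA A M y = ((‖GA A M y‖ : ℝ) : ℂ) := by
  unfold wh86
  by_cases h : GA A M y = 0
  · simp [h]
  · have h1 : ((‖GA A M y‖ : ℝ) : ℂ) ≠ 0 := by
      simpa using h
    rw [div_mul_eq_mul_div, div_eq_iff h1, mul_comm (conj _), Complex.mul_conj,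
      Complex.normSq_eq_norm_sq]
    push_cast
    ring

private lemma norm_w_le_g86 (A : Finset ℕ) (M : ℕ) (y : UnitAddCircle) : ‖wh86 A M y‖ ≤ 1 := by
  unfold wh86
  rw [norm_div, Complex.norm_conj, Complex.norm_real, norm_norm]
  exact div_self_le_one _

private lemma measurable_w_g86 (A : Finset ℕ) (M : ℕ) : Measurable (wh86 A M) :=
  (Complex.continuous_conj.comp (continuous_GA A M)).measurable.div
    (Complex.measurable_ofReal.comp (continuous_GA A M).norm.measurable)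

private lemma continuous_E_g86 (A : Finset ℕ) (m : ℤ) : Continuous (Eh86 A m) := by
  unfold Eh86
  exact continuous_finsetSum _ fun h _ => (continuous_ex m).comp (continuous_id.nsmul h)

private lemma norm_E_le_g86 (A : Finset ℕ) (m : ℤ) (y : UnitAddCircle) :
    ‖Eh86 A m y‖ ≤ A.card := by
  unfold Eh86
  refine (norm_sum_le _ _).trans ?_
  simp [norm_ex]

private lemma integrable_wE_g86 (A : Finset ℕ) (M : ℕ) (m : ℤ) (R : Set UnitAddCircle) :
    Integrable (fun y => wh86 A M y * Eh86 A m y) (volume.restrict R) := by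
  refine Integrable.mono' (g := fun _ => (A.card : ℝ)) (integrable_const _)
    (((measurable_w_g86 A M).mul (continuous_E_g86 A m).measurable).aestronglyMeasurable)
    (Filter.Eventually.of_forall fun y => ?_)
  rw [norm_mul]
  calc ‖wh86 A M y‖ * ‖Eh86 A m y‖ ≤ 1 * A.card :=
        mul_le_mul (norm_w_le_g86 A M y) (norm_E_le_g86 A m y) (norm_nonneg _) zero_le_one
    _ = _ := one_mul _

private noncomputable def ch86 (A : Finset ℕ) (M : ℕ) (R : Set UnitAddCircle) (m : ℤ) : ℂ :=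
  ∫ y in R, wh86 A M y * Eh86 A m y

private lemma G_eq_g86 (A : Finset ℕ) (M : ℕ) (y : UnitAddCircle) :
    GA A M y = ∑ m ∈ Finset.Icc 1 M,
      ((ArithmeticFunction.moebius m : ℤ) : ℂ) * Eh86 A (m : ℤ) y := by
  unfold GA Eh86
  refine Finset.sum_congr rfl fun m _ => ?_
  rw [Finset.mul_sum]
  refine Finset.sum_congr rfl fun h _ => ?_
  rw [ex_nsmul]
  congr 2
  push_cast
  ring

private lemma int_norm_G_g86 (A : Finset ℕ) (M : ℕ) (R : Set UnitAddCircle) :
    ((∫ y in R, ‖GA A M y‖ : ℝ) : ℂ) =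
      ∑ m ∈ Finset.Icc 1 M, ((ArithmeticFunction.moebius m : ℤ) : ℂ) * ch86 A M R (m : ℤ) := by
  have h1 : ∀ y, ((‖GA A M y‖ : ℝ) : ℂ) = ∑ m ∈ Finset.Icc 1 M,
      ((ArithmeticFunction.moebius m : ℤ) : ℂ) * (wh86 A M y * Eh86 A (m : ℤ) y) := by
    intro y
    rw [← w_mul_G_g86]
    rw [G_eq_g86 A M y]
    rw [Finset.mul_sum]
    refine Finset.sum_congr rfl fun m _ => ?_
    ring
  have h2 : (∫ y in R, ((‖GA A M y‖ : ℝ) : ℂ)) = ∫ y in R, ∑ m ∈ Finset.Icc 1 M,
      ((ArithmeticFunction.moebius m : ℤ) : ℂ) * (wh86 A M y * Eh86 A (m : ℤ) y) := by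
    congr 1
    funext y
    exact h1 y
  rw [← integral_complex_ofReal, h2]
  rw [integral_finsetSum]
  · refine Finset.sum_congr rfl fun m _ => ?_
    rw [integral_const_mul]
    rfl
  · intro m _
    exact (integrable_wE_g86 A M m R).const_mul _

private lemma sum_c_le_g86 (A : Finset ℕ) (M : ℕ) (R : Set UnitAddCircle) (k : ℤ →₀ ℝ)
    (hk0 : ∀ m, 0 ≤ k m) (hk1 : ∀ m : ℤ, 1 ≤ m → m ≤ M → 1 ≤ k m) :
    ∑ m ∈ Finset.Icc 1 M, ‖ch86 A M R (m : ℤ)‖ ^ 2 ≤
      ∑ m ∈ k.support, k m * ‖ch86 A M R m‖ ^ 2 := by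
  have h1 : ∑ m ∈ Finset.Icc 1 M, ‖ch86 A M R (m : ℤ)‖ ^ 2 ≤
      ∑ m ∈ Finset.Icc 1 M, k (m : ℤ) * ‖ch86 A M R (m : ℤ)‖ ^ 2 := by
    refine Finset.sum_le_sum fun m hm => ?_
    rw [Finset.mem_Icc] at hm
    have := hk1 (m : ℤ) (by exact_mod_cast hm.1) (by exact_mod_cast hm.2)
    nlinarith [sq_nonneg ‖ch86 A M R (m : ℤ)‖]
  refine h1.trans ?_
  have h2 : ∑ m ∈ Finset.Icc 1 M, k (m : ℤ) * ‖ch86 A M R (m : ℤ)‖ ^ 2 =
      ∑ m ∈ (Finset.Icc 1 M).map Nat.castEmbedding, k m * ‖ch86 A M R m‖ ^ 2 := by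
    rw [Finset.sum_map]
    rfl
  rw [h2]
  refine Finset.sum_le_sum_of_subset_of_nonneg ?_ ?_
  · intro m hm
    rw [Finset.mem_map] at hm
    obtain ⟨a, ha, rfl⟩ := hm
    rw [Finset.mem_Icc] at ha
    rw [Finsupp.mem_support_iff]
    have := hk1 (a : ℤ) (by exact_mod_cast ha.1) (by exact_mod_cast ha.2)
    have h3 : k (Nat.castEmbedding a : ℤ) = k (a : ℤ) := rfl
    rw [h3]
    intro h0
    linarith
  · intro m _ _
    exact mul_nonneg (hk0 m) (sq_nonneg _)

private noncomputable def Kh86 (k : ℤ →₀ ℝ) (z : UnitAddCircle) : ℂ :=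
  k.sum fun m c => (c : ℂ) * ex m z

private lemma continuous_K_g86 (k : ℤ →₀ ℝ) : Continuous (Kh86 k) := by
  unfold Kh86 Finsupp.sum
  exact continuous_finsetSum _ fun m _ => continuous_const.mul (continuous_ex m)

private noncomputable def Ph86 (A : Finset ℕ) (k : ℤ →₀ ℝ) (p : UnitAddCircle × UnitAddCircle) : ℝ :=
  ∑ h ∈ A, ∑ h' ∈ A, ‖Kh86 k (h • p.1 - h' • p.2)‖

private lemma continuous_P_g86 (A : Finset ℕ) (k : ℤ →₀ ℝ) : Continuous (Ph86 A k) := by
  unfold Ph86
  refine continuous_finsetSum _ fun h _ => continuous_finsetSum _ fun h' _ => ?_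
  exact ((continuous_K_g86 k).comp
    ((continuous_fst.nsmul h).sub (continuous_snd.nsmul h'))).norm

private lemma expand_g86 (A : Finset ℕ) (M : ℕ) (k : ℤ →₀ ℝ) (y y' : UnitAddCircle) :
    ∑ m ∈ k.support, ((k m : ℂ) * (wh86 A M y * Eh86 A m y)) *
      conj (wh86 A M y' * Eh86 A m y') =
    (wh86 A M y * conj (wh86 A M y')) *
      ∑ h ∈ A, ∑ h' ∈ A, Kh86 k (h • y - h' • y') := by
  have h1 : ∀ m, Eh86 A m y * conj (Eh86 A m y') =
      ∑ h ∈ A, ∑ h' ∈ A, ex m (h • y - h' • y') := by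
    intro m
    unfold Eh86
    rw [map_sum, Finset.sum_mul_sum]
    refine Finset.sum_congr rfl fun h _ => Finset.sum_congr rfl fun h' _ => ?_
    rw [sub_eq_add_neg, ex_add_arg]
    congr 1
    have h2 : ex m (-(h' • y')) * ex m (h' • y') = 1 := by
      rw [← ex_add_arg, neg_add_cancel]
      have h3 : ex m (0 : UnitAddCircle) = ex m ((0 : ℕ) • (0 : UnitAddCircle)) := by simp
      rw [h3, ex_nsmul]
      simp [ex_zero]
    have h4 : conj (ex m (h' • y')) * ex m (h' • y') = 1 := by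
      rw [mul_comm, Complex.mul_conj, Complex.normSq_eq_norm_sq, norm_ex]
      simp
    have h5 : ex m (h' • y') ≠ 0 := by
      intro h0
      rw [h0, mul_zero] at h4
      exact zero_ne_one h4
    exact mul_right_cancel₀ h5 (h4.trans h2.symm)
  have h6 : ∑ h ∈ A, ∑ h' ∈ A, Kh86 k (h • y - h' • y') =
      ∑ m ∈ k.support, (k m : ℂ) *
        ∑ h ∈ A, ∑ h' ∈ A, ex m (h • y - h' • y') := by
    unfold Kh86 Finsupp.sum
    rw [Finset.sum_comm' (t' := A) (s' := fun _ => A) (by simp)]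
    simp_rw [Finset.mul_sum]
    rw [Finset.sum_comm]
    rw [Finset.sum_comm (s := k.support)]
    refine Finset.sum_congr rfl fun h _ => ?_
    rw [Finset.sum_comm]
  rw [h6, Finset.mul_sum]
  refine Finset.sum_congr rfl fun m _ => ?_
  rw [← h1 m, map_mul]
  ring

private lemma double_g86 (A : Finset ℕ) (M : ℕ) (R : Set UnitAddCircle) (k : ℤ →₀ ℝ) :
    ((∑ m ∈ k.support, k m * ‖ch86 A M R m‖ ^ 2 : ℝ) : ℂ) =
      ∫ y in R, ∫ y' in R, (wh86 A M y * conj (wh86 A M y')) *
        ∑ h ∈ A, ∑ h' ∈ A, Kh86 k (h • y - h' • y') := by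
  have hI : ∀ m, Integrable (fun y => conj (wh86 A M y * Eh86 A m y)) (volume.restrict R) := by
    intro m
    have h0 := (integrable_wE_g86 A M m R)
    exact (RCLike.conjCLE (K := ℂ)).toContinuousLinearMap.restrictScalars ℝ |>.integrable_comp h0
  have h1 : ∀ y, (∫ y' in R, (wh86 A M y * conj (wh86 A M y')) *
        ∑ h ∈ A, ∑ h' ∈ A, Kh86 k (h • y - h' • y')) =
      ∑ m ∈ k.support, ((k m : ℂ) * (wh86 A M y * Eh86 A m y)) * conj (ch86 A M R m) := by
    intro y
    simp_rw [← expand_g86]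
    rw [integral_finsetSum]
    · refine Finset.sum_congr rfl fun m _ => ?_
      rw [integral_const_mul]
      congr 1
      unfold ch86
      exact integral_conj
    · intro m _
      exact (hI m).const_mul _
  simp_rw [h1]
  rw [integral_finsetSum]
  · push_cast
    refine Finset.sum_congr rfl fun m _ => ?_
    rw [integral_mul_const, integral_const_mul]
    change _ = (k m : ℂ) * ch86 A M R m * conj (ch86 A M R m)
    rw [mul_assoc, Complex.mul_conj, Complex.normSq_eq_norm_sq]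
    push_cast
    ring
  · intro m _
    exact ((integrable_wE_g86 A M m R).const_mul _).mul_const _

private lemma bound_g86 (A : Finset ℕ) (M : ℕ) (R : Set UnitAddCircle) (k : ℤ →₀ ℝ) :
    ∑ m ∈ k.support, k m * ‖ch86 A M R m‖ ^ 2 ≤
      ∫ y in R, ∫ y' in R, Ph86 A k (y, y') := by
  have h0 := double_g86 A M R k
  have h1 : ∑ m ∈ k.support, k m * ‖ch86 A M R m‖ ^ 2 ≤
      ‖((∑ m ∈ k.support, k m * ‖ch86 A M R m‖ ^ 2 : ℝ) : ℂ)‖ := by
    rw [Complex.norm_real]
    exact le_abs_self _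
  refine h1.trans ?_
  rw [h0]
  have hP : Integrable (Ph86 A k) ((volume.restrict R).prod (volume.restrict R)) :=
    (continuous_P_g86 A k).integrable_of_hasCompactSupport
      (HasCompactSupport.of_compactSpace _)
  refine norm_integral_le_of_norm_le hP.integral_prod_left
    (Filter.Eventually.of_forall fun y => ?_)
  have hPy : Integrable (fun y' => Ph86 A k (y, y')) (volume.restrict R) :=
    ((continuous_P_g86 A k).comp (continuous_const.prodMk continuous_id)
      ).integrable_of_hasCompactSupport (HasCompactSupport.of_compactSpace _)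
  refine norm_integral_le_of_norm_le hPy (Filter.Eventually.of_forall fun y' => ?_)
  rw [norm_mul, norm_mul, Complex.norm_conj]
  have h2 : ‖wh86 A M y‖ * ‖wh86 A M y'‖ ≤ 1 :=
    mul_le_one₀ (norm_w_le_g86 A M y) (norm_nonneg _) (norm_w_le_g86 A M y')
  have h3 : ‖∑ h ∈ A, ∑ h' ∈ A, Kh86 k (h • y - h' • y')‖ ≤
      Ph86 A k (y, y') := by
    unfold Ph86
    refine (norm_sum_le _ _).trans (Finset.sum_le_sum fun h _ => ?_)
    exact norm_sum_le _ _
  calc ‖wh86 A M y‖ * ‖wh86 A M y'‖ *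
        ‖∑ h ∈ A, ∑ h' ∈ A, Kh86 k (h • y - h' • y')‖
      ≤ 1 * Ph86 A k (y, y') := mul_le_mul h2 h3 (norm_nonneg _) zero_le_one
    _ = _ := one_mul _

private theorem gram_G86 (A : Finset ℕ) (M : ℕ) (R : Set UnitAddCircle) (k : ℤ →₀ ℝ)
    (hk0 : ∀ m, 0 ≤ k m) (hk1 : ∀ m : ℤ, 1 ≤ m → m ≤ M → 1 ≤ k m) :
    (∫ y in R, ‖GA A M y‖) ^ 2 ≤ M * ∫ y in R, ∫ y' in R,
      ∑ h ∈ A, ∑ h' ∈ A,
        ‖k.sum fun m c => (c : ℂ) * ex m (h • y - h' • y')‖ := by
  have h1 := int_norm_G_g86 A M R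
  have h2 : (∫ y in R, ‖GA A M y‖) ≤ ∑ m ∈ Finset.Icc 1 M, ‖ch86 A M R (m : ℤ)‖ := by
    have h3 : (∫ y in R, ‖GA A M y‖) ≤ ‖((∫ y in R, ‖GA A M y‖ : ℝ) : ℂ)‖ := by
      rw [Complex.norm_real]
      exact le_abs_self _
    refine h3.trans ?_
    rw [h1]
    refine (norm_sum_le _ _).trans (Finset.sum_le_sum fun m _ => ?_)
    rw [norm_mul]
    have h4 : ‖((ArithmeticFunction.moebius m : ℤ) : ℂ)‖ ≤ 1 := by
      rw [Complex.norm_intCast]
      exact_mod_cast ArithmeticFunction.abs_moebius_le_one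
    calc ‖((ArithmeticFunction.moebius m : ℤ) : ℂ)‖ * ‖ch86 A M R (m : ℤ)‖
        ≤ 1 * ‖ch86 A M R (m : ℤ)‖ := mul_le_mul_of_nonneg_right h4 (norm_nonneg _)
      _ = _ := one_mul _
  have h5 : (∫ y in R, ‖GA A M y‖) ^ 2 ≤ (∑ m ∈ Finset.Icc 1 M, ‖ch86 A M R (m : ℤ)‖) ^ 2 :=
    pow_le_pow_left₀ (integral_nonneg fun _ => norm_nonneg _) h2 2
  refine h5.trans ?_
  have h6 := sq_sum_le_card_mul_sum_sq (s := Finset.Icc 1 M)
    (f := fun m : ℕ => ‖ch86 A M R (m : ℤ)‖)
  rw [Nat.card_Icc, Nat.add_sub_cancel] at h6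
  refine h6.trans ?_
  refine mul_le_mul_of_nonneg_left ?_ (Nat.cast_nonneg M)
  exact (sum_c_le_g86 A M R k hk0 hk1).trans (bound_g86 A M R k)

private lemma card_S86 (A : Finset ℕ) (δ : ℝ) (y y' : UnitAddCircle) :
    ((lab A A δ y y').card : ℝ) = ∑ h ∈ A, ∑ h' ∈ A,
      if ‖h • y - h' • y'‖ ≤ δ then (1 : ℝ) else 0 := by
  classical
  unfold lab
  rw [Finset.card_filter, Finset.sum_product]
  push_cast
  rfl

private lemma meas_S86 (A : Finset ℕ) (δ : ℝ) :
    Measurable fun p : UnitAddCircle × UnitAddCircle => ((lab A A δ p.1 p.2).card : ℝ) := by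
  simp only [card_S86]
  refine Finset.measurable_sum _ fun h _ => Finset.measurable_sum _ fun h' _ => ?_
  refine Measurable.ite ?_ measurable_const measurable_const
  refine measurableSet_le ?_ measurable_const
  exact (Continuous.norm ((continuous_fst.nsmul h).sub (continuous_snd.nsmul h'))).measurable

private lemma card_S_le86 (A : Finset ℕ) (δ : ℝ) (y y' : UnitAddCircle) :
    ((lab A A δ y y').card : ℝ) ≤ (A.card : ℝ) ^ 2 := by
  classical
  unfold lab
  refine (Nat.cast_le.mpr (Finset.card_filter_le _ _)).trans ?_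
  rw [Finset.card_product, sq, Nat.cast_mul]

/-- monotonicity of double integrals of bounded functions -/
private lemma double_mono86 (R : Set UnitAddCircle) {f g : UnitAddCircle → UnitAddCircle → ℝ}
    (hf : Measurable fun p : UnitAddCircle × UnitAddCircle => f p.1 p.2)
    (hg : Measurable fun p : UnitAddCircle × UnitAddCircle => g p.1 p.2)
    {Cf Cg : ℝ} (hCf : ∀ y y', ‖f y y'‖ ≤ Cf) (hCg : ∀ y y', ‖g y y'‖ ≤ Cg)
    (h : ∀ y y', f y y' ≤ g y y') :
    ∫ y in R, ∫ y' in R, f y y' ≤ ∫ y in R, ∫ y' in R, g y y' := by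
  have hint : ∀ {u : UnitAddCircle → UnitAddCircle → ℝ} {C : ℝ},
      (Measurable fun p : UnitAddCircle × UnitAddCircle => u p.1 p.2) → (∀ y y', ‖u y y'‖ ≤ C) →
      Integrable (fun y => ∫ y' in R, u y y') (volume.restrict R) ∧
        ∀ y, Integrable (fun y' => u y y') (volume.restrict R) := by
    intro u C hu hC
    constructor
    · have h1 : Integrable (fun p : UnitAddCircle × UnitAddCircle => u p.1 p.2)
          ((volume.restrict R).prod (volume.restrict R)) :=
        Integrable.of_bound hu.aestronglyMeasurable C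
          (Filter.Eventually.of_forall fun p => hC p.1 p.2)
      exact h1.integral_prod_left
    · intro y
      exact Integrable.of_bound (hu.comp (measurable_const.prodMk measurable_id)).aestronglyMeasurable
        C (Filter.Eventually.of_forall fun p => hC y p)
  exact integral_mono (hint hf hCf).1 (hint hg hCg).1 fun y =>
    integral_mono ((hint hf hCf).2 y) ((hint hg hCg).2 y) fun y' => h y y'

theorem gram_lab (A : Finset ℕ) (M Ak : ℕ) (hM : 1 ≤ M) (hAk : 1 ≤ Ak) {δ : ℝ} (hδ : 0 < δ)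
    (R : Set UnitAddCircle) (hR : MeasurableSet R) :
    (∫ y in R, ‖GA A M y‖) ^ 2 ≤
      M * (4 ^ Ak * M * (∫ y in R, ∫ y' in R, ((lab A A δ y y').card : ℝ)) +
        (A.card : ℝ) ^ 2 * (2 * M) / (2 * M * δ) ^ (2 * Ak) *
          (volume.real R) ^ 2) := by
  classical
  obtain ⟨k, hk0, hk1, hsup, hdec⟩ := exists_kernel Ak (2 * M) hAk (by omega)
  have hM0 : (0 : ℝ) < M := by exact_mod_cast hM
  have h1 := gram_G86 A M R k hk0 (fun m h1 h2 => hk1 m (by
    rw [abs_of_nonneg (by omega)]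
    push_cast
    omega))
  refine h1.trans (mul_le_mul_of_nonneg_left ?_ hM0.le)
  obtain ⟨K, hK⟩ : ∃ K : UnitAddCircle → ℂ, K = fun x => k.sum fun m c => (c : ℂ) * ex m x :=
    ⟨_, rfl⟩
  have hKx : ∀ x, (k.sum fun m c => (c : ℂ) * ex m x) = K x := fun x => by rw [hK]
  simp only [hKx] at hsup hdec ⊢
  have hKc : Continuous K := by
    rw [hK]
    unfold Finsupp.sum
    exact continuous_finsetSum _ fun m _ => continuous_const.mul (continuous_ex m)
  have hpos : (0 : ℝ) < (2 * M * δ) ^ (2 * Ak) := by positivity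
  have e4 : (2 : ℝ) * 4 ^ (Ak - 1) * ((2 * M : ℕ) : ℝ) = 4 ^ Ak * M := by
    obtain ⟨B, rfl⟩ : ∃ B, Ak = B + 1 := ⟨Ak - 1, by omega⟩
    rw [Nat.add_sub_cancel, pow_succ]
    push_cast
    ring
  have hsup' : ∀ x, ‖K x‖ ≤ 4 ^ Ak * M := fun x => (hsup x).trans_eq e4
  have hdec' : ∀ x, δ < ‖x‖ → ‖K x‖ ≤ 2 * M / (2 * M * δ) ^ (2 * Ak) := by
    intro x hx
    rw [le_div_iff₀ hpos]
    have := hdec x δ hδ hx.le
    push_cast at this
    exact this
  set c : ℝ := 2 * M / (2 * M * δ) ^ (2 * Ak) with hc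
  have hc0 : 0 ≤ c := by positivity
  -- the pointwise bound
  have hpt : ∀ y y' : UnitAddCircle, ∑ h ∈ A, ∑ h' ∈ A, ‖K (h • y - h' • y')‖ ≤
      4 ^ Ak * M * ((lab A A δ y y').card : ℝ) + (A.card : ℝ) ^ 2 * c := by
    intro y y'
    rw [card_S86, Finset.mul_sum]
    have e5 : (A.card : ℝ) ^ 2 * c = ∑ h ∈ A, ∑ h' ∈ A, c := by
      simp only [Finset.sum_const, nsmul_eq_mul]
      ring
    rw [e5, ← Finset.sum_add_distrib]
    refine Finset.sum_le_sum fun h _ => ?_
    rw [Finset.mul_sum, ← Finset.sum_add_distrib]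
    refine Finset.sum_le_sum fun h' _ => ?_
    by_cases hle : ‖h • y - h' • y'‖ ≤ δ
    · rw [if_pos hle, mul_one]
      have := hsup' (h • y - h' • y')
      linarith
    · rw [if_neg hle, mul_zero, zero_add]
      exact hdec' _ (lt_of_not_ge hle)
  have hmf : Measurable fun p : UnitAddCircle × UnitAddCircle =>
      ∑ h ∈ A, ∑ h' ∈ A, ‖K (h • p.1 - h' • p.2)‖ := by
    refine Finset.measurable_sum _ fun h _ => Finset.measurable_sum _ fun h' _ => ?_
    exact (hKc.comp ((continuous_fst.nsmul h).sub (continuous_snd.nsmul h'))).norm.measurable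
  have hmg : Measurable fun p : UnitAddCircle × UnitAddCircle =>
      4 ^ Ak * M * ((lab A A δ p.1 p.2).card : ℝ) + (A.card : ℝ) ^ 2 * c :=
    ((meas_S86 A δ).const_mul _).add_const _
  have h2 := double_mono86 R (f := fun y y' => ∑ h ∈ A, ∑ h' ∈ A,
      ‖K (h • y - h' • y')‖) (g := fun y y' => 4 ^ Ak * M * ((lab A A δ y y').card : ℝ) +
      (A.card : ℝ) ^ 2 * c) hmf hmg
    (Cf := (A.card : ℝ) ^ 2 * (4 ^ Ak * M))
    (Cg := 4 ^ Ak * M * (A.card : ℝ) ^ 2 + (A.card : ℝ) ^ 2 * c)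
    (fun y y' => by
      rw [Real.norm_of_nonneg (Finset.sum_nonneg fun _ _ => Finset.sum_nonneg fun _ _ =>
        norm_nonneg _)]
      have e5 : (A.card : ℝ) ^ 2 * (4 ^ Ak * M) =
          ∑ h ∈ A, ∑ h' ∈ A, (4 ^ Ak * M : ℝ) := by
        simp only [Finset.sum_const, nsmul_eq_mul]
        ring
      rw [e5]
      exact Finset.sum_le_sum fun _ _ => Finset.sum_le_sum fun _ _ => hsup' _)
    (fun y y' => by
      have h0 : (0 : ℝ) ≤ 4 ^ Ak * M := by positivity
      rw [Real.norm_of_nonneg (add_nonneg (mul_nonneg h0 (Nat.cast_nonneg _))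
        (mul_nonneg (sq_nonneg _) hc0))]
      exact add_le_add (mul_le_mul_of_nonneg_left (card_S_le86 A δ y y') h0) le_rfl) hpt
  refine h2.trans (le_of_eq ?_)
  -- the integral of the bound
  have hS : ∀ y, Integrable (fun y' => ((lab A A δ y y').card : ℝ)) (volume.restrict R) := fun y =>
    Integrable.of_bound ((meas_S86 A δ).comp
      (measurable_const.prodMk measurable_id)).aestronglyMeasurable
      ((A.card : ℝ) ^ 2) (Filter.Eventually.of_forall fun p => by
        rw [Real.norm_of_nonneg (Nat.cast_nonneg _)]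
        exact card_S_le86 A δ y p)
  have hS2 : Integrable (fun y => ∫ y' in R, ((lab A A δ y y').card : ℝ)) (volume.restrict R) := by
    have h3 : Integrable (fun p : UnitAddCircle × UnitAddCircle => ((lab A A δ p.1 p.2).card : ℝ))
        ((volume.restrict R).prod (volume.restrict R)) :=
      Integrable.of_bound (meas_S86 A δ).aestronglyMeasurable ((A.card : ℝ) ^ 2)
        (Filter.Eventually.of_forall fun p => by
          rw [Real.norm_of_nonneg (Nat.cast_nonneg _)]
          exact card_S_le86 A δ p.1 p.2)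
    exact h3.integral_prod_left
  have hin : ∀ y, ∫ y' in R, (4 ^ Ak * M * ((lab A A δ y y').card : ℝ) +
      (A.card : ℝ) ^ 2 * c) = 4 ^ Ak * M * (∫ y' in R, ((lab A A δ y y').card : ℝ)) +
      volume.real R * ((A.card : ℝ) ^ 2 * c) := by
    intro y
    rw [integral_add ((hS y).const_mul _) (integrable_const _), integral_const_mul,
      setIntegral_const, smul_eq_mul]
  simp only [hin]
  rw [integral_add (hS2.const_mul _) (integrable_const _), integral_const_mul,
    setIntegral_const, smul_eq_mul, hc]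
  ring

end Pool.Agent.Helper5.LE
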