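import Pool.Agent.Helper5.LE.PA

/-!
# Block LE-P3: divisors and factors of the labels

All by unique factorisation: if `P = ∏_{i ∈ I} f i` with primes `f i` in disjoint windows, the divisors of `P` are the products over subsets `A ⊆ I` (`P` squarefree; or induction on `I`), and `P / a` is the product over the complement. `PP_singleton`: the products over one window are its primes. `PP_full`: a divisor of `P` which has as many prime factors as `P` is `P` (compare `primeFactors`, both squarefree with `|I|` prime factors). `PP_not_dvd`: the prime factors of `P` lie in the windows of `I` (`win_disj`).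
-/

set_option autoImplicit false

namespace Pool.Agent.Helper5.LE

open MeasureTheory Finset
open Pool.Agent.Helper25.MOB

private theorem pc21_prime {S i p : ℕ} (h : p ∈ win S i) : p.Prime := (mem_win.1 h).2

private theorem pc21_dvd {S t : ℕ} {I : Finset ℕ} {f : ℕ → ℕ} (hf : ∀ i ∈ I, f i ∈ win S i)
    (ht : t.Prime) (h : t ∣ ∏ i ∈ I, f i) : ∃ i ∈ I, t = f i := by
  obtain ⟨i, hi, hd⟩ := (Prime.dvd_finsetProd_iff (Nat.prime_iff.1 ht) f).1 h
  exact ⟨i, hi, (Nat.prime_dvd_prime_iff_eq ht (pc21_prime (hf i hi))).1 hd⟩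

private theorem pc21_inj {S : ℕ} (hS : 1 ≤ S) {I : Finset ℕ} {f : ℕ → ℕ}
    (hf : ∀ i ∈ I, f i ∈ win S i) : ∀ i ∈ I, ∀ j ∈ I, f i = f j → i = j := by
  intro i hi j hj h
  have h1 := hf i hi
  rw [h] at h1
  exact win_disj hS h1 (hf j hj)

theorem PP_split {S a P : ℕ} {I : Finset ℕ} (hS : 1 ≤ S) (hP : P ∈ PP S I) (ha : a ∣ P) :
    ∃ A ⊆ I, a ∈ PP S A ∧ P / a ∈ PP S (I \ A) := by
  classical
  have hsq := PP_squarefree hS hP
  obtain ⟨f, hf, rfl⟩ := mem_PP.1 hP
  have hasq : Squarefree a := hsq.squarefree_of_dvd ha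
  have hinj := pc21_inj hS hf
  have hpf : a.primeFactors = (I.filter fun i => f i ∣ a).image f := by
    ext p
    simp only [Finset.mem_image, Finset.mem_filter, Nat.mem_primeFactors]
    constructor
    · rintro ⟨hp, hpa, _⟩
      obtain ⟨i, hi, rfl⟩ := pc21_dvd hf hp (hpa.trans ha)
      exact ⟨i, ⟨hi, hpa⟩, rfl⟩
    · rintro ⟨i, ⟨hi, hia⟩, rfl⟩
      exact ⟨pc21_prime (hf i hi), hia, hasq.ne_zero⟩
  have haA : a = ∏ i ∈ I.filter (fun i => f i ∣ a), f i := by
    conv_lhs => rw [← Nat.prod_primeFactors_of_squarefree hasq, hpf]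
    rw [Finset.prod_image]
    intro i hi j hj h
    exact hinj i (Finset.mem_filter.1 hi).1 j (Finset.mem_filter.1 hj).1 h
  refine ⟨I.filter (fun i => f i ∣ a), Finset.filter_subset _ _,
    mem_PP.2 ⟨f, fun i hi => hf i (Finset.mem_filter.1 hi).1, haA⟩,
    mem_PP.2 ⟨f, fun i hi => hf i (Finset.mem_sdiff.1 hi).1, ?_⟩⟩
  have h1 := Finset.prod_sdiff (f := f) (Finset.filter_subset (fun i => f i ∣ a) I)
  rw [← haA] at h1
  rw [← h1]
  exact Nat.mul_div_cancel _ (Nat.pos_of_ne_zero hasq.ne_zero)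

theorem PP_erase {S i P : ℕ} {I : Finset ℕ} (hi : i ∈ I) (hP : P ∈ PP S I) :
    ∃ t ∈ win S i, ∃ Q ∈ PP S (I.erase i), P = t * Q := by
  obtain ⟨f, hf, rfl⟩ := mem_PP.1 hP
  exact ⟨f i, hf i hi, ∏ j ∈ I.erase i, f j,
    mem_PP.2 ⟨f, fun j hj => hf j (Finset.mem_of_mem_erase hj), rfl⟩,
    (Finset.mul_prod_erase I f hi).symm⟩

theorem PP_mul {S i t Q : ℕ} {I : Finset ℕ} (hi : i ∈ I) (ht : t ∈ win S i)
    (hQ : Q ∈ PP S (I.erase i)) : t * Q ∈ PP S I := by
  classical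
  obtain ⟨g, hg, rfl⟩ := mem_PP.1 hQ
  refine mem_PP.2 ⟨Function.update g i t, ?_, ?_⟩
  · intro j hj
    by_cases h : j = i
    · subst h
      rw [Function.update_self]
      exact ht
    · rw [Function.update_of_ne h]
      exact hg j (Finset.mem_erase.2 ⟨h, hj⟩)
  · rw [← Finset.mul_prod_erase I _ hi, Function.update_self]
    congr 1
    refine Finset.prod_congr rfl fun j hj => ?_
    rw [Function.update_of_ne (Finset.ne_of_mem_erase hj)]

theorem PP_not_dvd {S i t P : ℕ} {I : Finset ℕ} (hS : 1 ≤ S) (hi : i ∉ I) (ht : t ∈ win S i)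
    (hP : P ∈ PP S I) : ¬ t ∣ P := by
  intro h
  obtain ⟨f, hf, rfl⟩ := mem_PP.1 hP
  obtain ⟨j, hj, rfl⟩ := pc21_dvd hf (pc21_prime ht) h
  exact hi (win_disj hS ht (hf j hj) ▸ hj)

theorem PP_full {S a P : ℕ} {I : Finset ℕ} (hS : 1 ≤ S) (ha : a ∈ PP S I) (hP : P ∈ PP S I)
    (h : a ∣ P) : a = P := by
  have h1 := (PP_moebius hS ha).1
  have h2 := (PP_moebius hS hP).1
  have h3 : a.primeFactors ⊆ P.primeFactors := Nat.primeFactors_mono h (PP_pos hP).ne'
  have h4 : a.primeFactors = P.primeFactors :=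
    Finset.eq_of_subset_of_card_le h3 (by rw [h1, h2])
  rw [← Nat.prod_primeFactors_of_squarefree (PP_squarefree hS ha), h4,
    Nat.prod_primeFactors_of_squarefree (PP_squarefree hS hP)]

theorem PP_singleton {S i : ℕ} : PP S {i} = win S i := by
  ext n
  rw [mem_PP]
  constructor
  · rintro ⟨f, hf, rfl⟩
    rw [Finset.prod_singleton]
    exact hf i (Finset.mem_singleton_self i)
  · intro hn
    refine ⟨fun _ => n, fun j hj => ?_, by rw [Finset.prod_singleton]⟩
    rw [Finset.mem_singleton.1 hj]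
    exact hn

/-- A common prime factor of two labels: the labels which are not coprime. -/
theorem PP_not_coprime {S P P' : ℕ} {I : Finset ℕ} (hS : 1 ≤ S) (hP : P ∈ PP S I)
    (hP' : P' ∈ PP S I) (h : ¬ P.Coprime P') :
    ∃ i ∈ I, ∃ s ∈ win S i, ∃ Q ∈ PP S (I.erase i), ∃ Q' ∈ PP S (I.erase i),
      P = s * Q ∧ P' = s * Q' := by
  obtain ⟨f, hf, rfl⟩ := mem_PP.1 hP
  obtain ⟨g, hg, rfl⟩ := mem_PP.1 hP'
  obtain ⟨s, hs, h1, h2⟩ := Nat.Prime.not_coprime_iff_dvd.1 h
  obtain ⟨i, hi, rfl⟩ := pc21_dvd hf hs h1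
  obtain ⟨j, hj, hij⟩ := pc21_dvd hg hs h2
  have h3 : i = j := by
    have h4 := hf i hi
    rw [hij] at h4
    exact win_disj hS h4 (hg j hj)
  subst h3
  refine ⟨i, hi, f i, hf i hi, ∏ j ∈ I.erase i, f j,
    mem_PP.2 ⟨f, fun j hj => hf j (Finset.mem_of_mem_erase hj), rfl⟩, ∏ j ∈ I.erase i, g j,
    mem_PP.2 ⟨g, fun j hj => hg j (Finset.mem_of_mem_erase hj), rfl⟩,
    (Finset.mul_prod_erase I f hi).symm, ?_⟩
  rw [hij]
  exact (Finset.mul_prod_erase I g hi).symm

end Pool.Agent.Helper5.LE
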