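import Pool.Agent.Helper5.LE.XA
import Pool.Agent.Helper5.LE.PC
import Pool.Agent.Helper5.LE.GR
import Pool.Agent.Helper5.LE.GI
import Pool.Agent.Helper25.MOB.A3
import Pool.Agent.Helper25.MOB.A4
import Pool.Agent.Helper25.MOB.X1

/-!
# Block LE-X3: choice of the level set

Notation as in block LE-X1; `A = PP S (range k)`, `M = MMs k N = ⌊N/(c S^k)⌋`, `δ = r S^k`, `τ = tt k`, `g = (3/τ) • GA A M`. Model: `step_AB` in `MOB/X1`.
(1) `P M ≤ N` for `P ∈ A` (`P ≤ c S^k`). `|A| = ∏_{i<k} |win S i| ≥ S^(k(1-η))` and `π(M) - k ≥ M^(1-η)/2` for large `N` (`PP_card`, `primesIn_ge`, `primes_le_ge` of `MOB/A3`), `M ≥ N/(2 c S^k)`, so with `η` small `‖∫ F conj g‖ ≥ N^(1-e/4)` (`inner_GA`). `∫ ‖g‖^2 ≤ 9 N` (`GA_sq_le`; `n ≤ N < S^(7(k+1))`, `PP_dvd`).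
(2) `level_select` (`MOB/A4`) with `V0 = N^(2/3+d-κ)`, `B = N^(1/3-d)`, number of levels `≤ log₂ N + 2` (`‖F‖ ≤ N < 2^k' V0`): `3 √(N V0 B) = 3 N^(1-κ/2) ≤ N^(1-e/4)/2`. So for some `V ≥ V0`: `∫_lev ‖F‖ ‖g‖ ≥ N^(1-e/2)`. `level_facts`: `V² ρ ≤ N`, `N^(1-e/2) ≤ 2 V ∫_lev ‖g‖`, `N^(2-e) ≤ 36 V² ρ N`. So `V² ρ ≥ N^(1-2e)`, `ρ > 0`, and `ρ ≤ N / V0² = N^(-1/3-2d+2κ) ≤ N^(-1/3-198κ)`.
(3) `gram_lab` with `Ak = ⌈10/e⌉`, `2 M δ ≥ N^(e/2)`, so the last term is `≤ |A|² 2M N^(-10) ρ² M`, negligible; `(∫_lev ‖GA‖)² ≥ (τ/3)² N^(2-e)/(4V²) ≥ N^(1-2e) ρ` (`1/V² ≥ ρ/N`). Hence `∫∫ lab ≥ N^(1-3e) ρ / M² ≥ N^(-1-3e) ρ S^(2k)` (`M ≤ N/(c S^k)`).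
-/

set_option autoImplicit false

namespace Pool.Agent.Helper5.LE

open MeasureTheory Finset Filter
open Pool.Agent.Helper25.MOB

private theorem kap_pos8 (k : ℕ) : 0 < kap k := by
  unfold kap
  positivity

private theorem ep_pos8 (k : ℕ) : 0 < ep k := by
  unfold ep
  have := kap_pos8 k
  positivity

private theorem kap_mul8 (k : ℕ) : (k : ℝ) * kap k = 1 / 3 - kap k := by
  unfold kap
  have : (k : ℝ) + 1 ≠ 0 := by positivity
  field_simp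
  ring

private theorem kap_mul8' (k : ℕ) : ((7 * (k + 1) : ℕ) : ℝ) * kap k = 7 / 3 := by
  unfold kap
  have : (k : ℝ) + 1 ≠ 0 := by positivity
  push_cast
  field_simp

private theorem ep_lt8 (k : ℕ) : ep k ≤ 1 / 300 := by
  unfold ep kap
  rw [div_div, div_le_div_iff₀ (by positivity) (by norm_num)]
  have : (0 : ℝ) ≤ k := Nat.cast_nonneg k
  linarith

private theorem SS_tendsto8 (k : ℕ) : Tendsto (SS k) atTop atTop :=
  tendsto_nat_floor_atTop.comp ((tendsto_rpow_atTop (kap_pos8 k)).comp tendsto_natCast_atTop_atTop)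

private theorem cc_pos8 (k : ℕ) : 0 < cc k := by
  unfold cc
  positivity

private theorem MMs_ev8 {k : ℕ} (hk : 1 ≤ k) : ∀ᶠ N : ℕ in atTop, 2 ≤ SS k N ∧ 1 ≤ MMs k N ∧
    cc k * SS k N ^ k * MMs k N ≤ N ∧ N ≤ 2 * (cc k * SS k N ^ k * MMs k N) := by
  have hκ := kap_pos8 k
  have hlt : (k : ℝ) * kap k < 1 := by rw [kap_mul8]; linarith
  filter_upwards [SSpow_ev hk k, rpow_ev (cc k) hlt, eventually_ge_atTop 1] with N h1 h2 h3
  obtain ⟨h4, h5, -⟩ := h1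
  rw [Real.rpow_one] at h2
  have hD : cc k * SS k N ^ k ≤ N := by
    have h6 : (cc k : ℝ) * (SS k N : ℝ) ^ k ≤ N :=
      (mul_le_mul_of_nonneg_left h5 (Nat.cast_nonneg _)).trans h2
    exact_mod_cast h6
  have hD0 : 0 < cc k * SS k N ^ k := Nat.mul_pos (cc_pos8 k) (pow_pos (by omega) _)
  unfold MMs
  obtain ⟨D, hDe⟩ : ∃ D, D = cc k * SS k N ^ k := ⟨_, rfl⟩
  rw [← hDe] at hD hD0 ⊢
  have h6 : 1 ≤ N / D := (Nat.one_le_div_iff hD0).2 hD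
  have h7 : D * (N / D) ≤ N := Nat.mul_div_le N D
  have h8 : N < D * (N / D + 1) := Nat.lt_mul_div_succ N hD0
  refine ⟨h4, h6, h7, ?_⟩
  have h9 : D ≤ D * (N / D) := Nat.le_mul_of_pos_right D h6
  have h10 : D * (N / D + 1) = D * (N / D) + D := by ring
  omega

private theorem MMs_tendsto8 {k : ℕ} (hk : 1 ≤ k) : Tendsto (MMs k) atTop atTop := by
  refine tendsto_atTop.2 fun b => ?_
  have hκ := kap_pos8 k
  have hlt : (k : ℝ) * kap k < 1 := by rw [kap_mul8]; linarith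
  filter_upwards [MMs_ev8 hk, SSpow_ev hk k, rpow_ev (2 * cc k * b) hlt] with N h1 h2 h3
  obtain ⟨-, -, -, h4⟩ := h1
  obtain ⟨h5, h6, -⟩ := h2
  rw [Real.rpow_one] at h3
  have h7 : (N : ℝ) ≤ 2 * (cc k * (SS k N : ℝ) ^ k * MMs k N) := by exact_mod_cast h4
  have hc : (0 : ℝ) < cc k := by exact_mod_cast cc_pos8 k
  have hS : (0 : ℝ) < (SS k N : ℝ) ^ k := by
    have : (0 : ℝ) < SS k N := by exact_mod_cast (by omega : 0 < SS k N)
    positivity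
  have h8 : 2 * (cc k : ℝ) * (SS k N : ℝ) ^ k * b ≤ 2 * (cc k : ℝ) * (SS k N : ℝ) ^ k * MMs k N := by
    calc 2 * (cc k : ℝ) * (SS k N : ℝ) ^ k * b = 2 * cc k * b * (SS k N : ℝ) ^ k := by ring
      _ ≤ 2 * cc k * b * (N : ℝ) ^ ((k : ℝ) * kap k) :=
        mul_le_mul_of_nonneg_left h6 (by positivity)
      _ ≤ N := h3
      _ ≤ _ := h7
      _ = _ := by ring
  have h9 := le_of_mul_le_mul_left h8 (by positivity)
  exact_mod_cast h9

private theorem card_ev8 {k : ℕ} {η : ℝ} (hη : 0 < η) (hη1 : η ≤ 1) : ∀ᶠ N : ℕ in atTop,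
    ((SS k N : ℝ) ^ k) ^ (1 - η) ≤ ((PP (SS k N) (range k)).card : ℝ) := by
  obtain ⟨H0, hH0⟩ := eventually_atTop.1 (primesIn_ge hη)
  filter_upwards [(SS_tendsto8 k).eventually_ge_atTop (max H0 1)] with N hN
  have h1 : 1 ≤ SS k N := (le_max_right _ _).trans hN
  have h2 : H0 ≤ SS k N := (le_max_left _ _).trans hN
  have hS0 : (0 : ℝ) ≤ SS k N := Nat.cast_nonneg _
  have e1 : ((SS k N : ℝ) ^ k) ^ (1 - η) = ∏ _i ∈ range k, (SS k N : ℝ) ^ (1 - η) := by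
    rw [prod_const, card_range, ← Real.rpow_natCast, ← Real.rpow_mul hS0, mul_comm, Real.rpow_mul hS0,
      Real.rpow_natCast]
  rw [e1, PP_card h1]
  push_cast
  refine prod_le_prod (fun i _ => Real.rpow_nonneg hS0 _) fun i _ => ?_
  have h3 : SS k N ≤ 2 ^ i * SS k N := Nat.le_mul_of_pos_left _ (by positivity)
  refine le_trans ?_ (hH0 (2 ^ i * SS k N) (h2.trans h3))
  exact Real.rpow_le_rpow hS0 (by exact_mod_cast h3) (by linarith)

private theorem inner_ev8 {k : ℕ} (hk : 1 ≤ k) : ∀ᶠ N : ℕ in atTop, (N : ℝ) ^ (1 - ep k / 8) ≤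
    ((PP (SS k N) (range k)).card : ℝ) * ((((Icc 1 (MMs k N)).filter Nat.Prime).card : ℝ) - k) := by
  have he := ep_pos8 k
  have he1 := ep_lt8 k
  obtain ⟨η, hη⟩ : ∃ η, η = ep k / 16 := ⟨_, rfl⟩
  have hη0 : 0 < η := by rw [hη]; positivity
  have hη1 : η ≤ 1 := by rw [hη]; linarith
  have e1 := card_ev8 (k := k) hη0 hη1
  have e2 := (MMs_tendsto8 hk).eventually (primes_le_ge hη0)
  have e3 := (MMs_tendsto8 hk).eventually (rpow_ev (2 * k) (show (0 : ℝ) < 1 - η by rw [hη]; linarith))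
  have e4 := rpow_ev (4 * cc k) (show 1 - ep k / 8 < 1 - η by rw [hη]; linarith)
  filter_upwards [e1, e2, e3, e4, MMs_ev8 hk] with N h1 h2 h3 h4 h5
  rw [Real.rpow_zero, mul_one] at h3
  obtain ⟨-, -, -, h6⟩ := h5
  have h7 : (N : ℝ) ≤ (2 * cc k) * ((SS k N : ℝ) ^ k * MMs k N) := by
    have : (N : ℝ) ≤ 2 * (cc k * (SS k N : ℝ) ^ k * MMs k N) := by exact_mod_cast h6
    linarith
  have hc : (1 : ℝ) ≤ cc k := by exact_mod_cast cc_pos8 k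
  have hS0 : (0 : ℝ) ≤ (SS k N : ℝ) ^ k := by positivity
  have hM0 : (0 : ℝ) ≤ (MMs k N : ℝ) := Nat.cast_nonneg _
  have hc0 : 0 ≤ 1 - η := by linarith
  have k1 : (N : ℝ) ^ (1 - η) ≤ (2 * cc k) * (((SS k N : ℝ) ^ k) ^ (1 - η) * (MMs k N : ℝ) ^ (1 - η)) := by
    refine (Real.rpow_le_rpow (Nat.cast_nonneg _) h7 hc0).trans ?_
    rw [Real.mul_rpow (by positivity) (mul_nonneg hS0 hM0), Real.mul_rpow hS0 hM0]
    refine mul_le_mul_of_nonneg_right ?_ (mul_nonneg (Real.rpow_nonneg hS0 _) (Real.rpow_nonneg hM0 _))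
    calc (2 * (cc k : ℝ)) ^ (1 - η) ≤ (2 * (cc k : ℝ)) ^ (1 : ℝ) :=
          Real.rpow_le_rpow_of_exponent_le (by linarith) (by linarith)
      _ = 2 * cc k := Real.rpow_one _
  have k3 : (MMs k N : ℝ) ^ (1 - η) / 2 ≤ (((Icc 1 (MMs k N)).filter Nat.Prime).card : ℝ) - k := by
    linarith
  have k4 : ((SS k N : ℝ) ^ k) ^ (1 - η) * ((MMs k N : ℝ) ^ (1 - η) / 2) ≤
      ((PP (SS k N) (range k)).card : ℝ) * ((((Icc 1 (MMs k N)).filter Nat.Prime).card : ℝ) - k) :=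
    mul_le_mul h1 k3 (div_nonneg (Real.rpow_nonneg hM0 _) (by norm_num)) (Nat.cast_nonneg _)
  refine le_trans ?_ k4
  have k5 : (4 * (cc k : ℝ)) * (N : ℝ) ^ (1 - ep k / 8) ≤
      (4 * (cc k : ℝ)) * (((SS k N : ℝ) ^ k) ^ (1 - η) * ((MMs k N : ℝ) ^ (1 - η) / 2)) := by
    refine (h4.trans k1).trans (le_of_eq ?_)
    ring
  exact le_of_mul_le_mul_left k5 (by positivity)

private theorem tt_ge8 (k : ℕ) : (3 : ℝ) ≤ tt k := by
  have h : 3 ≤ tt k := by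
    unfold tt
    calc 3 ≤ 2 ^ 7 := by norm_num
      _ ≤ 2 ^ (7 * (k + 1)) := Nat.pow_le_pow_right (by norm_num) (by omega)
  exact_mod_cast h

theorem level_ev {k : ℕ} (hk : 1 ≤ k) {d : ℝ} (hd : 100 * kap k ≤ d) (hd1 : d ≤ 1 / 10) :
    ∀ᶠ N : ℕ in atTop, ∫ y, ‖F N y‖ ≤ (N : ℝ) ^ (1 / 3 - d) →
    ∃ V : ℝ, 0 < V ∧ 0 < volume.real (lev N V) ∧
      volume.real (lev N V) ≤ (N : ℝ) ^ (-1 / 3 - 100 * kap k) ∧
      (N : ℝ) ^ (1 - 5 * ep k) ≤ V ^ 2 * volume.real (lev N V) ∧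
      (N : ℝ) ^ (-1 - 5 * ep k) * volume.real (lev N V) * (SS k N : ℝ) ^ (2 * k) ≤
        ∫ y in lev N V, ∫ y' in lev N V, ((lab (PP (SS k N) (range k)) (PP (SS k N) (range k))
          (rr k N * SS k N ^ k) y y').card : ℝ) := by
  have hκ := kap_pos8 k
  have he := ep_pos8 k
  have hκe : kap k = 100 * ep k := by unfold ep; ring
  obtain ⟨A, hA⟩ : ∃ A : ℕ, A = ⌈10 / ep k⌉₊ := ⟨_, rfl⟩
  have hA2 : 10 / ep k ≤ A := by rw [hA]; exact Nat.le_ceil _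
  have hAη : 10 ≤ A * ep k := (div_le_iff₀ he).1 hA2
  have hA1 : 1 ≤ A := by
    rw [hA]
    exact Nat.one_le_iff_ne_zero.2 (Nat.ceil_pos.2 (by positivity)).ne'
  filter_upwards [inner_ev8 hk, MMs_ev8 hk, SSpow_ev hk (7 * (k + 1)), eventually_ge_atTop 1,
    rpow_ev_lt 1 (c := 1) (a := 1) (b := 7 / 3 - ep k / 8) one_pos (by linarith [ep_lt8 k]),
    rpow_ev ((tt k : ℝ) / 3) (show 1 - ep k / 4 < 1 - ep k / 8 by linarith),
    rpow_ev 6 (show 1 - kap k / 2 < 1 - ep k / 4 by linarith), natlog_ev 4 (show 0 < ep k / 4 by positivity),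
    rpow_ev 36 (show 1 - 5 * ep k < 1 - ep k by linarith),
    rpow_ev 16 (show (-8 : ℝ) < 1 - ep k by linarith [ep_lt8 k]),
    rpow_ev (8 * 4 ^ A) (show -1 - 5 * ep k < -1 - ep k by linarith),
    rpow_ev (cc k) (show ep k / 2 < ep k by linarith)]
    with N h1 hM hS7 hN1 h2 h3 h4 h5 h6 h7 h8 h9 hB
  obtain ⟨hS2, hM1, hSM, hNM⟩ := hM
  have hN1' : (1 : ℝ) ≤ N := by exact_mod_cast hN1
  have hN0 : (0 : ℝ) < N := by linarith
  have hp : ∀ x : ℝ, 0 < (N : ℝ) ^ x := fun x => Real.rpow_pos_of_pos hN0 x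
  -- the set of labels
  obtain ⟨P, hP⟩ : ∃ P, P = PP (SS k N) (range k) := ⟨_, rfl⟩
  have hPb : ∀ p ∈ P, 0 < p ∧ p * MMs k N ≤ N := by
    intro p hp'
    rw [hP] at hp'
    refine ⟨PP_pos hp', ?_⟩
    have b1 := (PP_bounds (k := k) Subset.rfl hp').2
    rw [card_range] at b1
    exact (Nat.mul_le_mul_right _ b1).trans hSM
  have hPdiv : ∀ n : ℕ, 0 < n → n ≤ N → (P.filter (· ∣ n)).card ≤ tt k := by
    intro n hn0 hn
    rw [hP]
    refine PP_dvd hS2 hn0 (lt_of_le_of_lt hn ?_)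
    have b1 := hS7.2.2
    rw [kap_mul8'] at b1
    rw [one_mul, one_mul, Real.rpow_one] at h2
    exact_mod_cast h2.trans_le b1
  have hτ : (3 : ℝ) ≤ tt k := tt_ge8 k
  obtain ⟨a, ha⟩ : ∃ a : ℝ, a = 3 / tt k := ⟨_, rfl⟩
  have ha0 : 0 < a := by rw [ha]; positivity
  have ha1 : a ≤ 1 := by rw [ha, div_le_one (by linarith)]; exact hτ
  have haτ : a * tt k = 3 := by
    rw [ha]
    field_simp
  obtain ⟨g, hg⟩ : ∃ g : UnitAddCircle → ℂ, g = fun y => (a : ℂ) * GA P (MMs k N) y := ⟨_, rfl⟩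
  have hgc : Continuous g := by
    rw [hg]
    exact continuous_const.mul (continuous_GA _ _)
  have hgn : ∀ y, ‖g y‖ = a * ‖GA P (MMs k N) y‖ := by
    intro y
    rw [hg]
    simp only [norm_mul, Complex.norm_real, Real.norm_eq_abs, abs_of_pos ha0]
  have hg2 : ∫ y, ‖g y‖ ^ 2 ≤ 9 * (N : ℝ) := by
    have b1 := GA_sq_le hPb hPdiv
    have b2 : ∫ y, ‖g y‖ ^ 2 = a ^ 2 * ∫ y, ‖GA P (MMs k N) y‖ ^ 2 := by
      rw [← integral_const_mul]
      refine integral_congr_ae (Filter.Eventually.of_forall fun y => ?_)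
      show ‖g y‖ ^ 2 = a ^ 2 * ‖GA P (MMs k N) y‖ ^ 2
      rw [hgn]
      ring
    rw [b2]
    calc a ^ 2 * ∫ y, ‖GA P (MMs k N) y‖ ^ 2 ≤ a ^ 2 * ((tt k : ℝ) ^ 2 * N) :=
          mul_le_mul_of_nonneg_left b1 (by positivity)
      _ = (a * tt k) ^ 2 * N := by ring
      _ = 9 * N := by rw [haτ]; norm_num
  have hinner : (N : ℝ) ^ (1 - ep k / 4) ≤ ‖∫ y, F N y * (starRingEnd ℂ) (g y)‖ := by
    have b1 : ∫ y, F N y * (starRingEnd ℂ) (g y) =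
        (a : ℂ) * ∫ y, F N y * (starRingEnd ℂ) (GA P (MMs k N) y) := by
      rw [← integral_const_mul]
      refine integral_congr_ae (Filter.Eventually.of_forall fun y => ?_)
      show F N y * (starRingEnd ℂ) (g y) = (a : ℂ) * (F N y * (starRingEnd ℂ) (GA P (MMs k N) y))
      rw [hg]
      simp only [map_mul, Complex.conj_ofReal]
      ring
    rw [b1, norm_mul, Complex.norm_real, Real.norm_eq_abs, abs_of_pos ha0]
    have b2 := h1.trans (inner_GA (S := SS k N) (k := k) (M := MMs k N) (N := N) (by omega)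
      (fun p hp' => (hPb p (by rw [hP]; exact hp')).2))
    rw [← hP] at b2
    have b3 : a * (N : ℝ) ^ (1 - ep k / 8) ≤ a * ‖∫ y, F N y * (starRingEnd ℂ) (GA P (MMs k N) y)‖ :=
      mul_le_mul_of_nonneg_left b2 ha0.le
    refine le_trans ?_ b3
    have b4 : a * ((tt k : ℝ) / 3 * (N : ℝ) ^ (1 - ep k / 4)) ≤ a * (N : ℝ) ^ (1 - ep k / 8) :=
      mul_le_mul_of_nonneg_left h3 ha0.le
    have b5 : a * ((tt k : ℝ) / 3 * (N : ℝ) ^ (1 - ep k / 4)) = (N : ℝ) ^ (1 - ep k / 4) := by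
      calc a * ((tt k : ℝ) / 3 * (N : ℝ) ^ (1 - ep k / 4)) = (a * tt k) / 3 * (N : ℝ) ^ (1 - ep k / 4) := by
            ring
        _ = (N : ℝ) ^ (1 - ep k / 4) := by rw [haτ]; norm_num
    linarith
  -- the level
  have hV0 : (1 : ℝ) ≤ (N : ℝ) ^ (2 / 3 + d - kap k) := Real.one_le_rpow hN1' (by linarith)
  have hsup : ∀ y, ‖F N y‖ < 2 ^ (Nat.log 2 N + 1) * (N : ℝ) ^ (2 / 3 + d - kap k) := by
    intro y
    have k1 : (N : ℝ) < 2 ^ (Nat.log 2 N + 1) := by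
      exact_mod_cast Nat.lt_pow_succ_log_self (by norm_num) N
    calc ‖F N y‖ ≤ N := norm_F_le N y
      _ < 2 ^ (Nat.log 2 N + 1) := k1
      _ = 2 ^ (Nat.log 2 N + 1) * 1 := (mul_one _).symm
      _ ≤ 2 ^ (Nat.log 2 N + 1) * (N : ℝ) ^ (2 / 3 + d - kap k) :=
        mul_le_mul_of_nonneg_left hV0 (by positivity)
  obtain ⟨i, -, hi⟩ := level_select (F N) g (continuous_F N) hgc
    (N := N) (V0 := (N : ℝ) ^ (2 / 3 + d - kap k)) (A := (N : ℝ) ^ (1 - ep k / 4))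
    (B := (N : ℝ) ^ (1 / 3 - d)) hN0.le (hp _) (hp _).le (Nat.succ_pos _) hsup hg2 hB hinner
  obtain ⟨V, hVdef⟩ : ∃ V : ℝ, V = 2 ^ i * (N : ℝ) ^ (2 / 3 + d - kap k) := ⟨_, rfl⟩
  have hset : {y | 2 ^ i * (N : ℝ) ^ (2 / 3 + d - kap k) ≤ ‖F N y‖ ∧
      ‖F N y‖ < 2 ^ (i + 1) * (N : ℝ) ^ (2 / 3 + d - kap k)} = {y | V ≤ ‖F N y‖ ∧ ‖F N y‖ < 2 * V} := by
    have : 2 ^ (i + 1) * (N : ℝ) ^ (2 / 3 + d - kap k) = 2 * V := by rw [hVdef]; ring
    rw [this, ← hVdef]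
  rw [hset] at hi
  have hVpos : 0 < V := by rw [hVdef]; exact mul_pos (by positivity) (hp _)
  have hVge : (N : ℝ) ^ (2 / 3 + d - kap k) ≤ V := by
    rw [hVdef]
    exact le_mul_of_one_le_left (hp _).le (one_le_pow₀ (by norm_num))
  -- the square root
  have hsq : √((N : ℝ) * (N : ℝ) ^ (2 / 3 + d - kap k) * (N : ℝ) ^ (1 / 3 - d)) =
      (N : ℝ) ^ (1 - kap k / 2) := by
    have k1 : (N : ℝ) * (N : ℝ) ^ (2 / 3 + d - kap k) * (N : ℝ) ^ (1 / 3 - d) =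
        ((N : ℝ) ^ (1 - kap k / 2)) ^ 2 := by
      nth_rewrite 1 [← Real.rpow_one (N : ℝ)]
      rw [← Real.rpow_add hN0, ← Real.rpow_add hN0, ← Real.rpow_natCast, ← Real.rpow_mul hN0.le]
      congr 1
      push_cast
      ring
    rw [k1, Real.sqrt_sq (hp _).le]
  rw [hsq] at hi
  obtain ⟨J, hJ⟩ : ∃ J : ℝ, J = ∫ y in {y | V ≤ ‖F N y‖ ∧ ‖F N y‖ < 2 * V},
      ‖F N y‖ * ‖g y‖ := ⟨_, rfl⟩
  have hJA : (N : ℝ) ^ (1 - ep k / 2) ≤ J := by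
    rw [← hJ] at hi
    have hk0 : (0 : ℝ) < ((Nat.log 2 N + 1 : ℕ) : ℝ) := Nat.cast_pos.2 (Nat.succ_pos _)
    have hspl : (N : ℝ) ^ (1 - ep k / 4) = (N : ℝ) ^ (ep k / 4) * (N : ℝ) ^ (1 - ep k / 2) := by
      rw [← Real.rpow_add hN0]
      congr 1
      ring
    have k2 : 2 * ((Nat.log 2 N + 1 : ℕ) : ℝ) * (N : ℝ) ^ (1 - ep k / 2) ≤ (N : ℝ) ^ (1 - ep k / 4) := by
      rw [hspl]
      refine mul_le_mul_of_nonneg_right ?_ (hp _).le
      push_cast at hk0 ⊢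
      linarith
    have k3 : ((Nat.log 2 N + 1 : ℕ) : ℝ) * (N : ℝ) ^ (1 - ep k / 2) ≤
        ((Nat.log 2 N + 1 : ℕ) : ℝ) * J := by
      refine le_trans ?_ hi
      have := hp (1 - ep k / 4)
      linarith
    exact le_of_mul_le_mul_left k3 hk0
  rw [hJ] at hJA
  obtain ⟨f1, f2, f3⟩ := level_facts (F N) g (continuous_F N) hgc
    hN0.le hVpos (hp (1 - ep k / 2)).le (integral_F_sq_le N) hg2 hJA
  have hδ : 0 < rr k N * (SS k N : ℝ) ^ k := by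
    have : (0 : ℝ) < SS k N := by exact_mod_cast (by omega : 0 < SS k N)
    exact mul_pos (hp _) (by positivity)
  have hgs := gram_lab P (MMs k N) A hM1 hA1 hδ (lev N V) (measurableSet_lev N V)
  have hgG : ∫ y in lev N V, ‖g y‖ = a * ∫ y in lev N V, ‖GA P (MMs k N) y‖ := by
    rw [← integral_const_mul]
    refine integral_congr_ae (Filter.Eventually.of_forall fun y => ?_)
    exact hgn y
  change V ^ 2 * volume.real (lev N V) ≤ N at f1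
  change (N : ℝ) ^ (1 - ep k / 2) ≤ 2 * V * ∫ y in lev N V, ‖g y‖ at f2
  change ((N : ℝ) ^ (1 - ep k / 2)) ^ 2 ≤ 36 * V ^ 2 * volume.real (lev N V) * N at f3
  rw [hgG] at f2
  rw [← hP]
  refine ⟨V, hVpos, ?_⟩
  have hI0 : 0 ≤ ∫ y in lev N V, ∫ y' in lev N V, ((lab P P (rr k N * SS k N ^ k) y y').card : ℝ) :=
    integral_nonneg fun y => integral_nonneg fun y' => Nat.cast_nonneg _
  generalize (∫ y in lev N V, ∫ y' in lev N V, ((lab P P (rr k N * SS k N ^ k) y y').card : ℝ)) = I at *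
  have hρ0 : 0 ≤ volume.real (lev N V) := measureReal_nonneg
  have hρ1 : volume.real (lev N V) ≤ 1 := measureReal_le_one
  have hGint0 : 0 ≤ ∫ y in lev N V, ‖GA P (MMs k N) y‖ := integral_nonneg fun y => norm_nonneg _
  generalize (∫ y in lev N V, ‖GA P (MMs k N) y‖) = G at *
  generalize volume.real (lev N V) = ρ at *
  have hsq2 : ((N : ℝ) ^ (1 - ep k / 2)) ^ 2 = (N : ℝ) ^ (1 - ep k) * N := by
    nth_rewrite 3 [← Real.rpow_one (N : ℝ)]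
    rw [← Real.rpow_add hN0, ← Real.rpow_natCast, ← Real.rpow_mul hN0.le]
    congr 1
    push_cast
    ring
  have hV2 : 0 < V ^ 2 := by positivity
  have hVρ : (N : ℝ) ^ (1 - 5 * ep k) ≤ V ^ 2 * ρ := by
    rw [hsq2] at f3
    have k1 : (N : ℝ) ^ (1 - ep k) ≤ 36 * V ^ 2 * ρ := le_of_mul_le_mul_right f3 hN0
    linarith
  have hρpos : 0 < ρ := by
    by_contra hcon
    have h10 : ρ = 0 := le_antisymm (not_lt.1 hcon) hρ0
    rw [h10, mul_zero] at hVρ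
    linarith [hp (1 - 5 * ep k)]
  refine ⟨hρpos, ?_, hVρ, ?_⟩
  · -- the measure is small
    have k1 : ((N : ℝ) ^ (2 / 3 + d - kap k)) ^ 2 ≤ V ^ 2 := pow_le_pow_left₀ (hp _).le hVge 2
    have k2 : ((N : ℝ) ^ (2 / 3 + d - kap k)) ^ 2 * ρ ≤ N := (mul_le_mul_of_nonneg_right k1 hρ0).trans f1
    have k3 : (N : ℝ) = ((N : ℝ) ^ (2 / 3 + d - kap k)) ^ 2 * (N : ℝ) ^ (-1 / 3 - 2 * d + 2 * kap k) := by
      rw [← Real.rpow_natCast, ← Real.rpow_mul hN0.le, ← Real.rpow_add hN0]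
      nth_rewrite 1 [← Real.rpow_one (N : ℝ)]
      congr 1
      push_cast
      ring
    have k4 : ρ ≤ (N : ℝ) ^ (-1 / 3 - 2 * d + 2 * kap k) := by
      rw [k3] at k2
      have : ((N : ℝ) ^ (2 / 3 + d - kap k)) ^ 2 * ρ ≤
          ((N : ℝ) ^ (2 / 3 + d - kap k)) ^ 2 * (N : ℝ) ^ (-1 / 3 - 2 * d + 2 * kap k) := by
        rw [← k3] at k2
        rw [← k3]
        exact k2
      exact le_of_mul_le_mul_left this (by positivity)
    refine k4.trans (Real.rpow_le_rpow_of_exponent_le hN1' ?_)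
    linarith
  · have k1 : (N : ℝ) ^ (1 - ep k) * ρ / 4 ≤ G ^ 2 := by
      have k2 : ((N : ℝ) ^ (1 - ep k / 2)) ^ 2 ≤ (2 * V * (a * G)) ^ 2 :=
        pow_le_pow_left₀ (hp _).le f2 2
      rw [hsq2] at k2
      have k3 : (N : ℝ) ^ (1 - ep k) * (V ^ 2 * ρ) ≤ 4 * V ^ 2 * G ^ 2 := by
        have k5 : a ^ 2 ≤ 1 := by nlinarith
        calc (N : ℝ) ^ (1 - ep k) * (V ^ 2 * ρ) ≤ (N : ℝ) ^ (1 - ep k) * N :=
              mul_le_mul_of_nonneg_left f1 (hp _).le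
          _ ≤ (2 * V * (a * G)) ^ 2 := k2
          _ = a ^ 2 * (4 * V ^ 2 * G ^ 2) := by ring
          _ ≤ 1 * (4 * V ^ 2 * G ^ 2) := mul_le_mul_of_nonneg_right k5 (by positivity)
          _ = 4 * V ^ 2 * G ^ 2 := one_mul _
      have k4 : V ^ 2 * ((N : ℝ) ^ (1 - ep k) * ρ / 4) ≤ V ^ 2 * G ^ 2 := by
        have e1 : V ^ 2 * ((N : ℝ) ^ (1 - ep k) * ρ / 4) =
            ((N : ℝ) ^ (1 - ep k) * (V ^ 2 * ρ)) / 4 := by ring
        rw [e1]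
        linarith
      exact le_of_mul_le_mul_left k4 hV2
    -- the second term
    have hM0 : (0 : ℝ) ≤ (MMs k N : ℝ) := Nat.cast_nonneg _
    have hc1 : (1 : ℝ) ≤ cc k := by exact_mod_cast cc_pos8 k
    have hSk0 : (0 : ℝ) ≤ (SS k N : ℝ) ^ k := by positivity
    have hPc : (P.card : ℝ) ≤ cc k * (SS k N : ℝ) ^ k := by
      have b1 := PP_card_le (S := SS k N) (k := k) (I := range k) Subset.rfl
      rw [card_range, ← hP] at b1
      exact_mod_cast b1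
    have hSM' : (cc k : ℝ) * (SS k N : ℝ) ^ k * MMs k N ≤ N := by exact_mod_cast hSM
    have hNM' : (N : ℝ) ≤ 2 * ((cc k : ℝ) * (SS k N : ℝ) ^ k * MMs k N) := by exact_mod_cast hNM
    have hPM : (MMs k N : ℝ) * P.card ≤ N := by
      have k2 : (MMs k N : ℝ) * P.card ≤ MMs k N * (cc k * (SS k N : ℝ) ^ k) :=
        mul_le_mul_of_nonneg_left hPc hM0
      linarith
    have hbase : (N : ℝ) ^ (ep k / 2) ≤ 2 * MMs k N * (rr k N * (SS k N : ℝ) ^ k) := by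
      have b1 : (cc k : ℝ) * (N : ℝ) ^ (ep k / 2) ≤
          cc k * (2 * MMs k N * (rr k N * (SS k N : ℝ) ^ k)) := by
        refine h9.trans ?_
        have b2 : (N : ℝ) ^ ep k = rr k N * N := by
          unfold rr
          nth_rewrite 3 [← Real.rpow_one (N : ℝ)]
          rw [← Real.rpow_add hN0]
          congr 1
          ring
        rw [b2]
        calc rr k N * N ≤ rr k N * (2 * ((cc k : ℝ) * (SS k N : ℝ) ^ k * MMs k N)) :=
              mul_le_mul_of_nonneg_left hNM' (hp _).le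
          _ = _ := by ring
      exact le_of_mul_le_mul_left b1 (by linarith)
    have hden : (N : ℝ) ^ 10 ≤ (2 * MMs k N * (rr k N * (SS k N : ℝ) ^ k)) ^ (2 * A) := by
      calc (N : ℝ) ^ 10 = (N : ℝ) ^ (10 : ℝ) := by
            rw [← Real.rpow_natCast]
            norm_num
        _ ≤ (N : ℝ) ^ (ep k / 2 * ((2 * A : ℕ) : ℝ)) := by
            refine Real.rpow_le_rpow_of_exponent_le hN1' ?_
            push_cast
            linarith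
        _ = ((N : ℝ) ^ (ep k / 2)) ^ (2 * A) := by rw [Real.rpow_mul hN0.le, Real.rpow_natCast]
        _ ≤ _ := pow_le_pow_left₀ (hp _).le hbase _
    have hterm : (MMs k N : ℝ) * ((P.card : ℝ) ^ 2 * (2 * MMs k N) /
        (2 * MMs k N * (rr k N * (SS k N : ℝ) ^ k)) ^ (2 * A) * ρ ^ 2) ≤ 2 * (N : ℝ) ^ (-8 : ℝ) * ρ := by
      have hden0 : 0 < (2 * (MMs k N : ℝ) * (rr k N * (SS k N : ℝ) ^ k)) ^ (2 * A) :=
        lt_of_lt_of_le (by positivity) hden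
      have e1 : (MMs k N : ℝ) * ((P.card : ℝ) ^ 2 * (2 * MMs k N) /
        (2 * MMs k N * (rr k N * (SS k N : ℝ) ^ k)) ^ (2 * A) * ρ ^ 2) =
          2 * (((MMs k N : ℝ) * P.card) ^ 2 / (2 * MMs k N * (rr k N * (SS k N : ℝ) ^ k)) ^ (2 * A)) *
            ρ ^ 2 := by
        ring
      rw [e1]
      have k2 : ((MMs k N : ℝ) * P.card) ^ 2 / (2 * MMs k N * (rr k N * (SS k N : ℝ) ^ k)) ^ (2 * A) ≤
          (N : ℝ) ^ (-8 : ℝ) := by
        rw [div_le_iff₀ hden0]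
        calc ((MMs k N : ℝ) * P.card) ^ 2 ≤ (N : ℝ) ^ 2 :=
              pow_le_pow_left₀ (mul_nonneg hM0 (Nat.cast_nonneg _)) hPM 2
          _ = (N : ℝ) ^ (-8 : ℝ) * (N : ℝ) ^ 10 := by
              rw [← Real.rpow_natCast, ← Real.rpow_natCast, ← Real.rpow_add hN0]
              congr 1
              norm_num
          _ ≤ _ := mul_le_mul_of_nonneg_left hden (hp _).le
      have k3 : ρ ^ 2 ≤ ρ := by nlinarith
      have k4 : 2 * (((MMs k N : ℝ) * P.card) ^ 2 /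
          (2 * MMs k N * (rr k N * (SS k N : ℝ) ^ k)) ^ (2 * A)) ≤ 2 * (N : ℝ) ^ (-8 : ℝ) := by linarith
      exact mul_le_mul k4 k3 (sq_nonneg _) (mul_nonneg (by norm_num) (hp _).le)
    have hsmall : 2 * (N : ℝ) ^ (-8 : ℝ) * ρ ≤ (N : ℝ) ^ (1 - ep k) * ρ / 8 := by
      have := mul_le_mul_of_nonneg_right h7 hρ0
      linarith
    have k5 : (N : ℝ) ^ (1 - ep k) * ρ / 8 ≤ 4 ^ A * (MMs k N : ℝ) ^ 2 * I := by
      have e1 : (MMs k N : ℝ) * (4 ^ A * MMs k N * I + (P.card : ℝ) ^ 2 * (2 * MMs k N) /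
          (2 * MMs k N * (rr k N * (SS k N : ℝ) ^ k)) ^ (2 * A) * ρ ^ 2) = 4 ^ A * (MMs k N : ℝ) ^ 2 * I +
          (MMs k N : ℝ) * ((P.card : ℝ) ^ 2 * (2 * MMs k N) /
          (2 * MMs k N * (rr k N * (SS k N : ℝ) ^ k)) ^ (2 * A) * ρ ^ 2) := by ring
      rw [e1] at hgs
      linarith
    -- insert the bound of M
    have k6 : (SS k N : ℝ) ^ (2 * k) * (MMs k N : ℝ) ^ 2 ≤ (N : ℝ) ^ 2 := by
      have e1 : (SS k N : ℝ) ^ k * MMs k N ≤ N := by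
        refine le_trans ?_ hSM'
        have := mul_nonneg hSk0 hM0
        nlinarith
      calc (SS k N : ℝ) ^ (2 * k) * (MMs k N : ℝ) ^ 2 = ((SS k N : ℝ) ^ k * MMs k N) ^ 2 := by
            rw [mul_pow, ← pow_mul, mul_comm k 2]
        _ ≤ (N : ℝ) ^ 2 := pow_le_pow_left₀ (by positivity) e1 2
    have k7 : (SS k N : ℝ) ^ (2 * k) * ((N : ℝ) ^ (1 - ep k) * ρ / 8) ≤ 4 ^ A * (N : ℝ) ^ 2 * I := by
      have c1 : (SS k N : ℝ) ^ (2 * k) * ((N : ℝ) ^ (1 - ep k) * ρ / 8) ≤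
          (SS k N : ℝ) ^ (2 * k) * (4 ^ A * (MMs k N : ℝ) ^ 2 * I) :=
        mul_le_mul_of_nonneg_left k5 (by positivity)
      have c2 : (SS k N : ℝ) ^ (2 * k) * (4 ^ A * (MMs k N : ℝ) ^ 2 * I) =
          ((SS k N : ℝ) ^ (2 * k) * (MMs k N : ℝ) ^ 2) * (4 ^ A * I) := by ring
      have c3 : ((SS k N : ℝ) ^ (2 * k) * (MMs k N : ℝ) ^ 2) * (4 ^ A * I) ≤ (N : ℝ) ^ 2 * (4 ^ A * I) :=
        mul_le_mul_of_nonneg_right k6 (by positivity)
      have c4 : (N : ℝ) ^ 2 * (4 ^ A * I) = 4 ^ A * (N : ℝ) ^ 2 * I := by ring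
      rw [c2] at c1
      rw [c4] at c3
      exact c1.trans c3
    have hN2 : (0 : ℝ) < (N : ℝ) ^ 2 := by positivity
    have e2 : (N : ℝ) ^ (1 - ep k) = (N : ℝ) ^ (-1 - ep k) * (N : ℝ) ^ 2 := by
      rw [← Real.rpow_natCast, ← Real.rpow_add hN0]
      congr 1
      push_cast
      ring
    rw [e2] at k7
    have k8 : (N : ℝ) ^ 2 * ((SS k N : ℝ) ^ (2 * k) * (N : ℝ) ^ (-1 - ep k) * ρ) ≤
        (N : ℝ) ^ 2 * (8 * 4 ^ A * I) := by
      have c1 : (SS k N : ℝ) ^ (2 * k) * ((N : ℝ) ^ (-1 - ep k) * (N : ℝ) ^ 2 * ρ / 8) =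
          (N : ℝ) ^ 2 * ((SS k N : ℝ) ^ (2 * k) * (N : ℝ) ^ (-1 - ep k) * ρ) / 8 := by ring
      have c2 : 4 ^ A * (N : ℝ) ^ 2 * I = (N : ℝ) ^ 2 * (8 * 4 ^ A * I) / 8 := by ring
      rw [c1, c2] at k7
      linarith
    have k9 := le_of_mul_le_mul_left k8 hN2
    have k10 : 8 * 4 ^ A * ((N : ℝ) ^ (-1 - 5 * ep k) * ρ * (SS k N : ℝ) ^ (2 * k)) ≤ 8 * 4 ^ A * I := by
      refine le_trans ?_ k9
      have c1 : 8 * 4 ^ A * ((N : ℝ) ^ (-1 - 5 * ep k) * ρ * (SS k N : ℝ) ^ (2 * k)) =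
          (ρ * (SS k N : ℝ) ^ (2 * k)) * (8 * 4 ^ A * (N : ℝ) ^ (-1 - 5 * ep k)) := by ring
      have c2 : (SS k N : ℝ) ^ (2 * k) * (N : ℝ) ^ (-1 - ep k) * ρ =
          (ρ * (SS k N : ℝ) ^ (2 * k)) * (N : ℝ) ^ (-1 - ep k) := by ring
      rw [c1, c2]
      exact mul_le_mul_of_nonneg_left h8 (mul_nonneg hρ0 (by positivity))
    exact le_of_mul_le_mul_left k10 (by positivity)

end Pool.Agent.Helper5.LE
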