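import Pool.Agent.Helper5.LE.Defs
import Pool.Agent.Helper25.MOB.Pt

/-!
# Block LE-M1: measurability and trivial bounds

`lab A B δ y y'` is a finite filtered set: its cardinality is a finite sum of indicator functions of closed sets in `(y, y')`. `deg A B δ R u = ∫_{y ∈ R} (lab A B δ y u).card dy` is measurable in `u` (`StronglyMeasurable.integral_prod_right` or `Measurable.lintegral_prod_right`). `wt` and `nt` are finite sums of indicator functions of measurable sets of `(y, u)` (the proposition `adm ...` does not depend on `y`, `u`); the annulus `ann j r α` is closed up to a closed lower bound. `EE k j r t f` is a finite union of closed balls (the `α'` with `addOrderOf α' = addOrderOf f > 0` lie in the finite set `pt (addOrderOf f)`, `mem_pt`).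
`wt_le_card`: trivial bounds used for integrability.
-/

set_option autoImplicit false

namespace Pool.Agent.Helper5.LE

open MeasureTheory Finset
open Pool.Agent.Helper25.MOB

private theorem meas_filter38 (T : Finset (ℕ × ℕ)) (δ : ℝ) :
    Measurable fun p : UnitAddCircle × UnitAddCircle =>
      (((open scoped Classical in T.filter fun v => ‖v.1 • p.1 - v.2 • p.2‖ ≤ δ) :
        Finset (ℕ × ℕ)).card : ℝ) := by
  classical
  have h : (fun p : UnitAddCircle × UnitAddCircle =>
      (((open scoped Classical in T.filter fun v => ‖v.1 • p.1 - v.2 • p.2‖ ≤ δ) :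
        Finset (ℕ × ℕ)).card : ℝ)) =
      fun p => ∑ v ∈ T, if ‖v.1 • p.1 - v.2 • p.2‖ ≤ δ then (1 : ℝ) else 0 := by
    funext p
    rw [Finset.sum_boole]
  rw [h]
  refine Finset.measurable_fun_sum _ fun v _ => Measurable.ite ?_ measurable_const measurable_const
  exact (isClosed_le (by fun_prop) continuous_const).measurableSet

private theorem meas_lab38 (a b : ℕ) (δ : ℝ) :
    MeasurableSet {p : UnitAddCircle × UnitAddCircle | ‖a • p.1 - b • p.2‖ ≤ δ} :=
  (isClosed_le (by fun_prop) continuous_const).measurableSet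

private theorem meas_ann38 (j : ℕ) (r : ℝ) (α : UnitAddCircle) :
    MeasurableSet {p : UnitAddCircle × UnitAddCircle | p.1 ∈ ann j r α} := by
  have h1 : MeasurableSet {p : UnitAddCircle × UnitAddCircle | ‖p.1 - α‖ ≤ 2 ^ (j + 1) * r} :=
    (isClosed_le (by fun_prop) continuous_const).measurableSet
  have h2 : MeasurableSet {p : UnitAddCircle × UnitAddCircle | 2 ^ j * r ≤ ‖p.1 - α‖} :=
    (isClosed_le continuous_const (by fun_prop)).measurableSet
  exact h1.inter ((MeasurableSet.const (j = 0)).union h2)

private theorem meas_snd38 (c : ℝ) (α : UnitAddCircle) :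
    MeasurableSet {p : UnitAddCircle × UnitAddCircle | ‖p.2 - α‖ ≤ c} :=
  (isClosed_le (by fun_prop) continuous_const).measurableSet

theorem mem_lab {A B : Finset ℕ} {δ : ℝ} {y y' : UnitAddCircle} {v : ℕ × ℕ} :
    v ∈ lab A B δ y y' ↔ (v.1 ∈ A ∧ v.2 ∈ B) ∧ ‖v.1 • y - v.2 • y'‖ ≤ δ := by
  classical
  simp only [lab, mem_filter, mem_product]

theorem lab_card_le (A B : Finset ℕ) (δ : ℝ) (y y' : UnitAddCircle) :
    ((lab A B δ y y').card : ℝ) ≤ A.card * B.card := by
  classical
  have h : (lab A B δ y y').card ≤ A.card * B.card := by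
    rw [← card_product]
    exact card_filter_le _ _
  exact_mod_cast h

theorem measurable_lab (A B : Finset ℕ) (δ : ℝ) :
    Measurable fun p : UnitAddCircle × UnitAddCircle => ((lab A B δ p.1 p.2).card : ℝ) := by
  exact meas_filter38 (A ×ˢ B) δ

theorem measurable_labc (A B : Finset ℕ) (δ : ℝ) :
    Measurable fun p : UnitAddCircle × UnitAddCircle => ((labc A B δ p.1 p.2).card : ℝ) := by
  classical
  have h : ∀ p : UnitAddCircle × UnitAddCircle, labc A B δ p.1 p.2 =
      (open scoped Classical in ((A ×ˢ B).filter fun v => v.1.Coprime v.2).filter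
        fun v => ‖v.1 • p.1 - v.2 • p.2‖ ≤ δ) := by
    intro p
    ext v
    simp only [labc, lab, mem_filter]
    tauto
  simp only [h]
  exact meas_filter38 _ δ

theorem measurable_deg (A B : Finset ℕ) (δ : ℝ) (R : Set UnitAddCircle) :
    Measurable (deg A B δ R) := by
  have h := (measurable_lab A B δ).comp measurable_swap
  exact (StronglyMeasurable.integral_prod_right (ν := volume.restrict R)
    (f := fun (u y : UnitAddCircle) => ((lab A B δ y u).card : ℝ)) h.stronglyMeasurable).measurable

theorem deg_nonneg (A B : Finset ℕ) (δ : ℝ) (R : Set UnitAddCircle) (u : UnitAddCircle) :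
    0 ≤ deg A B δ R u ∧ deg A B δ R u ≤ A.card * B.card := by
  refine ⟨integral_nonneg fun y => by positivity, ?_⟩
  have h1 : ‖∫ y in R, ((lab A B δ y u).card : ℝ)‖ ≤
      ((A.card : ℝ) * B.card) * (volume.restrict R).real Set.univ := by
    apply norm_integral_le_of_norm_le_const
    refine Filter.Eventually.of_forall fun y => ?_
    rw [Real.norm_of_nonneg (by positivity)]
    exact lab_card_le A B δ y u
  have h2 : (volume.restrict R).real Set.univ ≤ 1 := by
    rw [measureReal_restrict_apply_univ]
    exact measureReal_le_one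
  have h3 : (0 : ℝ) ≤ (A.card : ℝ) * B.card := by positivity
  calc deg A B δ R u ≤ ‖∫ y in R, ((lab A B δ y u).card : ℝ)‖ := Real.le_norm_self _
    _ ≤ ((A.card : ℝ) * B.card) * (volume.restrict R).real Set.univ := h1
    _ ≤ ((A.card : ℝ) * B.card) * 1 := mul_le_mul_of_nonneg_left h2 h3
    _ = A.card * B.card := mul_one _

theorem measurable_wt (S k i j : ℕ) (Ia Ib : Finset ℕ) (r W : ℝ) (f : UnitAddCircle) :
    Measurable fun p : UnitAddCircle × UnitAddCircle => wt S k i j Ia Ib r W f p.1 p.2 := by
  classical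
  unfold wt
  refine Finset.measurable_fun_sum _ fun v _ => Finset.measurable_fun_sum _ fun α _ =>
    Measurable.ite ?_ measurable_const measurable_const
  exact (MeasurableSet.const _).inter ((meas_ann38 j r α).inter
    ((meas_snd38 _ f).inter (meas_lab38 v.1 v.2 _)))

theorem wt_bounds (S k i j : ℕ) (Ia Ib : Finset ℕ) (r W : ℝ) (f y u : UnitAddCircle) :
    0 ≤ wt S k i j Ia Ib r W f y u ∧ wt S k i j Ia Ib r W f y u ≤
      (PP S (range k)).card * (PP S ((range k).erase i)).card * (Fr r W).card := by
  classical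
  unfold wt
  constructor
  · refine sum_nonneg fun v _ => sum_nonneg fun α _ => ?_
    split_ifs <;> norm_num
  · calc _ ≤ ∑ v ∈ PP S (range k) ×ˢ PP S ((range k).erase i), ∑ α ∈ Fr r W, (1 : ℝ) := by
          refine sum_le_sum fun v _ => sum_le_sum fun α _ => ?_
          split_ifs <;> norm_num
      _ = (PP S (range k)).card * (PP S ((range k).erase i)).card * (Fr r W).card := by
          simp only [sum_const, card_product, nsmul_eq_mul, mul_one]
          push_cast
          ring

theorem measurable_nt (S k j : ℕ) (Ia Ib : Finset ℕ) (r W : ℝ) :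
    Measurable fun p : UnitAddCircle × UnitAddCircle => nt S k j Ia Ib r W p.1 p.2 := by
  classical
  unfold nt
  refine Finset.measurable_fun_sum _ fun v _ => Finset.measurable_fun_sum _ fun α _ =>
    Finset.measurable_fun_sum _ fun α' _ => Measurable.ite ?_ measurable_const measurable_const
  exact (MeasurableSet.const _).inter ((meas_ann38 j r α).inter
    ((meas_snd38 _ α').inter (meas_lab38 v.1 v.2 _)))

theorem nt_bounds (S k j : ℕ) (Ia Ib : Finset ℕ) (r W : ℝ) (y y' : UnitAddCircle) :
    0 ≤ nt S k j Ia Ib r W y y' ∧ nt S k j Ia Ib r W y y' ≤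
      (PP S (range k)).card ^ 2 * (Fr r W).card ^ 2 := by
  classical
  unfold nt
  constructor
  · refine sum_nonneg fun v _ => sum_nonneg fun α _ => sum_nonneg fun α' _ => ?_
    split_ifs <;> norm_num
  · calc _ ≤ ∑ v ∈ PP S (range k) ×ˢ PP S (range k), ∑ α ∈ Fr r W, ∑ α' ∈ Fr r W, (1 : ℝ) := by
          refine sum_le_sum fun v _ => sum_le_sum fun α _ => sum_le_sum fun α' _ => ?_
          split_ifs <;> norm_num
      _ = (PP S (range k)).card ^ 2 * (Fr r W).card ^ 2 := by
          simp only [sum_const, card_product, nsmul_eq_mul, mul_one]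
          push_cast
          ring

theorem measurable_EE (k j : ℕ) (r : ℝ) (t : ℕ) (f : UnitAddCircle) :
    MeasurableSet (EE k j r t f) := by
  classical
  by_cases hf : 0 < addOrderOf f
  · have h : EE k j r t f = ⋃ α ∈ (pt (addOrderOf f)).filter (fun α => t • α = f),
        {z : UnitAddCircle | ‖z - α‖ ≤ cc k * 2 ^ (j + 2) * r} := by
      ext y
      simp only [EE, Set.mem_ofPred_eq, Set.mem_iUnion, mem_filter, mem_pt hf, exists_prop]
      constructor
      · rintro ⟨α, h1, h2, h3, h4⟩
        exact ⟨α, ⟨h2, h1⟩, h4⟩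
      · rintro ⟨α, ⟨h2, h1⟩, h4⟩
        exact ⟨α, h1, h2, hf, h4⟩
    rw [h]
    exact Finset.measurableSet_biUnion _ fun a _ => measurableSet_ball' _ a
  · have h : EE k j r t f = ∅ := by
      ext y
      simp only [EE, Set.mem_ofPred_eq, Set.mem_empty_iff_false, iff_false]
      rintro ⟨α, h1, h2, h3, h4⟩
      exact hf h3
    rw [h]
    exact MeasurableSet.empty

theorem mem_Fr {r W : ℝ} {α : UnitAddCircle} :
    α ∈ Fr r W ↔ 1 ≤ addOrderOf α ∧ addOrderOf α ≤ ⌊W / r⌋₊ := by
  unfold Fr
  rw [mem_pts (by simp), mem_Icc]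

end Pool.Agent.Helper5.LE
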