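import Pool.Agent.Helper5.LE.FJ
import Pool.Agent.Helper5.LE.MS

/-!
# Block LE-N2: the labels with a common prime factor

Same computation as in block LE-N1 (`m = ⌊1/(8δ)⌋₊`, `1[‖x‖ ≤ δ] ≤ 32 δ Fe m x`): the left side is `≤ 32 δ ∑_{s ∈ Wd} ∑_{|n| < m} (1 - |n|/m) |∑_{P ∈ B} fc R (n s P)|^2`. The term `n = 0` is `|Wd| |B|^2 (vol R)^2`; for `n ≠ 0` it is at most `|B| ∑_{0 < |n| < m} ∑_{s ∈ Wd, P ∈ B} |fc R (n s P)|^2 ≤ |B| τ vol R` (a given `l ≠ 0`, `|l| ≤ Nb`, is `n s P` for at most `τ` pairs `(s, P)`, `hτ`; `fc_bessel`).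
-/

set_option autoImplicit false

namespace Pool.Agent.Helper5.LE

open MeasureTheory Finset
open Pool.Agent.Helper25.MOB

private theorem point75 {B : Finset ℕ} {δ : ℝ} (hδ : 0 < δ) (hδ1 : δ ≤ 1 / 16) (s : ℕ)
    (y y' : UnitAddCircle) :
    ((lab B B δ (s • y) (s • y')).card : ℝ) ≤
      32 * δ * ∑ v ∈ B ×ˢ B, Fe ⌊1 / (8 * δ)⌋₊ (v.1 • (s • y) - v.2 • (s • y')) := by
  classical
  set m := ⌊1 / (8 * δ)⌋₊ with hm
  have h8 : (0 : ℝ) < 8 * δ := by positivity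
  have h2 : (2 : ℝ) ≤ 1 / (8 * δ) := by rw [le_div_iff₀ h8]; linarith
  have hm1 : 1 ≤ m := Nat.le_floor (by push_cast; linarith)
  have hmu : (m : ℝ) ≤ 1 / (8 * δ) := Nat.floor_le (by positivity)
  have hml : 1 / (8 * δ) < m + 1 := Nat.lt_floor_add_one _
  have hm0 : (0 : ℝ) < m := by exact_mod_cast hm1
  have key : ∀ x : UnitAddCircle, (if ‖x‖ ≤ δ then (1 : ℝ) else 0) ≤ 32 * δ * Fe m x := by
    intro x
    have h0 := Fe_nonneg m x
    split_ifs with h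
    · have h3 : ‖x‖ ≤ 1 / (8 * m) := by
        refine h.trans ?_
        rw [le_div_iff₀ (by positivity)]
        have := (le_div_iff₀ h8).1 hmu
        linarith
      have h4 := Fe_ge hm1 h3
      have h5 : 1 ≤ 16 * δ * m := by
        have := (div_lt_iff₀ h8).1 hml
        nlinarith
      have h6 : 32 * δ * ((m : ℝ) / 2) ≤ 32 * δ * Fe m x := mul_le_mul_of_nonneg_left h4 (by positivity)
      linarith
    · positivity
  unfold lab
  rw [Finset.card_filter, Nat.cast_sum, Finset.mul_sum]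
  refine Finset.sum_le_sum fun v _ => ?_
  refine le_trans (le_of_eq ?_) (key (v.1 • (s • y) - v.2 • (s • y')))
  push_cast
  rfl

/-- the sum of the characters `n s P` -/
private noncomputable def gg75 (B : Finset ℕ) (s : ℕ) (n : ℤ) (y : UnitAddCircle) : ℂ :=
  ∑ P ∈ B, ex (n * s * P) y

private theorem continuous_gg75 (B : Finset ℕ) (s : ℕ) (n : ℤ) : Continuous (gg75 B s n) :=
  continuous_finsetSum _ fun _ _ => continuous_ex _

private theorem ex_sub75 (n : ℤ) (y z : UnitAddCircle) : ex n (y - z) = ex n y * (starRingEnd ℂ) (ex n z) := by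
  have h : ex n (-z) = (starRingEnd ℂ) (ex n z) := by
    rw [conj_ex]
    unfold ex
    rw [fourier_apply, fourier_apply, smul_neg, neg_smul]
  rw [sub_eq_add_neg, ex_add_arg, h]

private theorem expand75 {m : ℕ} (hm : 1 ≤ m) (B : Finset ℕ) (s : ℕ) (y y' : UnitAddCircle) :
    ((∑ v ∈ B ×ˢ B, Fe m (v.1 • (s • y) - v.2 • (s • y')) : ℝ) : ℂ) =
      ∑ n ∈ Ioo (-(m : ℤ)) m, ((1 - |(n : ℝ)| / m : ℝ) : ℂ) *
        (gg75 B s n y * (starRingEnd ℂ) (gg75 B s n y')) := by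
  rw [Complex.ofReal_sum]
  have h1 : ∀ v ∈ B ×ˢ B, ((Fe m (v.1 • (s • y) - v.2 • (s • y')) : ℝ) : ℂ) =
      ∑ n ∈ Ioo (-(m : ℤ)) m, ((1 - |(n : ℝ)| / m : ℝ) : ℂ) *
        (ex (n * s * v.1) y * (starRingEnd ℂ) (ex (n * s * v.2) y')) := by
    intro v _
    rw [Fe_expand hm]
    refine Finset.sum_congr rfl fun n _ => ?_
    rw [ex_sub75, ex_nsmul, ex_nsmul, ex_nsmul, ex_nsmul, mul_right_comm n (v.1 : ℤ) s,
      mul_right_comm n (v.2 : ℤ) s]
  rw [Finset.sum_congr rfl h1, Finset.sum_comm]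
  refine Finset.sum_congr rfl fun n _ => ?_
  rw [← Finset.mul_sum]
  congr 1
  unfold gg75
  rw [map_sum, Finset.sum_mul_sum, Finset.sum_product]

private theorem intC75 {R : Set UnitAddCircle} {f : UnitAddCircle → ℂ} (hf : Continuous f) :
    Integrable f (volume.restrict R) :=
  (hf.integrable_of_hasCompactSupport (HasCompactSupport.of_compactSpace f)).integrableOn

private theorem double75 {m : ℕ} (hm : 1 ≤ m) (B : Finset ℕ) (s : ℕ) (R : Set UnitAddCircle) :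
    ∫ y in R, ∫ y' in R, ∑ v ∈ B ×ˢ B, Fe m (v.1 • (s • y) - v.2 • (s • y')) =
      ∑ n ∈ Ioo (-(m : ℤ)) m, (1 - |(n : ℝ)| / m) * ‖∫ y in R, gg75 B s n y‖ ^ 2 := by
  have h1 : ((∫ y in R, ∫ y' in R, ∑ v ∈ B ×ˢ B, Fe m (v.1 • (s • y) - v.2 • (s • y')) : ℝ) : ℂ) =
      ((∑ n ∈ Ioo (-(m : ℤ)) m, (1 - |(n : ℝ)| / m) * ‖∫ y in R, gg75 B s n y‖ ^ 2 : ℝ) : ℂ) := by
    rw [← integral_complex_ofReal]
    have h2 : ∀ y : UnitAddCircle,
        ((∫ y' in R, ∑ v ∈ B ×ˢ B, Fe m (v.1 • (s • y) - v.2 • (s • y')) : ℝ) : ℂ) =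
        ∑ n ∈ Ioo (-(m : ℤ)) m, gg75 B s n y * (((1 - |(n : ℝ)| / m : ℝ) : ℂ) *
          (starRingEnd ℂ) (∫ y' in R, gg75 B s n y')) := by
      intro y
      rw [← integral_complex_ofReal]
      have h3 : ∀ y' : UnitAddCircle, ((∑ v ∈ B ×ˢ B, Fe m (v.1 • (s • y) - v.2 • (s • y')) : ℝ) : ℂ) =
          ∑ n ∈ Ioo (-(m : ℤ)) m, (gg75 B s n y * ((1 - |(n : ℝ)| / m : ℝ) : ℂ)) *
            (starRingEnd ℂ) (gg75 B s n y') := by
        intro y'
        rw [expand75 hm]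
        refine Finset.sum_congr rfl fun n _ => ?_
        ring
      rw [integral_congr_ae (Filter.Eventually.of_forall h3), integral_finsetSum]
      · refine Finset.sum_congr rfl fun n _ => ?_
        rw [integral_const_mul, integral_conj, mul_assoc]
      · intro n _
        exact (intC75 (Complex.continuous_conj.comp (continuous_gg75 B s n))).const_mul _
    rw [integral_congr_ae (Filter.Eventually.of_forall h2), integral_finsetSum]
    · rw [Complex.ofReal_sum]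
      refine Finset.sum_congr rfl fun n _ => ?_
      rw [integral_mul_const, Complex.ofReal_mul]
      have h4 := Complex.mul_conj' (∫ y in R, gg75 B s n y)
      push_cast
      rw [← h4]
      ring
    · intro n _
      exact (intC75 (continuous_gg75 B s n)).mul_const _
  exact_mod_cast h1

private theorem step75 {B : Finset ℕ} {δ : ℝ} (hδ : 0 < δ) (hδ1 : δ ≤ 1 / 16) (s : ℕ)
    {R : Set UnitAddCircle} :
    ∫ y in R, ∫ y' in R, ((lab B B δ (s • y) (s • y')).card : ℝ) ≤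
      32 * δ * ∑ n ∈ Ioo (-(⌊1 / (8 * δ)⌋₊ : ℤ)) (⌊1 / (8 * δ)⌋₊ : ℤ),
        (1 - |(n : ℝ)| / ⌊1 / (8 * δ)⌋₊) * ‖∫ y in R, gg75 B s n y‖ ^ 2 := by
  have h8 : (0 : ℝ) < 8 * δ := by positivity
  have h2 : (2 : ℝ) ≤ 1 / (8 * δ) := by rw [le_div_iff₀ h8]; linarith
  have hm1 : 1 ≤ ⌊1 / (8 * δ)⌋₊ := Nat.le_floor (by push_cast; linarith)
  rw [← double75 hm1 B s R]
  set m := ⌊1 / (8 * δ)⌋₊ with hm
  have hcont : Continuous fun p : UnitAddCircle × UnitAddCircle =>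
      32 * δ * ∑ v ∈ B ×ˢ B, Fe m (v.1 • (s • p.1) - v.2 • (s • p.2)) := by
    refine continuous_const.mul (continuous_finsetSum _ fun v _ => (continuous_Fe m).comp ?_)
    exact ((continuous_nsmul v.1).comp ((continuous_nsmul s).comp continuous_fst)).sub
      ((continuous_nsmul v.2).comp ((continuous_nsmul s).comp continuous_snd))
  have hint : Integrable (fun p : UnitAddCircle × UnitAddCircle =>
      32 * δ * ∑ v ∈ B ×ˢ B, Fe m (v.1 • (s • p.1) - v.2 • (s • p.2)))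
      ((volume.restrict R).prod (volume.restrict R)) :=
    hcont.integrable_of_hasCompactSupport (HasCompactSupport.of_compactSpace _)
  have hin : ∀ y : UnitAddCircle, ∫ y' in R, ((lab B B δ (s • y) (s • y')).card : ℝ) ≤
      ∫ y' in R, 32 * δ * ∑ v ∈ B ×ˢ B, Fe m (v.1 • (s • y) - v.2 • (s • y')) := by
    intro y
    refine integral_mono_of_nonneg (Filter.Eventually.of_forall fun y' => Nat.cast_nonneg _) ?_
      (Filter.Eventually.of_forall fun y' => point75 hδ hδ1 s y y')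
    exact ((hcont.comp (Continuous.prodMk_right y)).integrable_of_hasCompactSupport
      (HasCompactSupport.of_compactSpace _)).integrableOn
  calc ∫ y in R, ∫ y' in R, ((lab B B δ (s • y) (s • y')).card : ℝ)
      ≤ ∫ y in R, ∫ y' in R, 32 * δ * ∑ v ∈ B ×ˢ B, Fe m (v.1 • (s • y) - v.2 • (s • y')) :=
        integral_mono_of_nonneg
          (Filter.Eventually.of_forall fun y => integral_nonneg fun y' => Nat.cast_nonneg _)
          hint.integral_prod_left (Filter.Eventually.of_forall hin)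
    _ = _ := by
        simp only [integral_const_mul]

private theorem one75 (B : Finset ℕ) (s : ℕ) (R : Set UnitAddCircle) (n : ℤ) :
    ‖∫ y in R, gg75 B s n y‖ ^ 2 ≤ B.card * ∑ P ∈ B, ‖fc R (n * s * P)‖ ^ 2 := by
  have h1 : ∫ y in R, gg75 B s n y = ∑ P ∈ B, fc R (n * s * P) := by
    unfold gg75 fc
    exact integral_finsetSum _ fun P _ => intC75 (continuous_ex _)
  rw [h1]
  calc ‖∑ P ∈ B, fc R (n * s * P)‖ ^ 2 ≤ (∑ P ∈ B, ‖fc R (n * s * P)‖) ^ 2 :=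
        pow_le_pow_left₀ (norm_nonneg _) (norm_sum_le _ _) 2
    _ ≤ B.card * ∑ P ∈ B, ‖fc R (n * s * P)‖ ^ 2 := sq_sum_le_card_mul_sum_sq

private theorem zero75 (B : Finset ℕ) (s : ℕ) (R : Set UnitAddCircle) :
    ‖∫ y in R, gg75 B s 0 y‖ ^ 2 = (B.card : ℝ) ^ 2 * (volume.real R) ^ 2 := by
  have h1 : ∀ y, gg75 B s 0 y = (B.card : ℂ) := by
    intro y
    unfold gg75
    simp [ex_zero]
  rw [integral_congr_ae (Filter.Eventually.of_forall h1), integral_const, norm_smul]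
  simp only [measureReal_restrict_apply_univ, Real.norm_eq_abs, Complex.norm_natCast]
  rw [mul_pow, sq_abs, mul_comm]

private theorem fib75 {Wd B : Finset ℕ} {δ X0 Nb : ℝ} {τ m : ℕ}
    (hX0 : ∀ s ∈ Wd, ∀ P ∈ B, 0 < s * P ∧ ((s * P : ℕ) : ℝ) ≤ X0) (hδ : 0 < δ)
    (hX : X0 ≤ δ * Nb) (hm : (m : ℝ) * (8 * δ) ≤ 1)
    (hτ : ∀ n : ℕ, 0 < n → (n : ℝ) ≤ Nb → ((Wd ×ˢ B).filter fun v => v.1 * v.2 ∣ n).card ≤ τ)
    {R : Set UnitAddCircle} (hR : MeasurableSet R) :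
    ∑ t ∈ ((Ioo (-(m : ℤ)) m).filter (· ≠ 0)) ×ˢ (Wd ×ˢ B), ‖fc R (t.1 * t.2.1 * t.2.2)‖ ^ 2 ≤
      τ * volume.real R := by
  classical
  set T := ((Ioo (-(m : ℤ)) m).filter (· ≠ 0)) ×ˢ (Wd ×ˢ B) with hT
  have h1 := Finset.sum_comp (s := T) (fun l : ℤ => ‖fc R l‖ ^ 2) (fun t : ℤ × ℕ × ℕ => t.1 * t.2.1 * t.2.2)
  rw [h1]
  calc ∑ l ∈ T.image (fun t : ℤ × ℕ × ℕ => t.1 * t.2.1 * t.2.2),
        (T.filter fun t : ℤ × ℕ × ℕ => t.1 * t.2.1 * t.2.2 = l).card • ‖fc R l‖ ^ 2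
      ≤ ∑ l ∈ T.image (fun t : ℤ × ℕ × ℕ => t.1 * t.2.1 * t.2.2), (τ : ℝ) * ‖fc R l‖ ^ 2 := by
        refine Finset.sum_le_sum fun l hl => ?_
        rw [nsmul_eq_mul]
        refine mul_le_mul_of_nonneg_right ?_ (by positivity)
        obtain ⟨t0, ht0, rfl⟩ := Finset.mem_image.1 hl
        obtain ⟨ht1, ht2⟩ := Finset.mem_product.1 ht0
        obtain ⟨ht3, ht4⟩ := Finset.mem_filter.1 ht1
        obtain ⟨ht5, ht6⟩ := Finset.mem_product.1 ht2
        obtain ⟨hp, hX1⟩ := hX0 _ ht5 _ ht6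
        have hnb : (((t0.1 * t0.2.1 * t0.2.2 : ℤ).natAbs : ℕ) : ℝ) ≤ Nb := by
          rw [mul_assoc, Int.natAbs_mul]
          have h3 : (t0.2.1 * t0.2.2 : ℤ).natAbs = t0.2.1 * t0.2.2 := by
            rw [← Nat.cast_mul, Int.natAbs_natCast]
          rw [h3]
          have h4 : t0.1.natAbs ≤ m := by
            rw [Finset.mem_Ioo] at ht3
            omega
          have h5 : ((t0.1.natAbs * (t0.2.1 * t0.2.2) : ℕ) : ℝ) ≤ m * X0 := by
            rw [Nat.cast_mul]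
            exact mul_le_mul (by exact_mod_cast h4) hX1 (Nat.cast_nonneg _) (Nat.cast_nonneg _)
          have h6 : (0 : ℝ) < X0 := lt_of_lt_of_le (by exact_mod_cast hp) hX1
          have h7 : 0 < Nb := by
            by_contra h
            have := mul_nonpos_of_nonneg_of_nonpos hδ.le (not_lt.1 h)
            linarith
          have h8 : (m : ℝ) * X0 ≤ m * (δ * Nb) := mul_le_mul_of_nonneg_left hX (Nat.cast_nonneg _)
          have h9 : (m : ℝ) * (δ * Nb) * 8 ≤ 1 * Nb := by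
            calc (m : ℝ) * (δ * Nb) * 8 = (m * (8 * δ)) * Nb := by ring
              _ ≤ 1 * Nb := mul_le_mul_of_nonneg_right hm h7.le
          linarith
        have hpos : 0 < (t0.1 * t0.2.1 * t0.2.2 : ℤ).natAbs := by
          rw [Int.natAbs_pos, mul_assoc]
          exact mul_ne_zero ht4 (by exact_mod_cast hp.ne')
        refine le_trans ?_ (Nat.cast_le.2 (hτ _ hpos hnb))
        rw [Nat.cast_le]
        refine Finset.card_le_card_of_injOn (fun t => t.2) ?_ ?_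
        · intro t ht
          obtain ⟨ht7, ht8⟩ := Finset.mem_filter.1 ht
          obtain ⟨_, ht9⟩ := Finset.mem_product.1 ht7
          refine Finset.mem_filter.2 ⟨ht9, ?_⟩
          rw [← ht8, mul_assoc, Int.natAbs_mul]
          have h3 : (t.2.1 * t.2.2 : ℤ).natAbs = t.2.1 * t.2.2 := by
            rw [← Nat.cast_mul, Int.natAbs_natCast]
          rw [h3]
          exact Dvd.intro_left _ rfl
        · intro t ht t' ht' he
          obtain ⟨ht7, ht8⟩ := Finset.mem_filter.1 ht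
          obtain ⟨ht7', ht8'⟩ := Finset.mem_filter.1 ht'
          have he' : t.2 = t'.2 := he
          obtain ⟨_, ht9⟩ := Finset.mem_product.1 ht7
          obtain ⟨ht10, ht11⟩ := Finset.mem_product.1 ht9
          have hq := (hX0 _ ht10 _ ht11).1
          have h3 : t.1 * (t.2.1 * t.2.2 : ℤ) = t'.1 * (t.2.1 * t.2.2 : ℤ) := by
            rw [← mul_assoc, ht8, ← ht8', mul_assoc, he']
          have h4 : (t.2.1 * t.2.2 : ℤ) ≠ 0 := by exact_mod_cast hq.ne'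
          exact Prod.ext (mul_right_cancel₀ h4 h3) he'
    _ = τ * ∑ l ∈ T.image (fun t : ℤ × ℕ × ℕ => t.1 * t.2.1 * t.2.2), ‖fc R l‖ ^ 2 := by
        rw [Finset.mul_sum]
    _ ≤ τ * volume.real R := mul_le_mul_of_nonneg_left (fc_bessel hR _) (Nat.cast_nonneg _)

theorem cnt_diag {Wd B : Finset ℕ} {δ X0 Nb : ℝ} {τ : ℕ}
    (hX0 : ∀ s ∈ Wd, ∀ P ∈ B, 0 < s * P ∧ ((s * P : ℕ) : ℝ) ≤ X0) (hδ : 0 < δ)
    (hδ1 : δ ≤ 1 / 16) (hX : X0 ≤ δ * Nb)
    (hτ : ∀ n : ℕ, 0 < n → (n : ℝ) ≤ Nb → ((Wd ×ˢ B).filter fun v => v.1 * v.2 ∣ n).card ≤ τ)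
    {R : Set UnitAddCircle} (hR : MeasurableSet R) :
    ∑ s ∈ Wd, ∫ y in R, ∫ y' in R, ((lab B B δ (s • y) (s • y')).card : ℝ) ≤
      32 * δ * (Wd.card * (B.card : ℝ) ^ 2 * (volume.real R) ^ 2 + B.card * τ * volume.real R) := by
  classical
  have h8 : (0 : ℝ) < 8 * δ := by positivity
  have h2 : (2 : ℝ) ≤ 1 / (8 * δ) := by rw [le_div_iff₀ h8]; linarith
  set m := ⌊1 / (8 * δ)⌋₊ with hmdef
  have hm1 : 1 ≤ m := Nat.le_floor (by push_cast; linarith)
  have hm0 : (0 : ℝ) < m := by exact_mod_cast hm1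
  have hm : (m : ℝ) * (8 * δ) ≤ 1 := (le_div_iff₀ h8).1 (Nat.floor_le (by positivity))
  have hs : ∀ s ∈ Wd, ∫ y in R, ∫ y' in R, ((lab B B δ (s • y) (s • y')).card : ℝ) ≤
      32 * δ * ((B.card : ℝ) ^ 2 * (volume.real R) ^ 2 +
        ∑ n ∈ (Ioo (-(m : ℤ)) m).filter (· ≠ 0), B.card * ∑ P ∈ B, ‖fc R (n * s * P)‖ ^ 2) := by
    intro s _
    refine (step75 hδ hδ1 s).trans (mul_le_mul_of_nonneg_left ?_ (by positivity))
    rw [← hmdef]
    have hz : (0 : ℤ) ∈ Ioo (-(m : ℤ)) m := by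
      rw [Finset.mem_Ioo]
      omega
    rw [← Finset.add_sum_erase _ _ hz, zero75]
    have he : (Ioo (-(m : ℤ)) m).erase 0 = (Ioo (-(m : ℤ)) m).filter (· ≠ 0) := by
      ext x
      simp [and_comm]
    rw [he]
    refine add_le_add (le_of_eq ?_) (Finset.sum_le_sum fun n hn => ?_)
    · simp
    · have h5 : (1 - |(n : ℝ)| / m) ≤ 1 := by
        have : 0 ≤ |(n : ℝ)| / m := by positivity
        linarith
      calc (1 - |(n : ℝ)| / m) * ‖∫ y in R, gg75 B s n y‖ ^ 2 ≤ 1 * ‖∫ y in R, gg75 B s n y‖ ^ 2 :=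
            mul_le_mul_of_nonneg_right h5 (by positivity)
        _ ≤ _ := by rw [one_mul]; exact one75 B s R n
  refine (Finset.sum_le_sum hs).trans ?_
  rw [← Finset.mul_sum]
  refine mul_le_mul_of_nonneg_left ?_ (by positivity)
  rw [Finset.sum_add_distrib, Finset.sum_const, nsmul_eq_mul, mul_assoc (Wd.card : ℝ)]
  refine add_le_add le_rfl ?_
  have h6 := fib75 (m := m) hX0 hδ hX hm hτ hR
  have h7 : ∑ s ∈ Wd, ∑ n ∈ (Ioo (-(m : ℤ)) m).filter (· ≠ 0), (B.card : ℝ) * ∑ P ∈ B, ‖fc R (n * s * P)‖ ^ 2 =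
      B.card * ∑ t ∈ ((Ioo (-(m : ℤ)) m).filter (· ≠ 0)) ×ˢ (Wd ×ˢ B), ‖fc R (t.1 * t.2.1 * t.2.2)‖ ^ 2 := by
    rw [Finset.sum_product, Finset.sum_comm, Finset.mul_sum]
    refine Finset.sum_congr rfl fun n _ => ?_
    rw [Finset.sum_product, Finset.mul_sum]
  rw [h7, mul_assoc (B.card : ℝ)]
  exact mul_le_mul_of_nonneg_left h6 (Nat.cast_nonneg _)

end Pool.Agent.Helper5.LE
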