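import Pool.Agent.Helper5.LE.XA
import Pool.Agent.Helper5.LE.PC
import Pool.Agent.Helper5.LE.NB

/-!
# Block LE-X4: the labels which are not coprime

Notation as in block LE-X1. `lab_sub`: a label `(P, P')` of `(y, y')` which is not coprime is `(s Q, s Q')` with `s ∈ win S i`, `Q, Q' ∈ B_i = PP S ((range k).erase i)` (`PP_not_coprime`), i.e. `(Q, Q')` is a label of `(s y, s y')`; so `#lab ≤ #labc + ∑_{i<k} ∑_{s ∈ win S i} #lab B_i B_i δ (s y) (s y')`.
`cnt_diag` for each `i < k`, `X0 = c S^k ≤ δ Nb`, `Nb = N²`, `δ = r S^k`; `hτ`: `(s, Q) ↦ s Q ∈ PP S (range k)` is injective (`s` is the only prime factor in the window `i`), so at most `τ` pairs with `s Q ∣ n` (`Hyp.hdiv`). Sum over `i`: `≤ 32 k r S^k (c S c² S^(2k-2) ρ² + c S^(k-1) τ ρ) ≤ 64 k c³ τ r S^(2k-1) ρ` (`S^k ρ ≤ 1`), and `64 k c³ τ N^(e-1) / S ≤ N^(-1-5e) / 2`, as `1/S ≤ N^(-κ+e/8)`, `κ = 100 e`. Finally `N^(-1-5e)/2 ≥ N^(-1-6e)`.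
-/

set_option autoImplicit false

namespace Pool.Agent.Helper5.LE

open MeasureTheory Finset Filter
open Pool.Agent.Helper25.MOB

theorem lab_sub {S k : ℕ} (hS : 1 ≤ S) (δ : ℝ) (y y' : UnitAddCircle) :
    (lab (PP S (range k)) (PP S (range k)) δ y y').card ≤
      (labc (PP S (range k)) (PP S (range k)) δ y y').card +
      ∑ i ∈ range k, ∑ s ∈ win S i,
        (lab (PP S ((range k).erase i)) (PP S ((range k).erase i)) δ (s • y) (s • y')).card := by
  classical
  set L := lab (PP S (range k)) (PP S (range k)) δ y y' with hL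
  have h1 : L.card = (L.filter fun v => v.1.Coprime v.2).card +
      (L.filter fun v => ¬ v.1.Coprime v.2).card :=
    (Finset.card_filter_add_card_filter_not _).symm
  have h2 : (L.filter fun v => v.1.Coprime v.2).card =
      (labc (PP S (range k)) (PP S (range k)) δ y y').card := by
    unfold labc
    congr 1
  rw [h1, h2]
  refine Nat.add_le_add_left ?_ _
  have h3 : (L.filter fun v => ¬ v.1.Coprime v.2) ⊆
      (range k).biUnion fun i => (win S i).biUnion fun s =>
        (lab (PP S ((range k).erase i)) (PP S ((range k).erase i)) δ (s • y) (s • y')).image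
          fun v => (s * v.1, s * v.2) := by
    intro v hv
    obtain ⟨hv1, hv2⟩ := mem_filter.1 hv
    obtain ⟨⟨hv3, hv4⟩, hv5⟩ := mem_lab.1 hv1
    obtain ⟨i, hi, s, hs, Q, hQ, Q', hQ', e1, e2⟩ := PP_not_coprime hS hv3 hv4 hv2
    refine mem_biUnion.2 ⟨i, hi, mem_biUnion.2 ⟨s, hs, mem_image.2 ⟨(Q, Q'), ?_, ?_⟩⟩⟩
    · refine mem_lab.2 ⟨⟨hQ, hQ'⟩, ?_⟩
      rw [← mul_smul, ← mul_smul, mul_comm Q, mul_comm Q', ← e1, ← e2]
      exact hv5
    · exact Prod.ext e1.symm e2.symm
  refine (card_le_card h3).trans (card_biUnion_le.trans (sum_le_sum fun i _ => ?_))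
  exact card_biUnion_le.trans (sum_le_sum fun s _ => card_image_le)

private theorem int2_34 {g : UnitAddCircle × UnitAddCircle → ℝ} (hg : Measurable g) {C : ℝ}
    (h0 : ∀ p, 0 ≤ g p) (hC : ∀ p, g p ≤ C) (R : Set UnitAddCircle) :
    (∀ y, Integrable (fun y' => g (y, y')) (volume.restrict R)) ∧
      Integrable (fun y => ∫ y' in R, g (y, y')) (volume.restrict R) := by
  have hn : ∀ p, ‖g p‖ ≤ C := fun p => by
    rw [Real.norm_of_nonneg (h0 p)]
    exact hC p
  constructor
  · intro y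
    exact Integrable.of_bound (hg.comp measurable_prodMk_left).aestronglyMeasurable C
      (Eventually.of_forall fun y' => hn (y, y'))
  · have h1 : Integrable g ((volume.restrict R).prod (volume.restrict R)) :=
      Integrable.of_bound hg.aestronglyMeasurable C (Eventually.of_forall hn)
    exact h1.integral_prod_left

private theorem labs_34 (B : Finset ℕ) (δ : ℝ) (s : ℕ) (R : Set UnitAddCircle) :
    (∀ y, Integrable (fun y' => ((lab B B δ (s • y) (s • y')).card : ℝ)) (volume.restrict R)) ∧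
      Integrable (fun y => ∫ y' in R, ((lab B B δ (s • y) (s • y')).card : ℝ))
        (volume.restrict R) := by
  have hc : Measurable fun p : UnitAddCircle × UnitAddCircle => (s • p.1, s • p.2) :=
    (((continuous_nsmul s).measurable).comp measurable_fst).prodMk
      (((continuous_nsmul s).measurable).comp measurable_snd)
  have hm : Measurable fun p : UnitAddCircle × UnitAddCircle =>
      ((lab B B δ (s • p.1) (s • p.2)).card : ℝ) := by
    have := (measurable_lab B B δ).comp hc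
    exact this
  have hb : ∀ p : UnitAddCircle × UnitAddCircle,
      ((lab B B δ (s • p.1) (s • p.2)).card : ℝ) ≤ (B.card : ℝ) * B.card :=
    fun p => lab_card_le B B δ (s • p.1) (s • p.2)
  have h0 : ∀ p : UnitAddCircle × UnitAddCircle,
      (0 : ℝ) ≤ ((lab B B δ (s • p.1) (s • p.2)).card : ℝ) := fun _ => Nat.cast_nonneg _
  exact int2_34 hm h0 hb R

private theorem labc_34 (A : Finset ℕ) (δ : ℝ) (R : Set UnitAddCircle) :
    (∀ y, Integrable (fun y' => ((labc A A δ y y').card : ℝ)) (volume.restrict R)) ∧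
      Integrable (fun y => ∫ y' in R, ((labc A A δ y y').card : ℝ))
        (volume.restrict R) := by
  refine int2_34 (g := fun p => ((labc A A δ p.1 p.2).card : ℝ))
    (measurable_labc A A δ) (fun _ => Nat.cast_nonneg _)
    (fun p => ?_) R (C := A.card * A.card)
  refine le_trans ?_ (lab_card_le A A δ p.1 p.2)
  exact_mod_cast card_filter_le _ _

private theorem lab_34 (A : Finset ℕ) (δ : ℝ) (R : Set UnitAddCircle) :
    (∀ y, Integrable (fun y' => ((lab A A δ y y').card : ℝ)) (volume.restrict R)) ∧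
      Integrable (fun y => ∫ y' in R, ((lab A A δ y y').card : ℝ))
        (volume.restrict R) :=
  int2_34 (g := fun p => ((lab A A δ p.1 p.2).card : ℝ))
    (measurable_lab A A δ) (fun _ => Nat.cast_nonneg _)
    (fun p => lab_card_le A A δ p.1 p.2) R

private theorem integ34 {S k : ℕ} (hS : 1 ≤ S) (δ : ℝ) (R : Set UnitAddCircle) :
    ∫ y in R, ∫ y' in R, ((lab (PP S (range k)) (PP S (range k)) δ y y').card : ℝ) ≤
      (∫ y in R, ∫ y' in R, ((labc (PP S (range k)) (PP S (range k)) δ y y').card : ℝ)) +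
      ∑ i ∈ range k, ∑ s ∈ win S i, ∫ y in R, ∫ y' in R,
        ((lab (PP S ((range k).erase i)) (PP S ((range k).erase i)) δ (s • y) (s • y')).card : ℝ) := by
  have hpt : ∀ y y' : UnitAddCircle, ((lab (PP S (range k)) (PP S (range k)) δ y y').card : ℝ) ≤
      ((labc (PP S (range k)) (PP S (range k)) δ y y').card : ℝ) + ∑ i ∈ range k, ∑ s ∈ win S i,
        ((lab (PP S ((range k).erase i)) (PP S ((range k).erase i)) δ (s • y) (s • y')).card : ℝ) := by
    intro y y'
    exact_mod_cast lab_sub hS δ y y'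
  have i1 : ∀ y : UnitAddCircle, Integrable (fun y' => ∑ i ∈ range k, ∑ s ∈ win S i,
        ((lab (PP S ((range k).erase i)) (PP S ((range k).erase i)) δ (s • y) (s • y')).card : ℝ))
        (volume.restrict R) := fun y =>
    integrable_finsetSum _ fun i _ => integrable_finsetSum _ fun s _ => (labs_34 _ δ s R).1 y
  have e1 : ∀ y : UnitAddCircle, ∫ y' in R,
      (((labc (PP S (range k)) (PP S (range k)) δ y y').card : ℝ) + ∑ i ∈ range k, ∑ s ∈ win S i,
        ((lab (PP S ((range k).erase i)) (PP S ((range k).erase i)) δ (s • y) (s • y')).card : ℝ)) =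
      (∫ y' in R, ((labc (PP S (range k)) (PP S (range k)) δ y y').card : ℝ)) +
        ∑ i ∈ range k, ∑ s ∈ win S i, ∫ y' in R,
        ((lab (PP S ((range k).erase i)) (PP S ((range k).erase i)) δ (s • y) (s • y')).card : ℝ) := by
    intro y
    rw [integral_add ((labc_34 _ δ R).1 y) (i1 y),
      integral_finsetSum _ fun i _ => integrable_finsetSum _ fun s _ => (labs_34 _ δ s R).1 y]
    congr 1
    refine sum_congr rfl fun i _ => ?_
    rw [integral_finsetSum _ fun s _ => (labs_34 _ δ s R).1 y]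
  have i2 : Integrable (fun y => ∑ i ∈ range k, ∑ s ∈ win S i, ∫ y' in R,
        ((lab (PP S ((range k).erase i)) (PP S ((range k).erase i)) δ (s • y) (s • y')).card : ℝ))
        (volume.restrict R) :=
    integrable_finsetSum _ fun i _ => integrable_finsetSum _ fun s _ => (labs_34 _ δ s R).2
  have e2 : ∫ y in R, ((∫ y' in R, ((labc (PP S (range k)) (PP S (range k)) δ y y').card : ℝ)) +
        ∑ i ∈ range k, ∑ s ∈ win S i, ∫ y' in R,
        ((lab (PP S ((range k).erase i)) (PP S ((range k).erase i)) δ (s • y) (s • y')).card : ℝ)) =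
      (∫ y in R, ∫ y' in R, ((labc (PP S (range k)) (PP S (range k)) δ y y').card : ℝ)) +
      ∑ i ∈ range k, ∑ s ∈ win S i, ∫ y in R, ∫ y' in R,
        ((lab (PP S ((range k).erase i)) (PP S ((range k).erase i)) δ (s • y) (s • y')).card : ℝ) := by
    rw [integral_add (labc_34 _ δ R).2 i2,
      integral_finsetSum _ fun i _ => integrable_finsetSum _ fun s _ => (labs_34 _ δ s R).2]
    congr 1
    refine sum_congr rfl fun i _ => ?_
    rw [integral_finsetSum _ fun s _ => (labs_34 _ δ s R).2]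
  rw [← e2]
  refine integral_mono (lab_34 _ δ R).2 ((labc_34 _ δ R).2.add i2) fun y => ?_
  change _ ≤ (∫ y' in R, ((labc (PP S (range k)) (PP S (range k)) δ y y').card : ℝ)) +
        ∑ i ∈ range k, ∑ s ∈ win S i, ∫ y' in R,
        ((lab (PP S ((range k).erase i)) (PP S ((range k).erase i)) δ (s • y) (s • y')).card : ℝ)
  rw [← e1]
  exact integral_mono ((lab_34 _ δ R).1 y) (((labc_34 _ δ R).1 y).add (i1 y)) fun y' => hpt y y'

private theorem diag34 {S k τ i : ℕ} {r W Nb κ' : ℝ} (H : Hyp S k τ r W Nb κ')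
    (hi : i ∈ range k) {R : Set UnitAddCircle} (hR : MeasurableSet R)
    (hρ : (S : ℝ) ^ k * volume.real R ≤ 1) :
    ∑ s ∈ win S i, ∫ y in R, ∫ y' in R,
        ((lab (PP S ((range k).erase i)) (PP S ((range k).erase i)) (r * S ^ k)
          (s • y) (s • y')).card : ℝ) ≤
      64 * cc k ^ 3 * τ * r * volume.real R * (S : ℝ) ^ (2 * k - 1) := by
  classical
  have hS1 : 1 ≤ S := le_trans (by norm_num) H.hS
  have hS2 : (2 : ℝ) ≤ S := by exact_mod_cast H.hS
  have hS0 : (0 : ℝ) < S := by linarith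
  have hr := H.hr
  have hc1 : (1 : ℝ) ≤ cc k := by
    have : 1 ≤ cc k := Nat.one_le_two_pow
    exact_mod_cast this
  have hτ1 : (1 : ℝ) ≤ τ := by exact_mod_cast H.hτ
  have hSk : (0 : ℝ) < (S : ℝ) ^ k := by positivity
  have h1 := cnt_diag (Wd := win S i) (B := PP S ((range k).erase i)) (δ := r * S ^ k)
    (X0 := cc k * (S : ℝ) ^ k) (Nb := Nb) (τ := τ) (by
      intro s hs P hP
      have h2 := PP_mul hi hs hP
      refine ⟨PP_pos h2, ?_⟩
      have h3 := (PP_bounds subset_rfl h2).2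
      rw [card_range] at h3
      exact_mod_cast h3) (by positivity) H.hsmall (by
      have h2 := H.hNb1
      calc cc k * (S : ℝ) ^ k ≤ (r * Nb) * (S : ℝ) ^ k := mul_le_mul_of_nonneg_right h2 hSk.le
        _ = r * S ^ k * Nb := by ring) (by
      intro n hn hn'
      have h2 := H.hdiv (range k) subset_rfl n hn hn'
      refine le_trans ?_ h2
      refine Finset.card_le_card_of_injOn (fun v => v.1 * v.2) ?_ ?_
      · intro v hv
        obtain ⟨hv1, hv2⟩ := mem_filter.1 hv
        obtain ⟨hv3, hv4⟩ := mem_product.1 hv1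
        exact mem_filter.2 ⟨PP_mul hi hv3 hv4, hv2⟩
      · intro v hv w hw hvw
        obtain ⟨hv1, hv2⟩ := mem_filter.1 hv
        obtain ⟨hv3, hv4⟩ := mem_product.1 hv1
        obtain ⟨hw1, hw2⟩ := mem_filter.1 hw
        obtain ⟨hw3, hw4⟩ := mem_product.1 hw1
        have hvw' : v.1 * v.2 = w.1 * w.2 := hvw
        have hp := (mem_win.1 hv3).2
        have hq := (mem_win.1 hw3).2
        have h3 : v.1 ∣ w.1 * w.2 := hvw' ▸ Nat.dvd_mul_right v.1 v.2
        have h4 : v.1 = w.1 := by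
          rcases hp.dvd_mul.1 h3 with h5 | h5
          · exact (Nat.prime_dvd_prime_iff_eq hp hq).1 h5
          · exact absurd h5 (PP_not_dvd hS1 (notMem_erase i _) hv3 hw4)
        refine Prod.ext h4 ?_
        rw [h4] at hvw'
        exact Nat.eq_of_mul_eq_mul_left hq.pos hvw') hR
  refine h1.trans ?_
  have hk : 1 ≤ k := H.hk
  have hW : ((win S i).card : ℝ) ≤ cc k * S := by
    have h2 := PP_card_le (S := S) (k := k) (I := {i}) (by simpa using hi)
    rw [PP_singleton, card_singleton, pow_one] at h2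
    exact_mod_cast h2
  have hB : ((PP S ((range k).erase i)).card : ℝ) ≤ cc k * (S : ℝ) ^ (k - 1) := by
    have h2 := PP_card_le (S := S) (k := k) (I := (range k).erase i) (erase_subset _ _)
    rw [card_erase_of_mem hi, card_range] at h2
    exact_mod_cast h2
  have hρ0 : 0 ≤ volume.real R := measureReal_nonneg
  generalize volume.real R = ρ at *
  generalize ((win S i).card : ℝ) = ω at *
  obtain ⟨β, hβ⟩ : ∃ β : ℝ, β = ((PP S ((range k).erase i)).card : ℝ) := ⟨_, rfl⟩
  have hβ0 : 0 ≤ β := by rw [hβ]; positivity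
  rw [← hβ] at hB ⊢
  have e1 : (S : ℝ) ^ k = S * (S : ℝ) ^ (k - 1) := by
    rw [← pow_succ']
    congr 1
    omega
  have e2 : (S : ℝ) ^ (2 * k - 1) = S * ((S : ℝ) ^ (k - 1)) ^ 2 := by
    rw [← pow_mul, ← pow_succ']
    congr 1
    omega
  rw [e2]
  rw [e1] at hρ ⊢
  have hT : (0 : ℝ) < (S : ℝ) ^ (k - 1) := by positivity
  generalize (S : ℝ) ^ (k - 1) = T at *
  generalize (cc k : ℝ) = c at *
  have t1 : ω * β ^ 2 * ρ ^ 2 ≤ c ^ 3 * T * ρ := by
    have u1 : ω * β ^ 2 ≤ (c * S) * (c * T) ^ 2 :=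
      mul_le_mul hW (pow_le_pow_left₀ hβ0 hB 2) (by positivity) (by positivity)
    calc ω * β ^ 2 * ρ ^ 2 ≤ (c * S) * (c * T) ^ 2 * ρ ^ 2 :=
          mul_le_mul_of_nonneg_right u1 (by positivity)
      _ = (S * T * ρ) * (c ^ 3 * T * ρ) := by ring
      _ ≤ 1 * (c ^ 3 * T * ρ) := mul_le_mul_of_nonneg_right hρ (by positivity)
      _ = c ^ 3 * T * ρ := one_mul _
  have t2 : β * τ * ρ ≤ c * T * τ * ρ :=
    mul_le_mul_of_nonneg_right (mul_le_mul_of_nonneg_right hB (by positivity)) hρ0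
  have t3 : c ^ 3 * T * ρ ≤ c ^ 3 * τ * T * ρ := by
    calc c ^ 3 * T * ρ = 1 * (c ^ 3 * T * ρ) := (one_mul _).symm
      _ ≤ τ * (c ^ 3 * T * ρ) := mul_le_mul_of_nonneg_right hτ1 (by positivity)
      _ = c ^ 3 * τ * T * ρ := by ring
  have t4 : c * T * τ * ρ ≤ c ^ 3 * τ * T * ρ := by
    have hc2 : (1 : ℝ) ≤ c ^ 2 := one_le_pow₀ hc1
    calc c * T * τ * ρ = 1 * (c * T * τ * ρ) := (one_mul _).symm
      _ ≤ c ^ 2 * (c * T * τ * ρ) := mul_le_mul_of_nonneg_right hc2 (by positivity)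
      _ = c ^ 3 * τ * T * ρ := by ring
  calc 32 * (r * (S * T)) * (ω * β ^ 2 * ρ ^ 2 + β * τ * ρ)
      ≤ 32 * (r * (S * T)) * (c ^ 3 * τ * T * ρ + c ^ 3 * τ * T * ρ) := by
        refine mul_le_mul_of_nonneg_left ?_ (by positivity)
        linarith
    _ = 64 * c ^ 3 * τ * r * ρ * (S * T ^ 2) := by ring

theorem copr_ev {k : ℕ} (hk : 1 ≤ k) : ∀ᶠ N : ℕ in atTop, ∀ R : Set UnitAddCircle,
    MeasurableSet R → 0 < volume.real R →
    volume.real R ≤ (N : ℝ) ^ (-1 / 3 - 100 * kap k) →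
    (N : ℝ) ^ (-1 - 5 * ep k) * volume.real R * (SS k N : ℝ) ^ (2 * k) ≤
      ∫ y in R, ∫ y' in R, ((lab (PP (SS k N) (range k)) (PP (SS k N) (range k))
        (rr k N * SS k N ^ k) y y').card : ℝ) →
    (N : ℝ) ^ (-1 - 6 * ep k) * volume.real R * (SS k N : ℝ) ^ (2 * k) ≤
      ∫ y in R, ∫ y' in R, ((labc (PP (SS k N) (range k)) (PP (SS k N) (range k))
        (rr k N * SS k N ^ k) y y').card : ℝ) := by
  have hkap : 0 < kap k := by
    unfold kap
    positivity
  have hep : 0 < ep k := by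
    unfold ep
    positivity
  have hke : kap k = 100 * ep k := by
    unfold ep
    ring
  filter_upwards [SSpow_ev hk 1, hyp_ev hk,
    rpow_ev (128 * k * cc k ^ 3 * tt k) (a := ep k - 1)
      (b := -1 - 5 * ep k + ((1 : ℕ) * kap k - ep k / 8)) (by push_cast; rw [hke]; linarith),
    rpow_ev 2 (a := -1 - 6 * ep k) (b := -1 - 5 * ep k) (by linarith),
    eventually_ge_atTop 1] with N h1 h2 h3 h4 h5 R hR hρ0 hρ hlab
  obtain ⟨H, -, -, -, -, hSρ, -⟩ := h2 (volume.real R) hρ0 hρ
  have hN : (0 : ℝ) < N := by exact_mod_cast h5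
  have hS1 : 1 ≤ SS k N := le_trans (by norm_num) h1.1
  have hS0 : (0 : ℝ) < SS k N := by exact_mod_cast hS1
  have h6 := integ34 hS1 (k := k) (rr k N * SS k N ^ k) R
  have h7 : ∑ i ∈ range k, ∑ s ∈ win (SS k N) i, ∫ y in R, ∫ y' in R,
        ((lab (PP (SS k N) ((range k).erase i)) (PP (SS k N) ((range k).erase i))
          (rr k N * SS k N ^ k) (s • y) (s • y')).card : ℝ) ≤
      k * (64 * cc k ^ 3 * tt k * rr k N * volume.real R * (SS k N : ℝ) ^ (2 * k - 1)) := by
    refine (sum_le_sum fun i hi => diag34 H hi hR hSρ).trans (le_of_eq ?_)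
    rw [sum_const, card_range, nsmul_eq_mul]
  have h8 := h1.2.2
  rw [pow_one] at h8
  have e1 : (SS k N : ℝ) ^ (2 * k) = SS k N * (SS k N : ℝ) ^ (2 * k - 1) := by
    rw [← pow_succ']
    congr 1
    omega
  have h9 : 128 * k * cc k ^ 3 * tt k * rr k N ≤ (N : ℝ) ^ (-1 - 5 * ep k) * SS k N := by
    refine h3.trans ?_
    rw [Real.rpow_add hN]
    exact mul_le_mul_of_nonneg_left h8 (by positivity)
  have h10 : k * (64 * cc k ^ 3 * tt k * rr k N * volume.real R * (SS k N : ℝ) ^ (2 * k - 1)) ≤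
      (N : ℝ) ^ (-1 - 5 * ep k) * volume.real R * (SS k N : ℝ) ^ (2 * k) / 2 := by
    have hX : 0 ≤ volume.real R * (SS k N : ℝ) ^ (2 * k - 1) / 2 := by positivity
    have h11 := mul_le_mul_of_nonneg_right h9 hX
    rw [e1]
    refine le_trans (le_of_eq ?_) (h11.trans (le_of_eq ?_)) <;> ring
  have h12 : (N : ℝ) ^ (-1 - 6 * ep k) * volume.real R * (SS k N : ℝ) ^ (2 * k) ≤
      (N : ℝ) ^ (-1 - 5 * ep k) * volume.real R * (SS k N : ℝ) ^ (2 * k) / 2 := by
    have hX : 0 ≤ volume.real R * (SS k N : ℝ) ^ (2 * k) / 2 := by positivity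
    have h13 := mul_le_mul_of_nonneg_right h4 hX
    refine le_trans (le_of_eq ?_) (h13.trans (le_of_eq ?_)) <;> ring
  linarith

end Pool.Agent.Helper5.LE
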