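import Pool.Agent.Helper5.LE.RC
import Pool.Agent.Helper5.LE.XB
import Pool.Agent.Helper5.LE.XC
import Pool.Agent.Helper5.LE.XD

/-!
# Block LE-X5: the structure theorem (final assembly)

`d0 = min d (1/10)`; `N^(1/3-d) ≤ N^(1/3-d0)`. Choose `k ≥ 1` with `100 κ ≤ d0` and `κ ≤ d'` (`κ = kap k → 0`). `level_ev` gives `V`, `R0 = lev N V` (`measurableSet_lev`), `ρ = vol R0`; `copr_ev`, `hyp_ev`, `err_ev` are the hypotheses of `struct_abs` with `I0 = N^(-1-6e) ρ S^(2k)`, `W = WW k N ρ`, `K0 = KK k N ρ`, `Jm = JJ N`: `i, j, T`. Let `s = 2^(j+1) r`; `N s ≥ N r = N^e ≥ 1`; `exists_dyadic`: `j'` with `s ≤ 2^j'/N ≤ 2 s`. Output: `R = R0 ∩ ⋃_{q ∈ T} cl s q`, `Q0 = 2^i`, `j'`, `Qs = T` (`cl_mono`).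
`I0 / (256 c² τ r S^(2k)) = N^(-7e) ρ / (256 c² τ)`, so `vol R ≥ N^(-14e) ρ / (256² c⁴ τ² Jm²) ≥ N^(-16e) ρ`. `|T| Q0 2^j' ≤ |T| 2^i 2 N s ≤ 16 N ρ / κ'² = 16 N^(1+20e) ρ ≤ 16 N^(36e) (N vol R) ≤ N^(40e) (N vol R) ≤ N^d' (N vol R)` (`40 e = 0.4 κ ≤ d'`). `V² vol R ≥ N^(-16e) N^(1-5e) ≥ N^(1-d')`. On `lev N V`: `V ≤ ‖F‖ < 2V`.
-/

set_option autoImplicit false

namespace Pool.Agent.Helper5.LE

open MeasureTheory Finset Filter
open Pool.Agent.Helper25.MOB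

private theorem kap_pos75 (k : ℕ) : 0 < kap k := by
  unfold kap
  positivity

private theorem exists_k75 {c : ℝ} (hc : 0 < c) : ∃ k : ℕ, 1 ≤ k ∧ 100 * kap k ≤ c := by
  obtain ⟨n, hn⟩ := exists_nat_gt (100 / c)
  refine ⟨n + 1, by omega, ?_⟩
  unfold kap
  rw [mul_one_div, div_le_iff₀ (by positivity)]
  rw [div_lt_iff₀ hc] at hn
  push_cast
  nlinarith

/-- the lower bound of the measure -/
private theorem meas75 {x e ρ v c τ J S2 : ℝ} (hx : 1 ≤ x) (hρ : 0 < ρ) (hc : 0 < c) (hτ : 0 < τ)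
    (hJ : 0 < J) (hS : 0 < S2) (hb : 256 * c ^ 2 * τ * J ≤ x ^ e)
    (hI : (x ^ (-1 - 6 * e) * ρ * S2 / (256 * c ^ 2 * τ * x ^ (e - 1) * S2)) ^ 2 ≤ J ^ 2 * (v * ρ)) :
    x ^ (-(16 * e)) * ρ ≤ v := by
  have hx0 : 0 < x := by linarith
  have hA : x ^ (-(8 * e)) * ρ * J ≤ x ^ (-1 - 6 * e) * ρ * S2 / (256 * c ^ 2 * τ * x ^ (e - 1) * S2) := by
    rw [le_div_iff₀ (by positivity)]
    have h1 : x ^ (-1 - 6 * e) = x ^ e * x ^ (-(8 * e)) * x ^ (e - 1) := by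
      rw [← Real.rpow_add hx0, ← Real.rpow_add hx0]
      congr 1
      ring
    rw [h1]
    have h2 : 0 ≤ x ^ (-(8 * e)) * x ^ (e - 1) * ρ * S2 := by positivity
    calc x ^ (-(8 * e)) * ρ * J * (256 * c ^ 2 * τ * x ^ (e - 1) * S2)
        = (256 * c ^ 2 * τ * J) * (x ^ (-(8 * e)) * x ^ (e - 1) * ρ * S2) := by ring
      _ ≤ x ^ e * (x ^ (-(8 * e)) * x ^ (e - 1) * ρ * S2) := mul_le_mul_of_nonneg_right hb h2
      _ = x ^ e * x ^ (-(8 * e)) * x ^ (e - 1) * ρ * S2 := by ring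
  have h3 : (x ^ (-(8 * e)) * ρ * J) ^ 2 ≤ J ^ 2 * (v * ρ) :=
    (pow_le_pow_left₀ (by positivity) hA 2).trans hI
  have h4 : (x ^ (-(8 * e))) ^ 2 = x ^ (-(16 * e)) := by
    rw [← Real.rpow_natCast, ← Real.rpow_mul hx0.le]
    congr 1
    push_cast
    ring
  have h5 : (J ^ 2 * ρ) * (x ^ (-(16 * e)) * ρ) ≤ (J ^ 2 * ρ) * v := by
    calc (J ^ 2 * ρ) * (x ^ (-(16 * e)) * ρ) = (x ^ (-(8 * e)) * ρ * J) ^ 2 := by rw [← h4]; ring
      _ ≤ J ^ 2 * (v * ρ) := h3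
      _ = (J ^ 2 * ρ) * v := by ring
  exact le_of_mul_le_mul_left h5 (by positivity)

/-- the bound of the cardinality -/
private theorem card75 {x e d' ρ v t q s j2 : ℝ} (hx : 1 ≤ x) (ht : 0 ≤ t) (hq : 0 ≤ q)
    (hρ : 0 < ρ) (h16 : 16 ≤ x ^ (4 * e)) (he : 40 * e ≤ d')
    (hv : x ^ (-(16 * e)) * ρ ≤ v) (hj : j2 / x ≤ 2 * s)
    (hc : t * (q * s) ≤ 8 * ρ / (x ^ (-(10 * e))) ^ 2) : t * q * j2 ≤ x ^ d' * (x * v) := by
  have hx0 : 0 < x := by linarith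
  have h1 : j2 ≤ 2 * s * x := (div_le_iff₀ hx0).1 hj
  have h2 : (x ^ (-(10 * e))) ^ 2 = (x ^ (20 * e))⁻¹ := by
    rw [← Real.rpow_natCast, ← Real.rpow_mul hx0.le, ← Real.rpow_neg hx0.le]
    congr 1
    push_cast
    ring
  rw [h2, div_inv_eq_mul] at hc
  have h3 : ρ ≤ x ^ (16 * e) * v := by
    have h4 : x ^ (16 * e) * (x ^ (-(16 * e)) * ρ) = ρ := by
      rw [← mul_assoc, ← Real.rpow_add hx0, add_neg_cancel, Real.rpow_zero, one_mul]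
    calc ρ = x ^ (16 * e) * (x ^ (-(16 * e)) * ρ) := h4.symm
      _ ≤ x ^ (16 * e) * v := mul_le_mul_of_nonneg_left hv (by positivity)
  have hv0 : 0 ≤ v := le_trans (by positivity) hv
  calc t * q * j2 ≤ t * q * (2 * s * x) := mul_le_mul_of_nonneg_left h1 (by positivity)
    _ = 2 * x * (t * (q * s)) := by ring
    _ ≤ 2 * x * (8 * ρ * x ^ (20 * e)) := mul_le_mul_of_nonneg_left hc (by positivity)
    _ = 16 * (x * x ^ (20 * e) * ρ) := by ring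
    _ ≤ x ^ (4 * e) * (x * x ^ (20 * e) * (x ^ (16 * e) * v)) := by
        refine mul_le_mul h16 (mul_le_mul_of_nonneg_left h3 (by positivity)) (by positivity) (by positivity)
    _ = x ^ (4 * e + 20 * e + 16 * e) * (x * v) := by
        rw [Real.rpow_add hx0, Real.rpow_add hx0]
        ring
    _ ≤ x ^ d' * (x * v) := by
        refine mul_le_mul_of_nonneg_right (Real.rpow_le_rpow_of_exponent_le hx ?_) (by positivity)
        linarith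

theorem structureE {d d' : ℝ} (hd : 0 < d) (hd' : 0 < d') : ∀ᶠ N : ℕ in atTop,
    ∫ y, ‖F N y‖ ≤ (N : ℝ) ^ (1 / 3 - d) →
    ∃ (R : Set UnitAddCircle) (V : ℝ) (Q0 j : ℕ) (Qs : Finset ℕ), MeasurableSet R ∧ 0 < V ∧
      (∀ y ∈ R, V ≤ ‖F N y‖ ∧ ‖F N y‖ ≤ 2 * V) ∧
      (N : ℝ) ^ (1 - d') ≤ V ^ 2 * volume.real R ∧ 1 ≤ Q0 ∧
      Qs ⊆ Finset.Ico Q0 (2 * Q0) ∧ R ⊆ ⋃ q ∈ Qs, cl (2 ^ j / N) q ∧
      (Qs.card : ℝ) * Q0 * 2 ^ j ≤ (N : ℝ) ^ d' * (N * volume.real R) := by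
  set d0 : ℝ := min d (1 / 10) with hd0
  have hd0pos : 0 < d0 := lt_min hd (by norm_num)
  obtain ⟨k, hk, hkc⟩ := exists_k75 (lt_min hd0pos hd')
  have hkd : 100 * kap k ≤ d0 := hkc.trans (min_le_left _ _)
  have hkd' : 100 * kap k ≤ d' := hkc.trans (min_le_right _ _)
  have hkp := kap_pos75 k
  have he : ep k = kap k / 100 := rfl
  have hep : 0 < ep k := by rw [he]; positivity
  have hc0 : (0 : ℝ) < cc k := by
    unfold cc
    positivity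
  have hτ0 : (0 : ℝ) < tt k := by
    unfold tt
    positivity
  filter_upwards [level_ev hk hkd (min_le_right d (1 / 10)), copr_ev hk, hyp_ev hk, err_ev hk, SSpow_ev hk 1,
    natlog_ev (256 * (cc k : ℝ) ^ 2 * tt k) hep, rpow_ev 16 (a := 0) (b := 4 * ep k) (by positivity),
    eventually_ge_atTop 1] with N hlev hcop hhyp herr hSS hlog h16 hN1 hint
  rw [Real.rpow_zero, mul_one] at h16
  have hN : (1 : ℝ) ≤ N := by exact_mod_cast hN1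
  have hN0 : (0 : ℝ) < N := by linarith
  have hint' : ∫ y, ‖F N y‖ ≤ (N : ℝ) ^ (1 / 3 - d0) := by
    refine hint.trans (Real.rpow_le_rpow_of_exponent_le hN ?_)
    have := min_le_left d (1 / 10)
    linarith
  obtain ⟨V, hV, hρ, hρle, hV2, hlab⟩ := hlev hint'
  set R0 := lev N V with hR0
  have hR0m : MeasurableSet R0 := measurableSet_lev N V
  have hcop' := hcop R0 hR0m hρ hρle hlab
  obtain ⟨H, hK, hKW, hJ, hκ, hSρ, h64⟩ := hhyp _ hρ hρle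
  have herr' := herr R0 hR0m hρ hρle
  have hS2 : 0 < (SS k N : ℝ) ^ (2 * k) := by
    have h1 : (2 : ℝ) ≤ SS k N := by exact_mod_cast hSS.1
    positivity
  have hI0 : 0 < (N : ℝ) ^ (-1 - 6 * ep k) * volume.real R0 * (SS k N : ℝ) ^ (2 * k) := by positivity
  obtain ⟨i, j, T, hT, hcard, hI⟩ := struct_abs H hK hKW hJ hκ hR0m hρ hSρ h64 hI0 hcop' herr'
  have hrr : rr k N = (N : ℝ) ^ (ep k - 1) := rfl
  have hrpos : 0 < rr k N := by rw [hrr]; positivity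
  have hs1 : 1 ≤ (N : ℝ) * (2 ^ (j + 1) * rr k N) := by
    have h1 : (N : ℝ) * rr k N = (N : ℝ) ^ ep k := by
      rw [hrr, ← Real.rpow_one_add' hN0.le (by linarith)]
      congr 1
      ring
    have h2 : (1 : ℝ) ≤ (N : ℝ) ^ ep k := Real.one_le_rpow hN hep.le
    have h3 : (1 : ℝ) ≤ 2 ^ (j + 1) := one_le_pow₀ (by norm_num)
    calc (1 : ℝ) ≤ 2 ^ (j + 1) * (N : ℝ) ^ ep k := one_le_mul_of_one_le_of_one_le h3 h2
      _ = (N : ℝ) * (2 ^ (j + 1) * rr k N) := by rw [← h1]; ring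
  obtain ⟨j', hj1, hj2⟩ := exists_dyadic (by omega : 0 < N) hs1
  have hJb : 256 * (cc k : ℝ) ^ 2 * tt k * JJ N ≤ (N : ℝ) ^ ep k := by
    refine le_trans (mul_le_mul_of_nonneg_left ?_ (by positivity)) hlog
    unfold JJ
    push_cast
    linarith
  have hJ0 : (0 : ℝ) < JJ N := by
    unfold JJ
    positivity
  rw [hrr] at hI
  have hv := meas75 hN hρ hc0 hτ0 hJ0 hS2 hJb hI
  rw [← hrr] at hv
  refine ⟨R0 ∩ ⋃ q ∈ T, cl (2 ^ (j + 1) * rr k N) q, V, 2 ^ i, j', T, ?_, hV, ?_, ?_, Nat.one_le_two_pow, hT, ?_, ?_⟩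
  · exact hR0m.inter (Finset.measurableSet_biUnion _ fun q _ => measurableSet_cl _ q)
  · intro y hy
    exact ⟨hy.1.1, hy.1.2.le⟩
  · calc (N : ℝ) ^ (1 - d') ≤ (N : ℝ) ^ (1 - 21 * ep k) := by
          refine Real.rpow_le_rpow_of_exponent_le hN ?_
          rw [he]
          linarith
      _ = (N : ℝ) ^ (-(16 * ep k)) * (N : ℝ) ^ (1 - 5 * ep k) := by
          rw [← Real.rpow_add hN0]
          congr 1
          ring
      _ ≤ (N : ℝ) ^ (-(16 * ep k)) * (V ^ 2 * volume.real R0) := mul_le_mul_of_nonneg_left hV2 (by positivity)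
      _ = V ^ 2 * ((N : ℝ) ^ (-(16 * ep k)) * volume.real R0) := by ring
      _ ≤ V ^ 2 * volume.real (R0 ∩ ⋃ q ∈ T, cl (2 ^ (j + 1) * rr k N) q) :=
          mul_le_mul_of_nonneg_left hv (sq_nonneg V)
  · intro y hy
    obtain ⟨q, hq, hyq⟩ := Set.mem_iUnion₂.1 hy.2
    exact Set.mem_iUnion₂.2 ⟨q, hq, cl_mono hj1 q hyq⟩
  · have h40 : 40 * ep k ≤ d' := by
      rw [he]
      linarith
    exact card75 (s := 2 ^ (j + 1) * rr k N) hN (Nat.cast_nonneg _) (Nat.cast_nonneg _) hρ h16 h40 hv hj2 hcard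

end Pool.Agent.Helper5.LE
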