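import Pool.Agent.Helper5.LE.Defs
import Pool.Agent.Helper25.MOB.C1
import Pool.Agent.Helper25.MOB.Pt
import Pool.Agent.Helper25.MOB.Mult

/-!
# Block LE-C1: two labels of a pair of points (general form of `two_pairs` of `MOB/C2`)

`D • y = b.2 • (a.1 y - a.2 y') - a.2 • (b.1 y - b.2 y')`, so `‖D y‖ ≤ 2 X δ`; `exists_torsion_near` gives `α` with `D • α = 0`, `‖y - α‖ ≤ 2 X δ / D`; the same for `y'` (`D • y' = b.1 • (a.1 y - a.2 y') - a.1 • (b.1 y - b.2 y')`).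
For a label `v` with entries `≤ X`: `v.1 α - v.2 α' = (v.1 y - v.2 y') - v.1 (y - α) + v.2 (y' - α')` has norm `≤ δ + 4 X^2 δ / D ≤ 5 X^2 δ / D < 1 / D` (`D ≤ X^2` as `D = a.1 b.2 - b.1 a.2 ≤ a.1 b.2`), and it is killed by `D`, so it is `0` (`one_le_norm_of_torsion`). Copy `MOB/C2`.

`lift` lemma `real_rel`: if `β, β'` are real representatives (`‖·‖` attained) of `y - α`, `y' - α'` and `P α = P' α'`, then `P β - P' β'` represents `P y - P' y'`; if `|P β| + |P' β'| < 1/2` then `|P β - P' β'| = ‖P y - P' y'‖`. (`AddCircle.norm_eq`, `norm = |x|` for `|x| ≤ 1/2`.)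
-/

set_option autoImplicit false

namespace Pool.Agent.Helper5.LE

open MeasureTheory Finset
open Pool.Agent.Helper25.MOB

private theorem cram36 (a b : ℕ × ℕ) {D : ℕ} (hab : det2 a b = D) (y y' : UnitAddCircle) :
    D • y = b.2 • (a.1 • y - a.2 • y') - a.2 • (b.1 • y - b.2 • y') ∧
      D • y' = b.1 • (a.1 • y - a.2 • y') - a.1 • (b.1 • y - b.2 • y') := by
  unfold det2 at hab
  simp only [← natCast_zsmul]
  rw [← hab]
  constructor <;> module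

private theorem two36 {m n : ℕ} {X δ : ℝ} (u v : UnitAddCircle) (hm : (m : ℝ) ≤ X)
    (hn : (n : ℝ) ≤ X) (hu : ‖u‖ ≤ δ) (hv : ‖v‖ ≤ δ) : ‖m • u - n • v‖ ≤ 2 * X * δ := by
  have h0 : 0 ≤ δ := (norm_nonneg u).trans hu
  have hX : 0 ≤ X := (Nat.cast_nonneg m).trans hm
  have h1 := norm_nsmul_le' m u
  have h2 := norm_nsmul_le' n v
  have h3 := norm_sub_le (m • u) (n • v)
  have h4 : (m : ℝ) * ‖u‖ ≤ X * δ := mul_le_mul hm hu (norm_nonneg _) hX
  have h5 : (n : ℝ) * ‖v‖ ≤ X * δ := mul_le_mul hn hv (norm_nonneg _) hX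
  linarith

theorem two_labels {X δ : ℝ} (hδ : 0 ≤ δ) (h : 8 * X ^ 2 * δ < 1) (y y' : UnitAddCircle)
    {a b : ℕ × ℕ} (ha : (a.1 : ℝ) ≤ X ∧ (a.2 : ℝ) ≤ X) (hb : (b.1 : ℝ) ≤ X ∧ (b.2 : ℝ) ≤ X)
    (hal : ‖a.1 • y - a.2 • y'‖ ≤ δ) (hbl : ‖b.1 • y - b.2 • y'‖ ≤ δ) {D : ℕ} (hD : 0 < D)
    (hab : det2 a b = D) :
    ∃ α α' : UnitAddCircle, D • α = 0 ∧ D • α' = 0 ∧ ‖y - α‖ ≤ 2 * X * δ / D ∧
      ‖y' - α'‖ ≤ 2 * X * δ / D ∧
      ∀ v : ℕ × ℕ, (v.1 : ℝ) ≤ X → (v.2 : ℝ) ≤ X → ‖v.1 • y - v.2 • y'‖ ≤ δ →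
        v.1 • α = v.2 • α' := by
  obtain ⟨e1, e2⟩ := cram36 a b hab y y'
  have hDr : (0 : ℝ) < D := by exact_mod_cast hD
  have hX : 0 ≤ X := (Nat.cast_nonneg _).trans ha.1
  have n1 : ‖D • y‖ ≤ 2 * X * δ := by
    rw [e1]
    exact two36 _ _ hb.2 ha.2 hal hbl
  have n2 : ‖D • y'‖ ≤ 2 * X * δ := by
    rw [e2]
    exact two36 _ _ hb.1 ha.1 hal hbl
  obtain ⟨α, hα, hα2⟩ := exists_torsion_near hD y
  obtain ⟨α', hα', hα2'⟩ := exists_torsion_near hD y'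
  have m1 : ‖y - α‖ ≤ 2 * X * δ / D :=
    hα2.trans (div_le_div_of_nonneg_right n1 hDr.le)
  have m2 : ‖y' - α'‖ ≤ 2 * X * δ / D :=
    hα2'.trans (div_le_div_of_nonneg_right n2 hDr.le)
  refine ⟨α, α', hα, hα', m1, m2, fun v hv1 hv2 hv3 => ?_⟩
  have hu0 : D • (v.1 • α - v.2 • α') = 0 := by
    rw [smul_sub, smul_comm D v.1 α, smul_comm D v.2 α', hα, hα', smul_zero, smul_zero, sub_zero]
  have hu : v.1 • α - v.2 • α' = (v.1 • y - v.2 • y') - (v.1 • (y - α) - v.2 • (y' - α')) := by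
    rw [smul_sub, smul_sub]
    abel
  have hn : ‖v.1 • α - v.2 • α'‖ ≤ δ + 2 * X * (2 * X * δ / D) := by
    rw [hu]
    exact (norm_sub_le _ _).trans (add_le_add hv3 (two36 _ _ hv1 hv2 m1 m2))
  have hDle : (D : ℝ) ≤ X ^ 2 := by
    have h1 : (D : ℤ) ≤ (a.1 : ℤ) * b.2 := by
      rw [← hab]
      unfold det2
      have h2 : (0 : ℤ) ≤ (b.1 : ℤ) * a.2 := by positivity
      have h3 : (0 : ℤ) ≤ (a.2 : ℤ) * b.1 := by positivity
      linarith
    have h4 : (D : ℝ) ≤ (a.1 : ℝ) * b.2 := by exact_mod_cast h1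
    have h5 : (a.1 : ℝ) * b.2 ≤ X * X := mul_le_mul ha.1 hb.2 (Nat.cast_nonneg _) hX
    rw [sq]
    exact h4.trans h5
  by_contra hne
  have hne' : v.1 • α - v.2 • α' ≠ 0 := fun h => hne (sub_eq_zero.1 h)
  have h1 := one_le_norm_of_torsion hD hu0 hne'
  have h2 : 1 / (D : ℝ) ≤ δ + 2 * X * (2 * X * δ / D) := h1.trans hn
  have h3 : (1 : ℝ) ≤ D * δ + 4 * X ^ 2 * δ := by
    have h4 := mul_le_mul_of_nonneg_left h2 hDr.le
    have h5 : (D : ℝ) * (1 / (D : ℝ)) = 1 := by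
      field_simp
    have h6 : (D : ℝ) * (δ + 2 * X * (2 * X * δ / D)) = D * δ + 4 * X ^ 2 * δ := by
      field_simp
      ring
    rw [h5, h6] at h4
    exact h4
  have h7 : (D : ℝ) * δ ≤ X ^ 2 * δ := mul_le_mul_of_nonneg_right hDle hδ
  have h8 : 0 ≤ X ^ 2 * δ := by positivity
  nlinarith

/-- Every point has a real representative of absolute value its norm. -/
theorem exists_lift (z : UnitAddCircle) : ∃ x : ℝ, (x : UnitAddCircle) = z ∧ |x| = ‖z‖ := by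
  induction z using QuotientAddGroup.induction_on with
  | H x =>
    refine ⟨x - round x, ?_, ?_⟩
    · rw [AddCircle.coe_sub]
      have h1 : ((round x : ℝ) : UnitAddCircle) = 0 := by
        rw [AddCircle.coe_eq_zero_iff]
        exact ⟨round x, by rw [zsmul_eq_mul, mul_one]⟩
      rw [h1, sub_zero]
    · exact (UnitAddCircle.norm_eq (x := x)).symm

/-- A real number of absolute value at most `1/2` has the same norm on the circle. -/
theorem norm_coe_eq {x : ℝ} (hx : |x| ≤ 1 / 2) : ‖(x : UnitAddCircle)‖ = |x| := by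
  rw [AddCircle.norm_coe_eq_abs_iff (p := 1) one_ne_zero, abs_one]
  exact hx

/-- If `n` kills the class of `x` then `n x` is an integer. -/
theorem int_of_nsmul {n : ℕ} {x : ℝ} (h : n • (x : UnitAddCircle) = 0) :
    ∃ m : ℤ, (n : ℝ) * x = m := by
  rw [← AddCircle.coe_nsmul, AddCircle.coe_eq_zero_iff] at h
  obtain ⟨m, hm⟩ := h
  refine ⟨m, ?_⟩
  rw [zsmul_eq_mul, mul_one, nsmul_eq_mul] at hm
  exact hm.symm

theorem real_rel {P P' : ℕ} {y y' α α' : UnitAddCircle} {β β' : ℝ}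
    (hβ : (β : UnitAddCircle) = y - α) (hβ' : (β' : UnitAddCircle) = y' - α')
    (h : P • α = P' • α') (hs : (P : ℝ) * |β| + P' * |β'| ≤ 1 / 2) :
    ‖P • y - P' • y'‖ = |(P : ℝ) * β - P' * β'| := by
  have h1 : P • y - P' • y' = (((P : ℝ) * β - P' * β' : ℝ) : UnitAddCircle) := by
    have h2 : y = α + (β : UnitAddCircle) := by rw [hβ]; abel
    have h3 : y' = α' + (β' : UnitAddCircle) := by rw [hβ']; abel
    rw [AddCircle.coe_sub, h2, h3, nsmul_add, nsmul_add, h, ← nsmul_eq_mul, ← nsmul_eq_mul,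
      AddCircle.coe_nsmul, AddCircle.coe_nsmul]
    abel
  rw [h1]
  refine norm_coe_eq ?_
  have h4 := abs_sub ((P : ℝ) * β) (P' * β')
  rw [abs_mul, abs_mul, Nat.abs_cast, Nat.abs_cast] at h4
  exact h4.trans hs

end Pool.Agent.Helper5.LE
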