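import Pool.Agent.Helper5.LE.Defs
import Pool.Agent.Helper25.MOB.C1
import Pool.Agent.Helper25.MOB.C3

/-!
# Block LE-C2: orders, determinants and slopes

`order_struct`: `q = ord α`, `q' = ord α'`; `ord (P α) = q / gcd(q, P)`, `ord (P' α') = q' / gcd(q', P')` (`addOrderOf_nsmul`), equal; call it `g0`. With `c = gcd(q, P)`, `c' = gcd(q', P')` (coprime since `P, P'` are): `q = c g0`, `q' = c' g0`, so `gcd(q, q') = g0`, `q / g = c ∣ P`, `q' / g = c' ∣ P'`. `P` squarefree: `gcd(P / c, c) = 1`; `gcd(q, P) = c` gives `gcd(P / c, g0) = 1`; so `P / c` is coprime to `q`.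
`det_dvd`: `v = (a p, b p')`, `w = (a s, b s')`: `det2 v w = a b (p s' - s p')`; `A0 = a • α` and `B0 = b • α'` have order `g`; `p A0 = p' B0`, `s A0 = s' B0`, so `(p s') A0 = s' p' B0 = p' s A0`, i.e. `g ∣ p s' - s p'`.
`det_ne`: coprime pairs with zero determinant are equal.
`slope_count`: the slopes `v.2 / v.1` are pairwise at distance `|det2 v w| / (v.1 w.1) ∈ [m / X^2, Dm / Y^2]`; `separated_real` (`MOB/C3`): `(n - 1) m / X^2 ≤ Dm / Y^2`.
-/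

set_option autoImplicit false

namespace Pool.Agent.Helper5.LE

open MeasureTheory Finset
open Pool.Agent.Helper25.MOB

theorem order_struct {α α' : UnitAddCircle} {P P' : ℕ} (hP : Squarefree P)
    (hP' : Squarefree P') (hc : P.Coprime P') (hα : 0 < addOrderOf α) (hα' : 0 < addOrderOf α')
    (h : P • α = P' • α') :
    let g := (addOrderOf α).gcd (addOrderOf α')
    (addOrderOf α / g) ∣ P ∧ (addOrderOf α' / g) ∣ P' ∧
      (P / (addOrderOf α / g)).Coprime (addOrderOf α) ∧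
      (P' / (addOrderOf α' / g)).Coprime (addOrderOf α') := by
  intro g
  have hP0 : P ≠ 0 := hP.ne_zero
  have hP0' : P' ≠ 0 := hP'.ne_zero
  have h1 := addOrderOf_nsmul' α hP0
  have h2 := addOrderOf_nsmul' α' hP0'
  rw [h, h2] at h1
  generalize hq : addOrderOf α = q at *
  generalize hq' : addOrderOf α' = q' at *
  obtain ⟨c, hcdef⟩ : ∃ c, c = q.gcd P := ⟨_, rfl⟩
  obtain ⟨c', hcdef'⟩ : ∃ c', c' = q'.gcd P' := ⟨_, rfl⟩
  rw [← hcdef, ← hcdef'] at h1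
  have hcq : c ∣ q := hcdef ▸ Nat.gcd_dvd_left _ _
  have hcP : c ∣ P := hcdef ▸ Nat.gcd_dvd_right _ _
  have hcq' : c' ∣ q' := hcdef' ▸ Nat.gcd_dvd_left _ _
  have hcP' : c' ∣ P' := hcdef' ▸ Nat.gcd_dvd_right _ _
  have hc0 : 0 < c := Nat.pos_of_dvd_of_pos hcq hα
  have hc0' : 0 < c' := Nat.pos_of_dvd_of_pos hcq' hα'
  obtain ⟨g0, hg0⟩ := hcq
  obtain ⟨g1, hg1⟩ := hcq'
  have hgg : g1 = g0 := by
    rw [hg0, hg1, Nat.mul_div_cancel_left _ hc0, Nat.mul_div_cancel_left _ hc0'] at h1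
    exact h1
  rw [hgg] at hg1
  have hg0pos : 0 < g0 := by
    rcases Nat.eq_zero_or_pos g0 with h3 | h3
    · rw [hg0, h3, mul_zero] at hα
      exact absurd hα (lt_irrefl 0)
    · exact h3
  have hcc : c.Coprime c' := Nat.Coprime.coprime_dvd_left hcP (Nat.Coprime.coprime_dvd_right hcP' hc)
  have hg : g = g0 := by
    show (addOrderOf α).gcd (addOrderOf α') = g0
    rw [hq, hq', hg0, hg1, Nat.gcd_mul_right, hcc.gcd_eq_one, one_mul]
  have aux : ∀ {q c g0 P : ℕ}, Squarefree P → 0 < c → 0 < g0 → c = q.gcd P → c ∣ P → q = c * g0 →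
      (P / c).Coprime q := by
    intro q c g0 P hP hc0 hg0 hcd hcP hq
    obtain ⟨e, he⟩ := hcP
    have h3 : c.Coprime e := by
      rw [he] at hP
      exact Nat.coprime_of_squarefree_mul hP
    rw [he, Nat.mul_div_cancel_left _ hc0, hq]
    refine Nat.Coprime.mul_right h3.symm ?_
    rw [hq, he, Nat.gcd_mul_left] at hcd
    have h4 : g0.gcd e = 1 := by
      have h5 : c * g0.gcd e = c * 1 := by rw [mul_one]; exact hcd.symm
      exact Nat.eq_of_mul_eq_mul_left hc0 h5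
    exact (show g0.Coprime e from h4).symm
  have e1 : q / g = c := by
    rw [hg, hg0, Nat.mul_div_cancel _ hg0pos]
  have e2 : q' / g = c' := by
    rw [hg, hg1, Nat.mul_div_cancel _ hg0pos]
  rw [e1, e2]
  exact ⟨hcP, hcP', aux hP hc0 hg0pos hcdef hcP hg0, aux hP' hc0' hg0pos hcdef' hcP' hg1⟩

theorem det_dvd {α α' : UnitAddCircle} {a b g : ℕ} (ha : 0 < a) (hb : 0 < b) (hg : 0 < g)
    (hα : addOrderOf α = a * g) (hα' : addOrderOf α' = b * g) {v w : ℕ × ℕ} (hv1 : a ∣ v.1)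
    (hv2 : b ∣ v.2) (hw1 : a ∣ w.1) (hw2 : b ∣ w.2) (hv : v.1 • α = v.2 • α')
    (hw : w.1 • α = w.2 • α') : ((a * b * g : ℕ) : ℤ) ∣ det2 v w := by
  obtain ⟨p, hp⟩ := hv1
  obtain ⟨p', hp'⟩ := hv2
  obtain ⟨s, hs⟩ := hw1
  obtain ⟨s', hs'⟩ := hw2
  rw [hp, hp', mul_comm a p, mul_comm b p', mul_nsmul', mul_nsmul'] at hv
  rw [hs, hs', mul_comm a s, mul_comm b s', mul_nsmul', mul_nsmul'] at hw
  have hA : addOrderOf (a • α) = g := by
    rw [addOrderOf_nsmul' α ha.ne', hα, Nat.gcd_comm, Nat.gcd_mul_right_right,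
      Nat.mul_div_cancel_left _ ha]
  generalize a • α = A at *
  generalize b • α' = B at *
  have h1 : ((p * s' : ℕ) : ℤ) • A = ((p' * s : ℕ) : ℤ) • A := by
    rw [natCast_zsmul, natCast_zsmul]
    calc (p * s') • A = s' • (p • A) := by rw [mul_comm p s', mul_nsmul']
      _ = s' • (p' • B) := by rw [hv]
      _ = p' • (s' • B) := by rw [← mul_nsmul', ← mul_nsmul', mul_comm]
      _ = p' • (s • A) := by rw [hw]
      _ = (p' * s) • A := by rw [mul_nsmul']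
  have h2 : ((g : ℕ) : ℤ) ∣ ((p * s' : ℕ) : ℤ) - ((p' * s : ℕ) : ℤ) := by
    rw [← hA, addOrderOf_dvd_iff_zsmul_eq_zero, sub_zsmul, h1, add_neg_cancel]
  obtain ⟨k, hk⟩ := h2
  refine ⟨k, ?_⟩
  unfold det2
  rw [hp, hp', hs, hs']
  push_cast at hk ⊢
  linear_combination ((a : ℤ) * b) * hk

theorem det_ne {v w : ℕ × ℕ} (hv : v.1.Coprime v.2) (hw : w.1.Coprime w.2) (hv1 : 0 < v.1)
    (hv2 : 0 < v.2) (hw1 : 0 < w.1) (hw2 : 0 < w.2) (h : v ≠ w) : det2 v w ≠ 0 := by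
  intro h0
  unfold det2 at h0
  have h1 : v.1 * w.2 = w.1 * v.2 := by
    have h2 : (v.1 : ℤ) * w.2 = (w.1 : ℤ) * v.2 := by linarith
    exact_mod_cast h2
  have h2 : v.1 ∣ w.1 := hv.dvd_of_dvd_mul_right ⟨w.2, h1.symm⟩
  have h3 : w.1 ∣ v.1 := hw.dvd_of_dvd_mul_right ⟨v.2, h1⟩
  have h4 : v.1 = w.1 := Nat.dvd_antisymm h2 h3
  rw [h4] at h1
  exact h (Prod.ext h4 (Nat.eq_of_mul_eq_mul_left hw1 h1).symm)

theorem slope_count {s : Finset (ℕ × ℕ)} {Y X Dm : ℝ} {m : ℕ} (hY : 0 < Y) (hm : 0 < m)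
    (hDm : 0 ≤ Dm) (hs : ∀ v ∈ s, Y ≤ v.1 ∧ (v.1 : ℝ) ≤ X)
    (hdet : ∀ v ∈ s, ∀ w ∈ s, v ≠ w → (m : ℤ) ∣ det2 v w ∧ det2 v w ≠ 0)
    (hD : ∀ v ∈ s, ∀ w ∈ s, |(det2 v w : ℝ)| ≤ Dm) :
    ((s.card : ℝ) - 1) * m * Y ^ 2 ≤ Dm * X ^ 2 := by
  classical
  rcases s.eq_empty_or_nonempty with hs0 | hs0
  · rw [hs0, Finset.card_empty]
    have h1 : 0 ≤ Dm * X ^ 2 := by positivity
    have h2 : 0 ≤ (m : ℝ) * Y ^ 2 := by positivity
    push_cast
    linarith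
  have hX : 0 < X := by
    obtain ⟨v, hv⟩ := hs0
    have := hs v hv
    linarith
  have hpos : ∀ v ∈ s, (0 : ℝ) < v.1 := fun v hv => lt_of_lt_of_le hY (hs v hv).1
  have hmR : (0 : ℝ) < m := by exact_mod_cast hm
  have hdiff : ∀ v ∈ s, ∀ w ∈ s, (w.2 : ℝ) / w.1 - (v.2 : ℝ) / v.1 =
      ((det2 v w : ℤ) : ℝ) / ((v.1 : ℝ) * w.1) := by
    intro v hv w hw
    have h1 := (hpos v hv).ne'
    have h2 := (hpos w hw).ne'
    unfold det2
    push_cast
    field_simp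
  have habs : ∀ v ∈ s, ∀ w ∈ s, |(w.2 : ℝ) / w.1 - (v.2 : ℝ) / v.1| =
      |((det2 v w : ℤ) : ℝ)| / ((v.1 : ℝ) * w.1) := by
    intro v hv w hw
    rw [hdiff v hv w hw, abs_div, abs_of_pos (mul_pos (hpos v hv) (hpos w hw))]
  have hlow : ∀ v ∈ s, ∀ w ∈ s, v ≠ w → (m : ℝ) / X ^ 2 ≤ |(w.2 : ℝ) / w.1 - (v.2 : ℝ) / v.1| := by
    intro v hv w hw hvw
    rw [habs v hv w hw]
    obtain ⟨h1, h2⟩ := hdet v hv w hw hvw
    have h3 : (m : ℝ) ≤ |((det2 v w : ℤ) : ℝ)| := by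
      have h4 : (m : ℤ) ≤ |det2 v w| := Int.le_of_dvd (abs_pos.2 h2) ((dvd_abs _ _).2 h1)
      exact_mod_cast h4
    have h5 : (v.1 : ℝ) * w.1 ≤ X ^ 2 := by
      rw [sq]
      exact mul_le_mul (hs v hv).2 (hs w hw).2 (hpos w hw).le hX.le
    exact div_le_div₀ (abs_nonneg _) h3 (mul_pos (hpos v hv) (hpos w hw)) h5
  have hupp : ∀ v ∈ s, ∀ w ∈ s, |(w.2 : ℝ) / w.1 - (v.2 : ℝ) / v.1| ≤ Dm / Y ^ 2 := by
    intro v hv w hw
    rw [habs v hv w hw]
    have h5 : Y ^ 2 ≤ (v.1 : ℝ) * w.1 := by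
      rw [sq]
      exact mul_le_mul (hs v hv).1 (hs w hw).1 hY.le (hpos v hv).le
    exact div_le_div₀ hDm (hD v hv w hw) (by positivity) h5
  obtain ⟨a, ha, ha'⟩ := Finset.exists_min_image s (fun v => (v.2 : ℝ) / v.1) hs0
  have hinj : Set.InjOn (fun v : ℕ × ℕ => (v.2 : ℝ) / v.1) (s : Set (ℕ × ℕ)) := by
    intro v hv w hw hvw
    by_contra hne
    have h1 := hlow v hv w hw hne
    have h2 : (w.2 : ℝ) / w.1 - (v.2 : ℝ) / v.1 = 0 := by
      have : (v.2 : ℝ) / v.1 = (w.2 : ℝ) / w.1 := hvw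
      rw [this, sub_self]
    rw [h2, abs_zero] at h1
    have h3 : 0 < (m : ℝ) / X ^ 2 := by positivity
    linarith
  have key := separated_real (s.image fun v : ℕ × ℕ => (v.2 : ℝ) / v.1)
    (g := (m : ℝ) / X ^ 2) (x := (a.2 : ℝ) / a.1) (ℓ := Dm / Y ^ 2) (by positivity)
    (Finset.Nonempty.image hs0 _) (by
      intro u hu v hv huv
      obtain ⟨u', hu', rfl⟩ := Finset.mem_image.mp hu
      obtain ⟨v', hv', rfl⟩ := Finset.mem_image.mp hv
      exact hlow v' hv' u' hu' (fun h => huv (by rw [h]))) (by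
      intro u hu
      obtain ⟨v, hv, rfl⟩ := Finset.mem_image.mp hu
      have h1 := ha' v hv
      have h2 := le_trans (le_abs_self _) (hupp a ha v hv)
      exact ⟨h1, by linarith⟩)
  rw [Finset.card_image_of_injOn hinj] at key
  rw [← mul_div_assoc, div_le_div_iff₀ (by positivity) (by positivity)] at key
  exact key

end Pool.Agent.Helper5.LE
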