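import Pool.Agent.Helper5.LE.Defs
import Pool.Agent.Helper25.MOB.C4

/-!
# Block LE-C3: labels with the same first entry

If `‖P y - P' y'‖ ≤ δ` and `‖P y - P'' y'‖ ≤ δ`, `P'' < P'`, then `d = P' - P''` satisfies `1 ≤ d ≤ H` and `‖d y'‖ ≤ 2δ`. Compare with the smallest `P''`: the other ones are at most `om H δ y'`. (Model: `fibre_left` in `MOB/C4`.)
-/

set_option autoImplicit false

namespace Pool.Agent.Helper5.LE

open MeasureTheory Finset
open Pool.Agent.Helper25.MOB

theorem fibre_om {A : Finset ℕ} {H : ℕ} (hA : ∀ P ∈ A, 1 ≤ P ∧ P ≤ H) {δ : ℝ} (hδ : 0 ≤ δ)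
    (y y' : UnitAddCircle) (P : ℕ) :
    open scoped Classical in (A.filter fun Q => ‖P • y - Q • y'‖ ≤ δ).card ≤ 1 + om H δ y' := by
  classical
  rcases Finset.eq_empty_or_nonempty (A.filter fun Q => ‖P • y - Q • y'‖ ≤ δ) with he | hne
  · rw [he]
    simp
  obtain ⟨v0, hv0, hmin⟩ := Finset.exists_min_image _ (fun v : ℕ => v) hne
  have hv0' := Finset.mem_filter.1 hv0
  have key : (A.filter fun Q => ‖P • y - Q • y'‖ ≤ δ).card ≤
      (insert 0 ((Finset.Icc 1 H).filter fun d => ‖d • y'‖ ≤ 2 * δ)).card := by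
    refine Finset.card_le_card_of_injOn (fun v => v - v0) ?_ ?_
    · intro v hv
      have hv' := Finset.mem_filter.1 (Finset.mem_coe.1 hv)
      have hle : v0 ≤ v := hmin v (Finset.mem_coe.1 hv)
      have e1 := hA v hv'.1
      rw [Finset.mem_coe, Finset.mem_insert]
      by_cases hz : v - v0 = 0
      · exact Or.inl hz
      · right
        rw [Finset.mem_filter, Finset.mem_Icc]
        refine ⟨⟨show 1 ≤ v - v0 by omega, show v - v0 ≤ H by omega⟩, ?_⟩
        change ‖(v - v0) • y'‖ ≤ 2 * δ
        have e3 : (v - v0) • y' = (P • y - v0 • y') - (P • y - v • y') := by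
          have e4 : v = (v - v0) + v0 := by omega
          have e5 : v • y' = (v - v0) • y' + v0 • y' := by
            rw [← add_smul, ← e4]
          rw [e5]
          abel
        rw [e3]
        refine (norm_sub_le _ _).trans ?_
        have h1 := hv'.2
        have h2 := hv0'.2
        linarith
    · intro v hv w hw hvw
      have l1 : v0 ≤ v := hmin v (Finset.mem_coe.1 hv)
      have l2 : v0 ≤ w := hmin w (Finset.mem_coe.1 hw)
      have l3 : v - v0 = w - v0 := hvw
      omega
  refine key.trans ((Finset.card_insert_le _ _).trans ?_)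
  unfold om
  rw [add_comm]

end Pool.Agent.Helper5.LE
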