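import Pool.Agent.Helper5.LE.PA

/-!
# Block LE-P2: exact cardinality and the divisor bound

`PP_card`: the map `f ↦ ∏_{i ∈ I} f i` is injective on families with `f i ∈ win S i` (unique factorisation: `f i` is the only prime factor of the product in the window `i`), so `|PP S I| = ∏ |win S i|`. (E.g. induction on `I`: `PP S (insert i I)` is in bijection with `win S i × PP S I` by multiplication.)
`PP_dvd`: if `0 < n < S^m` then fewer than `m` primes `p ≥ S` divide `n` (their product divides `n` and is `≥ S^(number)`), and a `P ∈ PP S I` dividing `n` is the product of its set of prime factors (squarefree, `Nat.prod_primeFactors_of_squarefree`), a subset of that set: at most `2^m` choices.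
-/

set_option autoImplicit false

namespace Pool.Agent.Helper5.LE

open MeasureTheory Finset
open Pool.Agent.Helper25.MOB

private theorem prime_dvd_mem69 {S q P : ℕ} {I : Finset ℕ} (hq : q.Prime) (hP : P ∈ PP S I)
    (h : q ∣ P) : ∃ i ∈ I, q ∈ win S i := by
  obtain ⟨f, hf, rfl⟩ := mem_PP.1 hP
  obtain ⟨i, hi, hd⟩ := (Prime.dvd_finset_prod_iff hq.prime f).1 h
  have hp : (f i).Prime := (mem_win.1 (hf i hi)).2
  have : q = f i := (Nat.prime_dvd_prime_iff_eq hq hp).1 hd
  exact ⟨i, hi, this ▸ hf i hi⟩

theorem PP_card {S : ℕ} {I : Finset ℕ} (hS : 1 ≤ S) :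
    (PP S I).card = ∏ i ∈ I, (win S i).card := by
  classical
  induction I using Finset.induction_on with
  | empty =>
    have : PP S ∅ = {1} := by
      ext n
      rw [mem_PP, Finset.mem_singleton]
      constructor
      · rintro ⟨f, -, h⟩
        simpa using h
      · intro h
        exact ⟨fun _ => 0, by simp, by simpa using h⟩
    rw [this]
    simp
  | insert i I hi ih =>
    have h1 : PP S (insert i I) = (win S i ×ˢ PP S I).image fun v => v.1 * v.2 := by
      ext n
      rw [mem_PP, Finset.mem_image]
      constructor
      · rintro ⟨f, hf, h⟩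
        refine ⟨(f i, ∏ j ∈ I, f j), ?_, ?_⟩
        · rw [Finset.mem_product]
          exact ⟨hf i (Finset.mem_insert_self _ _), mem_PP.2 ⟨f, fun j hj =>
            hf j (Finset.mem_insert_of_mem hj), rfl⟩⟩
        · rw [h, Finset.prod_insert hi]
      · rintro ⟨⟨q, P⟩, hv, h⟩
        rw [Finset.mem_product] at hv
        obtain ⟨f, hf, hP⟩ := mem_PP.1 hv.2
        refine ⟨fun j => if j = i then q else f j, ?_, ?_⟩
        · intro j hj
          by_cases hji : j = i
          · subst hji
            simpa using hv.1
          · simp only [hji, if_false]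
            exact hf j ((Finset.mem_insert.1 hj).resolve_left hji)
        · rw [Finset.prod_insert hi, if_pos rfl, ← h]
          simp only
          have : P = ∏ j ∈ I, f j := hP
          rw [this]
          congr 1
          refine Finset.prod_congr rfl fun j hj => ?_
          rw [if_neg]
          rintro rfl
          exact hi hj
    rw [h1, Finset.card_image_of_injOn, Finset.card_product, ih, Finset.prod_insert hi]
    rintro ⟨q, P⟩ hv ⟨q', P'⟩ hv' h
    simp only [Finset.coe_product, Set.mem_prod, Finset.mem_coe] at hv hv'
    simp only at h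
    have hq : q.Prime := (mem_win.1 hv.1).2
    have hq' : q'.Prime := (mem_win.1 hv'.1).2
    have hd : q ∣ q' * P' := h ▸ dvd_mul_right q P
    have hqq : q = q' := by
      rcases (Nat.Prime.dvd_mul hq).1 hd with h2 | h2
      · exact (Nat.prime_dvd_prime_iff_eq hq hq').1 h2
      · exfalso
        obtain ⟨j, hj, hw⟩ := prime_dvd_mem69 hq hv'.2 h2
        have := win_disj hS hv.1 hw
        subst this
        exact hi hj
    subst hqq
    have : P = P' := Nat.eq_of_mul_eq_mul_left hq.pos h
    rw [this]

theorem PP_dvd {S m n : ℕ} {I : Finset ℕ} (hS : 2 ≤ S) (hn : 0 < n) (h : n < S ^ m) :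
    ((PP S I).filter (· ∣ n)).card ≤ 2 ^ m := by
  classical
  set T : Finset ℕ := n.primeFactors.filter (S ≤ ·) with hT
  have hTd : ∏ q ∈ T, q ∣ n :=
    (Finset.prod_dvd_prod_of_subset _ _ _ (Finset.filter_subset _ _)).trans
      (Nat.prod_primeFactors_dvd n)
  have hTS : S ^ T.card ≤ ∏ q ∈ T, q := by
    rw [← Finset.prod_const]
    exact Finset.prod_le_prod' fun q hq => (Finset.mem_filter.1 hq).2
  have hTm : T.card < m := by
    have h1 : S ^ T.card < S ^ m := (hTS.trans (Nat.le_of_dvd hn hTd)).trans_lt h
    exact (Nat.pow_lt_pow_iff_right (by omega)).1 h1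
  calc ((PP S I).filter (· ∣ n)).card ≤ T.powerset.card := by
        refine Finset.card_le_card_of_injOn (fun P => P.primeFactors) ?_ ?_
        · intro P hP
          have hP := Finset.mem_filter.1 (Finset.mem_coe.1 hP)
          rw [Finset.mem_coe, Finset.mem_powerset]
          intro q hq
          have hqp := Nat.prime_of_mem_primeFactors hq
          obtain ⟨i, -, hw⟩ := prime_dvd_mem69 hqp hP.1 (Nat.dvd_of_mem_primeFactors hq)
          rw [hT, Finset.mem_filter, Nat.mem_primeFactors]
          refine ⟨⟨hqp, (Nat.dvd_of_mem_primeFactors hq).trans hP.2, by omega⟩, ?_⟩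
          exact (Nat.le_mul_of_pos_left S (by positivity)).trans (mem_win.1 hw).1.1
        · intro P hP P' hP' heq
          have hP := Finset.mem_filter.1 (Finset.mem_coe.1 hP)
          have hP' := Finset.mem_filter.1 (Finset.mem_coe.1 hP')
          rw [← Nat.prod_primeFactors_of_squarefree (PP_squarefree (by omega) hP.1),
            ← Nat.prod_primeFactors_of_squarefree (PP_squarefree (by omega) hP'.1)]
          simp only at heq
          rw [heq]
    _ = 2 ^ T.card := Finset.card_powerset T
    _ ≤ 2 ^ m := Nat.pow_le_pow_right (by norm_num) hTm.le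

end Pool.Agent.Helper5.LE
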