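import Pool.Agent.Helper5.LE.PA
import Pool.Agent.Helper5.LE.PB
import Pool.Agent.Helper5.LE.PC
import Pool.Agent.Helper5.LE.MS
import Pool.Agent.Helper5.LE.CA
import Pool.Agent.Helper5.LE.CB
import Pool.Agent.Helper5.LE.CC

/-!
# Block LE-C4: the pair lemma for composite labels

Notation `c = cc k`, `L = S^k`, `δ = r L`, `A = PP S (range k)`, `Λ = labc A A δ y y'`, `n = #Λ`, `X = c L`. Assume `n > K0 + 2 + 2 om(y) + 2 om(y')` (else done, all other terms are `≥ 0`, `nt_bounds`); so `n ≥ 4`, `n - 1 ≥ K0`.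
(1) `exists_extreme` (`MOB/C1`) for `s = Λ`: `a0, b0 ∈ Λ` of extreme slopes; `det2 a0 b0 ≠ 0` (`det_ne`; two different elements exist), so `D = det2 a0 b0 > 0`; for `v, w ∈ Λ`: `|det2 v w| ≤ c^2 D` (slopes between the extreme ones, `|det2 v w| / (v.1 w.1) ≤ D / (a0.1 b0.1)`, entries in `[L, c L]`). `two_labels` (`8 X^2 δ < 1` is the hypothesis `h3`): `α, α'` with `D α = 0 = D α'`, `‖y - α‖, ‖y' - α'‖ ≤ 2 X δ / D` and `P α = P' α'` for all labels.
(2) `order_struct` for one label: `g = gcd(ord α, ord α')`, `a = ord α / g`, `b = ord α' / g` (positive: orders divide `D`); for every label `v`: `a ∣ v.1`, `b ∣ v.2`, `(v.1/a, a g) = 1`, `(v.2/b, b g) = 1`. By `PP_split` `a ∈ PP S Ia`, `b ∈ PP S Ib` with `Ia, Ib ⊆ range k` (take the sets for one label; they do not depend on it since `a` is fixed).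
(3) `det_dvd` + `slope_count` (`Y = L`, `Dm = c^2 D`, `m = a b g`): `(n - 1) a b g ≤ c^4 D`. Hence `a b g ‖y - α‖ ≤ 2 X δ c^4 / (n - 1) = 2 c^5 L^2 r / (n-1) ≤ W` and `a b g r ≤ c^4 D r / (n - 1) ≤ c^6 L^2 r / (n - 1) ≤ W` (`D ≤ X^2`; `2 c^6 L^2 r ≤ K0 W`). The same for `y'`. In particular `α, α' ∈ Fr r W` (`ord α = a g ≤ a b g ≤ W / r`).
(4) If `Ia = range k` then `a = P` for all labels (`PP_full`), all labels have the same first entry and `n ≤ 1 + om(y')` (`fibre_om` with `H = c S^k`): contradiction. If `Ib = range k`: symmetric (`‖P y - P' y'‖ = ‖P' y' - P y‖`). So both `≠ range k`.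
(5) Case `|Ia| ≤ |Ib|`. Let `j = 0` if `‖y - α‖ < 2 r`, else `2^j r ≤ ‖y - α‖ < 2^(j+1) r`. So `y ∈ ann j r α`, `2^j r ≤ max(r, ‖y - α‖)`, `a b g 2^j r ≤ W`, in particular `2^j r ≤ W` and `j < Jm`. With real lifts (`exists_lift`, `real_rel`; `P |β|, P' |β'| ≤ X 2 X δ < 1/4`) `|P β - P' β'| ≤ δ`, so `L |β'| ≤ c L |β| + δ`, `|β'| ≤ (c 2^(j+1) + 1) r ≤ c 2^(j+2) r`. So every label contributes at least `1` to `nt S k j Ia Ib r W y y'`: `n ≤ nt ...`.
Case `|Ib| < |Ia|`: the same with `y, y'` exchanged: `n ≤ nt S k j' Ib Ia r W y' y` (the labels `(P', P)`); the corresponding summand is the one with the pair of sets `(Ib, Ia)`, `Ia ≠ range k`.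
-/

set_option autoImplicit false

namespace Pool.Agent.Helper5.LE

open MeasureTheory Finset
open Pool.Agent.Helper25.MOB

private lemma exists_j24 {x r : ℝ} (hr : 0 < r) :
    ∃ j : ℕ, x ≤ 2 ^ (j + 1) * r ∧ (j = 0 ∨ 2 ^ j * r ≤ x) := by
  by_cases h : x < 2 * r
  · exact ⟨0, by norm_num; exact h.le, Or.inl rfl⟩
  · push Not at h
    have h1 : 1 ≤ x / r := by
      rw [le_div_iff₀ hr]
      linarith
    obtain ⟨n, hn1, hn2⟩ := exists_nat_pow_near h1 (show (1 : ℝ) < 2 by norm_num)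
    rw [le_div_iff₀ hr] at hn1
    rw [div_lt_iff₀ hr] at hn2
    exact ⟨n, hn2.le, Or.inr hn1⟩

private lemma core24 {S k Jm : ℕ} {r W : ℝ} (hS : 1 ≤ S) (hr : 0 < r)
    (hJ : ∀ j : ℕ, 2 ^ j * r ≤ W → j < Jm) {y y' α α' : UnitAddCircle} {a b g : ℕ} {Ia Ib : Finset ℕ}
    (hg : 0 < g) (ha : a ∈ PP S Ia) (hb : b ∈ PP S Ib) (hα : addOrderOf α = a * g)
    (hα' : addOrderOf α' = b * g) {T : Finset (ℕ × ℕ)} (hT : T.Nonempty)
    (h1 : ∀ v ∈ T, (v.1 ∈ PP S (range k) ∧ v.2 ∈ PP S (range k)) ∧ v.1.Coprime v.2 ∧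
      ‖v.1 • y - v.2 • y'‖ ≤ r * S ^ k ∧ v.1 • α = v.2 • α' ∧ a ∣ v.1 ∧ b ∣ v.2 ∧
      (v.1 / a).Coprime (a * g) ∧ (v.2 / b).Coprime (b * g))
    (h2 : ((a * b * g : ℕ) : ℝ) * r ≤ W) (h3 : ((a * b * g : ℕ) : ℝ) * ‖y - α‖ ≤ W)
    (h4 : (cc k : ℝ) * (S : ℝ) ^ k * ‖y - α‖ ≤ 1 / 4) (h5 : (cc k : ℝ) * (S : ℝ) ^ k * ‖y' - α'‖ ≤ 1 / 4) :
    ∃ j < Jm, (T.card : ℝ) ≤ nt S k j Ia Ib r W y y' := by
  classical
  obtain ⟨j, hj1, hj2⟩ := exists_j24 (x := ‖y - α‖) hr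
  have ha0 : 0 < a := PP_pos ha
  have hb0 : 0 < b := PP_pos hb
  have hm0 : 0 < a * b * g := by positivity
  have hm1 : (1 : ℝ) ≤ ((a * b * g : ℕ) : ℝ) := by exact_mod_cast hm0
  have hm : ((a * b * g : ℕ) : ℝ) * 2 ^ j * r ≤ W := by
    rcases hj2 with h | h
    · rw [h, pow_zero, mul_one]
      exact h2
    · refine le_trans ?_ h3
      rw [mul_assoc]
      exact mul_le_mul_of_nonneg_left h (by positivity)
  have hjJ : j < Jm := by
    refine hJ j (le_trans ?_ hm)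
    rw [mul_assoc]
    exact le_mul_of_one_le_left (by positivity) hm1
  have hFr : ∀ (β : UnitAddCircle) (e : ℕ), addOrderOf β = e → 0 < e → e ≤ a * b * g → β ∈ Fr r W := by
    intro β e he he0 hle
    rw [mem_Fr, he]
    refine ⟨he0, Nat.le_floor ?_⟩
    rw [le_div_iff₀ hr]
    refine le_trans ?_ h2
    exact mul_le_mul_of_nonneg_right (by exact_mod_cast hle) hr.le
  have hαF : α ∈ Fr r W := by
    refine hFr α _ hα (by positivity) ?_
    have : a * g ≤ a * g * b := Nat.le_mul_of_pos_right _ hb0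
    calc a * g ≤ a * g * b := this
      _ = a * b * g := by ring
  have hα'F : α' ∈ Fr r W := by
    refine hFr α' _ hα' (by positivity) ?_
    have : b * g ≤ b * g * a := Nat.le_mul_of_pos_right _ ha0
    calc b * g ≤ b * g * a := this
      _ = a * b * g := by ring
  have hSr : (1 : ℝ) ≤ S := by exact_mod_cast hS
  have hL1 : (1 : ℝ) ≤ (S : ℝ) ^ k := one_le_pow₀ hSr
  have hc1 : (1 : ℝ) ≤ (cc k : ℝ) := by
    have : 1 ≤ cc k := Nat.one_le_two_pow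
    exact_mod_cast this
  -- the distance of `y'`
  have hy' : ‖y' - α'‖ ≤ cc k * 2 ^ (j + 2) * r := by
    obtain ⟨v, hv⟩ := hT
    obtain ⟨⟨hv1, hv2⟩, -, hv3, hv4, -⟩ := h1 v hv
    obtain ⟨β, hβ, hβn⟩ := exists_lift (y - α)
    obtain ⟨β', hβ', hβn'⟩ := exists_lift (y' - α')
    have b1 := PP_bounds (k := k) Subset.rfl hv1
    have b2 := PP_bounds (k := k) Subset.rfl hv2
    rw [card_range] at b1 b2
    have b1' : (v.1 : ℝ) ≤ cc k * (S : ℝ) ^ k := by exact_mod_cast b1.2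
    have b2' : (v.2 : ℝ) ≤ cc k * (S : ℝ) ^ k := by exact_mod_cast b2.2
    have b3' : (S : ℝ) ^ k ≤ v.2 := by exact_mod_cast b2.1
    have hs : (v.1 : ℝ) * |β| + v.2 * |β'| ≤ 1 / 2 := by
      have e1 : (v.1 : ℝ) * |β| ≤ cc k * (S : ℝ) ^ k * ‖y - α‖ := by
        rw [hβn]
        exact mul_le_mul_of_nonneg_right b1' (norm_nonneg _)
      have e2 : (v.2 : ℝ) * |β'| ≤ cc k * (S : ℝ) ^ k * ‖y' - α'‖ := by
        rw [hβn']
        exact mul_le_mul_of_nonneg_right b2' (norm_nonneg _)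
      linarith
    have hrel := real_rel hβ hβ' hv4 hs
    rw [hrel] at hv3
    have e1 : (v.2 : ℝ) * |β'| ≤ v.1 * |β| + r * (S : ℝ) ^ k := by
      have e2 : (v.2 : ℝ) * |β'| = |(v.2 : ℝ) * β'| := by rw [abs_mul, Nat.abs_cast]
      have e3 : (v.1 : ℝ) * |β| = |(v.1 : ℝ) * β| := by rw [abs_mul, Nat.abs_cast]
      rw [e2, e3]
      have e4 := abs_sub_abs_le_abs_sub ((v.2 : ℝ) * β') ((v.1 : ℝ) * β)
      rw [abs_sub_comm] at e4
      linarith
    have e2 : (S : ℝ) ^ k * ‖y' - α'‖ ≤ (S : ℝ) ^ k * (cc k * ‖y - α‖ + r) := by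
      rw [← hβn', ← hβn]
      calc (S : ℝ) ^ k * |β'| ≤ v.2 * |β'| := mul_le_mul_of_nonneg_right b3' (abs_nonneg _)
        _ ≤ v.1 * |β| + r * (S : ℝ) ^ k := e1
        _ ≤ cc k * (S : ℝ) ^ k * |β| + r * (S : ℝ) ^ k := by
          have := mul_le_mul_of_nonneg_right b1' (abs_nonneg β)
          linarith
        _ = (S : ℝ) ^ k * (cc k * |β| + r) := by ring
    have e3 : ‖y' - α'‖ ≤ cc k * ‖y - α‖ + r := le_of_mul_le_mul_left e2 (by positivity)
    have e4 : (cc k : ℝ) * ‖y - α‖ ≤ cc k * (2 ^ (j + 1) * r) := mul_le_mul_of_nonneg_left hj1 (by positivity)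
    have e5 : r ≤ cc k * (2 ^ (j + 1) * r) := by
      have e6 : (1 : ℝ) ≤ 2 ^ (j + 1) := one_le_pow₀ (by norm_num)
      have e7 : (1 : ℝ) ≤ cc k * 2 ^ (j + 1) := one_le_mul_of_one_le_of_one_le hc1 e6
      calc r ≤ (cc k * 2 ^ (j + 1)) * r := le_mul_of_one_le_left hr.le e7
        _ = cc k * (2 ^ (j + 1) * r) := by ring
    calc ‖y' - α'‖ ≤ cc k * ‖y - α‖ + r := e3
      _ ≤ cc k * (2 ^ (j + 1) * r) + cc k * (2 ^ (j + 1) * r) := add_le_add e4 e5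
      _ = cc k * 2 ^ (j + 2) * r := by ring
  refine ⟨j, hjJ, ?_⟩
  have hsub : T ⊆ PP S (range k) ×ˢ PP S (range k) := by
    intro v hv
    rw [mem_product]
    exact (h1 v hv).1
  unfold nt
  refine le_trans (b := ∑ _v ∈ T, (1 : ℝ)) (by simp) ?_
  refine le_trans ?_ (sum_le_sum_of_subset_of_nonneg hsub fun v _ _ => ?_)
  · refine sum_le_sum fun v hv => ?_
    obtain ⟨⟨hv1, hv2⟩, hv3, hv4, hv5, hv6, hv7, hv8, hv9⟩ := h1 v hv
    have hadm : adm S j Ia Ib r W α α' v.1 v.2 :=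
      ⟨a, b, g, hg, ha, hb, hα, hα', hv6, hv7, hv8, hv9, hv3, hv5, hm⟩
    refine le_trans ?_ (single_le_sum (a := α) (fun β _ => sum_nonneg fun β' _ => ?_) hαF)
    · refine le_trans ?_ (single_le_sum (a := α') (fun β' _ => ?_) hα'F)
      · rw [if_pos ⟨hadm, ⟨hj1, hj2⟩, hy', hv4⟩]
      · split_ifs <;> norm_num
    · split_ifs <;> norm_num
  · refine sum_nonneg fun β _ => sum_nonneg fun β' _ => ?_
    split_ifs <;> norm_num

theorem pair_lemma {S k Jm : ℕ} {r W K0 : ℝ} (hk : 1 ≤ k) (hS : 2 ≤ S) (hr : 0 < r)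
    (hW0 : 0 < W) (hK : 1 ≤ K0)
    (h3 : 8 * (cc k : ℝ) ^ 2 * (S : ℝ) ^ (3 * k) * r < 1)
    (hKW : 2 * (cc k : ℝ) ^ 6 * (S : ℝ) ^ (2 * k) * r ≤ K0 * W)
    (hJ : ∀ j : ℕ, 2 ^ j * r ≤ W → j < Jm) (y y' : UnitAddCircle) :
    ((labc (PP S (range k)) (PP S (range k)) (r * S ^ k) y y').card : ℝ) ≤
      K0 + 2 + 2 * om (cc k * S ^ k) (r * S ^ k) y + 2 * om (cc k * S ^ k) (r * S ^ k) y' +
      ∑ j ∈ range Jm, ∑ Ia ∈ (range k).powerset, ∑ Ib ∈ (range k).powerset,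
        if Ia.card ≤ Ib.card ∧ Ib ≠ range k then
          nt S k j Ia Ib r W y y' + nt S k j Ia Ib r W y' y else 0 := by
  classical
  set Λ := labc (PP S (range k)) (PP S (range k)) (r * S ^ k) y y' with hΛ
  set Om : ℝ := ((om (cc k * S ^ k) (r * S ^ k) y : ℕ) : ℝ) with hOm
  set Om' : ℝ := ((om (cc k * S ^ k) (r * S ^ k) y' : ℕ) : ℝ) with hOm'
  have hOm0 : 0 ≤ Om := Nat.cast_nonneg _
  have hOm0' : 0 ≤ Om' := Nat.cast_nonneg _
  -- the sum
  have hterm0 : ∀ (j : ℕ) (Ia Ib : Finset ℕ), 0 ≤ (if Ia.card ≤ Ib.card ∧ Ib ≠ range k then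
      nt S k j Ia Ib r W y y' + nt S k j Ia Ib r W y' y else 0 : ℝ) := by
    intro j Ia Ib
    have h1 := (nt_bounds S k j Ia Ib r W y y').1
    have h2 := (nt_bounds S k j Ia Ib r W y' y).1
    split_ifs
    · linarith
    · exact le_rfl
  have hterm : ∀ (j : ℕ) (Ia Ib : Finset ℕ), j < Jm → Ia ⊆ range k → Ib ⊆ range k → Ia.card ≤ Ib.card →
      Ib ≠ range k → nt S k j Ia Ib r W y y' + nt S k j Ia Ib r W y' y ≤
        ∑ j ∈ range Jm, ∑ Ia ∈ (range k).powerset, ∑ Ib ∈ (range k).powerset,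
          if Ia.card ≤ Ib.card ∧ Ib ≠ range k then
            nt S k j Ia Ib r W y y' + nt S k j Ia Ib r W y' y else 0 := by
    intro j Ia Ib hj hIa hIb hcard hne
    refine le_trans ?_ (single_le_sum (a := j) (fun j _ => sum_nonneg fun Ia _ => sum_nonneg fun Ib _ =>
      hterm0 j Ia Ib) (mem_range.2 hj))
    refine le_trans ?_ (single_le_sum (a := Ia) (fun Ia _ => sum_nonneg fun Ib _ => hterm0 j Ia Ib)
      (mem_powerset.2 hIa))
    refine le_trans ?_ (single_le_sum (a := Ib) (fun Ib _ => hterm0 j Ia Ib) (mem_powerset.2 hIb))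
    rw [if_pos ⟨hcard, hne⟩]
  have hSum0 : 0 ≤ ∑ j ∈ range Jm, ∑ Ia ∈ (range k).powerset, ∑ Ib ∈ (range k).powerset,
      (if Ia.card ≤ Ib.card ∧ Ib ≠ range k then
        nt S k j Ia Ib r W y y' + nt S k j Ia Ib r W y' y else 0 : ℝ) :=
    sum_nonneg fun j _ => sum_nonneg fun Ia _ => sum_nonneg fun Ib _ => hterm0 j Ia Ib
  by_cases hn : (Λ.card : ℝ) ≤ K0 + 2 + 2 * Om + 2 * Om'
  · linarith
  push Not at hn
  suffices hmain : (Λ.card : ℝ) ≤ ∑ j ∈ range Jm, ∑ Ia ∈ (range k).powerset, ∑ Ib ∈ (range k).powerset,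
      (if Ia.card ≤ Ib.card ∧ Ib ≠ range k then
        nt S k j Ia Ib r W y y' + nt S k j Ia Ib r W y' y else 0 : ℝ) by
    linarith
  -- basic facts
  have hS1 : 1 ≤ S := by omega
  have hSr : (1 : ℝ) ≤ S := by exact_mod_cast hS1
  obtain ⟨L, hLdef⟩ : ∃ L : ℝ, L = (S : ℝ) ^ k := ⟨_, rfl⟩
  obtain ⟨c, hcdef⟩ : ∃ c : ℝ, c = (cc k : ℝ) := ⟨_, rfl⟩
  have hL1 : 1 ≤ L := by
    rw [hLdef]
    exact one_le_pow₀ hSr
  have hc1 : 1 ≤ c := by
    have : 1 ≤ cc k := Nat.one_le_two_pow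
    rw [hcdef]
    exact_mod_cast this
  have hL0 : 0 < L := by linarith
  have hc0 : 0 < c := by linarith
  have hS3 : (S : ℝ) ^ (3 * k) = L ^ 3 := by
    rw [hLdef, pow_mul']
  have hS2 : (S : ℝ) ^ (2 * k) = L ^ 2 := by
    rw [hLdef, pow_mul']
  rw [hS3, ← hcdef] at h3
  rw [hS2, ← hcdef] at hKW
  have hmem : ∀ v ∈ Λ, ((v.1 ∈ PP S (range k) ∧ v.2 ∈ PP S (range k)) ∧
      ‖v.1 • y - v.2 • y'‖ ≤ r * S ^ k) ∧ v.1.Coprime v.2 := by
    intro v hv
    rw [hΛ, labc, mem_filter, mem_lab] at hv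
    exact hv
  have hbd : ∀ P ∈ PP S (range k), L ≤ (P : ℝ) ∧ (P : ℝ) ≤ c * L := by
    intro P hP
    have b1 := PP_bounds (k := k) Subset.rfl hP
    rw [card_range] at b1
    rw [hLdef, hcdef]
    constructor
    · exact_mod_cast b1.1
    · exact_mod_cast b1.2
  have hpos : ∀ P ∈ PP S (range k), 0 < P := fun P hP => PP_pos hP
  have hn3 : (3 : ℝ) < Λ.card := by linarith
  have hn3' : 3 < Λ.card := by exact_mod_cast hn3
  have hne : Λ.Nonempty := card_pos.1 (by omega)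
  obtain ⟨a0, ha0, b0, hb0, hext⟩ := exists_extreme Λ hne fun v hv => hpos _ (hmem v hv).1.1.1
  have hdetne : ∀ v ∈ Λ, ∀ w ∈ Λ, v ≠ w → det2 v w ≠ 0 := by
    intro v hv w hw hvw
    have e1 := hmem v hv
    have e2 := hmem w hw
    exact det_ne e1.2 e2.2 (hpos _ e1.1.1.1) (hpos _ e1.1.1.2) (hpos _ e2.1.1.1) (hpos _ e2.1.1.2) hvw
  have hab0 : a0 ≠ b0 := by
    intro h
    have h1 : ∀ v ∈ Λ, v = a0 := by
      intro v hv
      by_contra hva
      have h2 := hext v hv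
      rw [← h] at h2
      have h4 : det2 v a0 = - det2 a0 v := by
        unfold det2
        ring
      have h5 := hdetne v hv a0 ha0 hva
      rw [h4] at h5 h2
      omega
    have h2 : Λ.card ≤ 1 := card_le_one.2 fun v hv w hw => (h1 v hv).trans (h1 w hw).symm
    omega
  have hD0 : 0 < det2 a0 b0 := lt_of_le_of_ne (hext b0 hb0).1 (hdetne a0 ha0 b0 hb0 hab0).symm
  obtain ⟨D, hD⟩ : ∃ D : ℕ, det2 a0 b0 = D := ⟨(det2 a0 b0).toNat, (Int.toNat_of_nonneg hD0.le).symm⟩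
  have hDpos : 0 < D := by
    rw [hD] at hD0
    exact_mod_cast hD0
  have hDr : (1 : ℝ) ≤ D := by exact_mod_cast hDpos
  -- slopes
  have hfst : ∀ v ∈ Λ, 0 < (v.1 : ℝ) := fun v hv => lt_of_lt_of_le hL0 (hbd _ (hmem v hv).1.1.1).1
  have hdet_eq : ∀ v ∈ Λ, ∀ w ∈ Λ, ((det2 v w : ℤ) : ℝ) = v.1 * w.1 * ((w.2 : ℝ) / w.1 - (v.2 : ℝ) / v.1) := by
    intro v hv w hw
    have h1 := (hfst v hv).ne'
    have h2 := (hfst w hw).ne'
    unfold det2
    push_cast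
    field_simp
  have hsl : ∀ v ∈ Λ, (a0.2 : ℝ) / a0.1 ≤ (v.2 : ℝ) / v.1 ∧ (v.2 : ℝ) / v.1 ≤ (b0.2 : ℝ) / b0.1 := by
    intro v hv
    have h1 := hext v hv
    have e1 : (0 : ℝ) ≤ ((det2 a0 v : ℤ) : ℝ) := by exact_mod_cast h1.1
    have e2 : (0 : ℝ) ≤ ((det2 v b0 : ℤ) : ℝ) := by exact_mod_cast h1.2
    rw [hdet_eq a0 ha0 v hv] at e1
    rw [hdet_eq v hv b0 hb0] at e2
    have p1 : 0 < (a0.1 : ℝ) * v.1 := mul_pos (hfst a0 ha0) (hfst v hv)
    have p2 : 0 < (v.1 : ℝ) * b0.1 := mul_pos (hfst v hv) (hfst b0 hb0)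
    have e3 := nonneg_of_mul_nonneg_right e1 p1
    have e4 := nonneg_of_mul_nonneg_right e2 p2
    constructor <;> linarith
  have hdetle : ∀ v ∈ Λ, ∀ w ∈ Λ, |((det2 v w : ℤ) : ℝ)| ≤ c ^ 2 * D := by
    intro v hv w hw
    have hDe : (D : ℝ) = a0.1 * b0.1 * ((b0.2 : ℝ) / b0.1 - (a0.2 : ℝ) / a0.1) := by
      rw [← hdet_eq a0 ha0 b0 hb0, hD]
      norm_num
    set τ := (b0.2 : ℝ) / b0.1 - (a0.2 : ℝ) / a0.1 with hτ
    have s1 := hsl v hv
    have s2 := hsl w hw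
    have habs : |(w.2 : ℝ) / w.1 - (v.2 : ℝ) / v.1| ≤ τ := by
      rw [abs_le]
      constructor <;> linarith [s1.1, s1.2, s2.1, s2.2]
    have hτ0 : 0 ≤ τ := (abs_nonneg _).trans habs
    have b1 := hbd _ (hmem v hv).1.1.1
    have b2 := hbd _ (hmem w hw).1.1.1
    have b3 := hbd _ (hmem a0 ha0).1.1.1
    have b4 := hbd _ (hmem b0 hb0).1.1.1
    rw [hdet_eq v hv w hw, abs_mul, abs_of_nonneg (by positivity)]
    calc (v.1 : ℝ) * w.1 * |(w.2 : ℝ) / w.1 - (v.2 : ℝ) / v.1| ≤ ((c * L) * (c * L)) * τ := by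
          refine mul_le_mul ?_ habs (abs_nonneg _) (by positivity)
          exact mul_le_mul b1.2 b2.2 (Nat.cast_nonneg _) (by positivity)
      _ = c ^ 2 * ((L * L) * τ) := by ring
      _ ≤ c ^ 2 * (((a0.1 : ℝ) * b0.1) * τ) := by
          refine mul_le_mul_of_nonneg_left (mul_le_mul_of_nonneg_right ?_ hτ0) (by positivity)
          exact mul_le_mul b3.1 b4.1 hL0.le (Nat.cast_nonneg _)
      _ = c ^ 2 * D := by rw [← hDe]
  have hDX : (D : ℝ) ≤ (c * L) ^ 2 := by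
    have h1 : (D : ℝ) ≤ (a0.1 : ℝ) * b0.2 := by
      have h2 : ((det2 a0 b0 : ℤ) : ℝ) = (D : ℝ) := by rw [hD]; norm_num
      rw [← h2]
      unfold det2
      push_cast
      have h4 : (0 : ℝ) ≤ (b0.1 : ℝ) * a0.2 := by positivity
      linarith
    refine h1.trans ?_
    rw [sq]
    exact mul_le_mul (hbd _ (hmem a0 ha0).1.1.1).2 (hbd _ (hmem b0 hb0).1.1.2).2 (Nat.cast_nonneg _) (by positivity)
  -- the torsion points
  have hδ0 : 0 ≤ r * (S : ℝ) ^ k := by positivity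
  have h8 : 8 * (c * L) ^ 2 * (r * (S : ℝ) ^ k) < 1 := by
    rw [← hLdef]
    calc 8 * (c * L) ^ 2 * (r * L) = 8 * c ^ 2 * L ^ 3 * r := by ring
      _ < 1 := h3
  obtain ⟨α, α', hDα, hDα', hyα, hyα', hall⟩ := two_labels (X := c * L) (δ := r * (S : ℝ) ^ k) hδ0 h8 y y'
    (a := a0) (b := b0) ⟨(hbd _ (hmem a0 ha0).1.1.1).2, (hbd _ (hmem a0 ha0).1.1.2).2⟩
    ⟨(hbd _ (hmem b0 hb0).1.1.1).2, (hbd _ (hmem b0 hb0).1.1.2).2⟩
    (hmem a0 ha0).1.2 (hmem b0 hb0).1.2 hDpos hD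
  have hrel : ∀ v ∈ Λ, v.1 • α = v.2 • α' := by
    intro v hv
    exact hall v (hbd _ (hmem v hv).1.1.1).2 (hbd _ (hmem v hv).1.1.2).2 (hmem v hv).1.2
  have hoα : 0 < addOrderOf α := Nat.pos_of_dvd_of_pos (addOrderOf_dvd_of_nsmul_eq_zero hDα) hDpos
  have hoα' : 0 < addOrderOf α' := Nat.pos_of_dvd_of_pos (addOrderOf_dvd_of_nsmul_eq_zero hDα') hDpos
  obtain ⟨g, hgdef⟩ : ∃ g, g = (addOrderOf α).gcd (addOrderOf α') := ⟨_, rfl⟩
  have hg : 0 < g := by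
    rw [hgdef]
    exact Nat.gcd_pos_of_pos_left _ hoα
  obtain ⟨a, hadef⟩ : ∃ a, a = addOrderOf α / g := ⟨_, rfl⟩
  obtain ⟨b, hbdef⟩ : ∃ b, b = addOrderOf α' / g := ⟨_, rfl⟩
  have hag : addOrderOf α = a * g := by
    rw [hadef, Nat.div_mul_cancel]
    rw [hgdef]
    exact Nat.gcd_dvd_left _ _
  have hbg : addOrderOf α' = b * g := by
    rw [hbdef, Nat.div_mul_cancel]
    rw [hgdef]
    exact Nat.gcd_dvd_right _ _
  have ha_pos : 0 < a := by
    rcases Nat.eq_zero_or_pos a with h | h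
    · rw [hag, h, zero_mul] at hoα
      exact absurd hoα (lt_irrefl 0)
    · exact h
  have hb_pos : 0 < b := by
    rcases Nat.eq_zero_or_pos b with h | h
    · rw [hbg, h, zero_mul] at hoα'
      exact absurd hoα' (lt_irrefl 0)
    · exact h
  have hfact : ∀ v ∈ Λ, a ∣ v.1 ∧ b ∣ v.2 ∧ (v.1 / a).Coprime (a * g) ∧ (v.2 / b).Coprime (b * g) := by
    intro v hv
    have e1 := hmem v hv
    have e2 : (addOrderOf α / g) ∣ v.1 ∧ (addOrderOf α' / g) ∣ v.2 ∧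
        (v.1 / (addOrderOf α / g)).Coprime (addOrderOf α) ∧
        (v.2 / (addOrderOf α' / g)).Coprime (addOrderOf α') := by
      rw [hgdef]
      exact order_struct (PP_squarefree hS1 e1.1.1.1) (PP_squarefree hS1 e1.1.1.2) e1.2 hoα hoα' (hrel v hv)
    rw [← hadef, ← hbdef] at e2
    rw [← hag, ← hbg]
    exact e2
  have hma : 0 < a * b * g := by positivity
  -- the number of labels
  have hcount : ((Λ.card : ℝ) - 1) * ((a * b * g : ℕ) : ℝ) ≤ c ^ 4 * D := by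
    have h1 := slope_count (s := Λ) (Y := L) (X := c * L) (Dm := c ^ 2 * D) (m := a * b * g) hL0 hma (by positivity)
      (fun v hv => hbd _ (hmem v hv).1.1.1)
      (fun v hv w hw hvw => ⟨det_dvd ha_pos hb_pos hg hag hbg (hfact v hv).1 (hfact v hv).2.1 (hfact w hw).1
        (hfact w hw).2.1 (hrel v hv) (hrel w hw), hdetne v hv w hw hvw⟩)
      hdetle
    have h2 : c ^ 2 * (D : ℝ) * (c * L) ^ 2 = c ^ 4 * D * L ^ 2 := by ring
    rw [h2] at h1
    exact le_of_mul_le_mul_right h1 (by positivity)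
  set m : ℝ := ((a * b * g : ℕ) : ℝ) with hm_def
  have hm0 : 0 < m := by
    rw [hm_def]
    exact_mod_cast hma
  obtain ⟨ν, hν⟩ : ∃ ν : ℝ, ν = (Λ.card : ℝ) - 1 := ⟨_, rfl⟩
  rw [← hν] at hcount
  have hνK : K0 ≤ ν := by linarith
  have hν0 : 0 < ν := by linarith
  have hKν : K0 * W ≤ ν * W := mul_le_mul_of_nonneg_right hνK hW0.le
  have hmE : ∀ E : ℝ, 0 ≤ E → E ≤ 2 * (c * L) * (r * (S : ℝ) ^ k) / D → m * E ≤ W := by
    intro E hE0 hE
    rw [le_div_iff₀ (by linarith), ← hLdef] at hE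
    have h1 : ν * (m * E) ≤ ν * W := by
      calc ν * (m * E) = (ν * m) * E := by ring
        _ ≤ (c ^ 4 * D) * E := mul_le_mul_of_nonneg_right hcount hE0
        _ = c ^ 4 * (E * D) := by ring
        _ ≤ c ^ 4 * (2 * (c * L) * (r * L)) := mul_le_mul_of_nonneg_left hE (by positivity)
        _ = 2 * c ^ 5 * L ^ 2 * r := by ring
        _ ≤ 2 * c ^ 6 * L ^ 2 * r := by
          have : c ^ 5 ≤ c ^ 6 := pow_le_pow_right₀ hc1 (by norm_num)
          gcongr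
        _ ≤ K0 * W := hKW
        _ ≤ ν * W := hKν
    exact le_of_mul_le_mul_left h1 hν0
  have hmr : m * r ≤ W := by
    have h1 : ν * (m * r) ≤ ν * W := by
      calc ν * (m * r) = (ν * m) * r := by ring
        _ ≤ (c ^ 4 * D) * r := mul_le_mul_of_nonneg_right hcount hr.le
        _ ≤ (c ^ 4 * (c * L) ^ 2) * r := by gcongr
        _ = c ^ 6 * L ^ 2 * r := by ring
        _ ≤ 2 * c ^ 6 * L ^ 2 * r := by
          have : 0 ≤ c ^ 6 * L ^ 2 * r := by positivity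
          linarith
        _ ≤ K0 * W := hKW
        _ ≤ ν * W := hKν
    exact le_of_mul_le_mul_left h1 hν0
  have hXE : ∀ E : ℝ, 0 ≤ E → E ≤ 2 * (c * L) * (r * (S : ℝ) ^ k) / D → c * L * E ≤ 1 / 4 := by
    intro E hE0 hE
    have h1 : 2 * (c * L) * (r * (S : ℝ) ^ k) / D ≤ 2 * (c * L) * (r * (S : ℝ) ^ k) :=
      div_le_self (by positivity) hDr
    have h2 : c * L * E ≤ c * L * (2 * (c * L) * (r * (S : ℝ) ^ k)) :=
      mul_le_mul_of_nonneg_left (hE.trans h1) (by positivity)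
    have h4 : c * L * (2 * (c * L) * (r * (S : ℝ) ^ k)) = 2 * ((c * L) ^ 2 * (r * (S : ℝ) ^ k)) := by ring
    have h5 : 8 * (c * L) ^ 2 * (r * (S : ℝ) ^ k) = 8 * ((c * L) ^ 2 * (r * (S : ℝ) ^ k)) := by ring
    rw [h5] at h8
    linarith
  have q1 := hmE _ (norm_nonneg _) hyα
  have q2 := hmE _ (norm_nonneg _) hyα'
  have q3 := hXE _ (norm_nonneg _) hyα
  have q4 := hXE _ (norm_nonneg _) hyα'
  rw [hcdef, hLdef] at q3 q4
  -- the sets of windows
  obtain ⟨v0, hv0⟩ := hne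
  obtain ⟨Ia, hIa, haI, -⟩ := PP_split hS1 (hmem v0 hv0).1.1.1 (hfact v0 hv0).1
  obtain ⟨Ib, hIb, hbI, -⟩ := PP_split hS1 (hmem v0 hv0).1.1.2 (hfact v0 hv0).2.1
  have hA1 : ∀ P ∈ PP S (range k), 1 ≤ P ∧ P ≤ cc k * S ^ k := by
    intro P hP
    have b1 := PP_bounds (k := k) Subset.rfl hP
    rw [card_range] at b1
    exact ⟨hpos P hP, b1.2⟩
  have hIa' : Ia ≠ range k := by
    intro h
    rw [h] at haI
    have h1 : ∀ v ∈ Λ, v.1 = a := fun v hv => (PP_full hS1 haI (hmem v hv).1.1.1 (hfact v hv).1).symm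
    have h2 : Λ.card ≤ ((PP S (range k)).filter fun Q => ‖a • y - Q • y'‖ ≤ r * S ^ k).card := by
      refine card_le_card_of_injOn (fun v => v.2) ?_ ?_
      · intro v hv
        have hv' := mem_coe.1 hv
        have e1 := hmem v hv'
        rw [mem_coe, mem_filter]
        refine ⟨e1.1.1.2, ?_⟩
        rw [← h1 v hv']
        exact e1.1.2
      · intro v hv w hw hvw
        exact Prod.ext ((h1 v (mem_coe.1 hv)).trans (h1 w (mem_coe.1 hw)).symm) hvw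
    have h4 := fibre_om hA1 hδ0 y y' a
    have h5 : (Λ.card : ℝ) ≤ 1 + Om' := by
      rw [hOm']
      exact_mod_cast h2.trans h4
    linarith
  have hIb' : Ib ≠ range k := by
    intro h
    rw [h] at hbI
    have h1 : ∀ v ∈ Λ, v.2 = b := fun v hv => (PP_full hS1 hbI (hmem v hv).1.1.2 (hfact v hv).2.1).symm
    have h2 : Λ.card ≤ ((PP S (range k)).filter fun Q => ‖b • y' - Q • y‖ ≤ r * S ^ k).card := by
      refine card_le_card_of_injOn (fun v => v.1) ?_ ?_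
      · intro v hv
        have hv' := mem_coe.1 hv
        have e1 := hmem v hv'
        rw [mem_coe, mem_filter]
        refine ⟨e1.1.1.1, ?_⟩
        rw [← h1 v hv', norm_sub_rev]
        exact e1.1.2
      · intro v hv w hw hvw
        exact Prod.ext hvw ((h1 v (mem_coe.1 hv)).trans (h1 w (mem_coe.1 hw)).symm)
    have h4 := fibre_om hA1 hδ0 y' y b
    have h5 : (Λ.card : ℝ) ≤ 1 + Om := by
      rw [hOm]
      exact_mod_cast h2.trans h4
    linarith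
  rcases le_total Ia.card Ib.card with hle | hle
  · obtain ⟨j, hj, hcj⟩ := core24 (T := Λ) hS1 hr hJ hg haI hbI hag hbg ⟨v0, hv0⟩
      (fun v hv => ⟨(hmem v hv).1.1, (hmem v hv).2, (hmem v hv).1.2, hrel v hv, hfact v hv⟩) hmr q1 q3 q4
    have h1 := hterm j Ia Ib hj hIa hIb hle hIb'
    have h2 := (nt_bounds S k j Ia Ib r W y' y).1
    linarith
  · have hm' : ((b * a * g : ℕ) : ℝ) = m := by
      rw [hm_def, mul_comm b a]
    obtain ⟨j, hj, hcj⟩ := core24 (T := Λ.image Prod.swap) (y := y') (y' := y) (α := α') (α' := α) hS1 hr hJ hg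
      hbI haI hbg hag ⟨v0.swap, mem_image_of_mem _ hv0⟩
      (by
        intro v hv
        obtain ⟨w, hw, rfl⟩ := mem_image.1 hv
        have e1 := hmem w hw
        have e2 := hfact w hw
        refine ⟨⟨e1.1.1.2, e1.1.1.1⟩, e1.2.symm, ?_, (hrel w hw).symm, e2.2.1, e2.1, e2.2.2.2, e2.2.2.1⟩
        rw [norm_sub_rev]
        exact e1.1.2)
      (by rw [hm']; exact hmr) (by rw [hm']; exact q2) q4 q3
    rw [card_image_of_injective _ Prod.swap_injective] at hcj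
    have h1 := hterm j Ib Ia hj hIb hIa hle hIa'
    have h2 := (nt_bounds S k j Ib Ia r W y y').1
    linarith

end Pool.Agent.Helper5.LE
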