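import Pool.Agent.Helper5.LE.PA
import Pool.Agent.Helper5.LE.PC
import Pool.Agent.Helper5.LE.MS

/-!
# Block LE-D1: splitting off the free prime

Fix `y, y'`. `nt` counts the quadruples `(P, P', α, α')` with `adm`, `y ∈ ann j r α`, `‖y' - α'‖ ≤ c 2^(j+2) r`, `‖P y - P' y'‖ ≤ δ`; the right side counts the `(t, f, P, Q, α)` with `t ∈ win S i`, `f ∈ Fr`, `y' ∈ EE k j r t f`, and the conditions of `wt` at `u = t y'`. The map `(P, P', α, α') ↦ (t, t α', P, Q, α)`, where `P' = t Q`, `t ∈ win S i`, `Q ∈ PP S ((range k).erase i)` (`PP_erase`, `i < k`), is well defined and injective: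
`b ∈ PP S Ib` and `i ∉ Ib` give `t ∤ b` (`PP_not_dvd`), so `t ∣ P'/b`, which is coprime to `b g`: so `t ∤ b g = ord α'` and `ord (t α') = ord α'` (`addOrderOf_nsmul_of_coprime` or `addOrderOf_nsmul`). `b ∣ Q` (`t` is prime, `t ∤ b`, `b ∣ t Q`), `Q / b ∣ P' / b` so coprime to `b g`; `P` coprime to `Q`; `Q (t α') = P' α' = P α`. So `adm S j Ia Ib r W α (t α') P Q`. `f = t α' ∈ Fr` (same order, `mem_Fr`). `y' ∈ EE k j r t f` by definition. `‖t y' - t α'‖ ≤ t c 2^(j+2) r ≤ (2^(i+1) S) c 2^(j+2) r ≤ 4 c^2 S 2^j r` (`2^(i+1) ≤ 2^k ≤ c = 2^(k^2)`). `P y - Q (t y') = P y - P' y'`.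
Injective: `(t, Q)` gives `P'`; if `t α' = t α''` with `t` prime to both orders, then `α' - α''` is killed by `t` and by `ord α' * ord α''`, hence `0`.
-/

set_option autoImplicit false

namespace Pool.Agent.Helper5.LE

open MeasureTheory Finset
open Pool.Agent.Helper25.MOB

private theorem cc_ge67 {k i : ℕ} (hi : i ∈ range k) : 2 ^ (i + 1) ≤ cc k := by
  unfold cc
  refine Nat.pow_le_pow_right (by norm_num) ?_
  have h1 : i < k := Finset.mem_range.1 hi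
  nlinarith

/-- The key step: transport of the class along the free prime. -/
private theorem step67 {S i j t P Q : ℕ} {Ia Ib : Finset ℕ} {r W : ℝ} (hS : 1 ≤ S)
    (hib : i ∉ Ib) (ht : t ∈ win S i) {α α' : UnitAddCircle}
    (h : adm S j Ia Ib r W α α' P (t * Q)) :
    t.Coprime (addOrderOf α') ∧ adm S j Ia Ib r W α (t • α') P Q := by
  obtain ⟨a, b, g, hg, ha, hb, hα, hα', haP, hbP, hc1, hc2, hPP, hPα, hW⟩ := h
  have htp : t.Prime := (mem_win.1 ht).2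
  have htb : ¬ t ∣ b := PP_not_dvd hS hib ht hb
  have hcop : b.Coprime t := ((Nat.Prime.coprime_iff_not_dvd htp).2 htb).symm
  have hbQ : b ∣ Q := hcop.dvd_of_dvd_mul_left hbP
  have hdiv : t * Q / b = t * (Q / b) := Nat.mul_div_assoc t hbQ
  rw [hdiv] at hc2
  have hc3 : t.Coprime (b * g) := hc2.coprime_mul_right
  have hc4 : (Q / b).Coprime (b * g) := hc2.coprime_mul_left
  have hord : addOrderOf (t • α') = b * g := by
    rw [← hα']
    refine Nat.Coprime.addOrderOf_nsmul ?_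
    rw [hα']
    exact hc3.symm
  refine ⟨by rw [hα']; exact hc3, a, b, g, hg, ha, hb, hα, hord, haP, hbQ, hc1, hc4,
    hPP.coprime_mul_left_right, ?_, hW⟩
  rw [hPα, smul_smul, mul_comm t Q]

private theorem inj67 {t : ℕ} {x z : UnitAddCircle} (hx : t.Coprime (addOrderOf x))
    (hz : t.Coprime (addOrderOf z)) (h : t • x = t • z) : x = z := by
  have h1 : t • (x - z) = 0 := by
    rw [smul_sub, h, sub_self]
  have h2 : (addOrderOf x * addOrderOf z) • (x - z) = 0 := by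
    rw [smul_sub, mul_comm, mul_smul, addOrderOf_nsmul_eq_zero, smul_zero, mul_comm, mul_smul,
      addOrderOf_nsmul_eq_zero, smul_zero, sub_zero]
  have h3 : addOrderOf (x - z) ∣ t := addOrderOf_dvd_of_nsmul_eq_zero h1
  have h4 : addOrderOf (x - z) ∣ addOrderOf x * addOrderOf z := addOrderOf_dvd_of_nsmul_eq_zero h2
  have h5 : t.Coprime (addOrderOf x * addOrderOf z) := Nat.Coprime.mul_right hx hz
  have h6 : addOrderOf (x - z) = 1 := Nat.eq_one_of_dvd_coprimes h5 h3 h4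
  exact sub_eq_zero.1 (AddMonoid.addOrderOf_eq_one_iff.1 h6)

theorem nt_le {S k i j : ℕ} {Ia Ib : Finset ℕ} {r W : ℝ} (hS : 1 ≤ S) (hr : 0 < r)
    (hi : i ∈ range k) (hib : i ∉ Ib) (y y' : UnitAddCircle) :
    open scoped Classical in
    nt S k j Ia Ib r W y y' ≤ ∑ t ∈ win S i, ∑ f ∈ Fr r W,
      if y' ∈ EE k j r t f then wt S k i j Ia Ib r W f y (t • y') else 0 := by
  classical
  have hE : ∀ P' ∈ PP S (range k), ∃ t Q, t ∈ win S i ∧ Q ∈ PP S ((range k).erase i) ∧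
      P' = t * Q := by
    intro P' hP'
    obtain ⟨t, ht, Q, hQ, h⟩ := PP_erase hi hP'
    exact ⟨t, Q, ht, hQ, h⟩
  choose! tt QQ hE using hE
  -- the left side
  have hL : nt S k j Ia Ib r W y y' =
      ((((PP S (range k) ×ˢ PP S (range k)) ×ˢ (Fr r W ×ˢ Fr r W)).filter fun w =>
        adm S j Ia Ib r W w.2.1 w.2.2 w.1.1 w.1.2 ∧ y ∈ ann j r w.2.1 ∧
          ‖y' - w.2.2‖ ≤ cc k * 2 ^ (j + 2) * r ∧
          ‖w.1.1 • y - w.1.2 • y'‖ ≤ r * S ^ k).card : ℝ) := by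
    unfold nt
    rw [Finset.card_filter]
    push_cast
    rw [Finset.sum_product (PP S (range k) ×ˢ PP S (range k)) (Fr r W ×ˢ Fr r W)]
    refine Finset.sum_congr rfl fun v _ => ?_
    rw [Finset.sum_product (Fr r W) (Fr r W)]
  have hR : (∑ t ∈ win S i, ∑ f ∈ Fr r W,
      if y' ∈ EE k j r t f then wt S k i j Ia Ib r W f y (t • y') else 0) =
      ((((win S i ×ˢ Fr r W) ×ˢ ((PP S (range k) ×ˢ PP S ((range k).erase i)) ×ˢ Fr r W)).filter
        fun x => y' ∈ EE k j r x.1.1 x.1.2 ∧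
          (adm S j Ia Ib r W x.2.2 x.1.2 x.2.1.1 x.2.1.2 ∧ y ∈ ann j r x.2.2 ∧
            ‖x.1.1 • y' - x.1.2‖ ≤ 4 * cc k ^ 2 * S * 2 ^ j * r ∧
            ‖x.2.1.1 • y - x.2.1.2 • (x.1.1 • y')‖ ≤ r * S ^ k)).card : ℝ) := by
    rw [Finset.card_filter]
    push_cast
    rw [Finset.sum_product (win S i ×ˢ Fr r W), Finset.sum_product (win S i) (Fr r W)]
    refine Finset.sum_congr rfl fun t _ => Finset.sum_congr rfl fun f _ => ?_
    by_cases h : y' ∈ EE k j r t f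
    · rw [if_pos h]
      unfold wt
      rw [Finset.sum_product (PP S (range k) ×ˢ PP S ((range k).erase i)) (Fr r W)]
      refine Finset.sum_congr rfl fun v _ => Finset.sum_congr rfl fun α _ => ?_
      simp only [h, true_and]
    · rw [if_neg h]
      symm
      refine Finset.sum_eq_zero fun x _ => ?_
      rw [if_neg]
      rintro ⟨h1, -⟩
      exact h h1
  rw [hL, hR]
  rw [Nat.cast_le]
  refine Finset.card_le_card_of_injOn
    (fun w => ((tt w.1.2, tt w.1.2 • w.2.2), ((w.1.1, QQ w.1.2), w.2.1))) ?_ ?_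
  · rintro ⟨⟨P, P'⟩, ⟨α, α'⟩⟩ hw
    rw [Finset.mem_coe, Finset.mem_filter] at hw
    simp only [Finset.mem_product] at hw
    obtain ⟨⟨⟨hP, hP'⟩, ⟨hα, hα'⟩⟩, hadm, hy, hy', hPy⟩ := hw
    obtain ⟨ht, hQ, hPtQ⟩ := hE P' hP'
    rw [Finset.mem_coe, Finset.mem_filter]
    simp only [Finset.mem_product]
    have hadm2 := hadm
    rw [hPtQ] at hadm2
    obtain ⟨hcop, hadm3⟩ := step67 hS hib ht hadm2
    have hord : addOrderOf (tt P' • α') = addOrderOf α' :=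
      Nat.Coprime.addOrderOf_nsmul hcop.symm
    have hpos : 0 < addOrderOf α' := by
      have := (mem_Fr.1 hα').1
      omega
    refine ⟨⟨⟨ht, ?_⟩, ⟨hP, hQ⟩, hα⟩, ⟨α', rfl, hord.symm, by rw [hord]; exact hpos, hy'⟩,
      hadm3, hy, ?_, ?_⟩
    · rw [mem_Fr, hord]
      exact mem_Fr.1 hα'
    · rw [← smul_sub]
      have h1 : ‖tt P' • (y' - α')‖ ≤ (tt P' : ℝ) * ‖y' - α'‖ := norm_nsmul_le
      have h2 : (tt P' : ℝ) ≤ cc k * S := by
        have h3 : tt P' < 2 ^ (i + 1) * S := (mem_win.1 ht).1.2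
        have h4 : 2 ^ (i + 1) * S ≤ cc k * S := Nat.mul_le_mul_right S (cc_ge67 hi)
        exact_mod_cast (h3.le.trans h4)
      calc ‖tt P' • (y' - α')‖ ≤ (tt P' : ℝ) * ‖y' - α'‖ := h1
        _ ≤ (cc k * S) * (cc k * 2 ^ (j + 2) * r) := by
            refine mul_le_mul h2 hy' (norm_nonneg _) (by positivity)
        _ = 4 * cc k ^ 2 * S * 2 ^ j * r := by ring
    · rw [smul_smul, mul_comm (QQ P') (tt P'), ← hPtQ]
      exact hPy
  · rintro ⟨⟨P, P'⟩, ⟨α, α'⟩⟩ hw ⟨⟨P2, P2'⟩, ⟨α2, α2'⟩⟩ hw2 heq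
    rw [Finset.mem_coe, Finset.mem_filter] at hw hw2
    simp only [Finset.mem_product] at hw hw2
    obtain ⟨⟨⟨hP, hP'⟩, ⟨hα, hα'⟩⟩, hadm, -⟩ := hw
    obtain ⟨⟨⟨hP2, hP2'⟩, ⟨hα2, hα2'⟩⟩, hadm2, -⟩ := hw2
    obtain ⟨ht, hQ, hPtQ⟩ := hE P' hP'
    obtain ⟨ht2, hQ2, hPtQ2⟩ := hE P2' hP2'
    simp only [Prod.mk.injEq] at heq
    obtain ⟨⟨h1, h2⟩, ⟨h3, h4⟩, h5⟩ := heq
    have h6 : P' = P2' := by
      rw [hPtQ, hPtQ2, h1, h4]
    rw [hPtQ] at hadm
    rw [hPtQ2] at hadm2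
    have h7 := (step67 hS hib ht hadm).1
    have h8 := (step67 hS hib ht2 hadm2).1
    rw [← h1] at h8
    rw [← h1] at h2
    have h9 : α' = α2' := inj67 h7 h8 h2
    simp only [h3, h6, h5, h9]

end Pool.Agent.Helper5.LE
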