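import Pool.Agent.Helper5.LE.PA
import Pool.Agent.Helper5.LE.MS
import Pool.Agent.Helper5.LE.CA

/-!
# Block LE-D2: a label step has at most one class

For a label `v = (P, Q)` between `y` and `u` (`P ∈ PP S (range k)`, `Q ∈ PP S ((range k).erase i)`) there is at most one pair `(α, f)` with `adm S j Ia Ib r W α f P Q`, `y ∈ ann j r α`, `‖u - f‖ ≤ 4 c^2 S 2^j r`; summing over the labels gives the claim.
Proof: let `(α, f)`, `(α1, f1)` be two of them, with `a, b, g`, `a1, b1, g1`. Note `2^j r ≤ W` (`a b g ≥ 1`). `‖α - α1‖ ≤ 2^(j+2) r`, `‖f - f1‖ ≤ 8 c^2 S 2^j r`; real lifts `ω`, `ω'` (`exists_lift`) with these absolute values. `P (α - α1) = Q (f - f1)` so `P ω - Q ω'` is an integer (its class is `0`), of absolute value `≤ c S^k 2^(j+2) r + c S^(k-1) 8 c^2 S 2^j r ≤ 12 c^3 S^k W < 1` (`PP_bounds`, `h16`), so `P ω = Q ω'`.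
`Λ = (a b g)(a1 b1 g1)` kills `α - α1` and `f - f1` (orders `a g`, `b g`, ...), so `Λ ω` and `Λ ω'` are integers (`int_of_nsmul`). Bezout `x P + z Q = 1`: `Λ ω = Λ (x P + z Q) ω = Q (x Λ ω' + z Λ ω)` is a multiple of `Q`. If `ω ≠ 0` then `Q ≤ |Λ ω| ≤ (W / (2^j r))^2 2^(j+2) r = 4 W^2 / (2^j r) ≤ 4 W^2 / r < S^(k-1) ≤ Q` (`h4`), a contradiction. So `ω = 0`, then `Q ω' = 0`, `ω' = 0`: `α = α1`, `f = f1`.
-/

set_option autoImplicit false

namespace Pool.Agent.Helper5.LE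

open MeasureTheory Finset
open Pool.Agent.Helper25.MOB

/-- The data of one class. -/
private theorem adm68 {S j : ℕ} {Ia Ib : Finset ℕ} {r W : ℝ} {α f : UnitAddCircle} {P Q : ℕ}
    (h : adm S j Ia Ib r W α f P Q) :
    ∃ n : ℕ, 0 < n ∧ n • α = 0 ∧ n • f = 0 ∧ (n : ℝ) * 2 ^ j * r ≤ W ∧ P.Coprime Q ∧ P • α = Q • f := by
  obtain ⟨a, b, g, hg, ha, hb, hoa, hob, -, -, -, -, hc, he, hW⟩ := h
  refine ⟨a * b * g, Nat.mul_pos (Nat.mul_pos (PP_pos ha) (PP_pos hb)) hg, ?_, ?_, hW, hc, he⟩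
  · rw [← addOrderOf_dvd_iff_nsmul_eq_zero, hoa]
    exact ⟨b, by ring⟩
  · rw [← addOrderOf_dvd_iff_nsmul_eq_zero, hob]
    exact ⟨a, by ring⟩

private theorem uniq68 {S k τ i j : ℕ} {Ia Ib : Finset ℕ} {r W Nb κ' : ℝ} (H : Hyp S k τ r W Nb κ')
    (hi : i ∈ range k) {y u : UnitAddCircle} {P Q : ℕ} (hP : P ∈ PP S (range k))
    (hQ : Q ∈ PP S ((range k).erase i)) {α f α1 f1 : UnitAddCircle}
    (h : adm S j Ia Ib r W α f P Q) (h1 : adm S j Ia Ib r W α1 f1 P Q)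
    (hy : y ∈ ann j r α) (hy1 : y ∈ ann j r α1)
    (hu : ‖u - f‖ ≤ 4 * cc k ^ 2 * S * 2 ^ j * r) (hu1 : ‖u - f1‖ ≤ 4 * cc k ^ 2 * S * 2 ^ j * r) :
    α = α1 ∧ f = f1 := by
  obtain ⟨n, hn, hnα, hnf, hnW, hc, he⟩ := adm68 h
  obtain ⟨n1, hn1, hnα1, hnf1, hnW1, -, he1⟩ := adm68 h1
  have hr := H.hr
  have hW0 := H.hW0
  have hk1 := H.hk
  have hr2 : (0 : ℝ) < 2 ^ j * r := by positivity
  have hn' : (1 : ℝ) ≤ n := by exact_mod_cast hn
  have hn1' : (1 : ℝ) ≤ n1 := by exact_mod_cast hn1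
  have hrW : 2 ^ j * r ≤ W := by nlinarith
  have hd : ‖α - α1‖ ≤ 2 ^ (j + 2) * r := by
    have e : α - α1 = (y - α1) - (y - α) := by abel
    rw [e]
    refine (norm_sub_le _ _).trans ?_
    have a1 := hy.1
    have a2 := hy1.1
    have e2 : (2 : ℝ) ^ (j + 2) * r = 2 ^ (j + 1) * r + 2 ^ (j + 1) * r := by ring
    rw [e2]
    linarith
  have hd' : ‖f - f1‖ ≤ 8 * cc k ^ 2 * S * 2 ^ j * r := by
    have e : f - f1 = (u - f1) - (u - f) := by abel
    rw [e]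
    refine (norm_sub_le _ _).trans ?_
    linarith
  obtain ⟨ω, hω, hωa⟩ := exists_lift (α - α1)
  obtain ⟨ω', hω', hωa'⟩ := exists_lift (f - f1)
  have hPb := (PP_bounds (subset_refl (range k)) hP).2
  have hQb := PP_bounds (erase_subset i (range k)) hQ
  rw [card_range] at hPb
  have hcard : ((range k).erase i).card = k - 1 := by rw [card_erase_of_mem hi, card_range]
  rw [hcard] at hQb
  have hPb' : (P : ℝ) ≤ cc k * S ^ k := by exact_mod_cast hPb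
  have hQb' : (Q : ℝ) ≤ cc k * S ^ (k - 1) := by exact_mod_cast hQb.2
  have hQb1 : (S : ℝ) ^ (k - 1) ≤ Q := by exact_mod_cast hQb.1
  have hcc : (1 : ℝ) ≤ cc k := by
    unfold cc
    push_cast
    exact one_le_pow₀ (by norm_num)
  have hS0 : (0 : ℝ) < S := by
    have := H.hS
    exact_mod_cast (by omega : 0 < S)
  -- the integer `P ω - Q ω'`
  obtain ⟨m0, hm0⟩ : ∃ m : ℤ, ((1 : ℕ) : ℝ) * ((P : ℝ) * ω - Q * ω') = m := by
    refine int_of_nsmul ?_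
    have e1 : (((P : ℝ) * ω - Q * ω' : ℝ) : UnitAddCircle) = P • (ω : UnitAddCircle) - Q • (ω' : UnitAddCircle) := by
      rw [AddCircle.coe_sub, ← nsmul_eq_mul, ← nsmul_eq_mul, AddCircle.coe_nsmul, AddCircle.coe_nsmul]
    rw [e1, hω, hω', one_nsmul, smul_sub, smul_sub, he, he1]
    abel
  have hSk : (S : ℝ) ^ k = S ^ (k - 1) * S := by
    rw [← pow_succ]
    congr 1
    omega
  have hsmall : |(P : ℝ) * ω - Q * ω'| < 1 := by
    have b1 : |(P : ℝ) * ω| ≤ cc k * S ^ k * (2 ^ (j + 2) * r) := by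
      rw [abs_mul, Nat.abs_cast, hωa]
      exact mul_le_mul hPb' hd (norm_nonneg _) (by positivity)
    have b2 : |(Q : ℝ) * ω'| ≤ cc k * S ^ (k - 1) * (8 * cc k ^ 2 * S * 2 ^ j * r) := by
      rw [abs_mul, Nat.abs_cast, hωa']
      exact mul_le_mul hQb' hd' (norm_nonneg _) (by positivity)
    have b3 : |(P : ℝ) * ω - Q * ω'| ≤ |(P : ℝ) * ω| + |(Q : ℝ) * ω'| := abs_sub _ _
    have e1 : cc k * (S : ℝ) ^ k * (2 ^ (j + 2) * r) = 4 * (cc k * S ^ k * (2 ^ j * r)) := by ring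
    have e2 : cc k * (S : ℝ) ^ (k - 1) * (8 * cc k ^ 2 * S * 2 ^ j * r) = 8 * (cc k ^ 3 * S ^ k * (2 ^ j * r)) := by
      rw [hSk]
      ring
    have e3 : (cc k : ℝ) * S ^ k * (2 ^ j * r) ≤ cc k ^ 3 * S ^ k * (2 ^ j * r) := by
      have : (cc k : ℝ) ≤ cc k ^ 3 := le_self_pow₀ hcc (by norm_num)
      gcongr
    have e4 : (cc k : ℝ) ^ 3 * S ^ k * (2 ^ j * r) ≤ cc k ^ 3 * S ^ k * W := by gcongr
    have e5 := H.h16
    have e6 : 0 ≤ (cc k : ℝ) ^ 3 * S ^ k * W := by positivity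
    rw [e1] at b1
    rw [e2] at b2
    nlinarith
  have hrel : (P : ℝ) * ω = Q * ω' := by
    rw [Nat.cast_one, one_mul] at hm0
    rw [hm0] at hsmall
    have : m0 = 0 := by
      rw [← Int.cast_abs] at hsmall
      have h2 : |m0| < 1 := by exact_mod_cast hsmall
      exact Int.abs_lt_one_iff.1 h2
    rw [this, Int.cast_zero] at hm0
    linarith
  obtain ⟨m, hm⟩ : ∃ m : ℤ, ((n * n1 : ℕ) : ℝ) * ω = m := by
    refine int_of_nsmul ?_
    have k1 : (n * n1) • α = 0 := by rw [mul_comm, mul_nsmul', hnα, smul_zero]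
    have k2 : (n * n1) • α1 = 0 := by rw [mul_nsmul', hnα1, smul_zero]
    rw [hω, smul_sub, k1, k2, sub_zero]
  obtain ⟨m', hm'⟩ : ∃ m : ℤ, ((n * n1 : ℕ) : ℝ) * ω' = m := by
    refine int_of_nsmul ?_
    have k1 : (n * n1) • f = 0 := by rw [mul_comm, mul_nsmul', hnf, smul_zero]
    have k2 : (n * n1) • f1 = 0 := by rw [mul_nsmul', hnf1, smul_zero]
    rw [hω', smul_sub, k1, k2, sub_zero]
  have hω0 : ω = 0 := by
    by_contra hne
    have hbez : (1 : ℤ) = P * (P.gcdA Q) + Q * (P.gcdB Q) := by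
      have := Nat.gcd_eq_gcd_ab P Q
      rw [hc.gcd_eq_one] at this
      exact_mod_cast this
    have hmQ : m = Q * ((P.gcdA Q) * m' + (P.gcdB Q) * m) := by
      have hbr : (1 : ℝ) = P * (P.gcdA Q) + Q * (P.gcdB Q) := by exact_mod_cast hbez
      have : (m : ℝ) = Q * ((P.gcdA Q) * m' + (P.gcdB Q) * m) := by
        rw [← hm, ← hm']
        calc ((n * n1 : ℕ) : ℝ) * ω = 1 * (((n * n1 : ℕ) : ℝ) * ω) := by rw [one_mul]
          _ = (P * (P.gcdA Q) + Q * (P.gcdB Q)) * (((n * n1 : ℕ) : ℝ) * ω) := by rw [← hbr]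
          _ = (P.gcdA Q) * ((n * n1 : ℕ) : ℝ) * (P * ω) + Q * (P.gcdB Q) * (((n * n1 : ℕ) : ℝ) * ω) := by ring
          _ = (P.gcdA Q) * ((n * n1 : ℕ) : ℝ) * (Q * ω') + Q * (P.gcdB Q) * (((n * n1 : ℕ) : ℝ) * ω) := by
              rw [hrel]
          _ = _ := by ring
      exact_mod_cast this
    have hnn : (0 : ℝ) < ((n * n1 : ℕ) : ℝ) := by
      exact_mod_cast Nat.mul_pos hn hn1
    have hm0' : m ≠ 0 := by
      intro h0
      rw [h0, Int.cast_zero] at hm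
      rcases mul_eq_zero.1 hm with h2 | h2
      · exact hnn.ne' h2
      · exact hne h2
    have hQm : (Q : ℤ) ≤ |m| := by
      have h2 : (Q : ℤ) ∣ m := ⟨_, hmQ⟩
      exact Int.le_of_dvd (abs_pos.2 hm0') ((dvd_abs _ _).2 h2)
    have hQm' : (Q : ℝ) ≤ |(m : ℝ)| := by
      rw [← Int.cast_abs]
      exact_mod_cast hQm
    have h3 : |(m : ℝ)| ≤ ((n * n1 : ℕ) : ℝ) * (2 ^ (j + 2) * r) := by
      rw [← hm, abs_mul, Nat.abs_cast, hωa]
      exact mul_le_mul_of_nonneg_left hd hnn.le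
    have h4 : ((n * n1 : ℕ) : ℝ) * (2 ^ (j + 2) * r) * r ≤ 4 * W ^ 2 := by
      have a1 : ((n : ℝ) * 2 ^ j * r) * ((n1 : ℝ) * 2 ^ j * r) ≤ W * W :=
        mul_le_mul hnW hnW1 (by positivity) hW0.le
      have a2 : ((n * n1 : ℕ) : ℝ) * (2 ^ (j + 2) * r) * r ≤
          4 * (((n : ℝ) * 2 ^ j * r) * ((n1 : ℝ) * 2 ^ j * r)) := by
        have e : 4 * (((n : ℝ) * 2 ^ j * r) * ((n1 : ℝ) * 2 ^ j * r)) =
            ((n * n1 : ℕ) : ℝ) * (2 ^ (j + 2) * r) * r * 2 ^ j := by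
          push_cast
          ring
        rw [e]
        exact le_mul_of_one_le_right (by positivity) (one_le_pow₀ (by norm_num))
      nlinarith
    have h5 := H.h4
    have h6 : (Q : ℝ) * r ≤ 4 * W ^ 2 := by
      refine le_trans ?_ h4
      exact mul_le_mul_of_nonneg_right (hQm'.trans h3) hr.le
    have h7 : (S : ℝ) ^ (k - 1) * r ≤ Q * r := mul_le_mul_of_nonneg_right hQb1 hr.le
    linarith
  have hQ0 : (0 : ℝ) < Q := by exact_mod_cast PP_pos hQ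
  have hω0' : ω' = 0 := by
    rw [hω0, mul_zero] at hrel
    rcases mul_eq_zero.1 hrel.symm with h2 | h2
    · exact absurd h2 hQ0.ne'
    · exact h2
  rw [hω0, AddCircle.coe_zero] at hω
  rw [hω0', AddCircle.coe_zero] at hω'
  exact ⟨(sub_eq_zero.1 hω.symm), (sub_eq_zero.1 hω'.symm)⟩

theorem wt_sum_le {S k τ i j : ℕ} {Ia Ib : Finset ℕ} {r W Nb κ' : ℝ} (H : Hyp S k τ r W Nb κ')
    (hi : i ∈ range k) (y u : UnitAddCircle) :
    ∑ f ∈ Fr r W, wt S k i j Ia Ib r W f y u ≤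
      ((lab (PP S (range k)) (PP S ((range k).erase i)) (r * S ^ k) y u).card : ℝ) := by
  classical
  have hlab : ((lab (PP S (range k)) (PP S ((range k).erase i)) (r * S ^ k) y u).card : ℝ) =
      ∑ v ∈ PP S (range k) ×ˢ PP S ((range k).erase i),
        if ‖v.1 • y - v.2 • u‖ ≤ r * S ^ k then (1 : ℝ) else 0 := by
    unfold lab
    rw [card_filter]
    push_cast
    refine sum_congr rfl fun v _ => ?_
    split_ifs <;> rfl
  rw [hlab]
  unfold wt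
  rw [sum_comm]
  refine sum_le_sum fun v hv => ?_
  rw [mem_product] at hv
  by_cases hl : ‖v.1 • y - v.2 • u‖ ≤ r * S ^ k
  · rw [if_pos hl, ← sum_product', ← sum_filter, sum_const, nsmul_eq_mul, mul_one]
    have h1 : ((Fr r W ×ˢ Fr r W).filter fun x : UnitAddCircle × UnitAddCircle =>
        adm S j Ia Ib r W x.2 x.1 v.1 v.2 ∧ y ∈ ann j r x.2 ∧ ‖u - x.1‖ ≤ 4 * cc k ^ 2 * S * 2 ^ j * r ∧
          ‖v.1 • y - v.2 • u‖ ≤ r * S ^ k).card ≤ 1 := by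
      rw [card_le_one]
      intro p hp p' hp'
      rw [mem_filter] at hp hp'
      obtain ⟨e1, e2⟩ := uniq68 H hi hv.1 hv.2 hp.2.1 hp'.2.1 hp.2.2.1 hp'.2.2.1 hp.2.2.2.1 hp'.2.2.2.1
      exact Prod.ext e2 e1
    exact_mod_cast h1
  · rw [if_neg hl]
    refine le_of_eq (sum_eq_zero fun f _ => sum_eq_zero fun α _ => if_neg ?_)
    intro h
    exact hl h.2.2.2

end Pool.Agent.Helper5.LE
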