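import Pool.Agent.Helper5.LE.PA
import Pool.Agent.Helper5.LE.MS
import Pool.Agent.Helper5.LE.CA
import Pool.Agent.Helper5.LE.CB

/-!
# Block LE-D3: the number of labels of a pair with a given class

Notation `c = cc k`, `δ = r S^k`. Real lifts `β` of `y - α` and `β'` of `u - f` (`exists_lift`): `|β| ≤ 2^(j+1) r`, `|β'| ≤ 4 c^2 S 2^j r`. For `v ∈ s`: `v.1 |β| + v.2 |β'| ≤ c S^k 2^(j+1) r + c S^(k-1) 4 c^2 S 2^j r ≤ 6 c^3 S^k W ≤ 1/2` (`PP_bounds`, `h16`, `2^j r ≤ W`), so `|v.1 β - v.2 β'| ≤ δ` (`real_rel`).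
For `v, w ∈ s`: `β det2 v w = w.2 (v.1 β - v.2 β') - v.2 (w.1 β - w.2 β')`, so `|β| |det2 v w| ≤ 2 c S^(k-1) δ`. If `j ≥ 1`: `|β| = ‖y - α‖ ≥ 2^j r`, so `|det2 v w| ≤ 2 c S^(2k-1) / 2^j`. If `j = 0`: `|det2 v w| ≤ c^2 S^(2k-1)` trivially. So `Dm = 2 c^2 S^(2k-1) / 2^j` in both cases. For `v ≠ w`, `a b g` divides `det2 v w` (`det_dvd`) and it is not zero (`det_ne`). `slope_count` with `Y = S^k`, `X = c S^k`: `(n - 1) a b g ≤ 2 c^4 S^(2k-1) / 2^j`. And `a b g 2^j ≤ W / r ≤ S^(2k-1)` (`hWS`). Sum: `n a b g 2^j ≤ 3 c^4 S^(2k-1)`.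
-/

set_option autoImplicit false

namespace Pool.Agent.Helper5.LE

open MeasureTheory Finset
open Pool.Agent.Helper25.MOB

theorem label_count {S k τ i j : ℕ} {r W Nb κ' : ℝ} (H : Hyp S k τ r W Nb κ')
    (hi : i ∈ range k) {α f y u : UnitAddCircle} {a b g : ℕ} (ha : 0 < a) (hb : 0 < b)
    (hg : 0 < g) (hα : addOrderOf α = a * g) (hf : addOrderOf f = b * g) (hy : y ∈ ann j r α)
    (hu : ‖u - f‖ ≤ 4 * cc k ^ 2 * S * 2 ^ j * r)
    (habg : ((a * b * g : ℕ) : ℝ) * 2 ^ j * r ≤ W) (s : Finset (ℕ × ℕ))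
    (hs : ∀ v ∈ s, v.1 ∈ PP S (range k) ∧ v.2 ∈ PP S ((range k).erase i) ∧ a ∣ v.1 ∧ b ∣ v.2 ∧
      v.1.Coprime v.2 ∧ v.1 • α = v.2 • f ∧ ‖v.1 • y - v.2 • u‖ ≤ r * S ^ k) :
    (s.card : ℝ) * (((a * b * g : ℕ) : ℝ) * 2 ^ j) ≤ 3 * cc k ^ 4 * (S : ℝ) ^ (2 * k - 1) := by
  obtain ⟨β, hβ, hβn⟩ := exists_lift (y - α)
  obtain ⟨β', hβ', hβn'⟩ := exists_lift (u - f)
  have hk := H.hk
  have hr := H.hr
  have h16 := H.h16
  have hWS := H.hWS
  have hi' : i < k := mem_range.1 hi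
  have hc1 : (1 : ℝ) ≤ cc k := by
    unfold cc
    exact_mod_cast Nat.one_le_two_pow
  have hS0 : (0 : ℝ) < S := by
    have := H.hS
    exact_mod_cast (by omega : 0 < S)
  have hcard1 : (range k).card = k := card_range k
  have hcard2 : ((range k).erase i).card = k - 1 := by
    rw [card_erase_of_mem hi, card_range]
  have hb1 : ∀ v ∈ s, (S : ℝ) ^ k ≤ v.1 ∧ (v.1 : ℝ) ≤ cc k * (S : ℝ) ^ k := by
    intro v hv
    obtain ⟨h1, h2⟩ := PP_bounds (k := k) (Subset.refl _) (hs v hv).1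
    rw [hcard1] at h1 h2
    exact ⟨by exact_mod_cast h1, by exact_mod_cast h2⟩
  have hb2 : ∀ v ∈ s, (v.2 : ℝ) ≤ cc k * (S : ℝ) ^ (k - 1) := by
    intro v hv
    obtain ⟨h1, h2⟩ := PP_bounds (k := k) (erase_subset i (range k)) (hs v hv).2.1
    rw [hcard2] at h1 h2
    exact_mod_cast h2
  have hm : 0 < a * b * g := Nat.mul_pos (Nat.mul_pos ha hb) hg
  have hm1 : (1 : ℝ) ≤ ((a * b * g : ℕ) : ℝ) := by exact_mod_cast hm
  generalize hmdef : a * b * g = m at *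
  generalize hcdef : (cc k : ℝ) = c at *
  have hSk : (S : ℝ) ^ (k - 1) * S = (S : ℝ) ^ k := by
    rw [← pow_succ]
    congr 1
    omega
  have hSk2 : (S : ℝ) ^ (k - 1) * (S : ℝ) ^ k = (S : ℝ) ^ (2 * k - 1) := by
    rw [← pow_add]
    congr 1
    omega
  obtain ⟨A, hA⟩ : ∃ A : ℝ, A = (S : ℝ) ^ (k - 1) := ⟨_, rfl⟩
  obtain ⟨B, hB⟩ : ∃ B : ℝ, B = (S : ℝ) ^ k := ⟨_, rfl⟩
  obtain ⟨C, hC⟩ : ∃ C : ℝ, C = (S : ℝ) ^ (2 * k - 1) := ⟨_, rfl⟩
  have hA0 : 0 < A := by rw [hA]; positivity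
  have hB0 : 0 < B := by rw [hB]; positivity
  have hC0 : 0 < C := by rw [hC]; positivity
  rw [← hA, ← hB] at hSk
  rw [← hA, ← hB, ← hC] at hSk2
  rw [← hB] at hb1 h16
  rw [← hA] at hb2
  rw [← hC] at hWS ⊢
  rw [← hB] at hs
  have hp0 : (0 : ℝ) < 2 ^ j := by positivity
  have hjr : 2 ^ j * r ≤ W := by
    have h1 : 1 * (2 ^ j * r) ≤ (m : ℝ) * (2 ^ j * r) :=
      mul_le_mul_of_nonneg_right hm1 (by positivity)
    nlinarith
  have hy1 : |β| ≤ 2 ^ (j + 1) * r := by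
    rw [hβn]
    exact hy.1
  have hu1 : |β'| ≤ 4 * c ^ 2 * S * 2 ^ j * r := by
    rw [hβn']
    exact hu
  -- the real relation
  have hrel : ∀ v ∈ s, |(v.1 : ℝ) * β - v.2 * β'| ≤ r * B := by
    intro v hv
    have h1 := (hs v hv).2.2.2.2.2.2
    rw [real_rel hβ hβ' (hs v hv).2.2.2.2.2.1] at h1
    · exact h1
    · have h2 : (v.1 : ℝ) * |β| ≤ (c * B) * (2 ^ (j + 1) * r) :=
        mul_le_mul (hb1 v hv).2 hy1 (abs_nonneg _) (by positivity)
      have h3 : (v.2 : ℝ) * |β'| ≤ (c * A) * (4 * c ^ 2 * S * 2 ^ j * r) :=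
        mul_le_mul (hb2 v hv) hu1 (abs_nonneg _) (by positivity)
      have h4 : (c * B) * (2 ^ (j + 1) * r) + (c * A) * (4 * c ^ 2 * S * 2 ^ j * r) =
          (2 * c + 4 * c ^ 3) * B * (2 ^ j * r) := by
        rw [← hSk]
        ring
      have h5 : 2 * c + 4 * c ^ 3 ≤ 8 * c ^ 3 := by
        have h6 : c ≤ c ^ 3 := by nlinarith
        have h7 : 0 ≤ c ^ 3 := by positivity
        linarith
      have h8 : (2 * c + 4 * c ^ 3) * B * (2 ^ j * r) ≤ (8 * c ^ 3) * B * W := by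
        apply mul_le_mul _ hjr (by positivity) (by positivity)
        exact mul_le_mul_of_nonneg_right h5 hB0.le
      linarith
  -- the bound for the determinants
  have hdet : ∀ v ∈ s, ∀ w ∈ s, |((det2 v w : ℤ) : ℝ)| * 2 ^ j ≤ 2 * c ^ 2 * C := by
    intro v hv w hw
    rcases hy.2 with h0 | h0
    · subst h0
      have e1 : ((det2 v w : ℤ) : ℝ) = (v.1 : ℝ) * w.2 - w.1 * v.2 := by
        unfold det2
        push_cast
        ring
      have h1 : (v.1 : ℝ) * w.2 ≤ (c * B) * (c * A) :=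
        mul_le_mul (hb1 v hv).2 (hb2 w hw) (Nat.cast_nonneg _) (by positivity)
      have h2 : (w.1 : ℝ) * v.2 ≤ (c * B) * (c * A) :=
        mul_le_mul (hb1 w hw).2 (hb2 v hv) (Nat.cast_nonneg _) (by positivity)
      have h3 : (0 : ℝ) ≤ (v.1 : ℝ) * w.2 := by positivity
      have h4 : (0 : ℝ) ≤ (w.1 : ℝ) * v.2 := by positivity
      have h5 : (c * B) * (c * A) = c ^ 2 * C := by
        rw [← hSk2]
        ring
      have h6 : 0 ≤ c ^ 2 * C := by positivity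
      rw [e1, pow_zero, mul_one, abs_le]
      constructor <;> linarith
    · have e1 : β * ((det2 v w : ℤ) : ℝ) =
          w.2 * ((v.1 : ℝ) * β - v.2 * β') - v.2 * ((w.1 : ℝ) * β - w.2 * β') := by
        unfold det2
        push_cast
        ring
      have h1 : |β * ((det2 v w : ℤ) : ℝ)| ≤ (c * A) * (r * B) + (c * A) * (r * B) := by
        rw [e1]
        refine (abs_sub _ _).trans ?_
        rw [abs_mul, abs_mul, Nat.abs_cast, Nat.abs_cast]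
        exact add_le_add
          (mul_le_mul (hb2 w hw) (hrel v hv) (abs_nonneg _) (by positivity))
          (mul_le_mul (hb2 v hv) (hrel w hw) (abs_nonneg _) (by positivity))
      rw [abs_mul] at h1
      have h2 : 2 ^ j * r ≤ |β| := by
        rw [hβn]
        exact h0
      have h3 : (2 ^ j * r) * |((det2 v w : ℤ) : ℝ)| ≤ |β| * |((det2 v w : ℤ) : ℝ)| :=
        mul_le_mul_of_nonneg_right h2 (abs_nonneg _)
      have h4 : r * (|((det2 v w : ℤ) : ℝ)| * 2 ^ j) ≤ r * (2 * c * C) := by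
        rw [← hSk2]
        nlinarith
      have h5 : |((det2 v w : ℤ) : ℝ)| * 2 ^ j ≤ 2 * c * C := le_of_mul_le_mul_left h4 hr
      have h6 : 2 * c * C ≤ 2 * c ^ 2 * C := by
        have h7 : c ≤ c ^ 2 := by nlinarith
        nlinarith
      exact h5.trans h6
  -- the count of slopes
  have key := slope_count (s := s) (Y := B) (X := c * B) (Dm := 2 * c ^ 2 * C / 2 ^ j) (m := m)
    hB0 hm (by positivity) hb1
    (by
      intro v hv w hw hvw
      obtain ⟨v1, v2, v3, v4, v5, v6, -⟩ := hs v hv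
      obtain ⟨w1, w2, w3, w4, w5, w6, -⟩ := hs w hw
      refine ⟨?_, det_ne v5 w5 (PP_pos v1) (PP_pos v2) (PP_pos w1) (PP_pos w2) hvw⟩
      rw [← hmdef]
      exact det_dvd ha hb hg hα hf v3 v4 w3 w4 v6 w6)
    (by
      intro v hv w hw
      rw [le_div_iff₀ hp0]
      exact hdet v hv w hw)
  have h1 : ((s.card : ℝ) - 1) * m * 2 ^ j ≤ 2 * c ^ 4 * C := by
    have h2 : 2 * c ^ 2 * C / 2 ^ j * (c * B) ^ 2 = (2 * c ^ 4 * C) / 2 ^ j * B ^ 2 := by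
      ring
    rw [h2] at key
    have h3 : ((s.card : ℝ) - 1) * m ≤ (2 * c ^ 4 * C) / 2 ^ j :=
      le_of_mul_le_mul_right key (by positivity)
    rwa [le_div_iff₀ hp0] at h3
  have h2 : (m : ℝ) * 2 ^ j ≤ C := by
    have h3 : r * ((m : ℝ) * 2 ^ j) ≤ r * C := by
      calc r * ((m : ℝ) * 2 ^ j) = (m : ℝ) * 2 ^ j * r := by ring
        _ ≤ W := habg
        _ ≤ r * C := hWS
    exact le_of_mul_le_mul_left h3 hr
  have h3 : C ≤ c ^ 4 * C := by
    have h4 : 1 ≤ c ^ 4 := one_le_pow₀ hc1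
    nlinarith
  have h5 : (s.card : ℝ) * ((m : ℝ) * 2 ^ j) =
      ((s.card : ℝ) - 1) * m * 2 ^ j + (m : ℝ) * 2 ^ j := by ring
  rw [h5]
  linarith

end Pool.Agent.Helper5.LE
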