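import Pool.Agent.Helper5.LE.DC

/-!
# Block LE-D4: the weight of one class at `u` is small for poor `y`

Notation `c = cc k`. If a term of `wt` is not zero then `adm` holds with some `(a, b, g)`: `b ∈ PP S Ib`, `ord f = b g`, so `b ∣ ord f`, `0 < ord f ≤ W / r ≤ Nb` (`hNb2`): at most `τ` values of `b` (`hdiv`), `g = ord f / b`; `a ∈ PP S Ia`: at most `c S^|Ia|` values (`PP_card_le`). For given `(a, b, g)` with `a b g 2^j r ≤ W` and given `y`: `α` has order `q = a g` and `‖y - α‖ ≤ 2^(j+1) r`; it is unique (two of them differ by a point killed by `q` of norm `≤ 2^(j+2) r < 1/q`, as `q 2^j r ≤ W < 1/4`, `one_le_norm_of_torsion`), and exists only for `y ∈ cl (2^(j+1) r) q`. The number of labels `v` with this `(a, b, g, α)` is `≤ 3 c^4 S^(2k-1) / (a b g 2^j)` by `label_count`.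
So `wt f y u ≤ ∑_{(a, b)} 1[y ∈ cl (2^(j+1) r) (a g)] 3 c^4 S^(2k-1) / (a b g 2^j)`; integrate over `y ∈ R0` and use `hpoor` (`q 2^j r ≤ a b g 2^j r ≤ W`): each pair `(a, b)` contributes `≤ κ' (a g 2^(j+1) r) * 3 c^4 S^(2k-1) / (a b g 2^j) = 6 c^4 κ' S^(2k-1) r / b`, and `b ≥ S^|Ib| ≥ S^|Ia|` (`PP_bounds`). Total `≤ τ * c S^|Ia| * 6 c^4 κ' S^(2k-1) r / S^|Ia|`.
-/

set_option autoImplicit false

namespace Pool.Agent.Helper5.LE

open MeasureTheory Finset
open Pool.Agent.Helper25.MOB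

private theorem sum_swap34 {ι1 ι2 ι3 ι4 : Type*} (V : Finset ι1) (R : Finset ι2) (A : Finset ι3)
    (B : Finset ι4) (F : ι1 → ι2 → ι3 → ι4 → ℝ) :
    ∑ v ∈ V, ∑ α ∈ R, ∑ a ∈ A, ∑ b ∈ B, F v α a b =
      ∑ a ∈ A, ∑ b ∈ B, ∑ α ∈ R, ∑ v ∈ V, F v α a b := by
  calc _ = ∑ v ∈ V, ∑ a ∈ A, ∑ α ∈ R, ∑ b ∈ B, F v α a b :=
        sum_congr rfl fun v _ => sum_comm
    _ = ∑ a ∈ A, ∑ v ∈ V, ∑ α ∈ R, ∑ b ∈ B, F v α a b := sum_comm
    _ = ∑ a ∈ A, ∑ v ∈ V, ∑ b ∈ B, ∑ α ∈ R, F v α a b :=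
        sum_congr rfl fun a _ => sum_congr rfl fun v _ => sum_comm
    _ = ∑ a ∈ A, ∑ b ∈ B, ∑ v ∈ V, ∑ α ∈ R, F v α a b :=
        sum_congr rfl fun a _ => sum_comm
    _ = _ := sum_congr rfl fun a _ => sum_congr rfl fun b _ => sum_comm

/-- The condition on `(a, b, α, v)`. -/
private def Q34 (S j : ℕ) (r W : ℝ) (f y u : UnitAddCircle) (c4 : ℝ) (k : ℕ) (a b : ℕ)
    (α : UnitAddCircle) (v : ℕ × ℕ) : Prop :=
  0 < a ∧ 0 < b ∧ 0 < addOrderOf f / b ∧ addOrderOf f = b * (addOrderOf f / b) ∧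
    addOrderOf α = a * (addOrderOf f / b) ∧ a ∣ v.1 ∧ b ∣ v.2 ∧ v.1.Coprime v.2 ∧
    v.1 • α = v.2 • f ∧ ((a * b * (addOrderOf f / b) : ℕ) : ℝ) * 2 ^ j * r ≤ W ∧
    y ∈ ann j r α ∧ ‖u - f‖ ≤ c4 ∧ ‖v.1 • y - v.2 • u‖ ≤ r * S ^ k

/-- The condition on `(a, b)`. -/
private def C34 (j : ℕ) (r W : ℝ) (f : UnitAddCircle) (a b : ℕ) : Prop :=
  0 < a ∧ 0 < b ∧ 0 < addOrderOf f / b ∧
    ((a * b * (addOrderOf f / b) : ℕ) : ℝ) * 2 ^ j * r ≤ W

/-- The bound of the part of `(a, b)`. -/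
private noncomputable def T34 (j : ℕ) (r W : ℝ) (f : UnitAddCircle) (C : ℝ) (a b : ℕ)
    (y : UnitAddCircle) : ℝ :=
  open scoped Classical in
  if C34 j r W f a b then (cl (2 ^ (j + 1) * r) (a * (addOrderOf f / b))).indicator
    (fun _ => C / (((a * b * (addOrderOf f / b) : ℕ) : ℝ) * 2 ^ j)) y else 0

private theorem T34_nonneg {j : ℕ} {r W : ℝ} {f : UnitAddCircle} {C : ℝ} (hC : 0 ≤ C) (a b : ℕ)
    (y : UnitAddCircle) : 0 ≤ T34 j r W f C a b y := by
  classical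
  unfold T34
  split_ifs
  · apply Set.indicator_nonneg
    intro _ _
    positivity
  · exact le_rfl

private theorem T34_int {j : ℕ} {r W : ℝ} {f : UnitAddCircle} {C : ℝ} (a b : ℕ)
    (R0 : Set UnitAddCircle) : Integrable (T34 j r W f C a b) (volume.restrict R0) := by
  classical
  unfold T34
  split_ifs
  · exact (integrable_const _).indicator (measurableSet_cl _ _)
  · exact integrable_zero _ _ _

private theorem T34_integral {j : ℕ} {r W : ℝ} {f : UnitAddCircle} {C κ' : ℝ} (hC : 0 ≤ C)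
    (hr : 0 < r) (hκ : 0 ≤ κ') (a b : ℕ) {R0 : Set UnitAddCircle} {Y : ℝ} (hY : 0 < Y)
    (hb : Y ≤ b)
    (hpoor : ∀ q j : ℕ, (q : ℝ) * 2 ^ j * r ≤ W →
      volume.real (R0 ∩ cl (2 ^ (j + 1) * r) q) ≤ κ' * (q * 2 ^ (j + 1) * r)) :
    ∫ y in R0, T34 j r W f C a b y ≤ 2 * C * κ' * r / Y := by
  classical
  unfold T34
  split_ifs with h
  · obtain ⟨h1, h2, h3, h4⟩ := h
    generalize hg : addOrderOf f / b = g at *
    have ha' : (0 : ℝ) < a := by exact_mod_cast h1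
    have hb' : (0 : ℝ) < b := by exact_mod_cast h2
    have hg' : (0 : ℝ) < g := by exact_mod_cast h3
    have hb1 : (1 : ℝ) ≤ b := by exact_mod_cast h2
    rw [integral_indicator_const _ (measurableSet_cl _ _),
      measureReal_restrict_apply (measurableSet_cl _ _), Set.inter_comm, smul_eq_mul]
    have hq : ((a * g : ℕ) : ℝ) * 2 ^ j * r ≤ W := by
      refine le_trans ?_ h4
      push_cast
      have : 0 ≤ (a : ℝ) * g * 2 ^ j * r := by positivity
      calc (a : ℝ) * g * 2 ^ j * r = 1 * ((a : ℝ) * g * 2 ^ j * r) := by ring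
        _ ≤ b * ((a : ℝ) * g * 2 ^ j * r) := mul_le_mul_of_nonneg_right hb1 this
        _ = a * b * g * 2 ^ j * r := by ring
    have hp := hpoor (a * g) j hq
    have hK : 0 ≤ C / (((a * b * g : ℕ) : ℝ) * 2 ^ j) := by positivity
    refine (mul_le_mul_of_nonneg_right hp hK).trans ?_
    have e : κ' * (((a * g : ℕ) : ℝ) * 2 ^ (j + 1) * r) * (C / (((a * b * g : ℕ) : ℝ) * 2 ^ j)) =
        2 * C * κ' * r / b := by
      push_cast
      rw [pow_succ]
      field_simp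
    rw [e]
    exact div_le_div_of_nonneg_left (by positivity) hY hb
  · rw [integral_zero]
    positivity

private theorem inner34 {S k τ i j : ℕ} {r W Nb κ' : ℝ} (H : Hyp S k τ r W Nb κ')
    (hi : i ∈ range k) (f y u : UnitAddCircle) (a b : ℕ) :
    (open scoped Classical in ∑ α ∈ Fr r W,
      ∑ v ∈ PP S (range k) ×ˢ PP S ((range k).erase i),
        if Q34 S j r W f y u (4 * cc k ^ 2 * S * 2 ^ j * r) k a b α v then (1 : ℝ) else 0) ≤
      T34 j r W f (3 * cc k ^ 4 * (S : ℝ) ^ (2 * k - 1)) a b y := by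
  classical
  have hC : (0 : ℝ) ≤ 3 * cc k ^ 4 * (S : ℝ) ^ (2 * k - 1) := by positivity
  by_cases hex : ∃ α ∈ Fr r W, ∃ v ∈ PP S (range k) ×ˢ PP S ((range k).erase i),
      Q34 S j r W f y u (4 * cc k ^ 2 * S * 2 ^ j * r) k a b α v
  · obtain ⟨α0, hα0, v0, hv0, hQ0⟩ := hex
    have hQ0' := hQ0
    obtain ⟨q1, q2, q3, q4, q5, q6, q7, q8, q9, q10, q11, q12, q13⟩ := hQ0
    have hr := H.hr
    have hc1 : (1 : ℝ) ≤ cc k := by
      have : 1 ≤ cc k := Nat.one_le_two_pow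
      exact_mod_cast this
    have hS2 : (2 : ℝ) ≤ S := by exact_mod_cast H.hS
    have hW4 : 4 * W < 1 := by
      have h1 : (1 : ℝ) ≤ (cc k : ℝ) ^ 3 * (S : ℝ) ^ k :=
        one_le_mul_of_one_le_of_one_le (one_le_pow₀ hc1) (one_le_pow₀ (by linarith))
      have h2 := H.h16
      have h3 := H.hW0
      nlinarith
    have hq : ((a * (addOrderOf f / b) : ℕ) : ℝ) * 2 ^ j * r ≤ W := by
      refine le_trans ?_ q10
      generalize addOrderOf f / b = g at *
      have hb1 : (1 : ℝ) ≤ b := by exact_mod_cast q2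
      push_cast
      have : 0 ≤ (a : ℝ) * g * 2 ^ j * r := by positivity
      calc (a : ℝ) * g * 2 ^ j * r = 1 * ((a : ℝ) * g * 2 ^ j * r) := by ring
        _ ≤ b * ((a : ℝ) * g * 2 ^ j * r) := mul_le_mul_of_nonneg_right hb1 this
        _ = a * b * g * 2 ^ j * r := by ring
    have hqpos : 0 < a * (addOrderOf f / b) := Nat.mul_pos q1 q3
    have huniq : ∀ α ∈ Fr r W, ∀ v ∈ PP S (range k) ×ˢ PP S ((range k).erase i),
        Q34 S j r W f y u (4 * cc k ^ 2 * S * 2 ^ j * r) k a b α v → α = α0 := by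
      intro α hα v hv hQ
      obtain ⟨p1, p2, p3, p4, p5, p6, p7, p8, p9, p10, p11, p12, p13⟩ := hQ
      by_contra hne
      have t1 : (a * (addOrderOf f / b)) • (α - α0) = 0 := by
        rw [nsmul_sub]
        nth_rewrite 1 [← p5]
        rw [← q5, addOrderOf_nsmul_eq_zero, addOrderOf_nsmul_eq_zero, sub_zero]
      have t2 := one_le_norm_of_torsion hqpos t1 (sub_ne_zero.2 hne)
      have t3 : ‖α - α0‖ ≤ 2 ^ (j + 1) * r + 2 ^ (j + 1) * r := by
        have e : α - α0 = (y - α0) - (y - α) := by abel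
        rw [e]
        exact (norm_sub_le _ _).trans (add_le_add q11.1 p11.1)
      have hqr : (0 : ℝ) < ((a * (addOrderOf f / b) : ℕ) : ℝ) := by exact_mod_cast hqpos
      have t4 := t2.trans t3
      rw [div_le_iff₀ hqr] at t4
      have t5 : (2 ^ (j + 1) * r + 2 ^ (j + 1) * r) * ((a * (addOrderOf f / b) : ℕ) : ℝ) =
          4 * (((a * (addOrderOf f / b) : ℕ) : ℝ) * 2 ^ j * r) := by
        rw [pow_succ]; ring
      rw [t5] at t4
      linarith
    have e1 : (∑ α ∈ Fr r W, ∑ v ∈ PP S (range k) ×ˢ PP S ((range k).erase i),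
        if Q34 S j r W f y u (4 * cc k ^ 2 * S * 2 ^ j * r) k a b α v then (1 : ℝ) else 0) =
        ∑ v ∈ PP S (range k) ×ˢ PP S ((range k).erase i),
          if Q34 S j r W f y u (4 * cc k ^ 2 * S * 2 ^ j * r) k a b α0 v then (1 : ℝ) else 0 := by
      refine Finset.sum_eq_single α0 ?_ ?_
      · intro α hα hne
        refine Finset.sum_eq_zero fun v hv => ?_
        rw [if_neg]
        intro hQ
        exact hne (huniq α hα v hv hQ)
      · intro h
        exact absurd hα0 h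
    rw [e1, Finset.sum_boole]
    set s := (PP S (range k) ×ˢ PP S ((range k).erase i)).filter fun v =>
      Q34 S j r W f y u (4 * cc k ^ 2 * S * 2 ^ j * r) k a b α0 v with hs
    have hlc := label_count H hi q1 q2 q3 q5 q4 q11 q12 q10 s (by
      intro v hv
      rw [hs, mem_filter, mem_product] at hv
      obtain ⟨⟨hv1, hv2⟩, p1, p2, p3, p4, p5, p6, p7, p8, p9, p10, p11, p12, p13⟩ := hv
      exact ⟨hv1, hv2, p6, p7, p8, p9, p13⟩)
    have hmem : y ∈ cl (2 ^ (j + 1) * r) (a * (addOrderOf f / b)) :=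
      ⟨α0, (mem_pt hqpos α0).2 q5, q11.1⟩
    unfold T34
    rw [if_pos ⟨q1, q2, q3, q10⟩, Set.indicator_of_mem hmem]
    have hden : (0 : ℝ) < ((a * b * (addOrderOf f / b) : ℕ) : ℝ) * 2 ^ j := by
      have : 0 < a * b * (addOrderOf f / b) := Nat.mul_pos (Nat.mul_pos q1 q2) q3
      have : (0 : ℝ) < ((a * b * (addOrderOf f / b) : ℕ) : ℝ) := by exact_mod_cast this
      positivity
    rw [le_div_iff₀ hden]
    exact hlc
  · refine le_trans (le_of_eq ?_) (T34_nonneg hC a b y)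
    refine Finset.sum_eq_zero fun α hα => Finset.sum_eq_zero fun v hv => ?_
    rw [if_neg]
    intro hQ
    exact hex ⟨α, hα, v, hv, hQ⟩

/-- The set of the `b`. -/
private noncomputable def B34 (S : ℕ) (Nb : ℝ) (Ib : Finset ℕ) (n : ℕ) : Finset ℕ :=
  open scoped Classical in if 0 < n ∧ (n : ℝ) ≤ Nb then (PP S Ib).filter (· ∣ n) else ∅

private theorem B34_card {S k τ : ℕ} {r W Nb κ' : ℝ} (H : Hyp S k τ r W Nb κ') {Ib : Finset ℕ}
    (hIb : Ib ⊆ range k) (n : ℕ) : (B34 S Nb Ib n).card ≤ τ := by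
  classical
  unfold B34
  split_ifs with h
  · have h1 := H.hdiv Ib hIb n h.1 h.2
    convert h1 using 2
  · simp

private theorem point34 {S k τ i j : ℕ} {Ia Ib : Finset ℕ} {r W Nb κ' : ℝ}
    (H : Hyp S k τ r W Nb κ') (hi : i ∈ range k) (f y u : UnitAddCircle) :
    wt S k i j Ia Ib r W f y u ≤ ∑ a ∈ PP S Ia, ∑ b ∈ B34 S Nb Ib (addOrderOf f),
      T34 j r W f (3 * cc k ^ 4 * (S : ℝ) ^ (2 * k - 1)) a b y := by
  classical
  have e1 : wt S k i j Ia Ib r W f y u ≤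
      ∑ v ∈ PP S (range k) ×ˢ PP S ((range k).erase i), ∑ α ∈ Fr r W, ∑ a ∈ PP S Ia,
        ∑ b ∈ B34 S Nb Ib (addOrderOf f),
          if Q34 S j r W f y u (4 * cc k ^ 2 * S * 2 ^ j * r) k a b α v then (1 : ℝ) else 0 := by
    unfold wt
    refine sum_le_sum fun v hv => sum_le_sum fun α hα => ?_
    split_ifs with h
    · obtain ⟨⟨a, b, g, hg, ha, hb, h1, h2, h3, h4, h5, h6, h7, h8, h9⟩, hy, hu, hd⟩ := h
      have ha0 := PP_pos ha
      have hb0 := PP_pos hb
      have hgb : addOrderOf f / b = g := by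
        rw [h2, Nat.mul_div_cancel_left _ hb0]
      have hr := H.hr
      have hNb : ((addOrderOf f : ℕ) : ℝ) ≤ Nb := by
        have t1 := H.hNb2
        have t2 : ((b * g : ℕ) : ℝ) * r ≤ r * Nb := by
          refine le_trans ?_ (h9.trans t1)
          push_cast
          have ha1 : (1 : ℝ) ≤ a := by exact_mod_cast ha0
          have h21 : (1 : ℝ) ≤ 2 ^ j := one_le_pow₀ (by norm_num)
          have : 0 ≤ (b : ℝ) * g * r := by positivity
          calc (b : ℝ) * g * r = 1 * ((b : ℝ) * g * r) := by ring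
            _ ≤ (a * 2 ^ j) * ((b : ℝ) * g * r) :=
                mul_le_mul_of_nonneg_right (one_le_mul_of_one_le_of_one_le ha1 h21) this
            _ = a * b * g * 2 ^ j * r := by ring
        rw [h2]
        rw [mul_comm] at t2
        exact le_of_mul_le_mul_left t2 hr
      have hbB : b ∈ B34 S Nb Ib (addOrderOf f) := by
        unfold B34
        rw [if_pos ⟨by rw [h2]; exact Nat.mul_pos hb0 hg, hNb⟩, mem_filter]
        exact ⟨hb, by rw [h2]; exact Nat.dvd_mul_right b g⟩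
      have hQ : Q34 S j r W f y u (4 * cc k ^ 2 * S * 2 ^ j * r) k a b α v := by
        refine ⟨ha0, hb0, by rw [hgb]; exact hg, by rw [hgb]; exact h2, by rw [hgb]; exact h1, h3,
          h4, h7, h8, by rw [hgb]; exact h9, hy, hu, hd⟩
      have s1 : (1 : ℝ) ≤ ∑ b ∈ B34 S Nb Ib (addOrderOf f),
          if Q34 S j r W f y u (4 * cc k ^ 2 * S * 2 ^ j * r) k a b α v then (1 : ℝ) else 0 := by
        refine le_trans ?_ (single_le_sum (f := fun b =>
          if Q34 S j r W f y u (4 * cc k ^ 2 * S * 2 ^ j * r) k a b α v then (1 : ℝ) else 0)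
          (fun b _ => by split_ifs <;> norm_num) hbB)
        simp only [if_pos hQ, le_refl]
      refine s1.trans (single_le_sum (f := fun a => ∑ b ∈ B34 S Nb Ib (addOrderOf f),
          if Q34 S j r W f y u (4 * cc k ^ 2 * S * 2 ^ j * r) k a b α v then (1 : ℝ) else 0)
          (fun a _ => sum_nonneg fun b _ => by split_ifs <;> norm_num) ha)
    · refine sum_nonneg fun a _ => sum_nonneg fun b _ => ?_
      split_ifs <;> norm_num
  refine e1.trans ?_
  rw [sum_swap34]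
  exact sum_le_sum fun a _ => sum_le_sum fun b _ => inner34 H hi f y u a b

theorem w_le {S k τ i j : ℕ} {Ia Ib : Finset ℕ} {r W Nb κ' : ℝ} (H : Hyp S k τ r W Nb κ')
    (hi : i ∈ range k) (hIa : Ia ⊆ range k) (hIb : Ib ⊆ range k) (hcard : Ia.card ≤ Ib.card)
    {R0 : Set UnitAddCircle} (hR0 : MeasurableSet R0)
    (hpoor : ∀ q j : ℕ, (q : ℝ) * 2 ^ j * r ≤ W →
      volume.real (R0 ∩ cl (2 ^ (j + 1) * r) q) ≤ κ' * (q * 2 ^ (j + 1) * r))
    (f u : UnitAddCircle) :
    ∫ y in R0, wt S k i j Ia Ib r W f y u ≤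
      6 * τ * cc k ^ 5 * κ' * (S : ℝ) ^ (2 * k - 1) * r := by
  classical
  set C : ℝ := 3 * cc k ^ 4 * (S : ℝ) ^ (2 * k - 1) with hCdef
  have hC : 0 ≤ C := by positivity
  have hr := H.hr
  have hκ := H.hκ
  have hS2 : (2 : ℝ) ≤ S := by exact_mod_cast H.hS
  have hS1 : (1 : ℝ) ≤ S := by linarith
  have hY : (0 : ℝ) < (S : ℝ) ^ Ia.card := by positivity
  have i1 : ∫ y in R0, wt S k i j Ia Ib r W f y u ≤
      ∫ y in R0, ∑ a ∈ PP S Ia, ∑ b ∈ B34 S Nb Ib (addOrderOf f), T34 j r W f C a b y := by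
    refine integral_mono_of_nonneg ?_ ?_ ?_
    · exact Filter.Eventually.of_forall fun y => (wt_bounds S k i j Ia Ib r W f y u).1
    · exact integrable_finsetSum _ fun a _ => integrable_finsetSum _ fun b _ => T34_int a b R0
    · exact Filter.Eventually.of_forall fun y => point34 H hi f y u
  refine i1.trans ?_
  rw [integral_finsetSum _ fun a _ => integrable_finsetSum _ fun b _ => T34_int a b R0]
  have i2 : ∀ a ∈ PP S Ia, ∫ y in R0, ∑ b ∈ B34 S Nb Ib (addOrderOf f), T34 j r W f C a b y ≤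
      τ * (2 * C * κ' * r / (S : ℝ) ^ Ia.card) := by
    intro a ha
    rw [integral_finsetSum _ fun b _ => T34_int a b R0]
    have i3 : ∀ b ∈ B34 S Nb Ib (addOrderOf f), ∫ y in R0, T34 j r W f C a b y ≤
        2 * C * κ' * r / (S : ℝ) ^ Ia.card := by
      intro b hb
      have hbP : b ∈ PP S Ib := by
        unfold B34 at hb
        split_ifs at hb with h
        · exact (mem_filter.1 hb).1
        · exact absurd hb (notMem_empty _)
      refine T34_integral hC hr hκ a b hY ?_ hpoor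
      have h1 := (PP_bounds hIb hbP).1
      have h2 : ((S : ℝ)) ^ Ib.card ≤ b := by exact_mod_cast h1
      exact (pow_le_pow_right₀ hS1 hcard).trans h2
    have hX : 0 ≤ 2 * C * κ' * r / (S : ℝ) ^ Ia.card := by positivity
    calc _ ≤ ∑ b ∈ B34 S Nb Ib (addOrderOf f), 2 * C * κ' * r / (S : ℝ) ^ Ia.card :=
          sum_le_sum i3
      _ = (B34 S Nb Ib (addOrderOf f)).card * (2 * C * κ' * r / (S : ℝ) ^ Ia.card) := by
          rw [sum_const, nsmul_eq_mul]
      _ ≤ τ * (2 * C * κ' * r / (S : ℝ) ^ Ia.card) := by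
          refine mul_le_mul_of_nonneg_right ?_ hX
          exact_mod_cast B34_card H hIb (addOrderOf f)
  have hX : 0 ≤ τ * (2 * C * κ' * r / (S : ℝ) ^ Ia.card) := by positivity
  calc _ ≤ ∑ a ∈ PP S Ia, τ * (2 * C * κ' * r / (S : ℝ) ^ Ia.card) := sum_le_sum i2
    _ = (PP S Ia).card * (τ * (2 * C * κ' * r / (S : ℝ) ^ Ia.card)) := by
        rw [sum_const, nsmul_eq_mul]
    _ ≤ (cc k * (S : ℝ) ^ Ia.card) * (τ * (2 * C * κ' * r / (S : ℝ) ^ Ia.card)) := by
        refine mul_le_mul_of_nonneg_right ?_ hX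
        exact_mod_cast PP_card_le hIa
    _ = 6 * τ * cc k ^ 5 * κ' * (S : ℝ) ^ (2 * k - 1) * r := by
        rw [hCdef]
        field_simp
        ring

end Pool.Agent.Helper5.LE
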