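import Pool.Agent.Helper5.LE.PA
import Pool.Agent.Helper5.LE.PC
import Pool.Agent.Helper5.LE.MS
import Pool.Agent.Helper5.LE.CA

/-!
# Block LE-D5: two classes preserved by the same step

Notation `c = cc k`, radius `r1 = c 2^(j+2) r`; `t < 2^(i+1) S ≤ c S` for `t ∈ win S i`, `i < k`. If `t α' = f` and `ord α' = ord f > 0` then `t ∤ ord f` (`ord (t α') = ord α' / gcd`).
`EE_card`: let `t` be in the filter: `α', α1'` with `t α' = f`, `t α1' = f1`, `‖α' - α1'‖ ≤ 2 r1`. Let `ω'` be a real lift of `α' - α1'`, `|ω'| ≤ 2 r1`; `t ω'` lifts `f - f1` and `|t ω'| ≤ c S * 2 r1 = 8 c^2 S 2^j r ≤ 8 c^2 S W < 1/2` (`h16`, `S ≤ S^k`), so it is the lift `ω` of `f - f1` with `|ω| = ‖f - f1‖ < 1/2`, unique (the same for all `t` of the filter). `Λ = ord f * ord f1 = ord α' * ord α1'` kills `α' - α1'`: `Λ ω'` is an integer, so the integer `n = Λ ω = t (Λ ω')` is divisible by `t`. `n ≠ 0` since `f ≠ f1`, and `|n| ≤ (W/r)^2 8 c^2 S 2^j r ≤ 8 c^2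 S W^3 / r^2 ≤ Nb` (`hNb3`, `2^j r ≤ W`). So all these `t` divide `n.natAbs`: at most `τ` (`hdiv` for `{i}`, `PP_singleton`).
`EE_tor`: if `y' + b, y' + b1 ∈ EE`, the two `α'` agree (killed by `t` and by `(ord f)`, coprime), so `‖b - b1‖ ≤ 2 r1 < 1 / t` (`t * 2 r1 ≤ 8 c^2 S W < 1`) and `t (b - b1) = 0`: `b = b1` (`one_le_norm_of_torsion`; `mem_tor` of block LE-D6, or directly from `pts`).
-/

set_option autoImplicit false

namespace Pool.Agent.Helper5.LE

open MeasureTheory Finset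
open Pool.Agent.Helper25.MOB

theorem mem_tor {t : ℕ} (ht : 0 < t) {a : UnitAddCircle} : a ∈ tor t ↔ t • a = 0 := by
  unfold tor
  rw [mem_pts (by simp), Nat.mem_divisors, addOrderOf_dvd_iff_nsmul_eq_zero]
  exact ⟨fun h => h.1, fun h => ⟨h, ht.ne'⟩⟩

private theorem kill31 (α β : UnitAddCircle) :
    (addOrderOf α * addOrderOf β) • (α - β) = 0 := by
  rw [nsmul_sub, mul_nsmul, addOrderOf_nsmul_eq_zero, nsmul_zero, mul_comm, mul_nsmul,
    addOrderOf_nsmul_eq_zero, nsmul_zero, sub_zero]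

/-- A real representative of minimal absolute value. -/
private theorem lift31 (u : UnitAddCircle) : ∃ x : ℝ, (x : UnitAddCircle) = u ∧ |x| = ‖u‖ ∧
    |x| ≤ 1 / 2 := by
  induction u using QuotientAddGroup.induction_on with
  | H x =>
    refine ⟨x - round x, ?_, ?_, abs_sub_round x⟩
    · rw [AddCircle.coe_sub, sub_eq_self, AddCircle.coe_eq_zero_iff]
      exact ⟨round x, by simp⟩
    · exact (UnitAddCircle.norm_eq (x := x)).symm

private theorem int31 {L : ℕ} {x : ℝ} (h : L • (x : UnitAddCircle) = 0) :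
    ∃ n : ℤ, (n : ℝ) = L * x := by
  rw [← AddCircle.coe_nsmul, AddCircle.coe_eq_zero_iff] at h
  obtain ⟨n, hn⟩ := h
  refine ⟨n, ?_⟩
  rw [← nsmul_eq_mul, ← hn]
  simp

/-- Two real representatives at distance less than one are equal. -/
private theorem uniq31 {x y : ℝ} (h : (x : UnitAddCircle) = y) (hd : |x - y| < 1) : x = y := by
  have h1 : ((x - y : ℝ) : UnitAddCircle) = 0 := by
    rw [AddCircle.coe_sub, h, sub_self]
  rw [AddCircle.coe_eq_zero_iff] at h1
  obtain ⟨n, hn⟩ := h1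
  have h2 : (n : ℝ) = x - y := by
    rw [← hn]
    simp
  rw [← h2] at hd
  have h3 : |n| < 1 := by
    have h4 : ((|n| : ℤ) : ℝ) < 1 := by
      rw [Int.cast_abs]
      exact hd
    exact_mod_cast h4
  have h4 : n = 0 := Int.abs_lt_one_iff.1 h3
  rw [h4, Int.cast_zero] at h2
  linarith

private theorem cc31 {k : ℕ} : (1 : ℝ) ≤ cc k := by
  unfold cc
  exact_mod_cast Nat.one_le_two_pow

/-- `t * 2 r1 ≤ 8 c^2 S 2^j r ≤ 8 c^2 S W < 1/2`. -/
private theorem num31 {S k τ i j t : ℕ} {r W Nb κ' : ℝ} (H : Hyp S k τ r W Nb κ')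
    (hi : i ∈ range k) (hj : 2 ^ j * r ≤ W) (ht : t ∈ win S i) :
    (t : ℝ) * (2 * (cc k * 2 ^ (j + 2) * r)) ≤ 8 * (cc k : ℝ) ^ 2 * S * W ∧
      8 * (cc k : ℝ) ^ 2 * S * W < 1 / 2 := by
  have hc := cc31 (k := k)
  have hS : (1 : ℝ) ≤ S := by
    have := H.hS
    exact_mod_cast (by omega : 1 ≤ S)
  have hr := H.hr
  have hW0 := H.hW0
  have hik : i < k := mem_range.1 hi
  have h1 : (t : ℝ) ≤ cc k * S := by
    have h2 := (mem_win.1 ht).1.2.le
    have h3 : 2 ^ (i + 1) ≤ cc k := by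
      unfold cc
      refine Nat.pow_le_pow_right (by norm_num) ?_
      nlinarith [Nat.succ_le_of_lt hik, H.hk]
    have h4 : t ≤ cc k * S := h2.trans (Nat.mul_le_mul_right _ h3)
    exact_mod_cast h4
  constructor
  · have h5 : (0 : ℝ) ≤ 2 * (cc k * 2 ^ (j + 2) * r) := by positivity
    calc (t : ℝ) * (2 * (cc k * 2 ^ (j + 2) * r)) ≤ (cc k * S) * (2 * (cc k * 2 ^ (j + 2) * r)) :=
          mul_le_mul_of_nonneg_right h1 h5
      _ = 8 * (cc k : ℝ) ^ 2 * S * (2 ^ j * r) := by ring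
      _ ≤ 8 * (cc k : ℝ) ^ 2 * S * W := mul_le_mul_of_nonneg_left hj (by positivity)
  · have h6 := H.h16
    have h7 : (S : ℝ) ≤ (S : ℝ) ^ k := le_self_pow₀ hS (by have := H.hk; omega)
    have h8 : (cc k : ℝ) ^ 2 ≤ (cc k : ℝ) ^ 3 := pow_le_pow_right₀ hc (by norm_num)
    have h9 : (cc k : ℝ) ^ 2 * S * W ≤ (cc k : ℝ) ^ 3 * (S : ℝ) ^ k * W := by
      refine mul_le_mul_of_nonneg_right ?_ hW0.le
      exact mul_le_mul h8 h7 (by positivity) (by positivity)
    linarith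

theorem EE_card {S k τ i j : ℕ} {r W Nb κ' : ℝ} (H : Hyp S k τ r W Nb κ')
    (hi : i ∈ range k) (hj : 2 ^ j * r ≤ W) {f f1 : UnitAddCircle} (hf : f ∈ Fr r W)
    (hf1 : f1 ∈ Fr r W) (hne : f ≠ f1) :
    open scoped Classical in
    ((win S i).filter fun t => ∃ y', y' ∈ EE k j r t f ∧ y' ∈ EE k j r t f1).card ≤ τ := by
  classical
  have hr := H.hr
  have hW0 := H.hW0
  obtain ⟨ω, hω, -, hω2⟩ := lift31 (f - f1)
  have hord : ∀ g ∈ Fr r W, 0 < addOrderOf g ∧ (addOrderOf g : ℝ) ≤ W / r := by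
    intro g hg
    unfold Fr at hg
    rw [mem_pts (by simp), mem_Icc] at hg
    exact ⟨hg.1, (Nat.cast_le.2 hg.2).trans (Nat.floor_le (by positivity))⟩
  obtain ⟨hf0, hfW⟩ := hord f hf
  obtain ⟨hf10, hf1W⟩ := hord f1 hf1
  have hL : (addOrderOf f * addOrderOf f1) • (f - f1) = 0 := kill31 f f1
  rw [← hω] at hL
  obtain ⟨n, hn⟩ := int31 hL
  have hn0 : n ≠ 0 := by
    rintro rfl
    rw [Int.cast_zero] at hn
    have h1 : ω = 0 := by
      have h2 : ((addOrderOf f * addOrderOf f1 : ℕ) : ℝ) ≠ 0 := by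
        exact_mod_cast (Nat.mul_pos hf0 hf10).ne'
      rcases mul_eq_zero.1 hn.symm with h | h
      · exact absurd h h2
      · exact h
    rw [h1] at hω
    exact hne (sub_eq_zero.1 (by rw [← hω]; rfl))
  have key : ∀ t ∈ (win S i).filter (fun t => ∃ y', y' ∈ EE k j r t f ∧ y' ∈ EE k j r t f1),
      t ∣ n.natAbs ∧ (n.natAbs : ℝ) ≤ Nb := by
    intro t ht
    obtain ⟨ht1, y', ⟨α, ha1, ha2, ha3, ha4⟩, ⟨β, hb1, hb2, hb3, hb4⟩⟩ := mem_filter.1 ht
    obtain ⟨hnum1, hnum2⟩ := num31 H hi hj ht1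
    obtain ⟨ω', hω', hω'1, -⟩ := lift31 (α - β)
    have h1 : ‖α - β‖ ≤ 2 * (cc k * 2 ^ (j + 2) * r) := by
      have h2 : α - β = (y' - β) - (y' - α) := by abel
      rw [h2]
      refine (norm_sub_le _ _).trans ?_
      linarith
    have h2 : |(t : ℝ) * ω'| ≤ 8 * (cc k : ℝ) ^ 2 * S * W := by
      rw [abs_mul, Nat.abs_cast, hω'1]
      exact (mul_le_mul_of_nonneg_left h1 (Nat.cast_nonneg t)).trans hnum1
    have h3 : (((t : ℝ) * ω' : ℝ) : UnitAddCircle) = ω := by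
      rw [← nsmul_eq_mul, AddCircle.coe_nsmul, hω', hω, nsmul_sub, ha1, hb1]
    have h4 : (t : ℝ) * ω' = ω := by
      refine uniq31 h3 ?_
      have := abs_sub (t * ω') ω
      linarith
    have hM : (addOrderOf f * addOrderOf f1) • (α - β) = 0 := by
      rw [← ha2, ← hb2]
      exact kill31 α β
    rw [← hω'] at hM
    obtain ⟨m, hm⟩ := int31 hM
    have h5 : n = t * m := by
      have h6 : (n : ℝ) = ((t * m : ℤ) : ℝ) := by
        push_cast
        rw [hn, hm, ← h4]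
        ring
      exact_mod_cast h6
    constructor
    · rw [h5, Int.natAbs_mul, Int.natAbs_natCast]
      exact dvd_mul_right _ _
    · have h7 : (n.natAbs : ℝ) = |(n : ℝ)| := by
        rw [Nat.cast_natAbs, Int.cast_abs]
      rw [h7, hn, abs_mul, Nat.abs_cast, ← h4]
      have h8 : ((addOrderOf f * addOrderOf f1 : ℕ) : ℝ) ≤ (W / r) * (W / r) := by
        push_cast
        exact mul_le_mul hfW hf1W (Nat.cast_nonneg _) (by positivity)
      have h9 := H.hNb3
      calc ((addOrderOf f * addOrderOf f1 : ℕ) : ℝ) * |(t : ℝ) * ω'|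
          ≤ ((W / r) * (W / r)) * (8 * (cc k : ℝ) ^ 2 * S * W) :=
            mul_le_mul h8 h2 (abs_nonneg _) (by positivity)
        _ = (8 * (cc k : ℝ) ^ 2 * S * W ^ 3) / r ^ 2 := by
            field_simp
        _ ≤ Nb := by
            rw [div_le_iff₀ (by positivity)]
            linarith
  rcases Finset.eq_empty_or_nonempty
    ((win S i).filter fun t => ∃ y', y' ∈ EE k j r t f ∧ y' ∈ EE k j r t f1) with h | ⟨t, ht⟩
  · rw [h]
    simp
  · have h1 := H.hdiv {i} (by simpa using hi) n.natAbs (Int.natAbs_pos.2 hn0) (key t ht).2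
    refine le_trans (card_le_card ?_) h1
    intro s hs
    rw [mem_filter, PP_singleton]
    exact ⟨(mem_filter.1 hs).1, (key s hs).1⟩

theorem EE_tor {S k τ i j : ℕ} {r W Nb κ' : ℝ} (H : Hyp S k τ r W Nb κ')
    (hi : i ∈ range k) (hj : 2 ^ j * r ≤ W) {t : ℕ} (ht : t ∈ win S i) (f y' : UnitAddCircle) :
    open scoped Classical in ((tor t).filter fun b => y' + b ∈ EE k j r t f).card ≤ 1 := by
  classical
  have htp := (mem_win.1 ht).2
  have ht0 := htp.pos
  obtain ⟨hnum1, hnum2⟩ := num31 H hi hj ht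
  rw [card_le_one]
  intro b hb b1 hb1
  obtain ⟨hb2, α, ha1, ha2, ha3, ha4⟩ := mem_filter.1 hb
  obtain ⟨hb3, β, hc1, hc2, hc3, hc4⟩ := mem_filter.1 hb1
  rw [mem_tor ht0] at hb2 hb3
  have hαβ : α = β := by
    have h1 : t • (α - β) = 0 := by rw [nsmul_sub, ha1, hc1, sub_self]
    have h2 : addOrderOf f • (α - β) = 0 := by
      rw [nsmul_sub]
      nth_rewrite 1 [← ha2]
      rw [← hc2, addOrderOf_nsmul_eq_zero, addOrderOf_nsmul_eq_zero, sub_self]
    have h3 : Nat.Coprime t (addOrderOf f) := by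
      have hfin : IsOfFinAddOrder α := addOrderOf_pos_iff.1 (by rw [ha2]; exact ha3)
      have h4 := IsOfFinAddOrder.addOrderOf_nsmul α t hfin
      rw [ha1, ha2] at h4
      have h5 := (Nat.div_eq_self.1 h4.symm).resolve_left ha3.ne'
      rw [Nat.Coprime, Nat.gcd_comm]
      exact h5
    have h4 := addOrderOf_dvd_of_nsmul_eq_zero h1
    have h5 := addOrderOf_dvd_of_nsmul_eq_zero h2
    have h6 : addOrderOf (α - β) ∣ 1 := by
      rw [← h3]
      exact Nat.dvd_gcd h4 h5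
    rw [Nat.dvd_one, AddMonoid.addOrderOf_eq_one_iff] at h6
    exact sub_eq_zero.1 h6
  subst hαβ
  by_contra hne
  have h1 : t • (b - b1) = 0 := by rw [nsmul_sub, hb2, hb3, sub_self]
  have h2 := one_le_norm_of_torsion ht0 h1 (sub_ne_zero.2 hne)
  have h3 : ‖b - b1‖ ≤ 2 * (cc k * 2 ^ (j + 2) * r) := by
    have h4 : b - b1 = (y' + b - α) - (y' + b1 - α) := by abel
    rw [h4]
    refine (norm_sub_le _ _).trans ?_
    linarith
  have h4 : (1 : ℝ) ≤ t * (2 * (cc k * 2 ^ (j + 2) * r)) := by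
    have ht' : (0 : ℝ) < t := by exact_mod_cast ht0
    have h5 := h2.trans h3
    rw [div_le_iff₀ ht'] at h5
    linarith
  linarith

end Pool.Agent.Helper5.LE
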