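import Pool.Agent.Helper5.LE.DE

/-!
# Block LE-D6: averaging over the points killed by `t`

`card_tor`: the points `m / t`, `0 ≤ m < t` (distinct; every point killed by `t` is one of them, `mem_tor`).
`avg_le`: translation invariance: `t ∫ g = ∑_{b ∈ tor t} ∫ g(y + b) dy = ∫ ∑_b g(y + b) dy ≤ ∫ G(t y) dy = ∫ G` (the map `y ↦ t y` preserves the measure of the circle for `t > 0`; e.g. `measurePreserving_zsmul` / `MeasurePreserving` of `AddCircle`, or `ergodic`: Mathlib has `AddCircle.ergodic_nsmul`, `measurePreserving_nsmul`-like lemmas; for `t = 1` trivial).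
-/

set_option autoImplicit false

namespace Pool.Agent.Helper5.LE

open MeasureTheory Finset
open Pool.Agent.Helper25.MOB

theorem card_tor {t : ℕ} (ht : 0 < t) : (tor t).card = t := by
  classical
  unfold tor pts
  rw [Finset.card_biUnion]
  · have h : ∀ s ∈ t.divisors, (pt s).card = s.totient := by
      intro s hs
      have hs0 : 0 < s := Nat.pos_of_mem_divisors hs
      rw [← Nat.subtype_card (pt s) (mem_pt hs0)]
      exact AddCircle.card_addOrderOf_eq_totient (p := (1 : ℝ))
    rw [Finset.sum_congr rfl h, Nat.sum_totient]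
  · intro s hs s1 hs1 hne
    rw [Function.onFun, Finset.disjoint_left]
    intro a ha ha1
    exact hne ((addOrderOf_of_mem_pt ha).1.symm.trans (addOrderOf_of_mem_pt ha1).1)

theorem measurePreserving_smul {t : ℕ} (ht : 0 < t) :
    MeasurePreserving (fun y : UnitAddCircle => t • y) volume volume := by
  have h := MeasureTheory.Measure.measurePreserving_zsmul (volume : Measure UnitAddCircle)
    (n := (t : ℤ)) (by exact_mod_cast ht.ne')
  simpa only [natCast_zsmul] using h

theorem avg_le {g G : UnitAddCircle → ℝ} (hg : Measurable g) (hG : Measurable G) {C : ℝ}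
    (hgC : ∀ y, 0 ≤ g y ∧ g y ≤ C) (hGC : ∀ u, 0 ≤ G u ∧ G u ≤ C) {t : ℕ} (ht : 0 < t)
    (h : ∀ y, ∑ b ∈ tor t, g (y + b) ≤ G (t • y)) :
    ∫ y, g y ≤ 1 / t * ∫ u, G u := by
  classical
  have ht' : (0 : ℝ) < t := by exact_mod_cast ht
  have intb : ∀ {f : UnitAddCircle → ℝ}, Measurable f → (∀ y, 0 ≤ f y ∧ f y ≤ C) →
      Integrable f volume := by
    intro f hf hfC
    refine Integrable.of_bound hf.aestronglyMeasurable C (Filter.Eventually.of_forall fun y => ?_)
    rw [Real.norm_eq_abs, abs_of_nonneg (hfC y).1]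
    exact (hfC y).2
  have hgi : ∀ b : UnitAddCircle, Integrable (fun y => g (y + b)) volume := fun b =>
    intb (hg.comp (measurable_id.add_const b)) fun y => hgC _
  have h1 : ∑ b ∈ tor t, ∫ y, g (y + b) = t * ∫ y, g y := by
    have : ∀ b ∈ tor t, ∫ y, g (y + b) = ∫ y, g y := fun b _ =>
      integral_add_right_eq_self g b
    rw [Finset.sum_congr rfl this, Finset.sum_const, card_tor ht, nsmul_eq_mul]
  have h2 : ∫ y, ∑ b ∈ tor t, g (y + b) = t * ∫ y, g y := by
    rw [integral_finsetSum _ fun b _ => hgi b, h1]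
  have hmp := measurePreserving_smul ht
  have h3 : ∫ y : UnitAddCircle, G (t • y) = ∫ u, G u := by
    have h4 := integral_map (μ := (volume : Measure UnitAddCircle)) hmp.aemeasurable
      (f := G) hG.aestronglyMeasurable
    rw [hmp.map_eq] at h4
    exact h4.symm
  have h5 : t * ∫ y, g y ≤ ∫ u, G u := by
    rw [← h2, ← h3]
    refine integral_mono (integrable_finsetSum _ fun b _ => hgi b) ?_ h
    exact intb (hG.comp hmp.measurable) fun y => hGC _
  rw [one_div, ← div_eq_inv_mul, le_div_iff₀ ht']
  linarith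

end Pool.Agent.Helper5.LE
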