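import Pool.Agent.Helper5.LE.DF

/-!
# Block LE-D7: the small step inequality (abstract)

Let `ρ = vol R`, `Φ_t(y) = ∑_{f ∈ Fs} 1[y ∈ E t f] w f (t y) ≤ a(t y)`. Split according to `a(t y) < 2 a0` or not. The first part is `≤ 2 a0 |Ts| ρ`. Let `x = ∑_t ∫_R Φ_t(y) 1[2 a0 ≤ a(t y)] dy` be the second part. Cauchy-Schwarz (on the sum over `t` of the integrals over `R`): `x^2 ≤ |Ts| ρ ∑_t ∫_R Φ_t^2 1[2 a0 ≤ a(t y)]`. Expand `Φ_t^2 = ∑_{f, f1}`; the terms `f = f1`: `≤ W0 Φ_t`, in total `≤ W0 x`. The terms `f ≠ f1`: for each `t` let `g_t(y) = 1[2 a0 ≤ a(t y)] ∑_{f ≠ f1} 1[y ∈ E t f ∩ E t f1] w f (t y) w f1 (t y)` (drop `R`); as `t (y + b) = t y` for `b ∈ tor t`, `∑_{b ∈ tor t} g_t(y + b) ≤ G_t(t y)` with `G_t(u) = 1[2 a0 ≤ a u] ∑_{f ≠ f1} 1[t ∈ D f f1] w f u w f1 u` (`hpair`); `avg_le`: `∫ g_t ≤ (1/t) ∫ G_t ≤ (1/S0) ∫ G_t`; and `∑_t G_t(u) ≤ τ a(u)^2 1[2 a0 ≤ a u]` (`hD`, `hsum`).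
So `x^2 ≤ A x + B` with `A = |Ts| ρ W0`, `B = |Ts| ρ (τ / S0) ∫ ...`, hence `x ≤ A + √B`.
-/

set_option autoImplicit false

namespace Pool.Agent.Helper5.LE

open MeasureTheory Finset
open Pool.Agent.Helper25.MOB

private theorem int_of_bound38 {μ : Measure UnitAddCircle} [IsFiniteMeasure μ] {f : UnitAddCircle → ℝ}
    (hf : Measurable f) {C : ℝ} (h : ∀ y, 0 ≤ f y ∧ f y ≤ C) : Integrable f μ := by
  refine Integrable.of_bound hf.aestronglyMeasurable C (Filter.Eventually.of_forall fun y => ?_)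
  rw [Real.norm_of_nonneg (h y).1]
  exact (h y).2

private theorem cs38 {μ : Measure UnitAddCircle} [IsFiniteMeasure μ] {f : UnitAddCircle → ℝ}
    (hf : Measurable f) {C : ℝ} (h : ∀ y, 0 ≤ f y ∧ f y ≤ C) :
    (∫ y, f y ∂μ) ^ 2 ≤ μ.real Set.univ * ∫ y, (f y) ^ 2 ∂μ := by
  have hi : Integrable f μ := int_of_bound38 hf h
  have hi2 : Integrable (fun y => (f y) ^ 2) μ := by
    apply int_of_bound38 (hf.pow_const 2) (C := C ^ 2)
    intro y
    exact ⟨sq_nonneg _, pow_le_pow_left₀ (h y).1 (h y).2 2⟩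
  set X := ∫ y, f y ∂μ with hX
  set ρ := μ.real Set.univ with hρ
  have hρ0 : 0 ≤ ρ := measureReal_nonneg
  have h1 : 0 ≤ ∫ y, (ρ * f y - X) ^ 2 ∂μ := integral_nonneg fun y => sq_nonneg _
  have h2 : ∫ y, (ρ * f y - X) ^ 2 ∂μ = ρ * (ρ * ∫ y, (f y) ^ 2 ∂μ - X ^ 2) := by
    have h3 : ∀ y, (ρ * f y - X) ^ 2 = ρ ^ 2 * (f y) ^ 2 - 2 * ρ * X * f y + X ^ 2 := fun y => by ring
    have i1 : Integrable (fun y => ρ ^ 2 * (f y) ^ 2) μ := hi2.const_mul _
    have i2 : Integrable (fun y => 2 * ρ * X * f y) μ := hi.const_mul _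
    have i3 : Integrable (fun y => ρ ^ 2 * (f y) ^ 2 - 2 * ρ * X * f y) μ := i1.sub i2
    simp only [h3]
    rw [integral_add i3 (integrable_const _), integral_sub i1 i2, integral_const_mul,
      integral_const_mul, integral_const, ← hX, ← hρ, smul_eq_mul]
    ring
  rcases hρ0.eq_or_lt with h0 | h0
  · have h4 : μ = 0 := by
      rw [← Measure.measure_univ_eq_zero]
      rw [hρ, Measure.real, eq_comm, ENNReal.toReal_eq_zero_iff] at h0
      rcases h0 with h0 | h0
      · exact h0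
      · exact absurd h0 (measure_ne_top _ _)
    have h5 : X = 0 := by
      rw [hX, h4, integral_zero_measure]
    rw [h5, ← h0]
    simp
  · rw [h2] at h1
    have := nonneg_of_mul_nonneg_right h1 h0
    linarith

theorem small_step {Ts : Finset ℕ} {Fs : Finset UnitAddCircle}
    {w : UnitAddCircle → UnitAddCircle → ℝ} {a : UnitAddCircle → ℝ}
    {E : ℕ → UnitAddCircle → Set UnitAddCircle} {D : UnitAddCircle → UnitAddCircle → Finset ℕ}
    {S0 W0 a0 Ca : ℝ} {τ : ℕ} (hS0 : 0 < S0) (hT : ∀ t ∈ Ts, 0 < t ∧ S0 ≤ (t : ℝ))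
    (hw0 : ∀ f u, 0 ≤ w f u) (hwm : ∀ f, Measurable (w f)) (ham : Measurable a)
    (haC : ∀ u, a u ≤ Ca) (hE : ∀ t f, MeasurableSet (E t f))
    (hsum : ∀ u, ∑ f ∈ Fs, w f u ≤ a u) (hW0 : 0 ≤ W0) (hW : ∀ f ∈ Fs, ∀ u, w f u ≤ W0)
    (ha0 : 0 ≤ a0) (hD : ∀ f ∈ Fs, ∀ f1 ∈ Fs, f ≠ f1 → (D f f1).card ≤ τ)
    (hpair : ∀ t ∈ Ts, ∀ f ∈ Fs, ∀ f1 ∈ Fs, f ≠ f1 → ∀ y : UnitAddCircle,
      open scoped Classical in
      ((tor t).filter fun b => y + b ∈ E t f ∧ y + b ∈ E t f1).card ≤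
        (if t ∈ D f f1 then 1 else 0))
    {R : Set UnitAddCircle} (hR : MeasurableSet R) :
    open scoped Classical in
    ∑ t ∈ Ts, ∫ y in R, ∑ f ∈ Fs, (if y ∈ E t f then w f (t • y) else 0) ≤
      2 * a0 * Ts.card * volume.real R + Ts.card * volume.real R * W0 +
        √(Ts.card * volume.real R *
          (τ / S0 * ∫ u, (if 2 * a0 ≤ a u then (a u) ^ 2 else 0))) := by
  classical
  set ρ := volume.real R with hρ
  have hρ0 : 0 ≤ ρ := measureReal_nonneg
  have hρ' : (volume.restrict R).real Set.univ = ρ := measureReal_restrict_apply_univ R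
  have hsm : ∀ t : ℕ, Measurable fun y : UnitAddCircle => t • y := fun t =>
    (continuous_nsmul t).measurable
  have ha : ∀ u, 0 ≤ a u := fun u => (sum_nonneg fun f _ => hw0 f u).trans (hsum u)
  have hCa : 0 ≤ Ca := (ha 0).trans (haC 0)
  let c : ℕ → UnitAddCircle → UnitAddCircle → ℝ := fun t f y =>
    if y ∈ E t f then w f (t • y) else 0
  have hc : ∀ t f y, c t f y = if y ∈ E t f then w f (t • y) else 0 := fun _ _ _ => rfl
  have hc0 : ∀ t f y, 0 ≤ c t f y := by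
    intro t f y
    rw [hc]
    split_ifs
    · exact hw0 _ _
    · exact le_rfl
  have hcw : ∀ t f y, c t f y ≤ w f (t • y) := by
    intro t f y
    rw [hc]
    split_ifs
    · exact le_rfl
    · exact hw0 _ _
  have hcm : ∀ t f, Measurable (c t f) := fun t f =>
    Measurable.ite (hE t f) ((hwm f).comp (hsm t)) measurable_const
  let Φ : ℕ → UnitAddCircle → ℝ := fun t y => ∑ f ∈ Fs, c t f y
  have hΦm : ∀ t, Measurable (Φ t) := fun t => Finset.measurable_fun_sum _ fun f _ => hcm t f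
  have hΦ0 : ∀ t y, 0 ≤ Φ t y := fun t y => sum_nonneg fun f _ => hc0 t f y
  have hΦa : ∀ t y, Φ t y ≤ a (t • y) := fun t y =>
    (sum_le_sum fun f _ => hcw t f y).trans (hsum _)
  have hPm : MeasurableSet {u | 2 * a0 ≤ a u} := measurableSet_le measurable_const ham
  let Ψ : ℕ → UnitAddCircle → ℝ := fun t y => if 2 * a0 ≤ a (t • y) then Φ t y else 0
  have hΨ : ∀ t y, Ψ t y = if 2 * a0 ≤ a (t • y) then Φ t y else 0 := fun _ _ => rfl
  have hΨm : ∀ t, Measurable (Ψ t) := fun t =>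
    Measurable.ite ((hsm t) hPm) (hΦm t) measurable_const
  have hΨb : ∀ t y, 0 ≤ Ψ t y ∧ Ψ t y ≤ Ca := by
    intro t y
    rw [hΨ]
    split_ifs
    · exact ⟨hΦ0 t y, (hΦa t y).trans (haC _)⟩
    · exact ⟨le_rfl, hCa⟩
  let O : ℕ → UnitAddCircle → ℝ := fun t y =>
    if 2 * a0 ≤ a (t • y) then ∑ v ∈ Fs.offDiag, c t v.1 y * c t v.2 y else 0
  have hO : ∀ t y, O t y =
      if 2 * a0 ≤ a (t • y) then ∑ v ∈ Fs.offDiag, c t v.1 y * c t v.2 y else 0 := fun _ _ => rfl
  have hOm : ∀ t, Measurable (O t) := fun t =>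
    Measurable.ite ((hsm t) hPm) (Finset.measurable_fun_sum _ fun v _ =>
      (hcm t v.1).mul (hcm t v.2)) measurable_const
  -- squares
  have hsq : ∀ g : UnitAddCircle → ℝ, (∑ f ∈ Fs, g f) ^ 2 =
      ∑ f ∈ Fs, g f * g f + ∑ v ∈ Fs.offDiag, g v.1 * g v.2 := by
    intro g
    rw [sq, Finset.sum_mul_sum, ← Finset.sum_product', ← Finset.diag_union_offDiag,
      Finset.sum_union (Finset.disjoint_diag_offDiag _), Finset.sum_diag]
  have hoff : ∀ g : UnitAddCircle → ℝ, ∑ v ∈ Fs.offDiag, g v.1 * g v.2 ≤ (∑ f ∈ Fs, g f) ^ 2 := by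
    intro g
    rw [hsq]
    have := sum_nonneg (s := Fs) (f := fun f => g f * g f) fun f _ => mul_self_nonneg _
    linarith
  have hOb : ∀ t y, 0 ≤ O t y ∧ O t y ≤ Ca ^ 2 := by
    intro t y
    rw [hO]
    split_ifs
    · refine ⟨sum_nonneg fun v _ => mul_nonneg (hc0 _ _ _) (hc0 _ _ _), ?_⟩
      refine (hoff fun f => c t f y).trans ?_
      exact pow_le_pow_left₀ (hΦ0 t y) ((hΦa t y).trans (haC _)) 2
    · exact ⟨le_rfl, sq_nonneg _⟩
  let G : ℕ → UnitAddCircle → ℝ := fun t u =>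
    if 2 * a0 ≤ a u then ∑ v ∈ Fs.offDiag, (if t ∈ D v.1 v.2 then w v.1 u * w v.2 u else 0) else 0
  have hG : ∀ t u, G t u = if 2 * a0 ≤ a u then
      ∑ v ∈ Fs.offDiag, (if t ∈ D v.1 v.2 then w v.1 u * w v.2 u else 0) else 0 := fun _ _ => rfl
  have hGm : ∀ t, Measurable (G t) := fun t =>
    Measurable.ite hPm (Finset.measurable_fun_sum _ fun v _ =>
      Measurable.ite (MeasurableSet.const _) ((hwm v.1).mul (hwm v.2)) measurable_const)
      measurable_const
  have hww : ∀ (t : ℕ) (v : UnitAddCircle × UnitAddCircle) u,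
      0 ≤ (if t ∈ D v.1 v.2 then w v.1 u * w v.2 u else 0) ∧
      (if t ∈ D v.1 v.2 then w v.1 u * w v.2 u else 0) ≤ w v.1 u * w v.2 u := by
    intro t v u
    have := mul_nonneg (hw0 v.1 u) (hw0 v.2 u)
    split_ifs
    · exact ⟨this, le_rfl⟩
    · exact ⟨le_rfl, this⟩
  have hwsq : ∀ u, ∑ v ∈ Fs.offDiag, w v.1 u * w v.2 u ≤ (a u) ^ 2 := by
    intro u
    refine (hoff fun f => w f u).trans ?_
    exact pow_le_pow_left₀ (sum_nonneg fun f _ => hw0 f u) (hsum u) 2
  have hGb : ∀ t u, 0 ≤ G t u ∧ G t u ≤ Ca ^ 2 := by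
    intro t u
    rw [hG]
    split_ifs
    · refine ⟨sum_nonneg fun v _ => (hww t v u).1, ?_⟩
      refine (sum_le_sum fun v _ => (hww t v u).2).trans ((hwsq u).trans ?_)
      exact pow_le_pow_left₀ (ha u) (haC u) 2
    · exact ⟨le_rfl, sq_nonneg _⟩
  -- (1) the small part
  have h1 : ∀ t y, Φ t y ≤ 2 * a0 + Ψ t y := by
    intro t y
    rw [hΨ]
    split_ifs with h
    · linarith
    · linarith [hΦa t y]
  -- (2) the square
  have h2 : ∀ t y, (Ψ t y) ^ 2 ≤ W0 * Ψ t y + O t y := by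
    intro t y
    rw [hΨ, hO]
    split_ifs with h
    · have e1 : (Φ t y) ^ 2 = ∑ f ∈ Fs, c t f y * c t f y +
          ∑ v ∈ Fs.offDiag, c t v.1 y * c t v.2 y := hsq fun f => c t f y
      rw [e1]
      have e2 : ∑ f ∈ Fs, c t f y * c t f y ≤ W0 * Φ t y := by
        rw [mul_sum]
        refine sum_le_sum fun f hf => ?_
        exact mul_le_mul_of_nonneg_right ((hcw t f y).trans (hW f hf _)) (hc0 t f y)
      linarith
    · norm_num
  -- (3) the average of `O`
  have h3 : ∀ t ∈ Ts, ∀ y, ∑ b ∈ tor t, O t (y + b) ≤ G t (t • y) := by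
    intro t ht y
    have e0 : ∀ b ∈ tor t, t • (y + b) = t • y := by
      intro b hb
      have e1 : t • b = 0 := by
        unfold tor at hb
        have ht0 := (hT t ht).1
        rw [mem_pts (by simp), Nat.mem_divisors] at hb
        exact addOrderOf_dvd_iff_nsmul_eq_zero.1 hb.1
      rw [smul_add, e1, add_zero]
    have e2 : ∑ b ∈ tor t, O t (y + b) = ∑ b ∈ tor t, (if 2 * a0 ≤ a (t • y) then
        ∑ v ∈ Fs.offDiag, c t v.1 (y + b) * c t v.2 (y + b) else 0) := by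
      refine sum_congr rfl fun b hb => ?_
      rw [hO, e0 b hb]
    rw [e2, hG]
    by_cases hP : 2 * a0 ≤ a (t • y)
    · simp only [if_pos hP]
      rw [sum_comm]
      refine sum_le_sum fun v hv => ?_
      rw [mem_offDiag] at hv
      obtain ⟨hv1, hv2, hv3⟩ := hv
      have e3 : ∑ b ∈ tor t, c t v.1 (y + b) * c t v.2 (y + b) =
          (((tor t).filter fun b => y + b ∈ E t v.1 ∧ y + b ∈ E t v.2).card : ℝ) *
            (w v.1 (t • y) * w v.2 (t • y)) := by
        rw [card_filter, Nat.cast_sum, sum_mul]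
        refine sum_congr rfl fun b hb => ?_
        rw [hc, hc, e0 b hb]
        by_cases k1 : y + b ∈ E t v.1 <;> by_cases k2 : y + b ∈ E t v.2 <;> simp [k1, k2]
      rw [e3]
      have e4 := hpair t ht v.1 hv1 v.2 hv2 hv3 y
      have e5 : ((((tor t).filter fun b => y + b ∈ E t v.1 ∧ y + b ∈ E t v.2).card : ℕ) : ℝ) ≤
          (if t ∈ D v.1 v.2 then 1 else 0) := by
        by_cases k : t ∈ D v.1 v.2
        · rw [if_pos k] at e4 ⊢
          exact_mod_cast e4
        · rw [if_neg k] at e4 ⊢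
          exact_mod_cast e4
      refine (mul_le_mul_of_nonneg_right e5 (mul_nonneg (hw0 _ _) (hw0 _ _))).trans (le_of_eq ?_)
      split_ifs <;> simp
    · simp only [if_neg hP]
      simp
  have h4 : ∀ t ∈ Ts, ∫ y in R, O t y ≤ 1 / S0 * ∫ u, G t u := by
    intro t ht
    obtain ⟨ht0, htS⟩ := hT t ht
    have e1 : ∫ y in R, O t y ≤ ∫ y, O t y :=
      setIntegral_le_integral (int_of_bound38 (hOm t) (hOb t))
        (Filter.Eventually.of_forall fun y => (hOb t y).1)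
    have e2 : ∫ y, O t y ≤ 1 / t * ∫ u, G t u :=
      avg_le (hOm t) (hGm t) (hOb t) (hGb t) ht0 (h3 t ht)
    have e3 : 0 ≤ ∫ u, G t u := integral_nonneg fun u => (hGb t u).1
    have e4 : (1 : ℝ) / t ≤ 1 / S0 := one_div_le_one_div_of_le hS0 htS
    exact e1.trans (e2.trans (mul_le_mul_of_nonneg_right e4 e3))
  -- (4) the sum of the `G t`
  have h5 : ∀ u, ∑ t ∈ Ts, G t u ≤ τ * (if 2 * a0 ≤ a u then (a u) ^ 2 else 0) := by
    intro u
    by_cases hP : 2 * a0 ≤ a u
    · simp only [hG, if_pos hP]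
      rw [sum_comm]
      calc _ ≤ ∑ v ∈ Fs.offDiag, (τ : ℝ) * (w v.1 u * w v.2 u) := by
            refine sum_le_sum fun v hv => ?_
            rw [mem_offDiag] at hv
            obtain ⟨hv1, hv2, hv3⟩ := hv
            rw [← sum_filter, sum_const, nsmul_eq_mul]
            refine mul_le_mul_of_nonneg_right ?_ (mul_nonneg (hw0 _ _) (hw0 _ _))
            have e1 : (Ts.filter fun t => t ∈ D v.1 v.2).card ≤ τ := by
              refine le_trans (card_le_card ?_) (hD v.1 hv1 v.2 hv2 hv3)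
              intro t ht
              exact (mem_filter.1 ht).2
            exact_mod_cast e1
        _ = τ * ∑ v ∈ Fs.offDiag, w v.1 u * w v.2 u := by rw [mul_sum]
        _ ≤ τ * (a u) ^ 2 := mul_le_mul_of_nonneg_left (hwsq u) (Nat.cast_nonneg _)
    · simp only [hG, if_neg hP]
      simp
  set J := ∫ u, (if 2 * a0 ≤ a u then (a u) ^ 2 else 0) with hJ
  have hJint : Integrable (fun u => if 2 * a0 ≤ a u then (a u) ^ 2 else 0)
      (volume : Measure UnitAddCircle) := by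
    apply int_of_bound38 (Measurable.ite hPm (ham.pow_const 2) measurable_const) (C := Ca ^ 2)
    intro u
    split_ifs
    · exact ⟨sq_nonneg _, pow_le_pow_left₀ (ha u) (haC u) 2⟩
    · exact ⟨le_rfl, sq_nonneg _⟩
  have h6 : ∑ t ∈ Ts, ∫ y in R, O t y ≤ τ / S0 * J := by
    calc ∑ t ∈ Ts, ∫ y in R, O t y ≤ ∑ t ∈ Ts, 1 / S0 * ∫ u, G t u := sum_le_sum h4
      _ = 1 / S0 * ∫ u, ∑ t ∈ Ts, G t u := by
          rw [← mul_sum, integral_finsetSum _ fun t _ => int_of_bound38 (hGm t) (hGb t)]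
      _ ≤ 1 / S0 * ∫ u, τ * (if 2 * a0 ≤ a u then (a u) ^ 2 else 0) := by
          refine mul_le_mul_of_nonneg_left ?_ (by positivity)
          refine integral_mono ?_ (hJint.const_mul _) h5
          exact integrable_finsetSum _ fun t _ => int_of_bound38 (hGm t) (hGb t)
      _ = τ / S0 * J := by
          rw [integral_const_mul, ← hJ]
          ring
  -- the second part
  set x := ∑ t ∈ Ts, ∫ y in R, Ψ t y with hx
  have hx0 : 0 ≤ x := sum_nonneg fun t _ => integral_nonneg fun y => (hΨb t y).1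
  have hΨint : ∀ t, Integrable (Ψ t) (volume.restrict R) := fun t =>
    int_of_bound38 (hΨm t) (hΨb t)
  have h7 : x ^ 2 ≤ Ts.card * ρ * (W0 * x + τ / S0 * J) := by
    calc x ^ 2 ≤ Ts.card * ∑ t ∈ Ts, (∫ y in R, Ψ t y) ^ 2 := sq_sum_le_card_mul_sum_sq
      _ ≤ Ts.card * ∑ t ∈ Ts, (ρ * (W0 * (∫ y in R, Ψ t y) + ∫ y in R, O t y)) := by
          refine mul_le_mul_of_nonneg_left (sum_le_sum fun t _ => ?_) (Nat.cast_nonneg _)
          have e1 := cs38 (μ := volume.restrict R) (hΨm t) (hΨb t)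
          rw [hρ'] at e1
          refine e1.trans (mul_le_mul_of_nonneg_left ?_ hρ0)
          have e2 : ∫ y in R, (Ψ t y) ^ 2 ≤ ∫ y in R, (W0 * Ψ t y + O t y) := by
            refine integral_mono ?_ (((hΨint t).const_mul _).add
              (int_of_bound38 (hOm t) (hOb t))) (h2 t)
            apply int_of_bound38 ((hΨm t).pow_const 2) (C := Ca ^ 2)
            intro y
            exact ⟨sq_nonneg _, pow_le_pow_left₀ (hΨb t y).1 (hΨb t y).2 2⟩
          rw [integral_add ((hΨint t).const_mul _) (int_of_bound38 (hOm t) (hOb t)),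
            integral_const_mul] at e2
          exact e2
      _ = Ts.card * ρ * (W0 * x + ∑ t ∈ Ts, ∫ y in R, O t y) := by
          rw [← mul_sum, sum_add_distrib, ← mul_sum, ← hx]
          ring
      _ ≤ Ts.card * ρ * (W0 * x + τ / S0 * J) := by
          refine mul_le_mul_of_nonneg_left ?_ (by positivity)
          linarith
  have h8 : x ≤ Ts.card * ρ * W0 + √(Ts.card * ρ * (τ / S0 * J)) := by
    set A := Ts.card * ρ * W0 with hA
    set B := Ts.card * ρ * (τ / S0 * J) with hB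
    have hA0 : 0 ≤ A := by positivity
    have hJ0 : 0 ≤ J := by
      rw [hJ]
      refine integral_nonneg fun u => ?_
      show (0 : ℝ) ≤ if 2 * a0 ≤ a u then (a u) ^ 2 else 0
      split_ifs
      · exact sq_nonneg _
      · exact le_rfl
    have hB0 : 0 ≤ B := by positivity
    have e1 : x ^ 2 ≤ A * x + B := by
      rw [hA, hB]
      linarith
    by_contra hcon
    push Not at hcon
    have e2 : √B ≤ x := by
      have := Real.sqrt_nonneg B
      linarith
    have e3 : √B * √B = B := Real.mul_self_sqrt hB0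
    have e4 : 0 < x := by
      have := Real.sqrt_nonneg B
      linarith
    have e5 : (A + √B) * x < x * x := mul_lt_mul_of_pos_right hcon e4
    have e6 : √B * √B ≤ √B * x := mul_le_mul_of_nonneg_left e2 (Real.sqrt_nonneg B)
    nlinarith
  -- end
  calc ∑ t ∈ Ts, ∫ y in R, ∑ f ∈ Fs, (if y ∈ E t f then w f (t • y) else 0)
      = ∑ t ∈ Ts, ∫ y in R, Φ t y := rfl
    _ ≤ ∑ t ∈ Ts, (2 * a0 * ρ + ∫ y in R, Ψ t y) := by
        refine sum_le_sum fun t _ => ?_
        have e1 : ∫ y in R, Φ t y ≤ ∫ y in R, (2 * a0 + Ψ t y) := by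
          refine integral_mono ?_ ((integrable_const _).add (hΨint t)) (h1 t)
          exact int_of_bound38 (hΦm t) fun y => ⟨hΦ0 t y, (hΦa t y).trans (haC _)⟩
        rw [integral_add (integrable_const _) (hΨint t), integral_const, hρ', smul_eq_mul] at e1
        linarith
    _ = 2 * a0 * Ts.card * ρ + x := by
        rw [sum_add_distrib, sum_const, nsmul_eq_mul, ← hx]
        ring
    _ ≤ _ := by linarith

end Pool.Agent.Helper5.LE
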