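import Pool.Agent.Helper5.LE.FJ
import Pool.Agent.Helper5.LE.MS

/-!
# Block LE-N3: the square of the degree function (without its constant term)

`m = ⌊1/(8δ)⌋₊` as in block LE-N1. `deg A B δ R u ≤ 32 δ ∑_{P ∈ A, Q ∈ B} ∫_R Fe m (P y - Q u) dy = 32 δ (|A| |B| vol R + H(u))`, `H(u) = ∑_{0 < |n| < m} (1 - |n|/m) z_n ∑_{Q ∈ B} ex (-nQ) u`, `z_n = ∑_{P ∈ A} fc R (nP)`; `H` is real. If `deg ≥ 2 * 32 δ |A| |B| vol R` then `deg ≤ 2 (deg - 32 δ |A||B| vol R) ≤ 64 δ H(u)`, so the integrand is `≤ 4096 δ^2 H(u)^2`. Orthogonality of characters (`integral_ex`): `∫ |H|^2 = ∑_l |∑_{(n,Q): nQ = -l} (1 - |n|/m) z_n|^2 ≤ ∑_l τ ∑_{(n, Q): nQ = -l} |z_n|^2 = τ |B| ∑_{n ≠ 0} |z_n|^2` (at most `τ` pairs for each `l`, since `Q ∣ l`), and `∑_{n ≠ 0} |z_n|^2 ≤ |A| τ vol R` as in block LE-N1. Total `≤ 4096 δ^2 τ^2 |A| |B| vol R`.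
-/

set_option autoImplicit false

namespace Pool.Agent.Helper5.LE

open MeasureTheory Finset
open Pool.Agent.Helper25.MOB

open scoped ComplexConjugate

private theorem ex_neg_arg67 (n : ℤ) (z : UnitAddCircle) : ex n (-z) = ex (-n) z := by
  unfold ex
  rw [fourier_apply, fourier_apply, smul_neg, neg_smul]

private theorem ex_sub67 (n : ℤ) (P Q : ℕ) (y u : UnitAddCircle) :
    ex n (P • y - Q • u) = ex (n * P) y * ex (-n * Q) u := by
  rw [sub_eq_add_neg, ex_add_arg, ex_neg_arg67, ex_nsmul, ex_nsmul]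

private theorem integrable67 {f : UnitAddCircle → ℂ} (hf : Continuous f) : Integrable f volume :=
  hf.integrable_of_hasCompactSupport (HasCompactSupport.of_compactSpace f)

private theorem integrableR67 {f : UnitAddCircle → ℝ} (hf : Continuous f) : Integrable f volume :=
  hf.integrable_of_hasCompactSupport (HasCompactSupport.of_compactSpace f)

private theorem integral_sq67 (s : Finset ℤ) (a : ℤ → ℂ) :
    ∫ y : UnitAddCircle, ‖∑ n ∈ s, a n * ex n y‖ ^ 2 = ∑ n ∈ s, ‖a n‖ ^ 2 := by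
  have h1 : ∀ y : UnitAddCircle, ((‖∑ n ∈ s, a n * ex n y‖ ^ 2 : ℝ) : ℂ) =
      ∑ n ∈ s, ∑ m ∈ s, (a n * conj (a m)) * ex (n - m) y := by
    intro y
    have h2 : ((‖∑ n ∈ s, a n * ex n y‖ ^ 2 : ℝ) : ℂ) =
        (∑ n ∈ s, a n * ex n y) * conj (∑ n ∈ s, a n * ex n y) := by
      rw [RCLike.mul_conj]
      push_cast
      rfl
    rw [h2, map_sum, Finset.sum_mul_sum]
    refine Finset.sum_congr rfl fun n _ => Finset.sum_congr rfl fun m _ => ?_
    rw [map_mul, conj_ex, sub_eq_add_neg, ex_add]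
    ring
  have hc : ∀ n m : ℤ, Continuous fun y : UnitAddCircle =>
      (a n * conj (a m)) * ex (n - m) y := fun n m =>
    continuous_const.mul (continuous_ex _)
  have h3 : ((∫ y : UnitAddCircle, ‖∑ n ∈ s, a n * ex n y‖ ^ 2 : ℝ) : ℂ) =
      ∑ n ∈ s, ((‖a n‖ ^ 2 : ℝ) : ℂ) := by
    rw [← integral_complex_ofReal]
    simp_rw [h1]
    rw [integral_finsetSum _ fun n _ => integrable67 (continuous_finsetSum _ fun m _ => hc n m)]
    refine Finset.sum_congr rfl fun n hn => ?_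
    rw [integral_finsetSum _ fun m _ => integrable67 (hc n m)]
    have h4 : ∀ m ∈ s, (∫ y : UnitAddCircle, (a n * conj (a m)) * ex (n - m) y) =
        if m = n then a n * conj (a n) else 0 := by
      intro m _
      rw [integral_const_mul, integral_ex]
      by_cases h : m = n
      · subst h
        simp
      · rw [if_neg h, if_neg (by omega), mul_zero]
    rw [Finset.sum_congr rfl h4, Finset.sum_ite_eq' s n, if_pos hn, RCLike.mul_conj]
    push_cast
    rfl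
  rw [← Complex.ofReal_sum] at h3
  exact_mod_cast h3

private theorem norm_sum_sq67 {ι : Type*} (s : Finset ι) (f : ι → ℂ) :
    ‖∑ i ∈ s, f i‖ ^ 2 ≤ s.card * ∑ i ∈ s, ‖f i‖ ^ 2 := by
  calc ‖∑ i ∈ s, f i‖ ^ 2 ≤ (∑ i ∈ s, ‖f i‖) ^ 2 := by
        gcongr
        exact norm_sum_le _ _
    _ ≤ s.card * ∑ i ∈ s, ‖f i‖ ^ 2 := sq_sum_le_card_mul_sum_sq

private theorem fib_integral67 {ι : Type*} [DecidableEq ι] (W : Finset ι) (φ : ι → ℤ) (a : ι → ℂ)
    {τ : ℕ} (hτ : ∀ l, (W.filter fun w => φ w = l).card ≤ τ) :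
    ∫ u : UnitAddCircle, ‖∑ w ∈ W, a w * ex (φ w) u‖ ^ 2 ≤ τ * ∑ w ∈ W, ‖a w‖ ^ 2 := by
  have h1 : ∀ u : UnitAddCircle, ∑ w ∈ W, a w * ex (φ w) u =
      ∑ l ∈ W.image φ, (∑ w ∈ W.filter (fun w => φ w = l), a w) * ex l u := by
    intro u
    rw [← Finset.sum_fiberwise_of_maps_to (g := φ) (t := W.image φ)
      (fun w hw => Finset.mem_image_of_mem φ hw)]
    refine Finset.sum_congr rfl fun l _ => ?_
    rw [Finset.sum_mul]
    refine Finset.sum_congr rfl fun w hw => ?_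
    rw [(Finset.mem_filter.mp hw).2]
  simp_rw [h1]
  rw [integral_sq67 (W.image φ) (fun l => ∑ w ∈ W.filter (fun w => φ w = l), a w)]
  rw [← Finset.sum_fiberwise_of_maps_to (g := φ) (t := W.image φ)
      (fun w hw => Finset.mem_image_of_mem φ hw) (f := fun w => ‖a w‖ ^ 2), Finset.mul_sum]
  refine Finset.sum_le_sum fun l _ => ?_
  refine (norm_sum_sq67 _ _).trans ?_
  have h2 : (((W.filter fun w => φ w = l).card : ℕ) : ℝ) ≤ τ := by exact_mod_cast hτ l
  exact mul_le_mul_of_nonneg_right h2 (Finset.sum_nonneg fun w _ => by positivity)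

private theorem fib_sum67 {ι : Type*} [DecidableEq ι] (W : Finset ι) (φ : ι → ℤ) (g : ℤ → ℝ)
    (hg : ∀ l, 0 ≤ g l)
    {τ : ℕ} (hτ : ∀ l, (W.filter fun w => φ w = l).card ≤ τ) :
    ∑ w ∈ W, g (φ w) ≤ τ * ∑ l ∈ W.image φ, g l := by
  rw [← Finset.sum_fiberwise_of_maps_to (g := φ) (t := W.image φ)
      (fun w hw => Finset.mem_image_of_mem φ hw), Finset.mul_sum]
  refine Finset.sum_le_sum fun l _ => ?_
  have h1 : ∑ w ∈ W.filter (fun w => φ w = l), g (φ w) =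
      ((W.filter fun w => φ w = l).card : ℝ) * g l := by
    rw [Finset.sum_congr rfl (fun w hw => by rw [(Finset.mem_filter.mp hw).2]),
      Finset.sum_const, nsmul_eq_mul]
  rw [h1]
  have h2 : (((W.filter fun w => φ w = l).card : ℕ) : ℝ) ≤ τ := by exact_mod_cast hτ l
  exact mul_le_mul_of_nonneg_right h2 (hg l)

private theorem fib_card67 {B : Finset ℕ} {X0 Nb : ℝ} {τ m : ℕ}
    (hB : ∀ P ∈ B, 0 < P ∧ (P : ℝ) ≤ X0) (hτB : DivB τ Nb B) (hm : (m : ℝ) * X0 ≤ Nb) (l : ℤ) :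
    ((((Ioo (-(m : ℤ)) m).erase 0) ×ˢ B).filter fun w => w.1 * (w.2 : ℤ) = l).card ≤ τ := by
  classical
  rcases Finset.eq_empty_or_nonempty
    ((((Ioo (-(m : ℤ)) m).erase 0) ×ˢ B).filter fun w => w.1 * (w.2 : ℤ) = l) with h0 | ⟨w0, hw0⟩
  · rw [h0]
    simp
  · rw [Finset.mem_filter, Finset.mem_product, Finset.mem_erase, Finset.mem_Ioo] at hw0
    obtain ⟨⟨⟨hn0, hn1, hn2⟩, hQ⟩, hl⟩ := hw0
    have hQ0 := (hB _ hQ).1
    have hl0 : l ≠ 0 := by
      rw [← hl]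
      exact mul_ne_zero hn0 (by exact_mod_cast hQ0.ne')
    have hlN : ((l.natAbs : ℕ) : ℝ) ≤ Nb := by
      rw [← hl, Int.natAbs_mul, Int.natAbs_natCast]
      push_cast
      have h1 : ((w0.1.natAbs : ℕ) : ℝ) ≤ m := by
        have : w0.1.natAbs ≤ m := by omega
        exact_mod_cast this
      calc ((w0.1.natAbs : ℕ) : ℝ) * (w0.2 : ℝ) ≤ m * X0 :=
            mul_le_mul h1 (hB _ hQ).2 (by positivity) (by positivity)
        _ ≤ Nb := hm
    refine le_trans ?_ (hτB l.natAbs (Int.natAbs_pos.mpr hl0) hlN)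
    refine Finset.card_le_card_of_injOn (fun w => w.2) ?_ ?_
    · intro w hw
      rw [Finset.mem_coe, Finset.mem_filter, Finset.mem_product] at hw
      rw [Finset.mem_coe, Finset.mem_filter]
      refine ⟨hw.1.2, ?_⟩
      rw [← hw.2, Int.natAbs_mul, Int.natAbs_natCast]
      exact Dvd.intro_left _ rfl
    · intro w hw w' hw' hww
      rw [Finset.mem_coe, Finset.mem_filter, Finset.mem_product] at hw hw'
      have h2 : w.2 = w'.2 := hww
      have h3 : w.1 * (w.2 : ℤ) = w'.1 * (w.2 : ℤ) := by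
        rw [hw.2, h2, hw'.2]
      have h4 : (w.2 : ℤ) ≠ 0 := by
        exact_mod_cast (hB _ hw.1.2).1.ne'
      exact Prod.ext (mul_right_cancel₀ h4 h3) h2

private theorem m_facts67 {δ : ℝ} (hδ : 0 < δ) (hδ1 : δ ≤ 1 / 16) :
    1 ≤ ⌊1 / (8 * δ)⌋₊ ∧ (⌊1 / (8 * δ)⌋₊ : ℝ) ≤ 1 / (8 * δ) ∧
      1 / (16 * δ) ≤ (⌊1 / (8 * δ)⌋₊ : ℝ) := by
  have h1 : (2 : ℝ) ≤ 1 / (8 * δ) := by
    rw [le_div_iff₀ (by positivity)]
    linarith
  have h2 : (⌊1 / (8 * δ)⌋₊ : ℝ) ≤ 1 / (8 * δ) := Nat.floor_le (by positivity)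
  have h3 : 1 / (8 * δ) < (⌊1 / (8 * δ)⌋₊ : ℝ) + 1 := Nat.lt_floor_add_one _
  have h4 : 1 / (16 * δ) = (1 / (8 * δ)) / 2 := by
    field_simp
    ring
  refine ⟨?_, h2, ?_⟩
  · rw [Nat.one_le_floor_iff]
    linarith
  · rw [h4]
    linarith

private theorem ind67 {δ : ℝ} (hδ : 0 < δ) (hδ1 : δ ≤ 1 / 16) (x : UnitAddCircle) :
    (if ‖x‖ ≤ δ then (1 : ℝ) else 0) ≤ 32 * δ * Fe ⌊1 / (8 * δ)⌋₊ x := by
  obtain ⟨h1, h2, h3⟩ := m_facts67 hδ hδ1
  split_ifs with hx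
  · have hm0 : (0 : ℝ) < ⌊1 / (8 * δ)⌋₊ := by exact_mod_cast h1
    have h4 : ‖x‖ ≤ 1 / (8 * (⌊1 / (8 * δ)⌋₊ : ℝ)) := by
      refine hx.trans ?_
      rw [le_div_iff₀ (by positivity)]
      rw [le_div_iff₀ (by positivity)] at h2
      linarith
    have h5 := Fe_ge h1 h4
    have h6 : 1 / (32 * δ) ≤ Fe ⌊1 / (8 * δ)⌋₊ x := by
      refine le_trans ?_ h5
      have h7 : 1 / (32 * δ) = (1 / (16 * δ)) / 2 := by
        field_simp
        ring
      rw [h7]
      linarith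
    rw [div_le_iff₀ (by positivity)] at h6
    linarith
  · exact mul_nonneg (by positivity) (Fe_nonneg _ _)

/-- The part of the expansion with `n ≠ 0`. -/
private noncomputable def HH67 (A B : Finset ℕ) (m : ℕ) (R : Set UnitAddCircle)
    (u : UnitAddCircle) : ℂ :=
  ∑ w ∈ ((Ioo (-(m : ℤ)) m).erase 0) ×ˢ B,
    (((1 - |(w.1 : ℝ)| / m : ℝ) : ℂ) * ∑ P ∈ A, fc R (w.1 * P)) * ex (-w.1 * w.2) u

private theorem continuous_HH67 (A B : Finset ℕ) (m : ℕ) (R : Set UnitAddCircle) :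
    Continuous (HH67 A B m R) := by
  unfold HH67
  exact continuous_finsetSum _ fun w _ => continuous_const.mul (continuous_ex _)

private theorem fc_zero67 (R : Set UnitAddCircle) : fc R 0 = ((volume.real R : ℝ) : ℂ) := by
  unfold fc
  simp_rw [ex_zero]
  rw [setIntegral_const]
  simp

private theorem expand67 (A B : Finset ℕ) {m : ℕ} (hm : 1 ≤ m) (R : Set UnitAddCircle)
    (u : UnitAddCircle) :
    ((∑ v ∈ A ×ˢ B, ∫ y in R, Fe m (v.1 • y - v.2 • u) : ℝ) : ℂ) =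
      ((A.card * B.card * volume.real R : ℝ) : ℂ) + HH67 A B m R u := by
  have h1 : ∀ v ∈ A ×ˢ B, ((∫ y in R, Fe m (v.1 • y - v.2 • u) : ℝ) : ℂ) =
      ∑ n ∈ Ioo (-(m : ℤ)) m, ((1 - |(n : ℝ)| / m : ℝ) : ℂ) * (fc R (n * v.1) * ex (-n * v.2) u) := by
    intro v _
    rw [← integral_complex_ofReal]
    have h2 : ∀ y : UnitAddCircle, ((Fe m (v.1 • y - v.2 • u) : ℝ) : ℂ) =
        ∑ n ∈ Ioo (-(m : ℤ)) m, ((1 - |(n : ℝ)| / m : ℝ) : ℂ) * (ex (n * v.1) y * ex (-n * v.2) u) := by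
      intro y
      rw [Fe_expand hm]
      exact Finset.sum_congr rfl fun n _ => by rw [ex_sub67]
    simp_rw [h2]
    have hcn : ∀ n : ℤ, Continuous fun y : UnitAddCircle =>
        ((1 - |(n : ℝ)| / m : ℝ) : ℂ) * (ex (n * v.1) y * ex (-n * v.2) u) := fun n =>
      continuous_const.mul ((continuous_ex _).mul continuous_const)
    rw [integral_finsetSum _ fun n _ => (integrable67 (hcn n)).integrableOn]
    refine Finset.sum_congr rfl fun n _ => ?_
    rw [integral_const_mul, integral_mul_const]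
    rfl
  push_cast
  rw [Finset.sum_congr rfl h1, Finset.sum_comm]
  have h0 : (0 : ℤ) ∈ Ioo (-(m : ℤ)) m := by
    rw [Finset.mem_Ioo]
    omega
  rw [← Finset.add_sum_erase _ _ h0]
  congr 1
  · simp only [Int.cast_zero, abs_zero, zero_div, sub_zero, Complex.ofReal_one, one_mul, zero_mul,
      neg_zero, ex_zero, fc_zero67, mul_one, Finset.sum_const, Finset.card_product, nsmul_eq_mul]
    push_cast
    ring
  · unfold HH67
    rw [Finset.sum_product]
    refine Finset.sum_congr rfl fun n _ => ?_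
    rw [Finset.sum_product_right]
    refine Finset.sum_congr rfl fun Q _ => ?_
    rw [Finset.mul_sum, Finset.sum_mul]
    refine Finset.sum_congr rfl fun P _ => ?_
    ring

private theorem deg_le67 (A B : Finset ℕ) {δ : ℝ} (hδ : 0 < δ) (hδ1 : δ ≤ 1 / 16)
    (R : Set UnitAddCircle) (u : UnitAddCircle) :
    deg A B δ R u ≤ 32 * δ * ∑ v ∈ A ×ˢ B, ∫ y in R, Fe ⌊1 / (8 * δ)⌋₊ (v.1 • y - v.2 • u) := by
  have hcont : ∀ v : ℕ × ℕ, Continuous fun y : UnitAddCircle =>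
      Fe ⌊1 / (8 * δ)⌋₊ (v.1 • y - v.2 • u) := fun v =>
    (continuous_Fe _).comp ((continuous_nsmul _).sub continuous_const)
  rw [← integral_finsetSum _ fun v _ => (integrableR67 (hcont v)).integrableOn,
    ← integral_const_mul]
  unfold deg
  refine integral_mono_of_nonneg (Filter.Eventually.of_forall fun y => by positivity)
    ((integrableR67 (continuous_const.mul (continuous_finsetSum _ fun v _ => hcont v))).integrableOn)
    (Filter.Eventually.of_forall fun y => ?_)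
  simp only
  unfold lab
  rw [Finset.card_filter]
  push_cast
  rw [Finset.mul_sum]
  refine Finset.sum_le_sum fun v _ => ?_
  exact ind67 hδ hδ1 _

theorem deg_sq {A B : Finset ℕ} {δ X0 Nb : ℝ} {τ : ℕ} (hA : ∀ P ∈ A, 0 < P ∧ (P : ℝ) ≤ X0)
    (hB : ∀ P ∈ B, 0 < P ∧ (P : ℝ) ≤ X0) (hδ : 0 < δ) (hδ1 : δ ≤ 1 / 16) (hX : X0 ≤ δ * Nb)
    (hτA : DivB τ Nb A) (hτB : DivB τ Nb B) {R : Set UnitAddCircle} (hR : MeasurableSet R) :
    ∫ u, (if 64 * δ * (A.card * B.card * volume.real R) ≤ deg A B δ R u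
      then (deg A B δ R u) ^ 2 else 0) ≤
      4096 * δ ^ 2 * (τ : ℝ) ^ 2 * (A.card * B.card * volume.real R) := by
  classical
  obtain ⟨hm1, hm2, hm3⟩ := m_facts67 hδ hδ1
  obtain ⟨m, hm⟩ : ∃ m : ℕ, m = ⌊1 / (8 * δ)⌋₊ := ⟨_, rfl⟩
  rw [← hm] at hm1 hm2 hm3
  have hvol : 0 ≤ volume.real R := measureReal_nonneg
  -- the divisor bounds
  have hmX : ∀ C : Finset ℕ, (∀ P ∈ C, 0 < P ∧ (P : ℝ) ≤ X0) → C.Nonempty → (m : ℝ) * X0 ≤ Nb := by
    rintro C hC ⟨P, hP⟩
    have hX0 : 0 ≤ X0 := by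
      have := (hC P hP).2
      have h2 : (0 : ℝ) ≤ P := by positivity
      linarith
    calc (m : ℝ) * X0 ≤ 1 / (8 * δ) * (δ * Nb) := mul_le_mul hm2 hX hX0 (by positivity)
      _ = Nb / 8 := by field_simp
      _ ≤ Nb := by
        have : 0 ≤ Nb := by
          by_contra hneg
          push Not at hneg
          have := mul_neg_of_pos_of_neg hδ hneg
          linarith
        linarith
  have hfib : ∀ C : Finset ℕ, (∀ P ∈ C, 0 < P ∧ (P : ℝ) ≤ X0) → DivB τ Nb C → ∀ l : ℤ,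
      ((((Ioo (-(m : ℤ)) m).erase 0) ×ˢ C).filter fun w => w.1 * (w.2 : ℤ) = l).card ≤ τ := by
    intro C hC hτC l
    rcases C.eq_empty_or_nonempty with rfl | hne
    · simp
    · exact fib_card67 hC hτC (hmX C hC hne) l
  -- the coefficients
  have hcoef : ∀ n ∈ (Ioo (-(m : ℤ)) m).erase 0, ‖((1 - |(n : ℝ)| / m : ℝ) : ℂ)‖ ≤ 1 := by
    intro n hn
    rw [Finset.mem_erase, Finset.mem_Ioo] at hn
    have hm0 : (0 : ℝ) < m := by exact_mod_cast hm1
    have h1 : |(n : ℝ)| ≤ m := by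
      rw [abs_le]
      constructor
      · have : -(m : ℤ) ≤ n := by omega
        exact_mod_cast this
      · have : n ≤ (m : ℤ) := by omega
        exact_mod_cast this
    have h2 : |(n : ℝ)| / m ≤ 1 := by
      rw [div_le_one hm0]
      exact h1
    have h3 : 0 ≤ |(n : ℝ)| / m := by positivity
    rw [Complex.norm_real, Real.norm_eq_abs, abs_le]
    constructor <;> linarith
  -- the mean square of `H`
  have hH : ∫ u, ‖HH67 A B m R u‖ ^ 2 ≤ (τ : ℝ) ^ 2 * (A.card * B.card * volume.real R) := by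
    have h1 := fib_integral67 (((Ioo (-(m : ℤ)) m).erase 0) ×ˢ B) (fun w => -w.1 * (w.2 : ℤ))
      (fun w => ((1 - |(w.1 : ℝ)| / m : ℝ) : ℂ) * ∑ P ∈ A, fc R (w.1 * P)) (τ := τ) (by
        intro l
        have h2 := hfib B hB hτB (-l)
        refine le_trans (le_of_eq ?_) h2
        congr 1
        refine Finset.filter_congr fun w _ => ?_
        constructor
        · intro h
          rw [← h]
          ring
        · intro h
          rw [neg_mul, h, neg_neg])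
    refine h1.trans ?_
    have h2 : ∑ w ∈ ((Ioo (-(m : ℤ)) m).erase 0) ×ˢ B,
        ‖((1 - |(w.1 : ℝ)| / m : ℝ) : ℂ) * ∑ P ∈ A, fc R (w.1 * P)‖ ^ 2 ≤
        B.card * ∑ n ∈ (Ioo (-(m : ℤ)) m).erase 0, ‖∑ P ∈ A, fc R (n * P)‖ ^ 2 := by
      rw [Finset.sum_product, Finset.mul_sum]
      refine Finset.sum_le_sum fun n hn => ?_
      simp only
      rw [Finset.sum_const, nsmul_eq_mul, norm_mul, mul_pow]
      refine mul_le_mul_of_nonneg_left ?_ (by positivity)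
      have h3 := hcoef n hn
      have h4 : ‖((1 - |(n : ℝ)| / m : ℝ) : ℂ)‖ ^ 2 ≤ 1 := by
        have h5 := norm_nonneg ((1 - |(n : ℝ)| / m : ℝ) : ℂ)
        nlinarith
      calc ‖((1 - |(n : ℝ)| / m : ℝ) : ℂ)‖ ^ 2 * ‖∑ P ∈ A, fc R (n * P)‖ ^ 2
          ≤ 1 * ‖∑ P ∈ A, fc R (n * P)‖ ^ 2 := mul_le_mul_of_nonneg_right h4 (by positivity)
        _ = _ := one_mul _
    have h3 : ∑ n ∈ (Ioo (-(m : ℤ)) m).erase 0, ‖∑ P ∈ A, fc R (n * P)‖ ^ 2 ≤
        A.card * (τ * volume.real R) := by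
      have h4 : ∑ n ∈ (Ioo (-(m : ℤ)) m).erase 0, ‖∑ P ∈ A, fc R (n * P)‖ ^ 2 ≤
          A.card * ∑ w ∈ ((Ioo (-(m : ℤ)) m).erase 0) ×ˢ A, ‖fc R (w.1 * (w.2 : ℤ))‖ ^ 2 := by
        rw [Finset.sum_product, Finset.mul_sum]
        exact Finset.sum_le_sum fun n _ => norm_sum_sq67 A fun P => fc R (n * P)
      refine h4.trans (mul_le_mul_of_nonneg_left ?_ (by positivity))
      have h5 := fib_sum67 (((Ioo (-(m : ℤ)) m).erase 0) ×ˢ A) (fun w => w.1 * (w.2 : ℤ))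
        (fun l => ‖fc R l‖ ^ 2) (fun l => by positivity) (hfib A hA hτA)
      refine h5.trans (mul_le_mul_of_nonneg_left (fc_bessel hR _) (by positivity))
    calc (τ : ℝ) * ∑ w ∈ ((Ioo (-(m : ℤ)) m).erase 0) ×ˢ B,
          ‖((1 - |(w.1 : ℝ)| / m : ℝ) : ℂ) * ∑ P ∈ A, fc R (w.1 * P)‖ ^ 2
        ≤ τ * (B.card * (A.card * (τ * volume.real R))) := by
          refine mul_le_mul_of_nonneg_left (h2.trans ?_) (by positivity)
          exact mul_le_mul_of_nonneg_left h3 (by positivity)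
      _ = (τ : ℝ) ^ 2 * (A.card * B.card * volume.real R) := by ring
  -- the pointwise bound
  have hpt : ∀ u, (if 64 * δ * (A.card * B.card * volume.real R) ≤ deg A B δ R u
      then (deg A B δ R u) ^ 2 else 0) ≤ 4096 * δ ^ 2 * ‖HH67 A B m R u‖ ^ 2 := by
    intro u
    split_ifs with h
    · have h1 := deg_le67 A B hδ hδ1 R u
      rw [← hm] at h1
      have h2 := expand67 A B hm1 R u
      obtain ⟨Sg, hSg⟩ : ∃ t : ℝ, t = ∑ v ∈ A ×ˢ B, ∫ y in R, Fe m (v.1 • y - v.2 • u) := ⟨_, rfl⟩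
      rw [← hSg] at h1 h2
      obtain ⟨c, hc⟩ : ∃ t : ℝ, t = A.card * B.card * volume.real R := ⟨_, rfl⟩
      rw [← hc] at h h2
      have h3 : HH67 A B m R u = ((Sg - c : ℝ) : ℂ) := by
        push_cast
        rw [h2]
        ring
      have h4 : ‖HH67 A B m R u‖ ^ 2 = (Sg - c) ^ 2 := by
        rw [h3, Complex.norm_real, Real.norm_eq_abs, sq_abs]
      rw [h4]
      have hc0 : 0 ≤ c := by
        rw [hc]
        positivity
      have h5 : 64 * δ * c ≤ 32 * δ * Sg := h.trans h1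
      have h6 : 2 * c ≤ Sg := by
        have h7 : 0 ≤ 32 * δ * (Sg - 2 * c) := by linarith
        have h8 : 0 ≤ Sg - 2 * c := by
          by_contra hneg
          push Not at hneg
          have := mul_neg_of_pos_of_neg (by positivity : (0 : ℝ) < 32 * δ) hneg
          linarith
        linarith
      have h9 : deg A B δ R u ≤ 64 * δ * (Sg - c) := by
        refine h1.trans ?_
        have : 0 ≤ 32 * δ * (Sg - 2 * c) := mul_nonneg (by positivity) (by linarith)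
        linarith
      have h10 : 0 ≤ deg A B δ R u := le_trans (by positivity) h
      calc (deg A B δ R u) ^ 2 ≤ (64 * δ * (Sg - c)) ^ 2 := pow_le_pow_left₀ h10 h9 2
        _ = 4096 * δ ^ 2 * (Sg - c) ^ 2 := by ring
    · positivity
  calc ∫ u, (if 64 * δ * (A.card * B.card * volume.real R) ≤ deg A B δ R u
        then (deg A B δ R u) ^ 2 else 0)
      ≤ ∫ u, 4096 * δ ^ 2 * ‖HH67 A B m R u‖ ^ 2 := by
        refine integral_mono_of_nonneg (Filter.Eventually.of_forall fun u => ?_)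
          (integrableR67 (continuous_const.mul ((continuous_HH67 A B m R).norm.pow 2)))
          (Filter.Eventually.of_forall hpt)
        simp only [Pi.zero_apply]
        split_ifs <;> positivity
    _ = 4096 * δ ^ 2 * ∫ u, ‖HH67 A B m R u‖ ^ 2 := by rw [integral_const_mul]
    _ ≤ 4096 * δ ^ 2 * ((τ : ℝ) ^ 2 * (A.card * B.card * volume.real R)) :=
        mul_le_mul_of_nonneg_left hH (by positivity)
    _ = 4096 * δ ^ 2 * (τ : ℝ) ^ 2 * (A.card * B.card * volume.real R) := by ring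

end Pool.Agent.Helper5.LE
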