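import Pool.Agent.Helper5.LE.DA
import Pool.Agent.Helper5.LE.DB
import Pool.Agent.Helper5.LE.DD
import Pool.Agent.Helper5.LE.DG
import Pool.Agent.Helper5.LE.NC

/-!
# Block LE-D8: the bound for one type

If `W < 2^j r` then no `adm` holds (`a b g ≥ 1`), `nt = 0`, done. Else choose `i ∈ range k`, `i ∉ Ib` (`Ib ⊆ range k`, `Ib ≠ range k`). Let `A = PP S (range k)`, `B = PP S ((range k).erase i)`, `δ = r S^k`, `c = cc k`, `ρ = vol R0`.
`nt_le` and Fubini (everything measurable and bounded: `measurable_nt`, `measurable_wt`, `wt_bounds`, `measurable_EE`, `measurePreserving_smul`): `∫_{R0} ∫_{R0} nt ≤ ∑_{t ∈ win S i} ∫_{y' ∈ R0} ∑_{f ∈ Fr} 1[y' ∈ EE k j r t f] w f (t y')` with `w f u = ∫_{y ∈ R0} wt S k i j Ia Ib r W f y u dy`.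
Apply `small_step` with `Ts = win S i`, `Fs = Fr r W`, `a = deg A B δ R0` (`wt_sum_le` integrated over `y ∈ R0`), `E = EE k j r`, `D f f1 =` the filter of `EE_card`, `S0 = S` (`t ≥ 2^i S ≥ S`), `W0 = 6 τ c^5 κ' S^(2k-1) r` (`w_le`), `a0 = 32 δ |A| |B| ρ`; `hpair` follows from `EE_tor` (and the card is `0` if `t ∉ D f f1`). `deg_sq` (`X0 = c S^k ≤ δ Nb` by `hNb1`; `hdiv`) bounds the last integral by `4096 δ^2 τ^2 |A| |B| ρ`.
With `|A| ≤ c S^k`, `|B| ≤ c S^(k-1)`, `|win S i| ≤ c S` (`PP_card_le`, `PP_singleton`): the three terms are `≤ 64 r S^k c^3 S^(2k) ρ^2`, `≤ 6 τ c^6 κ' r S^(2k) ρ`, `≤ √(c S ρ (τ/S) 4096 r^2 S^(2k) τ^2 c^2 S^(2k-1) ρ) ≤ 64 c^2 τ^2 r S^(2k) ρ / √S`.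
-/

set_option autoImplicit false

namespace Pool.Agent.Helper5.LE

open MeasureTheory Finset
open Pool.Agent.Helper25.MOB

private theorem fub82 {S k i j : ℕ} {Ia Ib : Finset ℕ} {r W : ℝ} (hS : 1 ≤ S) (hr : 0 < r)
    (hi : i ∈ range k) (hib : i ∉ Ib) (R0 : Set UnitAddCircle) :
    open scoped Classical in
    ∫ y in R0, ∫ y' in R0, nt S k j Ia Ib r W y y' ≤
      ∑ t ∈ win S i, ∫ y' in R0, ∑ f ∈ Fr r W,
        (if y' ∈ EE k j r t f then ∫ y in R0, wt S k i j Ia Ib r W f y (t • y') else 0) := by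
  classical
  have hm : ∀ (t : ℕ) (f : UnitAddCircle), Measurable fun p : UnitAddCircle × UnitAddCircle =>
      (if p.2 ∈ EE k j r t f then wt S k i j Ia Ib r W f p.1 (t • p.2) else 0) := by
    intro t f
    refine Measurable.ite (measurable_snd (measurable_EE k j r t f)) ?_ measurable_const
    exact (measurable_wt S k i j Ia Ib r W f).comp
      (measurable_fst.prodMk ((continuous_nsmul t).measurable.comp measurable_snd))
  obtain ⟨C, hC⟩ : ∃ C : ℝ, C = (PP S (range k)).card * (PP S ((range k).erase i)).card *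
      (Fr r W).card := ⟨_, rfl⟩
  have hC0 : 0 ≤ C := by
    rw [hC]
    positivity
  have hb : ∀ (t : ℕ) (f : UnitAddCircle) (p : UnitAddCircle × UnitAddCircle),
      ‖(if p.2 ∈ EE k j r t f then wt S k i j Ia Ib r W f p.1 (t • p.2) else 0)‖ ≤ C := by
    intro t f p
    split_ifs with h
    · have h1 := wt_bounds S k i j Ia Ib r W f p.1 (t • p.2)
      rw [Real.norm_of_nonneg h1.1, hC]
      exact h1.2
    · rw [norm_zero]
      exact hC0
  have hint : ∀ (t : ℕ) (f : UnitAddCircle), Integrable (fun p : UnitAddCircle × UnitAddCircle =>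
      (if p.2 ∈ EE k j r t f then wt S k i j Ia Ib r W f p.1 (t • p.2) else 0))
      ((volume.restrict R0).prod (volume.restrict R0)) := fun t f =>
    Integrable.of_bound (hm t f).aestronglyMeasurable C (Filter.Eventually.of_forall (hb t f))
  have hint2 : ∀ t : ℕ, Integrable (fun p : UnitAddCircle × UnitAddCircle =>
      ∑ f ∈ Fr r W, (if p.2 ∈ EE k j r t f then wt S k i j Ia Ib r W f p.1 (t • p.2) else 0))
      ((volume.restrict R0).prod (volume.restrict R0)) := fun t =>
    integrable_finsetSum _ fun f _ => hint t f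
  have hintn : Integrable (fun p : UnitAddCircle × UnitAddCircle => nt S k j Ia Ib r W p.1 p.2)
      ((volume.restrict R0).prod (volume.restrict R0)) :=
    Integrable.of_bound (measurable_nt S k j Ia Ib r W).aestronglyMeasurable
      ((PP S (range k)).card ^ 2 * (Fr r W).card ^ 2) (Filter.Eventually.of_forall fun p => by
        have h1 := nt_bounds S k j Ia Ib r W p.1 p.2
        rw [Real.norm_of_nonneg h1.1]
        exact h1.2)
  rw [← integral_prod (fun p : UnitAddCircle × UnitAddCircle => nt S k j Ia Ib r W p.1 p.2) hintn]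
  refine (integral_mono hintn (integrable_finsetSum (win S i) fun t _ => hint2 t)
    fun p => nt_le hS hr hi hib p.1 p.2).trans (le_of_eq ?_)
  rw [integral_finsetSum _ fun t _ => hint2 t]
  refine Finset.sum_congr rfl fun t _ => ?_
  rw [integral_prod_symm _ (hint2 t)]
  refine integral_congr_ae (Filter.Eventually.of_forall fun y' => ?_)
  have hsl : ∀ f : UnitAddCircle, Integrable (fun y : UnitAddCircle =>
      (if y' ∈ EE k j r t f then wt S k i j Ia Ib r W f y (t • y') else 0)) (volume.restrict R0) :=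
    fun f => Integrable.of_bound ((hm t f).comp measurable_prodMk_right).aestronglyMeasurable C
      (Filter.Eventually.of_forall fun y => hb t f (y, y'))
  change ∫ y in R0, ∑ f ∈ Fr r W,
    (if y' ∈ EE k j r t f then wt S k i j Ia Ib r W f y (t • y') else 0) = _
  rw [integral_finsetSum _ fun f _ => hsl f]
  refine Finset.sum_congr rfl fun f _ => ?_
  by_cases h : y' ∈ EE k j r t f
  · simp only [h, if_true]
  · simp only [h, if_false, integral_zero]

private theorem wm82 (S k i j : ℕ) (Ia Ib : Finset ℕ) (r W : ℝ) (f : UnitAddCircle)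
    (R0 : Set UnitAddCircle) :
    Measurable fun u : UnitAddCircle => ∫ y in R0, wt S k i j Ia Ib r W f y u := by
  have h := (measurable_wt S k i j Ia Ib r W f).comp measurable_swap
  exact (StronglyMeasurable.integral_prod_right (ν := volume.restrict R0)
    (f := fun (u y : UnitAddCircle) => wt S k i j Ia Ib r W f y u) h.stronglyMeasurable).measurable

private theorem ws82 {S k τ i j : ℕ} {Ia Ib : Finset ℕ} {r W Nb κ' : ℝ} (H : Hyp S k τ r W Nb κ')
    (hi : i ∈ range k) (R0 : Set UnitAddCircle) (u : UnitAddCircle) :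
    ∑ f ∈ Fr r W, ∫ y in R0, wt S k i j Ia Ib r W f y u ≤
      deg (PP S (range k)) (PP S ((range k).erase i)) (r * S ^ k) R0 u := by
  have hsl : ∀ f : UnitAddCircle, Integrable (fun y : UnitAddCircle =>
      wt S k i j Ia Ib r W f y u) (volume.restrict R0) := fun f =>
    Integrable.of_bound ((measurable_wt S k i j Ia Ib r W f).comp
      measurable_prodMk_right).aestronglyMeasurable
      ((PP S (range k)).card * (PP S ((range k).erase i)).card * (Fr r W).card)
      (Filter.Eventually.of_forall fun y => by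
        have h1 := wt_bounds S k i j Ia Ib r W f y u
        rw [Real.norm_of_nonneg h1.1]
        exact h1.2)
  have hl : Integrable (fun y : UnitAddCircle => ((lab (PP S (range k))
      (PP S ((range k).erase i)) (r * S ^ k) y u).card : ℝ)) (volume.restrict R0) :=
    Integrable.of_bound ((measurable_lab _ _ _).comp
      measurable_prodMk_right).aestronglyMeasurable
      ((PP S (range k)).card * (PP S ((range k).erase i)).card)
      (Filter.Eventually.of_forall fun y => by
        rw [Real.norm_of_nonneg (by positivity)]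
        exact lab_card_le _ _ _ y u)
  rw [← integral_finsetSum _ fun f _ => hsl f]
  exact integral_mono (integrable_finsetSum _ fun f _ => hsl f) hl fun y => wt_sum_le H hi y u

private theorem zero82 {S k j : ℕ} {Ia Ib : Finset ℕ} {r W : ℝ} (hr : 0 < r)
    (hj : W < 2 ^ j * r) (y y' : UnitAddCircle) : nt S k j Ia Ib r W y y' = 0 := by
  classical
  unfold nt
  refine Finset.sum_eq_zero fun v _ => Finset.sum_eq_zero fun α _ => Finset.sum_eq_zero fun α' _ => ?_
  rw [if_neg]
  rintro ⟨⟨a, b, g, hg, ha, hb, -, -, -, -, -, -, -, -, h⟩, -⟩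
  have h1 : 1 ≤ a * b * g := Nat.mul_pos (Nat.mul_pos (PP_pos ha) (PP_pos hb)) hg
  have h2 : (1 : ℝ) ≤ ((a * b * g : ℕ) : ℝ) := by exact_mod_cast h1
  have h3 : (0 : ℝ) < 2 ^ j * r := by positivity
  have h4 : 1 * (2 ^ j * r) ≤ ((a * b * g : ℕ) : ℝ) * (2 ^ j * r) :=
    mul_le_mul_of_nonneg_right h2 h3.le
  rw [mul_assoc] at h
  linarith

private theorem cardw82 {S k i : ℕ} (hi : i ∈ range k) : ((win S i).card : ℝ) ≤ cc k * S := by
  have h := PP_card_le (S := S) (k := k) (I := {i}) (by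
    intro x hx
    rw [Finset.mem_singleton] at hx
    rw [hx]
    exact hi)
  rw [PP_singleton, Finset.card_singleton, pow_one] at h
  exact_mod_cast h

theorem T_bound {S k τ j : ℕ} {Ia Ib : Finset ℕ} {r W Nb κ' : ℝ} (H : Hyp S k τ r W Nb κ')
    (hIa : Ia ⊆ range k) (hIb : Ib ⊆ range k) (hcard : Ia.card ≤ Ib.card) (hIb' : Ib ≠ range k)
    {R0 : Set UnitAddCircle} (hR0 : MeasurableSet R0)
    (hpoor : ∀ q j : ℕ, (q : ℝ) * 2 ^ j * r ≤ W →
      volume.real (R0 ∩ cl (2 ^ (j + 1) * r) q) ≤ κ' * (q * 2 ^ (j + 1) * r)) :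
    ∫ y in R0, ∫ y' in R0, nt S k j Ia Ib r W y y' ≤
      r * (S : ℝ) ^ (2 * k) * volume.real R0 *
        (64 * cc k ^ 3 * (S : ℝ) ^ k * volume.real R0 + 6 * τ * cc k ^ 6 * κ' +
          64 * cc k ^ 2 * (τ : ℝ) ^ 2 / √S) := by
  classical
  have hS1 : 1 ≤ S := le_trans (by norm_num) H.hS
  have hr := H.hr
  have hκ := H.hκ
  have hSR : (1 : ℝ) ≤ S := by exact_mod_cast hS1
  have hS0 : (0 : ℝ) < S := by linarith
  have hcR : (1 : ℝ) ≤ cc k := by
    have : 1 ≤ cc k := Nat.one_le_two_pow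
    exact_mod_cast this
  have hτR : (1 : ℝ) ≤ τ := by exact_mod_cast H.hτ
  have hρ : 0 ≤ volume.real R0 := measureReal_nonneg
  have hRHS : 0 ≤ r * (S : ℝ) ^ (2 * k) * volume.real R0 *
        (64 * cc k ^ 3 * (S : ℝ) ^ k * volume.real R0 + 6 * τ * cc k ^ 6 * κ' +
          64 * cc k ^ 2 * (τ : ℝ) ^ 2 / √S) := by positivity
  by_cases hj : W < 2 ^ j * r
  · have h0 : ∫ y in R0, ∫ y' in R0, nt S k j Ia Ib r W y y' = 0 := by
      simp only [zero82 hr hj, integral_zero]
    rw [h0]
    exact hRHS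
  · rw [not_lt] at hj
    obtain ⟨i, hi, hib⟩ : ∃ i ∈ range k, i ∉ Ib := by
      by_contra hcon
      push Not at hcon
      exact hIb' (Finset.Subset.antisymm hIb hcon)
    obtain ⟨A, hA⟩ : ∃ A, A = PP S (range k) := ⟨_, rfl⟩
    obtain ⟨B, hB⟩ : ∃ B, B = PP S ((range k).erase i) := ⟨_, rfl⟩
    obtain ⟨ρ, hρe⟩ : ∃ ρ, ρ = volume.real R0 := ⟨_, rfl⟩
    have hρ0 : 0 ≤ ρ := by rw [hρe]; exact hρ
    obtain ⟨δ, hδe⟩ : ∃ δ : ℝ, δ = r * S ^ k := ⟨_, rfl⟩
    obtain ⟨m, hm⟩ : ∃ m, k = m + 1 := ⟨k - 1, by have := H.hk; omega⟩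
    have hδ0 : 0 < δ := by
      rw [hδe]
      positivity
    have hAc : (A.card : ℝ) ≤ cc k * S ^ k := by
      have h := PP_card_le (S := S) (k := k) (I := range k) (Finset.Subset.refl _)
      rw [← hA, Finset.card_range] at h
      exact_mod_cast h
    have hBc : (B.card : ℝ) ≤ cc k * S ^ m := by
      have h := PP_card_le (S := S) (k := k) (I := (range k).erase i) (Finset.erase_subset _ _)
      rw [← hB, Finset.card_erase_of_mem hi, Finset.card_range] at h
      have e : k - 1 = m := by omega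
      rw [e] at h
      exact_mod_cast h
    have hwc := cardw82 (S := S) hi
    -- the square of the degree
    have hsq := deg_sq (A := A) (B := B) (δ := δ) (X0 := cc k * S ^ k) (Nb := Nb) (τ := τ)
      (by
        intro P hP
        rw [hA] at hP
        have h := PP_bounds (S := S) (k := k) (Finset.Subset.refl _) hP
        rw [Finset.card_range] at h
        exact ⟨PP_pos hP, by exact_mod_cast h.2⟩)
      (by
        intro P hP
        rw [hB] at hP
        have h := PP_bounds (S := S) (k := k) (Finset.erase_subset _ _) hP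
        rw [Finset.card_erase_of_mem hi, Finset.card_range] at h
        refine ⟨PP_pos hP, ?_⟩
        have h1 : (P : ℝ) ≤ cc k * S ^ (k - 1) := by exact_mod_cast h.2
        refine h1.trans (mul_le_mul_of_nonneg_left ?_ (by positivity))
        exact pow_le_pow_right₀ hSR (Nat.sub_le _ _))
      hδ0 (by rw [hδe]; exact H.hsmall)
      (by
        rw [hδe]
        have h := mul_le_mul_of_nonneg_right H.hNb1 (show (0 : ℝ) ≤ S ^ k by positivity)
        calc (cc k : ℝ) * S ^ k ≤ r * Nb * S ^ k := h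
          _ = r * S ^ k * Nb := by ring)
      (by rw [hA]; exact H.hdiv _ (Finset.Subset.refl _))
      (by rw [hB]; exact H.hdiv _ (Finset.erase_subset _ _)) hR0
    rw [← hρe] at hsq
    have e2 : ∀ X : ℝ, 2 * (32 * δ * X) = 64 * δ * X := fun X => by ring
    -- the small step
    have hstep := small_step (Ts := win S i) (Fs := Fr r W)
      (w := fun f u => ∫ y in R0, wt S k i j Ia Ib r W f y u) (a := deg A B δ R0)
      (E := EE k j r)
      (D := fun f f1 => (win S i).filter fun t => ∃ y', y' ∈ EE k j r t f ∧ y' ∈ EE k j r t f1)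
      (S0 := S) (W0 := 6 * τ * cc k ^ 5 * κ' * (S : ℝ) ^ (2 * k - 1) * r)
      (a0 := 32 * δ * (A.card * B.card * ρ)) (Ca := A.card * B.card) (τ := τ) hS0
      (by
        intro t ht
        have h := (mem_win.1 ht).1.1
        have h1 : S ≤ t := le_trans (Nat.le_mul_of_pos_left S (by positivity)) h
        exact ⟨lt_of_lt_of_le hS1 h1, by exact_mod_cast h1⟩)
      (fun f u => integral_nonneg fun y => (wt_bounds S k i j Ia Ib r W f y u).1)
      (fun f => wm82 S k i j Ia Ib r W f R0) (measurable_deg A B δ R0)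
      (fun u => (deg_nonneg A B δ R0 u).2) (measurable_EE k j r)
      (fun u => by
        rw [hA, hB, hδe]
        exact ws82 H hi R0 u)
      (by positivity)
      (fun f _ u => w_le H hi hIa hIb hcard hR0 hpoor f u)
      (by positivity)
      (fun f hf f1 hf1 hne => by
        have h := EE_card H hi hj hf hf1 hne
        convert h)
      (by
        intro t ht f hf f1 hf1 hne y
        by_cases hD : ∃ y', y' ∈ EE k j r t f ∧ y' ∈ EE k j r t f1
        · have h1 : t ∈ (win S i).filter fun t => ∃ y', y' ∈ EE k j r t f ∧ y' ∈ EE k j r t f1 :=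
            Finset.mem_filter.2 ⟨ht, hD⟩
          rw [if_pos h1]
          have h2 := EE_tor H hi hj ht f y
          refine le_trans (Finset.card_le_card ?_) h2
          intro b hb
          rw [Finset.mem_filter] at hb ⊢
          exact ⟨hb.1, hb.2.1⟩
        · have h1 : ((tor t).filter fun b => y + b ∈ EE k j r t f ∧ y + b ∈ EE k j r t f1) = ∅ := by
            rw [Finset.filter_eq_empty_iff]
            intro b _ hb
            exact hD ⟨_, hb⟩
          rw [h1, Finset.card_empty]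
          exact Nat.zero_le _)
      hR0
    rw [e2, ← hρe] at hstep
    have hfub := fub82 (S := S) (k := k) (j := j) (Ia := Ia) (W := W) hS1 hr hi hib R0
    refine hfub.trans (hstep.trans ?_)
    rw [← hρe] at hRHS ⊢
    have hI0 : 0 ≤ ∫ u, (if 64 * δ * (A.card * B.card * ρ) ≤ deg A B δ R0 u
      then (deg A B δ R0 u) ^ 2 else 0) := integral_nonneg fun u => by
        change 0 ≤ (if 64 * δ * (A.card * B.card * ρ) ≤ deg A B δ R0 u
          then (deg A B δ R0 u) ^ 2 else 0)
        split_ifs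
        · exact sq_nonneg _
        · exact le_rfl
    have eS2 : (S : ℝ) ^ (2 * k - 1) * S = S ^ (2 * k) := by
      rw [← pow_succ]
      congr 1
      omega
    have eSk : (S : ℝ) ^ k = S ^ m * S := by rw [hm, pow_succ]
    have eS2k : (S : ℝ) ^ (2 * k) = (S ^ m * S) ^ 2 := by rw [← eSk, ← pow_mul, mul_comm]
    have hAB : (A.card : ℝ) * B.card ≤ cc k * S ^ k * (cc k * S ^ m) :=
      mul_le_mul hAc hBc (by positivity) (by positivity)
    have t1 : 64 * δ * (A.card * B.card * ρ) * ((win S i).card : ℝ) * ρ ≤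
        r * (S : ℝ) ^ (2 * k) * ρ * (64 * cc k ^ 3 * (S : ℝ) ^ k * ρ) := by
      calc 64 * δ * (A.card * B.card * ρ) * ((win S i).card : ℝ) * ρ
          = (64 * δ * ρ * ρ) * ((A.card * B.card) * ((win S i).card : ℝ)) := by ring
        _ ≤ (64 * δ * ρ * ρ) * ((cc k * S ^ k * (cc k * S ^ m)) * (cc k * S)) := by
            refine mul_le_mul_of_nonneg_left ?_ (by positivity)
            exact mul_le_mul hAB hwc (by positivity) (by positivity)
        _ = r * (S : ℝ) ^ (2 * k) * ρ * (64 * cc k ^ 3 * (S : ℝ) ^ k * ρ) := by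
            rw [hδe, eS2k, eSk]
            ring
    have t2 : ((win S i).card : ℝ) * ρ * (6 * τ * cc k ^ 5 * κ' * (S : ℝ) ^ (2 * k - 1) * r) ≤
        r * (S : ℝ) ^ (2 * k) * ρ * (6 * τ * cc k ^ 6 * κ') := by
      calc ((win S i).card : ℝ) * ρ * (6 * τ * cc k ^ 5 * κ' * (S : ℝ) ^ (2 * k - 1) * r)
          = ((win S i).card : ℝ) * (ρ * (6 * τ * cc k ^ 5 * κ' * (S : ℝ) ^ (2 * k - 1) * r)) := by ring
        _ ≤ (cc k * S) * (ρ * (6 * τ * cc k ^ 5 * κ' * (S : ℝ) ^ (2 * k - 1) * r)) :=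
            mul_le_mul_of_nonneg_right hwc (by positivity)
        _ = r * (S : ℝ) ^ (2 * k) * ρ * (6 * τ * cc k ^ 6 * κ') := by
            rw [← eS2]
            ring
    have t3 : √(((win S i).card : ℝ) * ρ * (τ / S *
        ∫ u, (if 64 * δ * (A.card * B.card * ρ) ≤ deg A B δ R0 u
          then (deg A B δ R0 u) ^ 2 else 0))) ≤
        r * (S : ℝ) ^ (2 * k) * ρ * (64 * cc k ^ 2 * (τ : ℝ) ^ 2 / √S) := by
      refine Real.sqrt_le_iff.2 ⟨by positivity, ?_⟩
      have hb1 : ((win S i).card : ℝ) * ρ * (τ / S *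
        ∫ u, (if 64 * δ * (A.card * B.card * ρ) ≤ deg A B δ R0 u
          then (deg A B δ R0 u) ^ 2 else 0)) ≤
          (cc k * S) * ρ * (τ / S * (4096 * δ ^ 2 * (τ : ℝ) ^ 2 *
            (cc k * S ^ k * (cc k * S ^ m) * ρ))) := by
        refine mul_le_mul (mul_le_mul_of_nonneg_right hwc hρ0) ?_
          (mul_nonneg (by positivity) hI0) (by positivity)
        refine mul_le_mul_of_nonneg_left (hsq.trans ?_) (by positivity)
        refine mul_le_mul_of_nonneg_left ?_ (by positivity)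
        exact mul_le_mul_of_nonneg_right hAB hρ0
      refine hb1.trans ?_
      have hsqS : √(S : ℝ) ^ 2 = S := Real.sq_sqrt hS0.le
      have e3 : (r * (S : ℝ) ^ (2 * k) * ρ * (64 * cc k ^ 2 * (τ : ℝ) ^ 2 / √S)) ^ 2 =
          4096 * r ^ 2 * ((S : ℝ) ^ (2 * k)) ^ 2 * ρ ^ 2 * cc k ^ 4 * τ ^ 4 / S := by
        rw [mul_pow, div_pow, hsqS]
        ring
      have e4 : (cc k * S) * ρ * (τ / S * (4096 * δ ^ 2 * (τ : ℝ) ^ 2 *
            (cc k * S ^ k * (cc k * S ^ m) * ρ))) =
          (4096 * r ^ 2 * ((S : ℝ) ^ (2 * k)) ^ 2 * ρ ^ 2 / S) * (cc k ^ 3 * τ ^ 3) := by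
        rw [hδe, eS2k, eSk]
        field_simp
      have e5 : 4096 * r ^ 2 * ((S : ℝ) ^ (2 * k)) ^ 2 * ρ ^ 2 * cc k ^ 4 * τ ^ 4 / S =
          (4096 * r ^ 2 * ((S : ℝ) ^ (2 * k)) ^ 2 * ρ ^ 2 / S) * (cc k ^ 4 * τ ^ 4) := by ring
      rw [e3, e4, e5]
      refine mul_le_mul_of_nonneg_left ?_ (by positivity)
      exact mul_le_mul (pow_le_pow_right₀ hcR (by norm_num)) (pow_le_pow_right₀ hτR (by norm_num))
        (by positivity) (by positivity)
    calc _ ≤ r * (S : ℝ) ^ (2 * k) * ρ * (64 * cc k ^ 3 * (S : ℝ) ^ k * ρ) +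
          r * (S : ℝ) ^ (2 * k) * ρ * (6 * τ * cc k ^ 6 * κ') +
          r * (S : ℝ) ^ (2 * k) * ρ * (64 * cc k ^ 2 * (τ : ℝ) ^ 2 / √S) :=
          add_le_add (add_le_add t1 t2) t3
      _ = _ := by ring

end Pool.Agent.Helper5.LE
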