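import Pool.Agent.Helper25.MOB.Defs

/-!
# Project LE (part E of LOneNorm 1/3, MP_b6b996_nt): definitions

Circle `ℝ/ℤ` with probability measure; `F N`, `ex`, `primesIn`, `pt`, `cl`, `om`, `pts` are those of `Helper25/MOB/Defs`.
Labels are products of `k` primes, one in each window `[2^i S, 2^(i+1) S)`, `i < k`.
-/

set_option autoImplicit false

namespace Pool.Agent.Helper5.LE

open MeasureTheory Finset
open Pool.Agent.Helper25.MOB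

/-- The `i`-th window: the primes of `[2^i S, 2 (2^i S))`. -/
def win (S i : ℕ) : Finset ℕ := primesIn (2 ^ i * S)

/-- The products of one prime of each window `i ∈ I`. -/
noncomputable def PP (S : ℕ) (I : Finset ℕ) : Finset ℕ :=
  open scoped Classical in
  (range (∏ i ∈ I, (2 * (2 ^ i * S)) + 1)).filter fun n =>
    ∃ f : ℕ → ℕ, (∀ i ∈ I, f i ∈ win S i) ∧ n = ∏ i ∈ I, f i

/-- The constant `2^(k^2)`. -/
def cc (k : ℕ) : ℕ := 2 ^ (k ^ 2)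

/-- The labels `(P, P') ∈ A × B` with `‖P y - P' y'‖ ≤ δ`. -/
noncomputable def lab (A B : Finset ℕ) (δ : ℝ) (y y' : UnitAddCircle) : Finset (ℕ × ℕ) :=
  open scoped Classical in
  (A ×ˢ B).filter fun v => ‖v.1 • y - v.2 • y'‖ ≤ δ

/-- The coprime labels. -/
noncomputable def labc (A B : Finset ℕ) (δ : ℝ) (y y' : UnitAddCircle) : Finset (ℕ × ℕ) :=
  (lab A B δ y y').filter fun v => v.1.Coprime v.2

/-- The points killed by `t`. -/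
noncomputable def tor (t : ℕ) : Finset UnitAddCircle := pts t.divisors

/-- The points of order at most `W / r`. -/
noncomputable def Fr (r W : ℝ) : Finset UnitAddCircle := pts (Icc 1 ⌊W / r⌋₊)

/-- The annulus of index `j` around `α` (base radius `r`). -/
def ann (j : ℕ) (r : ℝ) (α : UnitAddCircle) : Set UnitAddCircle :=
  {y | ‖y - α‖ ≤ 2 ^ (j + 1) * r ∧ (j = 0 ∨ 2 ^ j * r ≤ ‖y - α‖)}

/-- `(α, α')` is a class of type `(j, Ia, Ib)` compatible with the label `(P, P')`: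
`ord α = a g`, `ord α' = b g`, `a ∣ P` and `b ∣ P'` are the forced parts. -/
def adm (S j : ℕ) (Ia Ib : Finset ℕ) (r W : ℝ) (α α' : UnitAddCircle) (P P' : ℕ) : Prop :=
  ∃ a b g : ℕ, 0 < g ∧ a ∈ PP S Ia ∧ b ∈ PP S Ib ∧ addOrderOf α = a * g ∧ addOrderOf α' = b * g ∧
    a ∣ P ∧ b ∣ P' ∧ (P / a).Coprime (a * g) ∧ (P' / b).Coprime (b * g) ∧ P.Coprime P' ∧
    P • α = P' • α' ∧ ((a * b * g : ℕ) : ℝ) * 2 ^ j * r ≤ W

/-- The number of labels of `(y, y')` with a class of type `(j, Ia, Ib)`. -/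
noncomputable def nt (S k j : ℕ) (Ia Ib : Finset ℕ) (r W : ℝ) (y y' : UnitAddCircle) : ℝ :=
  open scoped Classical in
  ∑ v ∈ PP S (range k) ×ˢ PP S (range k), ∑ α ∈ Fr r W, ∑ α' ∈ Fr r W,
    if adm S j Ia Ib r W α α' v.1 v.2 ∧ y ∈ ann j r α ∧ ‖y' - α'‖ ≤ cc k * 2 ^ (j + 2) * r ∧
      ‖v.1 • y - v.2 • y'‖ ≤ r * S ^ k then 1 else 0

/-- The number of labels `(P, Q)`, `Q` without the window `i`, between `y` and `u`, with the class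
`f` at `u`. -/
noncomputable def wt (S k i j : ℕ) (Ia Ib : Finset ℕ) (r W : ℝ) (f y u : UnitAddCircle) : ℝ :=
  open scoped Classical in
  ∑ v ∈ PP S (range k) ×ˢ PP S ((range k).erase i), ∑ α ∈ Fr r W,
    if adm S j Ia Ib r W α f v.1 v.2 ∧ y ∈ ann j r α ∧ ‖u - f‖ ≤ 4 * cc k ^ 2 * S * 2 ^ j * r ∧
      ‖v.1 • y - v.2 • u‖ ≤ r * S ^ k then 1 else 0

/-- The points `y'` such that the step `(t, y')` preserves the class `f` of `t y'`. -/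
def EE (k j : ℕ) (r : ℝ) (t : ℕ) (f : UnitAddCircle) : Set UnitAddCircle :=
  {y' | ∃ α' : UnitAddCircle, t • α' = f ∧ addOrderOf α' = addOrderOf f ∧ 0 < addOrderOf f ∧
    ‖y' - α'‖ ≤ cc k * 2 ^ (j + 2) * r}

/-- The degree function `a(u) = ∫_{y ∈ R} #{labels (P, Q) of (y, u)} dy`. -/
noncomputable def deg (A B : Finset ℕ) (δ : ℝ) (R : Set UnitAddCircle) (u : UnitAddCircle) : ℝ :=
  ∫ y in R, ((lab A B δ y u).card : ℝ)

/-- `GA A M y = ∑_{m ≤ M} ∑_{P ∈ A} μ(m) e(P m y)`. -/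
noncomputable def GA (A : Finset ℕ) (M : ℕ) (y : UnitAddCircle) : ℂ :=
  ∑ m ∈ Icc 1 M, ∑ P ∈ A, ((ArithmeticFunction.moebius m : ℤ) : ℂ) * ex ((P * m : ℕ) : ℤ) y

/-- The divisor hypothesis: every `0 < n ≤ Nb` has at most `τ` divisors in `A`. -/
def DivB (τ : ℕ) (Nb : ℝ) (A : Finset ℕ) : Prop :=
  ∀ n : ℕ, 0 < n → (n : ℝ) ≤ Nb → (A.filter (· ∣ n)).card ≤ τ

/-- The standing numerical hypotheses. -/
structure Hyp (S k τ : ℕ) (r W Nb κ' : ℝ) : Prop where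
  hk : 1 ≤ k
  hS : 2 ≤ S
  hτ : 1 ≤ τ
  hr : 0 < r
  hW0 : 0 < W
  hκ : 0 ≤ κ'
  hsmall : r * (S : ℝ) ^ k ≤ 1 / 16
  h3 : 8 * (cc k : ℝ) ^ 2 * (S : ℝ) ^ (3 * k) * r < 1
  h16 : 16 * (cc k : ℝ) ^ 3 * (S : ℝ) ^ k * W < 1
  h4 : 4 * W ^ 2 < r * (S : ℝ) ^ (k - 1)
  hWS : W ≤ r * (S : ℝ) ^ (2 * k - 1)
  hNb1 : (cc k : ℝ) ≤ r * Nb
  hNb2 : W ≤ r * Nb
  hNb3 : 8 * (cc k : ℝ) ^ 2 * S * W ^ 3 ≤ r ^ 2 * Nb
  hdiv : ∀ I : Finset ℕ, I ⊆ range k → DivB τ Nb (PP S I)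

end Pool.Agent.Helper5.LE
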