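import Pool.Agent.Helper5.LE.Defs
import Pool.Agent.Helper25.MOB.Bas

/-!
# Block LE-K1: the Fejer kernel and Bessel's inequality

`Fe m x = |∑_{j < m} e(j x)|^2 / m`. For `‖x‖ ≤ 1/(8m)` every term has real part `≥ cos(π/4)`, so `|∑|^2 ≥ m^2/2` and `Fe m x ≥ m/2`. Expanding the square: `Fe m x = ∑_{|n| < m} (1 - |n|/m) e(n x)` (number of `(j, j')` with `j - j' = n` is `m - |n|`).
`bessel`: for a bounded measurable `f`, `∑_{n ∈ T} |∫ f(y) e(n y) dy|^2 ≤ ∫ |f|^2` (expand `∫ |f - ∑ c_n conj e(n ·)|^2 ≥ 0` with `c_n = ∫ f e(n ·)` and the orthogonality `integral_ex`; or Parseval of Mathlib for `fourierCoeff`).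
`fc_bessel`: for the indicator of `E`: `∑_{n ∈ T} |fc E n|^2 ≤ vol E`.
-/

set_option autoImplicit false

namespace Pool.Agent.Helper5.LE

open MeasureTheory Finset
open Pool.Agent.Helper25.MOB

/-- The Fejer kernel. -/
noncomputable def Fe (m : ℕ) (x : UnitAddCircle) : ℝ := ‖∑ j ∈ range m, ex (j : ℤ) x‖ ^ 2 / m

/-- The Fourier coefficients of the indicator function of `E`. -/
noncomputable def fc (E : Set UnitAddCircle) (n : ℤ) : ℂ := ∫ y in E, ex n y

private theorem integrable88 {f : UnitAddCircle → ℂ} (hf : Continuous f) : Integrable f volume :=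
  hf.integrable_of_hasCompactSupport (HasCompactSupport.of_compactSpace f)

theorem Fe_nonneg (m : ℕ) (x : UnitAddCircle) : 0 ≤ Fe m x := by
  unfold Fe
  positivity

theorem continuous_Fe (m : ℕ) : Continuous (Fe m) := by
  unfold Fe
  exact ((continuous_finsetSum _ fun j _ => continuous_ex _).norm.pow 2).div_const _

theorem Fe_ge {m : ℕ} (hm : 1 ≤ m) {x : UnitAddCircle} (hx : ‖x‖ ≤ 1 / (8 * m)) :
    (m : ℝ) / 2 ≤ Fe m x := by
  have hm0 : (0 : ℝ) < m := by exact_mod_cast hm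
  obtain ⟨t, rfl, ht⟩ : ∃ t : ℝ, (t : UnitAddCircle) = x ∧ |t| ≤ 1 / (8 * m) := by
    obtain ⟨y, rfl⟩ := QuotientAddGroup.mk_surjective x
    refine ⟨y - round y, ?_, ?_⟩
    · have : ((round y : ℝ) : UnitAddCircle) = 0 := by
        rw [AddCircle.coe_eq_zero_iff]
        exact ⟨round y, by simp⟩
      rw [AddCircle.coe_sub, this, sub_zero]
    · have := hx
      rw [show ((QuotientAddGroup.mk y : UnitAddCircle)) = ((y : ℝ) : UnitAddCircle) from rfl,
        UnitAddCircle.norm_eq] at this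
      exact this
  have hre : ∀ j ∈ range m, Real.sqrt 2 / 2 ≤ (ex (j : ℤ) (t : UnitAddCircle)).re := by
    intro j hj
    rw [mem_range] at hj
    rw [ex_coe, show (2 * Real.pi * Complex.I * ((j : ℤ) : ℂ) * (t : ℂ) : ℂ) =
      ((2 * Real.pi * j * t : ℝ) : ℂ) * Complex.I by push_cast; ring, Complex.exp_ofReal_mul_I_re,
      ← Real.cos_pi_div_four, ← Real.cos_abs (2 * Real.pi * j * t)]
    have hb : |2 * Real.pi * j * t| ≤ Real.pi / 4 := by
      rw [abs_mul, abs_of_nonneg (by positivity : (0 : ℝ) ≤ 2 * Real.pi * j)]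
      have hjm : (j : ℝ) ≤ m := by exact_mod_cast hj.le
      calc 2 * Real.pi * j * |t| ≤ 2 * Real.pi * m * (1 / (8 * m)) := by
            gcongr
        _ = Real.pi / 4 := by field_simp; ring
    exact Real.cos_le_cos_of_nonneg_of_le_pi (abs_nonneg _) (by linarith [Real.pi_pos]) hb
  have hs : (m : ℝ) * (Real.sqrt 2 / 2) ≤ (∑ j ∈ range m, ex (j : ℤ) (t : UnitAddCircle)).re := by
    rw [Complex.re_sum]
    calc (m : ℝ) * (Real.sqrt 2 / 2) = ∑ j ∈ range m, Real.sqrt 2 / 2 := by simp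
      _ ≤ _ := sum_le_sum hre
  have hn : (m : ℝ) * (Real.sqrt 2 / 2) ≤ ‖∑ j ∈ range m, ex (j : ℤ) (t : UnitAddCircle)‖ :=
    hs.trans (Complex.re_le_norm _)
  unfold Fe
  rw [le_div_iff₀ hm0]
  calc (m : ℝ) / 2 * m = ((m : ℝ) * (Real.sqrt 2 / 2)) ^ 2 := by
        rw [mul_pow, div_pow, Real.sq_sqrt (by norm_num)]
        ring
    _ ≤ _ := pow_le_pow_left₀ (by positivity) hn 2

private theorem sq88 (z : ℂ) : ((‖z‖ ^ 2 : ℝ) : ℂ) = z * (starRingEnd ℂ) z := by
  rw [RCLike.mul_conj]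
  push_cast
  rfl

private theorem card88 {m : ℕ} {n : ℤ} (hn : n ∈ Ioo (-(m : ℤ)) m) :
    ((range m ×ˢ range m).filter fun v => (v.1 : ℤ) - v.2 = n).card = m - n.natAbs := by
  rw [mem_Ioo] at hn
  conv_rhs => rw [← Finset.card_range (m - n.natAbs)]
  symm
  apply Finset.card_bij (fun k _ => (k + n.toNat, k + (-n).toNat))
  · intro k hk
    simp only [mem_range] at hk
    simp only [mem_filter, mem_product, mem_range]
    omega
  · intro a _ b _ h
    simp only [Prod.mk.injEq] at h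
    omega
  · intro b hb
    simp only [mem_filter, mem_product, mem_range] at hb
    refine ⟨min b.1 b.2, ?_, ?_⟩
    · simp only [mem_range]
      omega
    · ext
      · simp only
        omega
      · simp only
        omega

theorem Fe_expand {m : ℕ} (hm : 1 ≤ m) (x : UnitAddCircle) :
    ((Fe m x : ℝ) : ℂ) = ∑ n ∈ Ioo (-(m : ℤ)) m, ((1 - |(n : ℝ)| / m : ℝ) : ℂ) * ex n x := by
  have hm0 : (m : ℂ) ≠ 0 := by
    have : m ≠ 0 := by omega
    exact_mod_cast this
  have h1 : ((‖∑ j ∈ range m, ex (j : ℤ) x‖ ^ 2 : ℝ) : ℂ) =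
      ∑ v ∈ range m ×ˢ range m, ex ((v.1 : ℤ) - v.2) x := by
    rw [sq88, map_sum, Finset.sum_mul_sum, Finset.sum_product]
    refine Finset.sum_congr rfl fun j _ => Finset.sum_congr rfl fun k _ => ?_
    rw [conj_ex, sub_eq_add_neg, ex_add]
  have h2 : ∑ v ∈ range m ×ˢ range m, ex ((v.1 : ℤ) - v.2) x =
      ∑ n ∈ Ioo (-(m : ℤ)) m, ((m - n.natAbs : ℕ) : ℂ) * ex n x := by
    rw [← Finset.sum_fiberwise_of_maps_to (g := fun v : ℕ × ℕ => (v.1 : ℤ) - v.2)
      (t := Ioo (-(m : ℤ)) m)]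
    · refine Finset.sum_congr rfl fun n hn => ?_
      rw [← card88 hn, ← nsmul_eq_mul, ← Finset.sum_const]
      refine Finset.sum_congr rfl fun v hv => ?_
      rw [(mem_filter.1 hv).2]
    · intro v hv
      simp only [mem_product, mem_range] at hv
      simp only [mem_Ioo]
      omega
  unfold Fe
  rw [Complex.ofReal_div, h1, h2, Complex.ofReal_natCast, Finset.sum_div]
  refine Finset.sum_congr rfl fun n hn => ?_
  rw [mem_Ioo] at hn
  have h3 : ((m - n.natAbs : ℕ) : ℂ) = (m : ℂ) - ((|(n : ℝ)| : ℝ) : ℂ) := by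
    rw [Nat.cast_sub (by omega)]
    congr 1
    have : ((n.natAbs : ℕ) : ℝ) = |(n : ℝ)| := by
      rw [Nat.cast_natAbs, Int.cast_abs]
    rw [← this]
    norm_cast
  rw [h3]
  push_cast
  field_simp

private theorem int_mul88 (T : Finset ℤ) (c : ℤ → ℂ) :
    ∫ y : UnitAddCircle, ‖∑ n ∈ T, c n * ex (-n) y‖ ^ 2 = ∑ n ∈ T, ‖c n‖ ^ 2 := by
  have h1 : ∀ y : UnitAddCircle, ((‖∑ n ∈ T, c n * ex (-n) y‖ ^ 2 : ℝ) : ℂ) =
      ∑ n ∈ T, ∑ m ∈ T, (c n * (starRingEnd ℂ) (c m)) * ex (m - n) y := by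
    intro y
    rw [sq88, map_sum, Finset.sum_mul_sum]
    refine Finset.sum_congr rfl fun n _ => Finset.sum_congr rfl fun m _ => ?_
    rw [map_mul, conj_ex, neg_neg, sub_eq_add_neg, ex_add]
    ring
  have hc : ∀ n m : ℤ, Continuous fun y : UnitAddCircle =>
      (c n * (starRingEnd ℂ) (c m)) * ex (m - n) y := fun n m =>
    continuous_const.mul (continuous_ex _)
  have h2 : (∫ y : UnitAddCircle, ((‖∑ n ∈ T, c n * ex (-n) y‖ ^ 2 : ℝ) : ℂ)) =
      ∑ n ∈ T, ((‖c n‖ ^ 2 : ℝ) : ℂ) := by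
    simp_rw [h1]
    rw [integral_finsetSum _ fun n _ => integrable88 (continuous_finsetSum _ fun m _ => hc n m)]
    refine Finset.sum_congr rfl fun n hn => ?_
    rw [integral_finsetSum _ fun m _ => integrable88 (hc n m)]
    have h3 : ∀ m ∈ T, (∫ y : UnitAddCircle, (c n * (starRingEnd ℂ) (c m)) * ex (m - n) y) =
        if m = n then ((‖c n‖ ^ 2 : ℝ) : ℂ) else 0 := by
      intro m _
      rw [integral_const_mul, integral_ex]
      by_cases h : m = n
      · subst h
        simp only [sub_self, if_true, mul_one]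
        rw [RCLike.mul_conj]
        push_cast
        rfl
      · rw [if_neg h, if_neg (by omega), mul_zero]
    rw [Finset.sum_congr rfl h3, Finset.sum_ite_eq' T n, if_pos hn]
  rw [integral_complex_ofReal, ← Complex.ofReal_sum] at h2
  exact_mod_cast h2

private theorem int388 {A B D : UnitAddCircle → ℝ} (hA : Integrable A volume)
    (hB : Integrable B volume) (hD : Integrable D volume) :
    ∫ y, (A y - 2 * B y + D y) = (∫ y, A y) - 2 * (∫ y, B y) + ∫ y, D y := by
  have h1 : Integrable (fun y => A y - 2 * B y) (volume : Measure UnitAddCircle) :=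
    hA.sub (hB.const_mul 2)
  rw [integral_add h1 hD, integral_sub hA (hB.const_mul 2), integral_const_mul]

private theorem re88 {g : UnitAddCircle → ℂ} (hg : Integrable g volume) {r : ℝ}
    (hr : (∫ y, g y) = (r : ℂ)) : (∫ y, (g y).re) = r := by
  have h := integral_re hg
  have h2 : (∫ y, (g y).re) = (∫ y, g y).re := h
  rw [h2, hr, Complex.ofReal_re]

private theorem bes88 (f : UnitAddCircle → ℂ) (hf : Measurable f) {C : ℝ} (hC : ∀ y, ‖f y‖ ≤ C)
    (T : Finset ℤ) (c : ℤ → ℂ) (hc : ∀ n, (∫ y, f y * ex n y) = c n) (P : UnitAddCircle → ℂ)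
    (hP : ∀ y, P y = ∑ n ∈ T, c n * ex (-n) y) :
    ∑ n ∈ T, ‖c n‖ ^ 2 ≤ ∫ y, ‖f y‖ ^ 2 := by
  have hfe : ∀ n : ℤ, Integrable (fun y => f y * ex n y) (volume : Measure UnitAddCircle) := by
    intro n
    refine Integrable.of_bound (hf.mul (continuous_ex n).measurable).aestronglyMeasurable C
      (Filter.Eventually.of_forall fun y => ?_)
    rw [norm_mul, norm_ex, mul_one]
    exact hC y
  have hf2 : Integrable (fun y => ‖f y‖ ^ 2) (volume : Measure UnitAddCircle) := by
    refine Integrable.of_bound (hf.norm.pow_const 2).aestronglyMeasurable (C ^ 2)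
      (Filter.Eventually.of_forall fun y => ?_)
    rw [Real.norm_eq_abs, abs_of_nonneg (by positivity)]
    exact pow_le_pow_left₀ (norm_nonneg _) (hC y) 2
  have hPe : P = fun y => ∑ n ∈ T, c n * ex (-n) y := funext hP
  have hPc : Continuous P := by
    rw [hPe]
    exact continuous_finsetSum _ fun n _ => continuous_const.mul (continuous_ex _)
  have hfP : (fun y => f y * (starRingEnd ℂ) (P y)) =
      fun y => ∑ n ∈ T, (starRingEnd ℂ) (c n) * (f y * ex n y) := by
    ext y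
    rw [hP, map_sum, Finset.mul_sum]
    refine Finset.sum_congr rfl fun n _ => ?_
    rw [map_mul, conj_ex, neg_neg]
    ring
  have hfPi : Integrable (fun y => f y * (starRingEnd ℂ) (P y))
      (volume : Measure UnitAddCircle) := by
    rw [hfP]
    exact integrable_finsetSum _ fun n _ => (hfe n).const_mul _
  have h2 : (∫ y, f y * (starRingEnd ℂ) (P y)) = ((∑ n ∈ T, ‖c n‖ ^ 2 : ℝ) : ℂ) := by
    rw [hfP, integral_finsetSum _ fun n _ => (hfe n).const_mul _, Complex.ofReal_sum]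
    refine Finset.sum_congr rfl fun n _ => ?_
    rw [integral_const_mul, mul_comm, hc, sq88]
  have h1 := re88 hfPi h2
  have hP2 : Integrable (fun y => ‖P y‖ ^ 2) (volume : Measure UnitAddCircle) :=
    (hPc.norm.pow 2).integrable_of_hasCompactSupport (HasCompactSupport.of_compactSpace _)
  have hre : Integrable (fun y => (f y * (starRingEnd ℂ) (P y)).re)
      (volume : Measure UnitAddCircle) := hfPi.re
  have h3 : (fun y => ‖f y - P y‖ ^ 2) = fun y =>
      ‖f y‖ ^ 2 - 2 * (f y * (starRingEnd ℂ) (P y)).re + ‖P y‖ ^ 2 := by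
    ext y
    rw [← Complex.normSq_eq_norm_sq, ← Complex.normSq_eq_norm_sq, ← Complex.normSq_eq_norm_sq,
      Complex.normSq_sub]
    ring
  have h4 : 0 ≤ ∫ y, ‖f y - P y‖ ^ 2 := integral_nonneg fun y => by positivity
  have h6 := int388 hf2 hre hP2
  rw [← h3] at h6
  have h5 : (∫ y, ‖P y‖ ^ 2) = ∑ n ∈ T, ‖c n‖ ^ 2 := by
    rw [hPe]
    exact int_mul88 T c
  rw [h6, h1, h5] at h4
  linarith

theorem bessel (f : UnitAddCircle → ℂ) (hf : Measurable f) {C : ℝ} (hC : ∀ y, ‖f y‖ ≤ C)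
    (T : Finset ℤ) : ∑ n ∈ T, ‖∫ y, f y * ex n y‖ ^ 2 ≤ ∫ y, ‖f y‖ ^ 2 :=
  bes88 f hf hC T (fun n => ∫ y, f y * ex n y) (fun _ => rfl) _ (fun _ => rfl)

theorem fc_bessel {E : Set UnitAddCircle} (hE : MeasurableSet E) (T : Finset ℤ) :
    ∑ n ∈ T, ‖fc E n‖ ^ 2 ≤ volume.real E := by
  have h := bessel (E.indicator fun _ => (1 : ℂ)) (measurable_const.indicator hE) (C := 1)
    (fun y => by
      by_cases hy : y ∈ E
      · simp [hy]
      · simp [hy]) T
  have h1 : ∀ n : ℤ, (∫ y, (E.indicator fun _ => (1 : ℂ)) y * ex n y) = fc E n := by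
    intro n
    unfold fc
    rw [← integral_indicator hE]
    congr 1
    ext y
    by_cases hy : y ∈ E
    · simp [hy]
    · simp [hy]
  have h2 : (∫ y, ‖(E.indicator fun _ => (1 : ℂ)) y‖ ^ 2) = volume.real E := by
    have : ∀ y, ‖(E.indicator fun _ => (1 : ℂ)) y‖ ^ 2 = (E.indicator fun _ => (1 : ℝ)) y := by
      intro y
      by_cases hy : y ∈ E
      · simp [hy]
      · simp [hy]
    simp_rw [this]
    rw [integral_indicator hE]
    simp
  simp_rw [h1] at h
  rw [h2] at h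
  exact h

end Pool.Agent.Helper5.LE
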