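import Pool.Agent.Helper5.LE.FJ
import Pool.Agent.Helper5.LE.MS

/-!
# Block LE-N1: the Parseval upper bound for the number of labels

Let `m = ⌊1/(8δ)⌋₊`, so `1/(16 δ) ≤ m` (`δ ≤ 1/16`) and `δ ≤ 1/(8m)`: `1[‖x‖ ≤ δ] ≤ (2/m) Fe m x ≤ 32 δ Fe m x` (`Fe_ge`, `Fe_nonneg`). Hence the left side is `≤ 32 δ ∑_{P ∈ A, P' ∈ B} ∫_E ∫_R Fe m (P y - P' y')`. By `Fe_expand` and `ex n (P y - P' y') = ex (nP) y * conj(ex (nP') y')` this is `32 δ ∑_{|n| < m} (1 - |n|/m) z_n conj(w_n)`, `z_n = ∑_{P ∈ A} fc E (nP)`, `w_n = ∑_{P' ∈ B} fc R (nP')`.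
The term `n = 0` is `|A| |B| vol E vol R`. For `n ≠ 0`: Cauchy-Schwarz, `|z_n|^2 ≤ |A| ∑_P |fc E (nP)|^2`, and `∑_{0<|n|<m} ∑_{P ∈ A} |fc E (nP)|^2 ≤ τ ∑_{l} |fc E l|^2 ≤ τ vol E` (every `l ≠ 0`, `|l| ≤ X0 m ≤ X0/(8δ) ≤ Nb`, is `nP` for at most `τ` elements `P ∈ A`: `P ∣ l.natAbs`, `n` determined). The same for `B`, `R`.
-/

set_option autoImplicit false

namespace Pool.Agent.Helper5.LE

open MeasureTheory Finset
open Pool.Agent.Helper25.MOB

private lemma ex_lin15 (n : ℤ) (P Q : ℕ) (y z : UnitAddCircle) :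
    ex n (P • y - Q • z) = ex (n * P) y * (starRingEnd ℂ) (ex (n * Q) z) := by
  have h1 : ex n (-(Q • z)) = (starRingEnd ℂ) (ex n (Q • z)) := by
    rw [conj_ex]
    unfold ex
    rw [fourier_apply, fourier_apply, neg_zsmul, zsmul_neg]
  rw [sub_eq_add_neg, ex_add_arg, h1, ex_nsmul, ex_nsmul]

private lemma zsum15 {A : Finset ℕ} {Nb : ℝ} {τ m : ℕ} (hA : ∀ P ∈ A, 0 < P ∧ (m : ℝ) * P ≤ Nb)
    (hτ : DivB τ Nb A) {E : Set UnitAddCircle} (hE : MeasurableSet E) :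
    ∑ n ∈ (Ioo (-(m : ℤ)) m).erase 0, ‖∑ P ∈ A, fc E (n * (P : ℤ))‖ ^ 2 ≤
      A.card * (τ * volume.real E) := by
  classical
  have h1 : ∀ n ∈ (Ioo (-(m : ℤ)) m).erase 0, ‖∑ P ∈ A, fc E (n * (P : ℤ))‖ ^ 2 ≤
      A.card * ∑ P ∈ A, ‖fc E (n * (P : ℤ))‖ ^ 2 := by
    intro n _
    calc ‖∑ P ∈ A, fc E (n * (P : ℤ))‖ ^ 2 ≤ (∑ P ∈ A, ‖fc E (n * (P : ℤ))‖) ^ 2 := by
          gcongr
          exact norm_sum_le _ _
      _ ≤ A.card * ∑ P ∈ A, ‖fc E (n * (P : ℤ))‖ ^ 2 := sq_sum_le_card_mul_sum_sq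
  refine (Finset.sum_le_sum h1).trans ?_
  rw [← Finset.mul_sum]
  refine mul_le_mul_of_nonneg_left ?_ (by positivity)
  rw [← Finset.sum_product' (s := (Ioo (-(m : ℤ)) m).erase 0) (t := A)
    (f := fun (n : ℤ) (P : ℕ) => ‖fc E (n * (P : ℤ))‖ ^ 2)]
  have h2 := Finset.sum_fiberwise_of_maps_to (s := (Ioo (-(m : ℤ)) m).erase 0 ×ˢ A)
    (t := ((Ioo (-(m : ℤ)) m).erase 0 ×ˢ A).image (fun x : ℤ × ℕ => x.1 * (x.2 : ℤ)))
    (g := fun x : ℤ × ℕ => x.1 * (x.2 : ℤ)) (fun x hx => Finset.mem_image_of_mem _ hx)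
    (fun x : ℤ × ℕ => ‖fc E (x.1 * (x.2 : ℤ))‖ ^ 2)
  rw [← h2]
  calc ∑ l ∈ ((Ioo (-(m : ℤ)) m).erase 0 ×ˢ A).image (fun x : ℤ × ℕ => x.1 * (x.2 : ℤ)),
        ∑ x ∈ ((Ioo (-(m : ℤ)) m).erase 0 ×ˢ A).filter (fun x : ℤ × ℕ => x.1 * (x.2 : ℤ) = l),
          ‖fc E (x.1 * (x.2 : ℤ))‖ ^ 2
      ≤ ∑ l ∈ ((Ioo (-(m : ℤ)) m).erase 0 ×ˢ A).image (fun x : ℤ × ℕ => x.1 * (x.2 : ℤ)),
          (τ : ℝ) * ‖fc E l‖ ^ 2 := by
        refine Finset.sum_le_sum fun l hl => ?_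
        have h3 : ∀ x ∈ ((Ioo (-(m : ℤ)) m).erase 0 ×ˢ A).filter (fun x : ℤ × ℕ => x.1 * (x.2 : ℤ) = l),
            ‖fc E (x.1 * (x.2 : ℤ))‖ ^ 2 = ‖fc E l‖ ^ 2 := by
          intro x hx
          rw [(Finset.mem_filter.1 hx).2]
        rw [Finset.sum_congr rfl h3, Finset.sum_const, nsmul_eq_mul]
        refine mul_le_mul_of_nonneg_right ?_ (by positivity)
        obtain ⟨y, hy, hyl⟩ := Finset.mem_image.1 hl
        have hyl : y.1 * (y.2 : ℤ) = l := hyl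
        rw [Finset.mem_product, Finset.mem_erase, Finset.mem_Ioo] at hy
        obtain ⟨⟨hy0, hy1, hy2⟩, hyA⟩ := hy
        obtain ⟨hP0, hPN⟩ := hA y.2 hyA
        have hl0 : 0 < l.natAbs := by
          rw [Int.natAbs_pos, ← hyl]
          exact mul_ne_zero hy0 (by exact_mod_cast hP0.ne')
        have hlN : (l.natAbs : ℝ) ≤ Nb := by
          refine le_trans ?_ hPN
          rw [← hyl, Int.natAbs_mul, Int.natAbs_natCast, Nat.cast_mul]
          refine mul_le_mul_of_nonneg_right ?_ (by positivity)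
          exact_mod_cast (by omega : y.1.natAbs ≤ m)
        have h4 := hτ l.natAbs hl0 hlN
        have h5 : (((Ioo (-(m : ℤ)) m).erase 0 ×ˢ A).filter
            (fun x : ℤ × ℕ => x.1 * (x.2 : ℤ) = l)).card ≤ (A.filter (· ∣ l.natAbs)).card := by
          refine Finset.card_le_card_of_injOn (fun x => x.2) ?_ ?_
          · intro x hx
            rw [Finset.mem_coe, Finset.mem_filter, Finset.mem_product] at hx
            rw [Finset.mem_coe, Finset.mem_filter]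
            refine ⟨hx.1.2, ?_⟩
            rw [← hx.2, Int.natAbs_mul, Int.natAbs_natCast]
            exact Dvd.intro_left _ rfl
          · intro x hx x' hx' hxx'
            rw [Finset.mem_coe, Finset.mem_filter, Finset.mem_product] at hx hx'
            have hxx' : x.2 = x'.2 := hxx'
            have h6 : x.1 * (x.2 : ℤ) = x'.1 * (x.2 : ℤ) := by
              rw [hx.2, hxx', hx'.2]
            have h7 : (x.2 : ℤ) ≠ 0 := by
              exact_mod_cast (hA x.2 hx.1.2).1.ne'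
            exact Prod.ext (mul_right_cancel₀ h7 h6) hxx'
        exact_mod_cast h5.trans h4
    _ = τ * ∑ l ∈ ((Ioo (-(m : ℤ)) m).erase 0 ×ˢ A).image (fun x : ℤ × ℕ => x.1 * (x.2 : ℤ)),
          ‖fc E l‖ ^ 2 := (Finset.mul_sum _ _ _).symm
    _ ≤ τ * volume.real E := mul_le_mul_of_nonneg_left (fc_bessel hE _) (by positivity)

private lemma int15 {f : UnitAddCircle → ℂ} (hf : Continuous f) (E : Set UnitAddCircle) :
    Integrable f (volume.restrict E) :=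
  (hf.integrable_of_hasCompactSupport (HasCompactSupport.of_compactSpace f)).restrict

private lemma intR15 {f : UnitAddCircle → ℝ} (hf : Continuous f) (E : Set UnitAddCircle) :
    Integrable f (volume.restrict E) :=
  (hf.integrable_of_hasCompactSupport (HasCompactSupport.of_compactSpace f)).restrict

private lemma cont15 (A : Finset ℕ) (n : ℤ) :
    Continuous fun y : UnitAddCircle => ∑ P ∈ A, ex (n * (P : ℤ)) y :=
  continuous_finsetSum _ fun _ _ => continuous_ex _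

private lemma intsum15 (A : Finset ℕ) (n : ℤ) (E : Set UnitAddCircle) :
    ∫ y in E, ∑ P ∈ A, ex (n * (P : ℤ)) y = ∑ P ∈ A, fc E (n * (P : ℤ)) := by
  rw [integral_finsetSum _ fun P _ => int15 (continuous_ex _) E]
  rfl

/-- the double integral of the Fejer kernel -/
private lemma dbl15 (A B : Finset ℕ) {m : ℕ} (hm : 1 ≤ m) (E R : Set UnitAddCircle) :
    (Integrable (fun y => ∫ y' in R, ∑ v ∈ A ×ˢ B, Fe m (v.1 • y - v.2 • y')) (volume.restrict E)) ∧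
    ∫ y in E, ∫ y' in R, ∑ v ∈ A ×ˢ B, Fe m (v.1 • y - v.2 • y') ≤
      ∑ n ∈ Ioo (-(m : ℤ)) m, ‖∑ P ∈ A, fc E (n * (P : ℤ))‖ * ‖∑ P ∈ B, fc R (n * (P : ℤ))‖ := by
  have hcast : ∀ y y' : UnitAddCircle, ((∑ v ∈ A ×ˢ B, Fe m (v.1 • y - v.2 • y') : ℝ) : ℂ) =
      ∑ n ∈ Ioo (-(m : ℤ)) m, ((1 - |(n : ℝ)| / m : ℝ) : ℂ) * ((∑ P ∈ A, ex (n * (P : ℤ)) y) *
        (starRingEnd ℂ) (∑ P ∈ B, ex (n * (P : ℤ)) y')) := by
    intro y y'
    rw [Complex.ofReal_sum]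
    simp_rw [Fe_expand hm]
    rw [Finset.sum_comm]
    refine Finset.sum_congr rfl fun n _ => ?_
    rw [← Finset.mul_sum, map_sum, Finset.sum_mul_sum, ← Finset.sum_product']
    congr 1
    exact Finset.sum_congr rfl fun v _ => ex_lin15 n v.1 v.2 y y'
  have hin : ∀ y : UnitAddCircle, ((∫ y' in R, ∑ v ∈ A ×ˢ B, Fe m (v.1 • y - v.2 • y') : ℝ) : ℂ) =
      ∑ n ∈ Ioo (-(m : ℤ)) m, ((1 - |(n : ℝ)| / m : ℝ) : ℂ) * ((∑ P ∈ A, ex (n * (P : ℤ)) y) *
        (starRingEnd ℂ) (∑ P ∈ B, fc R (n * (P : ℤ)))) := by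
    intro y
    rw [← integral_complex_ofReal]
    simp_rw [hcast]
    rw [integral_finsetSum _ fun n _ => ?_]
    · refine Finset.sum_congr rfl fun n _ => ?_
      rw [integral_const_mul, integral_const_mul, integral_conj, intsum15]
    · exact int15 (continuous_const.mul (continuous_const.mul
        (Complex.continuous_conj.comp (cont15 B n)))) R
  have hcont : Continuous fun y : UnitAddCircle => ∑ n ∈ Ioo (-(m : ℤ)) m,
      ((1 - |(n : ℝ)| / m : ℝ) : ℂ) * ((∑ P ∈ A, ex (n * (P : ℤ)) y) *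
        (starRingEnd ℂ) (∑ P ∈ B, fc R (n * (P : ℤ)))) :=
    continuous_finsetSum _ fun n _ => continuous_const.mul ((cont15 A n).mul continuous_const)
  have hre : (fun y : UnitAddCircle => ∫ y' in R, ∑ v ∈ A ×ˢ B, Fe m (v.1 • y - v.2 • y')) =
      fun y => (∑ n ∈ Ioo (-(m : ℤ)) m,
      ((1 - |(n : ℝ)| / m : ℝ) : ℂ) * ((∑ P ∈ A, ex (n * (P : ℤ)) y) *
        (starRingEnd ℂ) (∑ P ∈ B, fc R (n * (P : ℤ))))).re := by
    funext y
    rw [← hin y, Complex.ofReal_re]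
  refine ⟨?_, ?_⟩
  · rw [hre]
    exact intR15 (Complex.continuous_re.comp hcont) E
  have hout : ((∫ y in E, ∫ y' in R, ∑ v ∈ A ×ˢ B, Fe m (v.1 • y - v.2 • y') : ℝ) : ℂ) =
      ∑ n ∈ Ioo (-(m : ℤ)) m, ((1 - |(n : ℝ)| / m : ℝ) : ℂ) * ((∑ P ∈ A, fc E (n * (P : ℤ))) *
        (starRingEnd ℂ) (∑ P ∈ B, fc R (n * (P : ℤ)))) := by
    rw [← integral_complex_ofReal]
    simp_rw [hin]
    rw [integral_finsetSum _ fun n _ => ?_]
    · refine Finset.sum_congr rfl fun n _ => ?_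
      rw [integral_const_mul, integral_mul_const, intsum15]
    · exact int15 (continuous_const.mul ((cont15 A n).mul continuous_const)) E
  calc ∫ y in E, ∫ y' in R, ∑ v ∈ A ×ˢ B, Fe m (v.1 • y - v.2 • y')
      ≤ ‖((∫ y in E, ∫ y' in R, ∑ v ∈ A ×ˢ B, Fe m (v.1 • y - v.2 • y') : ℝ) : ℂ)‖ := by
        rw [Complex.norm_real]
        exact Real.le_norm_self _
    _ ≤ ∑ n ∈ Ioo (-(m : ℤ)) m, ‖((1 - |(n : ℝ)| / m : ℝ) : ℂ) * ((∑ P ∈ A, fc E (n * (P : ℤ))) *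
        (starRingEnd ℂ) (∑ P ∈ B, fc R (n * (P : ℤ))))‖ := by
        rw [hout]
        exact norm_sum_le _ _
    _ ≤ ∑ n ∈ Ioo (-(m : ℤ)) m, ‖∑ P ∈ A, fc E (n * (P : ℤ))‖ * ‖∑ P ∈ B, fc R (n * (P : ℤ))‖ := by
        refine Finset.sum_le_sum fun n hn => ?_
        rw [Finset.mem_Ioo] at hn
        rw [norm_mul, norm_mul, RCLike.norm_conj, Complex.norm_real]
        have hm0 : (0 : ℝ) < m := by exact_mod_cast hm
        have h1 : |(n : ℝ)| ≤ m := by
          rw [abs_le]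
          constructor
          · exact_mod_cast hn.1.le
          · exact_mod_cast hn.2.le
        have h2 : |(n : ℝ)| / m ≤ 1 := (div_le_one hm0).2 h1
        have h3 : 0 ≤ |(n : ℝ)| / m := by positivity
        have h4 : ‖(1 - |(n : ℝ)| / m : ℝ)‖ ≤ 1 := by
          rw [Real.norm_eq_abs, abs_le]
          constructor <;> linarith
        calc ‖(1 - |(n : ℝ)| / m : ℝ)‖ * (‖∑ P ∈ A, fc E (n * (P : ℤ))‖ * ‖∑ P ∈ B, fc R (n * (P : ℤ))‖)
            ≤ 1 * (‖∑ P ∈ A, fc E (n * (P : ℤ))‖ * ‖∑ P ∈ B, fc R (n * (P : ℤ))‖) :=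
              mul_le_mul_of_nonneg_right h4 (by positivity)
          _ = _ := one_mul _

private lemma zero15 (A : Finset ℕ) (E : Set UnitAddCircle) :
    ‖∑ P ∈ A, fc E (0 * (P : ℤ))‖ = A.card * volume.real E := by
  have h1 : ∀ P ∈ A, fc E (0 * (P : ℤ)) = ((volume.real E : ℝ) : ℂ) := by
    intro P _
    unfold fc
    simp_rw [zero_mul, ex_zero]
    rw [setIntegral_const]
    simp
  rw [Finset.sum_congr rfl h1, Finset.sum_const, nsmul_eq_mul, norm_mul, Complex.norm_real,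
    Complex.norm_natCast, Real.norm_of_nonneg measureReal_nonneg]

theorem cnt_le {A B : Finset ℕ} {δ X0 Nb : ℝ} {τ : ℕ} (hA : ∀ P ∈ A, 0 < P ∧ (P : ℝ) ≤ X0)
    (hB : ∀ P ∈ B, 0 < P ∧ (P : ℝ) ≤ X0) (hδ : 0 < δ) (hδ1 : δ ≤ 1 / 16) (hX : X0 ≤ δ * Nb)
    (hτA : DivB τ Nb A) (hτB : DivB τ Nb B) {E R : Set UnitAddCircle} (hE : MeasurableSet E)
    (hR : MeasurableSet R) :
    ∫ y in E, ∫ y' in R, ((lab A B δ y y').card : ℝ) ≤
      32 * δ * (A.card * B.card * (volume.real E * volume.real R) +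
        τ * √(A.card * B.card * (volume.real E * volume.real R))) := by
  classical
  obtain ⟨m, hm⟩ : ∃ m : ℕ, m = ⌊1 / (8 * δ)⌋₊ := ⟨_, rfl⟩
  have hm1 : (m : ℝ) ≤ 1 / (8 * δ) := by
    rw [hm]
    exact Nat.floor_le (by positivity)
  have hm2 : 1 / (8 * δ) < m + 1 := by
    rw [hm]
    exact Nat.lt_floor_add_one _
  have h16 : 1 ≤ 1 / (16 * δ) := by
    rw [le_div_iff₀ (by positivity)]
    linarith
  have h8 : 1 / (8 * δ) = 2 * (1 / (16 * δ)) := by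
    field_simp
    norm_num
  have hm3 : 1 / (16 * δ) ≤ m := by linarith
  have hm4 : (1 : ℝ) ≤ m := by linarith
  have hm5 : 1 ≤ m := by exact_mod_cast hm4
  have hm6 : δ ≤ 1 / (8 * m) := by
    rw [le_div_iff₀ (by positivity)] at hm1 ⊢
    linarith
  have hm7 : 1 ≤ 32 * δ * ((m : ℝ) / 2) := by
    rw [div_le_iff₀ (by positivity)] at hm3
    linarith
  have hXN : ∀ P : ℕ, 0 < P → (P : ℝ) ≤ X0 → (m : ℝ) * P ≤ Nb := by
    intro P hP hPX
    have hP1 : (1 : ℝ) ≤ P := by exact_mod_cast hP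
    have h1 : (m : ℝ) * (8 * δ) ≤ 1 := by
      rwa [le_div_iff₀ (by positivity)] at hm1
    have h2 : (m : ℝ) * P ≤ m * (δ * Nb) := mul_le_mul_of_nonneg_left (hPX.trans hX) (by positivity)
    have hN : 0 < Nb := by
      have : 0 < δ * Nb := by linarith
      exact pos_of_mul_pos_right this hδ.le
    nlinarith
  have hpt : ∀ y y' : UnitAddCircle, ((lab A B δ y y').card : ℝ) ≤
      32 * δ * ∑ v ∈ A ×ˢ B, Fe m (v.1 • y - v.2 • y') := by
    intro y y'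
    rw [Finset.mul_sum]
    calc ((lab A B δ y y').card : ℝ) = ∑ v ∈ lab A B δ y y', (1 : ℝ) := by simp
      _ ≤ ∑ v ∈ lab A B δ y y', 32 * δ * Fe m (v.1 • y - v.2 • y') := by
          refine Finset.sum_le_sum fun v hv => ?_
          have h1 := (mem_lab.1 hv).2
          have h2 := Fe_ge hm5 (h1.trans hm6)
          calc (1 : ℝ) ≤ 32 * δ * ((m : ℝ) / 2) := hm7
            _ ≤ _ := mul_le_mul_of_nonneg_left h2 (by positivity)
      _ ≤ ∑ v ∈ A ×ˢ B, 32 * δ * Fe m (v.1 • y - v.2 • y') := by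
          refine Finset.sum_le_sum_of_subset_of_nonneg (fun v hv => ?_) fun v _ _ =>
            mul_nonneg (by positivity) (Fe_nonneg _ _)
          exact Finset.mem_product.2 (mem_lab.1 hv).1
  obtain ⟨hint, hdbl⟩ := dbl15 A B hm5 E R
  have step1 : ∫ y in E, ∫ y' in R, ((lab A B δ y y').card : ℝ) ≤
      32 * δ * ∫ y in E, ∫ y' in R, ∑ v ∈ A ×ˢ B, Fe m (v.1 • y - v.2 • y') := by
    rw [← integral_const_mul]
    refine integral_mono_of_nonneg (Filter.Eventually.of_forall fun y =>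
      integral_nonneg fun y' => by positivity) (hint.const_mul _) (Filter.Eventually.of_forall fun y => ?_)
    show ∫ y' in R, ((lab A B δ y y').card : ℝ) ≤
      32 * δ * ∫ y' in R, ∑ v ∈ A ×ˢ B, Fe m (v.1 • y - v.2 • y')
    rw [← integral_const_mul]
    refine integral_mono_of_nonneg (Filter.Eventually.of_forall fun y' => by positivity) ?_
      (Filter.Eventually.of_forall fun y' => hpt y y')
    refine intR15 ?_ R
    refine continuous_const.mul (continuous_finsetSum _ fun v _ => (continuous_Fe m).comp ?_)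
    exact continuous_const.sub (continuous_nsmul v.2)
  refine step1.trans (mul_le_mul_of_nonneg_left (hdbl.trans ?_) (by positivity))
  have h0 : (0 : ℤ) ∈ Ioo (-(m : ℤ)) m := by
    rw [Finset.mem_Ioo]
    omega
  rw [← Finset.add_sum_erase _ _ h0, zero15, zero15]
  have hz := zsum15 (m := m) (fun P hP => ⟨(hA P hP).1, hXN P (hA P hP).1 (hA P hP).2⟩) hτA hE
  have hw := zsum15 (m := m) (fun P hP => ⟨(hB P hP).1, hXN P (hB P hP).1 (hB P hP).2⟩) hτB hR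
  have hvE : 0 ≤ volume.real E := measureReal_nonneg
  have hvR : 0 ≤ volume.real R := measureReal_nonneg
  have hcs : ∑ n ∈ (Ioo (-(m : ℤ)) m).erase 0,
      ‖∑ P ∈ A, fc E (n * (P : ℤ))‖ * ‖∑ P ∈ B, fc R (n * (P : ℤ))‖ ≤
      τ * √(A.card * B.card * (volume.real E * volume.real R)) := by
    refine (Real.sum_mul_le_sqrt_mul_sqrt _ _ _).trans ?_
    calc √(∑ n ∈ (Ioo (-(m : ℤ)) m).erase 0, ‖∑ P ∈ A, fc E (n * (P : ℤ))‖ ^ 2) *
          √(∑ n ∈ (Ioo (-(m : ℤ)) m).erase 0, ‖∑ P ∈ B, fc R (n * (P : ℤ))‖ ^ 2)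
        ≤ √(A.card * (τ * volume.real E)) * √(B.card * (τ * volume.real R)) := by gcongr
      _ = √((τ : ℝ) ^ 2 * (A.card * B.card * (volume.real E * volume.real R))) := by
          rw [← Real.sqrt_mul (by positivity)]
          congr 1
          ring
      _ = τ * √(A.card * B.card * (volume.real E * volume.real R)) := by
          rw [Real.sqrt_mul (by positivity), Real.sqrt_sq (by positivity)]
  have h9 : (A.card : ℝ) * volume.real E * (B.card * volume.real R) =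
      A.card * B.card * (volume.real E * volume.real R) := by ring
  rw [h9]
  linarith

end Pool.Agent.Helper5.LE
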