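import Pool.Agent.Helper5.LE.Defs
import Pool.Agent.Helper25.MOB.C1

/-!
# Block LE-P1: products of primes from disjoint windows, basic facts

`PP S I` = products of one prime of each window `[2^i S, 2^(i+1) S)`, `i ∈ I`. Windows of different index are disjoint (for `S ≥ 1`). Factors: `2^i S ≤ p < 2^(i+1) S`, so `S^|I| ≤ P ≤ (∏_{i ∈ I} 2^(i+1)) S^|I| ≤ 2^(k(k+1)/2) S^|I| ≤ cc k S^|I|`
(`k(k+1)/2 ≤ k^2` for all `k`; `I ⊆ range k`); in `mem_PP` the bound of the `range` is automatic. The number of elements is at most `∏ |win S i| ≤ ∏ 2^i S ≤ cc k S^|I|` (image of a product set; e.g. induction on `I` with `Finset.induction_on`, or `Finset.pi`).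
`P` is squarefree with `|I|` prime factors (distinct primes, one in each window), so `μ(P) = (-1)^|I|`.
-/

set_option autoImplicit false

namespace Pool.Agent.Helper5.LE

open MeasureTheory Finset
open Pool.Agent.Helper25.MOB

theorem mem_win {S i p : ℕ} : p ∈ win S i ↔ (2 ^ i * S ≤ p ∧ p < 2 ^ (i + 1) * S) ∧ p.Prime := by
  unfold win
  rw [mem_primesIn, pow_succ]
  constructor
  · rintro ⟨⟨h1, h2⟩, h3⟩
    exact ⟨⟨h1, by linarith [h2]⟩, h3⟩
  · rintro ⟨⟨h1, h2⟩, h3⟩
    exact ⟨⟨h1, by linarith [h2]⟩, h3⟩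

theorem win_disj {S i j p : ℕ} (hS : 1 ≤ S) (hi : p ∈ win S i) (hj : p ∈ win S j) : i = j := by
  rw [mem_win] at hi hj
  obtain ⟨⟨a1, a2⟩, -⟩ := hi
  obtain ⟨⟨b1, b2⟩, -⟩ := hj
  rcases lt_trichotomy i j with h | h | h
  · exfalso
    have : 2 ^ (i + 1) * S ≤ 2 ^ j * S := Nat.mul_le_mul_right S (Nat.pow_le_pow_right (by norm_num) h)
    omega
  · exact h
  · exfalso
    have : 2 ^ (j + 1) * S ≤ 2 ^ i * S := Nat.mul_le_mul_right S (Nat.pow_le_pow_right (by norm_num) h)
    omega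

theorem mem_PP {S n : ℕ} {I : Finset ℕ} :
    n ∈ PP S I ↔ ∃ f : ℕ → ℕ, (∀ i ∈ I, f i ∈ win S i) ∧ n = ∏ i ∈ I, f i := by
  classical
  unfold PP
  rw [Finset.mem_filter]
  constructor
  · exact fun h => h.2
  · rintro ⟨f, hf, hn⟩
    refine ⟨?_, f, hf, hn⟩
    rw [Finset.mem_range, hn, Nat.lt_succ_iff]
    refine Finset.prod_le_prod (fun i _ => Nat.zero_le _) fun i hi => ?_
    have := (mem_win.1 (hf i hi)).1.2
    rw [pow_succ] at this
    linarith

private lemma sum_le26 {k : ℕ} {I : Finset ℕ} (hI : I ⊆ range k) : ∑ i ∈ I, (i + 1) ≤ k ^ 2 := by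
  have h1 : ∑ i ∈ I, (i + 1) ≤ I.card • k := Finset.sum_le_card_nsmul I _ k fun i hi => by
    have := Finset.mem_range.1 (hI hi)
    omega
  have h2 : I.card ≤ k := by
    have := Finset.card_le_card hI
    rwa [Finset.card_range] at this
  refine h1.trans ?_
  rw [smul_eq_mul, pow_two]
  exact Nat.mul_le_mul_right k h2

theorem PP_bounds {S k P : ℕ} {I : Finset ℕ} (hI : I ⊆ range k) (hP : P ∈ PP S I) :
    S ^ I.card ≤ P ∧ P ≤ cc k * S ^ I.card := by
  obtain ⟨f, hf, rfl⟩ := mem_PP.1 hP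
  constructor
  · rw [← Finset.prod_const]
    refine Finset.prod_le_prod (fun i _ => Nat.zero_le _) fun i hi => ?_
    have h1 := (mem_win.1 (hf i hi)).1.1
    exact (Nat.le_mul_of_pos_left S (by positivity)).trans h1
  · have h1 : ∏ i ∈ I, f i ≤ ∏ i ∈ I, (2 ^ (i + 1) * S) :=
      Finset.prod_le_prod (fun i _ => Nat.zero_le _) fun i hi => (mem_win.1 (hf i hi)).1.2.le
    refine h1.trans ?_
    rw [Finset.prod_mul_distrib, Finset.prod_const, Finset.prod_pow_eq_pow_sum]
    refine Nat.mul_le_mul_right _ ?_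
    exact Nat.pow_le_pow_right (by norm_num) (sum_le26 hI)

theorem PP_pos {S P : ℕ} {I : Finset ℕ} (hP : P ∈ PP S I) : 0 < P := by
  obtain ⟨f, hf, rfl⟩ := mem_PP.1 hP
  exact Finset.prod_pos fun i hi => (mem_win.1 (hf i hi)).2.pos

private lemma card_win26 (S i : ℕ) : (win S i).card ≤ 2 ^ i * S := by
  unfold win primesIn
  refine (Finset.card_filter_le _ _).trans ?_
  rw [Nat.card_Ico]
  omega

private lemma card_aux26 (S : ℕ) (I : Finset ℕ) : (PP S I).card ≤ ∏ i ∈ I, (2 ^ i * S) := by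
  classical
  induction I using Finset.induction_on with
  | empty =>
    rw [Finset.prod_empty, Finset.card_le_one]
    intro a ha b hb
    obtain ⟨f, -, ha⟩ := mem_PP.1 ha
    obtain ⟨g, -, hb⟩ := mem_PP.1 hb
    rw [ha, hb, Finset.prod_empty, Finset.prod_empty]
  | insert a I ha ih =>
    have hsub : PP S (insert a I) ⊆ (win S a ×ˢ PP S I).image fun v => v.1 * v.2 := by
      intro n hn
      obtain ⟨f, hf, hn⟩ := mem_PP.1 hn
      rw [Finset.prod_insert ha] at hn
      rw [Finset.mem_image]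
      refine ⟨(f a, ∏ i ∈ I, f i), ?_, hn.symm⟩
      rw [Finset.mem_product]
      exact ⟨hf a (Finset.mem_insert_self a I), mem_PP.2 ⟨f, fun i hi => hf i (Finset.mem_insert_of_mem hi), rfl⟩⟩
    rw [Finset.prod_insert ha]
    refine (Finset.card_le_card hsub).trans (Finset.card_image_le.trans ?_)
    rw [Finset.card_product]
    exact Nat.mul_le_mul (card_win26 S a) ih

theorem PP_card_le {S k : ℕ} {I : Finset ℕ} (hI : I ⊆ range k) :
    (PP S I).card ≤ cc k * S ^ I.card := by
  refine (card_aux26 S I).trans ?_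
  rw [Finset.prod_mul_distrib, Finset.prod_const, Finset.prod_pow_eq_pow_sum]
  refine Nat.mul_le_mul_right _ ?_
  refine Nat.pow_le_pow_right (by norm_num) ?_
  exact (Finset.sum_le_sum fun i _ => Nat.le_succ i).trans (sum_le26 hI)

private lemma cop_aux26 {S : ℕ} (hS : 1 ≤ S) {I : Finset ℕ} {f : ℕ → ℕ} (hf : ∀ i ∈ I, f i ∈ win S i)
    {i j : ℕ} (hi : i ∈ I) (hj : j ∈ I) (hij : i ≠ j) : (f i).Coprime (f j) := by
  rw [Nat.coprime_primes (mem_win.1 (hf i hi)).2 (mem_win.1 (hf j hj)).2]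
  intro h
  exact hij (win_disj hS (hf i hi) (by rw [h]; exact hf j hj))

private lemma sqf_aux26 {S : ℕ} (hS : 1 ≤ S) (I : Finset ℕ) (f : ℕ → ℕ) (hf : ∀ i ∈ I, f i ∈ win S i) :
    Squarefree (∏ i ∈ I, f i) := by
  classical
  induction I using Finset.induction_on with
  | empty => rw [Finset.prod_empty]; exact squarefree_one
  | insert a I ha ih =>
    rw [Finset.prod_insert ha, Nat.squarefree_mul]
    · exact ⟨(mem_win.1 (hf a (Finset.mem_insert_self a I))).2.squarefree,
        ih fun i hi => hf i (Finset.mem_insert_of_mem hi)⟩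
    · refine Nat.Coprime.prod_right fun i hi => ?_
      refine cop_aux26 hS hf (Finset.mem_insert_self a I) (Finset.mem_insert_of_mem hi) ?_
      rintro rfl
      exact ha hi

theorem PP_squarefree {S P : ℕ} {I : Finset ℕ} (hS : 1 ≤ S) (hP : P ∈ PP S I) :
    Squarefree P := by
  obtain ⟨f, hf, rfl⟩ := mem_PP.1 hP
  exact sqf_aux26 hS I f hf

theorem PP_moebius {S P : ℕ} {I : Finset ℕ} (hS : 1 ≤ S) (hP : P ∈ PP S I) :
    P.primeFactors.card = I.card ∧ ArithmeticFunction.moebius P = (-1) ^ I.card := by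
  obtain ⟨f, hf, rfl⟩ := mem_PP.1 hP
  constructor
  · have hinj : Set.InjOn f (I : Set ℕ) := by
      intro i hi j hj hij
      exact win_disj hS (hf i hi) (by rw [hij]; exact hf j hj)
    have h1 : ∏ i ∈ I, f i = ∏ p ∈ I.image f, p := (Finset.prod_image (f := fun p => p) hinj).symm
    rw [h1, Nat.primeFactors_prod]
    · exact Finset.card_image_of_injOn hinj
    · intro p hp
      obtain ⟨i, hi, rfl⟩ := Finset.mem_image.1 hp
      exact (mem_win.1 (hf i hi)).2
  · rw [ArithmeticFunction.isMultiplicative_moebius.map_prod]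
    · rw [← Finset.prod_const]
      exact Finset.prod_congr rfl fun i hi => ArithmeticFunction.moebius_apply_prime (mem_win.1 (hf i hi)).2
    · intro i hi j hj hij
      exact cop_aux26 hS hf hi hj hij

end Pool.Agent.Helper5.LE
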