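import Pool.Agent.Helper5.LE.DH
import Pool.Agent.Helper5.LE.NA
import Pool.Agent.Helper5.LE.CD
import Pool.Agent.Helper25.MOB.I1

/-!
# Block LE-R1: the main inequality

`A = PP S (range k)`, `δ = r S^k`, `n(y,y') = #labc`, symmetric in `(y, y')` (exchange `P, P'`), `R0 = R \ R1`, `ρ = vol R`, `ρ1 = vol R1`, `c = cc k`. `1_{R×R} ≤ 1_{R1 × R} + 1_{R × R1} + 1_{R0 × R0}`, so `∫_R ∫_R n ≤ 2 ∫_{R1} ∫_R n + ∫_{R0} ∫_{R0} n` (Fubini, symmetry).
First term: `labc ⊆ lab`, `cnt_le` (`X0 = c S^k ≤ δ Nb`): `≤ 32 δ (|A|^2 ρ1 ρ + τ |A| √(ρ1 ρ))` (`√(|A|^2 x) = |A| √x`), `|A| ≤ c S^k`; `ρ1 ρ S^(2k) ≤ S^k √(ρ1 ρ)` since `S^k √(ρ1 ρ) ≤ S^k ρ ≤ 1`; so `≤ 32 r S^(2k) √(ρ1 ρ) (c^2 + τ c) ≤ 64 c^2 τ r S^(2k) √(ρ1 ρ)`.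
Second term: `pair_lemma` pointwise; `∫_{R0} ∫_{R0} (K0 + 2 + 2 om(y) + 2 om(y')) ≤ (K0 + 2) ρ^2 + 4 ρ ∫_R om`; each `∫∫ nt(y, y')` and `∫∫ nt(y', y)` is bounded by `T_bound` (for `R0`, `vol R0 ≤ ρ`); there are at most `Jm 2^k 2^k` types.
-/

set_option autoImplicit false

namespace Pool.Agent.Helper5.LE

open MeasureTheory Finset
open Pool.Agent.Helper25.MOB

theorem labc_symm (A : Finset ℕ) (δ : ℝ) (y y' : UnitAddCircle) :
    (labc A A δ y y').card = (labc A A δ y' y).card := by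
  classical
  have key : ∀ (y y' : UnitAddCircle) (v : ℕ × ℕ), v ∈ labc A A δ y y' → (v.2, v.1) ∈ labc A A δ y' y := by
    intro y y' v hv
    simp only [labc, mem_filter, mem_lab] at hv ⊢
    obtain ⟨⟨⟨h1, h2⟩, h3⟩, h4⟩ := hv
    refine ⟨⟨⟨h2, h1⟩, ?_⟩, h4.symm⟩
    rw [← norm_neg, neg_sub]
    exact h3
  refine Finset.card_bij (fun v _ => (v.2, v.1)) (fun v hv => key y y' v hv) ?_ ?_
  · rintro ⟨a, b⟩ _ ⟨c, d⟩ _ h
    simp only [Prod.mk.injEq] at h ⊢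
    exact ⟨h.2, h.1⟩
  · rintro ⟨a, b⟩ h
    exact ⟨(b, a), key y' y _ h, rfl⟩

private lemma int27 {F : UnitAddCircle × UnitAddCircle → ℝ} (hF : Measurable F) {C : ℝ}
    (h : ∀ z, ‖F z‖ ≤ C) (T : Set (UnitAddCircle × UnitAddCircle)) :
    IntegrableOn F T ((volume : Measure UnitAddCircle).prod volume) :=
  (Integrable.of_bound hF.aestronglyMeasurable C (Filter.Eventually.of_forall h)).integrableOn

private lemma first27 {c t r L N x ρ : ℝ} (hc : 1 ≤ c) (ht : 1 ≤ t) (hr : 0 < r) (hL : 0 ≤ L) (hN0 : 0 ≤ N)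
    (hN : N ≤ c * L) (hx0 : 0 ≤ x) (hxρ : x ≤ ρ) (hLρ : L * ρ ≤ 1) :
    32 * (r * L) * (N * N * (x * x) + t * (N * x)) ≤ 64 * c ^ 2 * t * r * (L * L) * x := by
  have h1 : L * x ≤ 1 := (mul_le_mul_of_nonneg_left hxρ hL).trans hLρ
  have h2 : N * N * (x * x) ≤ c ^ 2 * L * x := by
    have h3 : N * x ≤ c * L * x := mul_le_mul_of_nonneg_right hN hx0
    have h4 : N * x ≤ c := by
      calc N * x ≤ c * (L * x) := by linarith
        _ ≤ c * 1 := mul_le_mul_of_nonneg_left h1 (by linarith)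
        _ = c := mul_one c
    calc N * N * (x * x) = (N * x) * (N * x) := by ring
      _ ≤ c * (c * L * x) := mul_le_mul h4 h3 (mul_nonneg hN0 hx0) (by linarith)
      _ = c ^ 2 * L * x := by ring
  have h5 : t * (N * x) ≤ t * (c * L * x) :=
    mul_le_mul_of_nonneg_left (mul_le_mul_of_nonneg_right hN hx0) (by linarith)
  have hLx : 0 ≤ L * x := mul_nonneg hL hx0
  have h6 : c ^ 2 * L * x + t * (c * L * x) ≤ 2 * c ^ 2 * t * (L * x) := by
    have h7 : c ^ 2 ≤ c ^ 2 * t := by nlinarith [sq_nonneg c]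
    have h8 : t * c ≤ c ^ 2 * t := by
      have h9 : c ≤ c ^ 2 := by nlinarith
      nlinarith
    nlinarith
  have h10 : 0 ≤ 32 * (r * L) := by positivity
  calc 32 * (r * L) * (N * N * (x * x) + t * (N * x)) ≤ 32 * (r * L) * (2 * c ^ 2 * t * (L * x)) :=
        mul_le_mul_of_nonneg_left (by linarith) h10
    _ = 64 * c ^ 2 * t * r * (L * L) * x := by ring

theorem main_ineq {S k τ Jm : ℕ} {r W Nb κ' K0 : ℝ} (H : Hyp S k τ r W Nb κ') (hK : 1 ≤ K0)
    (hKW : 2 * (cc k : ℝ) ^ 6 * (S : ℝ) ^ (2 * k) * r ≤ K0 * W)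
    (hJ : ∀ j : ℕ, 2 ^ j * r ≤ W → j < Jm) {R R1 : Set UnitAddCircle} (hR : MeasurableSet R)
    (hR1 : MeasurableSet R1) (hsub : R1 ⊆ R) (hρ : (S : ℝ) ^ k * volume.real R ≤ 1)
    (hpoor : ∀ q j : ℕ, (q : ℝ) * 2 ^ j * r ≤ W →
      volume.real ((R \ R1) ∩ cl (2 ^ (j + 1) * r) q) ≤ κ' * (q * 2 ^ (j + 1) * r)) :
    ∫ y in R, ∫ y' in R, ((labc (PP S (range k)) (PP S (range k)) (r * S ^ k) y y').card : ℝ) ≤
      128 * cc k ^ 2 * τ * r * (S : ℝ) ^ (2 * k) * √(volume.real R1 * volume.real R) +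
      ((K0 + 2) * (volume.real R) ^ 2 +
        4 * volume.real R * (∫ y in R, (om (cc k * S ^ k) (r * S ^ k) y : ℝ)) +
        2 * (4 ^ k * Jm) * (r * (S : ℝ) ^ (2 * k) * volume.real R *
          (64 * cc k ^ 3 * (S : ℝ) ^ k * volume.real R + 6 * τ * cc k ^ 6 * κ' +
            64 * cc k ^ 2 * (τ : ℝ) ^ 2 / √S))) := by
  classical
  set A : Finset ℕ := PP S (range k) with hA
  set δ : ℝ := r * (S : ℝ) ^ k with hδ
  set ν : Measure (UnitAddCircle × UnitAddCircle) := (volume : Measure UnitAddCircle).prod volume with hν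
  set R0 : Set UnitAddCircle := R \ R1 with hR0d
  have hR0 : MeasurableSet R0 := hR.diff hR1
  have hR0R : R0 ⊆ R := Set.sdiff_subset
  have hr := H.hr
  have hS1 : 1 ≤ S := le_trans (by norm_num) H.hS
  have hSr : (1 : ℝ) ≤ S := by exact_mod_cast hS1
  have hL0 : (0 : ℝ) ≤ (S : ℝ) ^ k := by positivity
  have hc1 : (1 : ℝ) ≤ (cc k : ℝ) := by
    have : 1 ≤ cc k := Nat.one_le_two_pow
    exact_mod_cast this
  have ht1 : (1 : ℝ) ≤ (τ : ℝ) := by exact_mod_cast H.hτ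
  have hδ0 : 0 < δ := by positivity
  have hρ0 : 0 ≤ volume.real R := measureReal_nonneg
  have hρ1 : volume.real R1 ≤ volume.real R := measureReal_mono hsub
  have hρR0 : volume.real R0 ≤ volume.real R := measureReal_mono hR0R
  -- the function
  set F : UnitAddCircle × UnitAddCircle → ℝ := fun z => ((labc A A δ z.1 z.2).card : ℝ) with hF
  have hFm : Measurable F := measurable_labc A A δ
  have hFlab : ∀ z, F z ≤ ((lab A A δ z.1 z.2).card : ℝ) := by
    intro z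
    have h0 : (labc A A δ z.1 z.2).card ≤ (lab A A δ z.1 z.2).card := card_filter_le _ _
    show ((labc A A δ z.1 z.2).card : ℝ) ≤ ((lab A A δ z.1 z.2).card : ℝ)
    exact_mod_cast h0
  have hF0 : ∀ z, 0 ≤ F z := fun z => Nat.cast_nonneg _
  have hFb : ∀ z, ‖F z‖ ≤ (A.card : ℝ) * A.card := by
    intro z
    rw [Real.norm_of_nonneg (hF0 z)]
    exact (hFlab z).trans (lab_card_le A A δ z.1 z.2)
  have hFi : ∀ T, IntegrableOn F T ν := fun T => int27 hFm hFb T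
  have hFs : ∀ z, F z.swap = F z := by
    intro z
    show ((labc A A δ z.2 z.1).card : ℝ) = ((labc A A δ z.1 z.2).card : ℝ)
    rw [labc_symm]
  -- the first region
  have hX0 : ∀ P ∈ A, 0 < P ∧ (P : ℝ) ≤ cc k * (S : ℝ) ^ k := by
    intro P hP
    refine ⟨PP_pos hP, ?_⟩
    have := (PP_bounds (k := k) Subset.rfl hP).2
    rw [card_range] at this
    exact_mod_cast this
  have hN : (A.card : ℝ) ≤ cc k * (S : ℝ) ^ k := by
    have := PP_card_le (S := S) (k := k) (I := range k) Subset.rfl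
    rw [card_range] at this
    exact_mod_cast this
  have hXle : (cc k : ℝ) * (S : ℝ) ^ k ≤ δ * Nb := by
    have := mul_le_mul_of_nonneg_right H.hNb1 hL0
    calc (cc k : ℝ) * (S : ℝ) ^ k ≤ r * Nb * (S : ℝ) ^ k := this
      _ = δ * Nb := by rw [hδ]; ring
  have hlabm : Measurable fun z : UnitAddCircle × UnitAddCircle => ((lab A A δ z.1 z.2).card : ℝ) :=
    measurable_lab A A δ
  have hlabi : ∀ T, IntegrableOn (fun z : UnitAddCircle × UnitAddCircle => ((lab A A δ z.1 z.2).card : ℝ)) T ν := by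
    intro T
    refine int27 hlabm (C := (A.card : ℝ) * A.card) (fun z => ?_) T
    rw [Real.norm_of_nonneg (Nat.cast_nonneg _)]
    exact lab_card_le A A δ z.1 z.2
  set x : ℝ := √(volume.real R1 * volume.real R) with hx
  have hx0 : 0 ≤ x := Real.sqrt_nonneg _
  have hxx : x * x = volume.real R1 * volume.real R :=
    Real.mul_self_sqrt (mul_nonneg measureReal_nonneg measureReal_nonneg)
  have hxρ : x ≤ volume.real R := by
    rw [hx, Real.sqrt_le_left hρ0, sq]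
    exact mul_le_mul_of_nonneg_right hρ1 hρ0
  have hJ1 : ∫ z in R1 ×ˢ R, F z ∂ν ≤ 64 * cc k ^ 2 * τ * r * (S : ℝ) ^ (2 * k) * x := by
    have e1 : ∫ z in R1 ×ˢ R, F z ∂ν ≤ ∫ z in R1 ×ˢ R, ((lab A A δ z.1 z.2).card : ℝ) ∂ν :=
      setIntegral_mono (hFi _) (hlabi _) hFlab
    refine e1.trans ?_
    rw [hν, setIntegral_prod _ (hlabi _)]
    refine (cnt_le hX0 hX0 hδ0 H.hsmall hXle (H.hdiv _ Subset.rfl) (H.hdiv _ Subset.rfl) hR1 hR).trans ?_
    have e2 : √((A.card : ℝ) * A.card * (volume.real R1 * volume.real R)) = A.card * x := by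
      rw [Real.sqrt_mul (by positivity), Real.sqrt_mul_self (by positivity)]
    rw [e2, ← hxx]
    have e3 := first27 (t := (τ : ℝ)) hc1 ht1 hr hL0 (Nat.cast_nonneg A.card) hN hx0 hxρ hρ
    refine e3.trans (le_of_eq ?_)
    rw [two_mul, pow_add]
  have hJ2 : ∫ z in R0 ×ˢ R1, F z ∂ν ≤ ∫ z in R1 ×ˢ R, F z ∂ν := by
    have e1 : ∫ z in R0 ×ˢ R1, F z ∂ν ≤ ∫ z in R ×ˢ R1, F z ∂ν :=
      setIntegral_mono_set (hFi _) (Filter.Eventually.of_forall hF0)
        (Set.prod_mono hR0R le_rfl).eventuallyLE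
    have e2 : ∫ z in R ×ˢ R1, F z ∂ν = ∫ z in R1 ×ˢ R, F z ∂ν := by
      have e3 := setIntegral_prod_swap (μ := (volume : Measure UnitAddCircle)) (ν := (volume : Measure UnitAddCircle)) R1 R F
      simp only [hFs] at e3
      exact e3
    exact e1.trans e2.le
  -- the second region
  set om1 : UnitAddCircle → ℝ := fun y => (om (cc k * S ^ k) δ y : ℝ) with hom1
  have hom0 : ∀ y, 0 ≤ om1 y := fun y => Nat.cast_nonneg _
  have homm : Measurable om1 := measurable_om _ _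
  have homb : ∀ y, ‖om1 y‖ ≤ ((cc k * S ^ k : ℕ) : ℝ) := by
    intro y
    rw [Real.norm_of_nonneg (hom0 y)]
    show ((om (cc k * S ^ k) δ y : ℕ) : ℝ) ≤ ((cc k * S ^ k : ℕ) : ℝ)
    exact_mod_cast om_le (cc k * S ^ k) δ y
  have homi : ∀ E : Set UnitAddCircle, IntegrableOn om1 E volume := fun E =>
    (Integrable.of_bound homm.aestronglyMeasurable _ (Filter.Eventually.of_forall homb)).integrableOn
  set O : ℝ := ∫ y in R, om1 y with hO
  have hO0 : ∫ y in R0, om1 y ≤ O :=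
    setIntegral_mono_set (homi _) (Filter.Eventually.of_forall hom0) hR0R.eventuallyLE
  have hO1 : 0 ≤ ∫ y in R0, om1 y := integral_nonneg hom0
  have hI1 : ∀ T, IntegrableOn (fun z : UnitAddCircle × UnitAddCircle => om1 z.1) T ν := fun T =>
    int27 (homm.comp measurable_fst) (fun z => homb z.1) T
  have hI2 : ∀ T, IntegrableOn (fun z : UnitAddCircle × UnitAddCircle => om1 z.2) T ν := fun T =>
    int27 (homm.comp measurable_snd) (fun z => homb z.2) T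
  have hO2 : ∫ z in R0 ×ˢ R0, om1 z.1 ∂ν ≤ volume.real R * O := by
    rw [hν, setIntegral_prod _ (hI1 _)]
    simp only [setIntegral_const, smul_eq_mul]
    rw [integral_const_mul]
    exact mul_le_mul hρR0 hO0 hO1 hρ0
  have hO3 : ∫ z in R0 ×ˢ R0, om1 z.2 ∂ν ≤ volume.real R * O := by
    rw [hν, setIntegral_prod _ (hI2 _)]
    simp only [setIntegral_const, smul_eq_mul]
    exact mul_le_mul hρR0 hO0 hO1 hρ0
  -- the types
  set BT : ℝ := r * (S : ℝ) ^ (2 * k) * volume.real R *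
          (64 * cc k ^ 3 * (S : ℝ) ^ k * volume.real R + 6 * τ * cc k ^ 6 * κ' +
            64 * cc k ^ 2 * (τ : ℝ) ^ 2 / √S) with hBT
  have hκ := H.hκ
  have hBT0 : 0 ≤ BT := by positivity
  have hntb : ∀ (j : ℕ) (Ia Ib : Finset ℕ) (z : UnitAddCircle × UnitAddCircle),
      ‖nt S k j Ia Ib r W z.1 z.2‖ ≤ ((PP S (range k)).card : ℝ) ^ 2 * ((Fr r W).card : ℝ) ^ 2 := by
    intro j Ia Ib z
    obtain ⟨e1, e2⟩ := nt_bounds S k j Ia Ib r W z.1 z.2
    rw [Real.norm_of_nonneg e1]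
    exact e2
  have hnti : ∀ (j : ℕ) (Ia Ib : Finset ℕ) (T : Set (UnitAddCircle × UnitAddCircle)),
      IntegrableOn (fun z : UnitAddCircle × UnitAddCircle => nt S k j Ia Ib r W z.1 z.2) T ν := fun j Ia Ib T =>
    int27 (measurable_nt S k j Ia Ib r W) (hntb j Ia Ib) T
  have hnti' : ∀ (j : ℕ) (Ia Ib : Finset ℕ) (T : Set (UnitAddCircle × UnitAddCircle)),
      IntegrableOn (fun z : UnitAddCircle × UnitAddCircle => nt S k j Ia Ib r W z.2 z.1) T ν := fun j Ia Ib T =>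
    int27 ((measurable_nt S k j Ia Ib r W).comp measurable_swap) (fun z => hntb j Ia Ib z.swap) T
  have hnt1 : ∀ (j : ℕ) (Ia Ib : Finset ℕ), Ia ⊆ range k → Ib ⊆ range k → Ia.card ≤ Ib.card ∧ Ib ≠ range k →
      ∫ z in R0 ×ˢ R0, nt S k j Ia Ib r W z.1 z.2 ∂ν ≤ BT := by
    intro j Ia Ib hIa hIb h
    rw [hν, setIntegral_prod _ (hnti j Ia Ib _)]
    refine (T_bound H hIa hIb h.1 h.2 hR0 hpoor).trans ?_
    rw [hBT]
    have e1 : 0 ≤ volume.real R0 := measureReal_nonneg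
    gcongr
  have hnt2 : ∀ (j : ℕ) (Ia Ib : Finset ℕ), Ia ⊆ range k → Ib ⊆ range k → Ia.card ≤ Ib.card ∧ Ib ≠ range k →
      ∫ z in R0 ×ˢ R0, nt S k j Ia Ib r W z.2 z.1 ∂ν ≤ BT := by
    intro j Ia Ib hIa hIb h
    have e1 := setIntegral_prod_swap (μ := (volume : Measure UnitAddCircle)) (ν := (volume : Measure UnitAddCircle)) R0 R0
      (fun z : UnitAddCircle × UnitAddCircle => nt S k j Ia Ib r W z.1 z.2)
    have e2 := hnt1 j Ia Ib hIa hIb h
    rw [hν, ← e1] at e2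
    exact e2
  set Ty : Finset (ℕ × Finset ℕ × Finset ℕ) := range Jm ×ˢ (range k).powerset ×ˢ (range k).powerset with hTy
  set g : ℕ × Finset ℕ × Finset ℕ → UnitAddCircle × UnitAddCircle → ℝ := fun q z =>
    if q.2.1.card ≤ q.2.2.card ∧ q.2.2 ≠ range k then
      nt S k q.1 q.2.1 q.2.2 r W z.1 z.2 + nt S k q.1 q.2.1 q.2.2 r W z.2 z.1 else 0 with hg
  have hgi : ∀ q, IntegrableOn (g q) (R0 ×ˢ R0) ν := by
    intro q
    by_cases h : q.2.1.card ≤ q.2.2.card ∧ q.2.2 ≠ range k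
    · have e1 : g q = fun z => nt S k q.1 q.2.1 q.2.2 r W z.1 z.2 + nt S k q.1 q.2.1 q.2.2 r W z.2 z.1 := by
        funext z
        simp only [hg, if_pos h]
      rw [e1]
      exact (hnti _ _ _ _).add (hnti' _ _ _ _)
    · have e1 : g q = fun _ => 0 := by
        funext z
        simp only [hg, if_neg h]
      rw [e1]
      exact integrableOn_zero
  have hgb : ∀ q ∈ Ty, ∫ z in R0 ×ˢ R0, g q z ∂ν ≤ 2 * BT := by
    intro q hq
    rw [hTy, mem_product, mem_product, mem_powerset, mem_powerset] at hq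
    obtain ⟨-, hIa, hIb⟩ := hq
    by_cases h : q.2.1.card ≤ q.2.2.card ∧ q.2.2 ≠ range k
    · simp only [hg, if_pos h]
      rw [integral_add (hnti _ _ _ _) (hnti' _ _ _ _)]
      have e1 := hnt1 q.1 q.2.1 q.2.2 hIa hIb h
      have e2 := hnt2 q.1 q.2.1 q.2.2 hIa hIb h
      linarith
    · simp only [hg, if_neg h, integral_zero]
      linarith
  have hTyc : (Ty.card : ℝ) = 4 ^ k * Jm := by
    rw [hTy, card_product, card_product, card_range, card_powerset, card_range]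
    push_cast
    rw [show (4 : ℝ) = 2 * 2 by norm_num, mul_pow]
    ring
  have hpl : ∀ z, F z ≤ (K0 + 2) + 2 * om1 z.1 + 2 * om1 z.2 + ∑ q ∈ Ty, g q z := by
    intro z
    have e1 := pair_lemma H.hk H.hS hr H.hW0 hK H.h3 hKW hJ z.1 z.2
    refine e1.trans (le_of_eq ?_)
    rw [hTy, sum_product]
    simp only [sum_product, hg]
    rfl
  have hJ3 : ∫ z in R0 ×ˢ R0, F z ∂ν ≤ (K0 + 2) * (volume.real R) ^ 2 + 4 * volume.real R * O +
      2 * (4 ^ k * Jm) * BT := by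
    have i0 : IntegrableOn (fun _ : UnitAddCircle × UnitAddCircle => K0 + 2) (R0 ×ˢ R0) ν :=
      int27 measurable_const (C := ‖K0 + 2‖) (fun _ => le_rfl) _
    have i1 : IntegrableOn (fun z : UnitAddCircle × UnitAddCircle => 2 * om1 z.1) (R0 ×ˢ R0) ν := (hI1 _).const_mul 2
    have i2 : IntegrableOn (fun z : UnitAddCircle × UnitAddCircle => 2 * om1 z.2) (R0 ×ˢ R0) ν := (hI2 _).const_mul 2
    have i3 : IntegrableOn (fun z : UnitAddCircle × UnitAddCircle => ∑ q ∈ Ty, g q z) (R0 ×ˢ R0) ν :=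
      integrable_finsetSum _ fun q _ => hgi q
    have e1 : ∫ z in R0 ×ˢ R0, F z ∂ν ≤
        ∫ z in R0 ×ˢ R0, ((K0 + 2) + 2 * om1 z.1 + 2 * om1 z.2 + ∑ q ∈ Ty, g q z) ∂ν :=
      setIntegral_mono (hFi _) (((i0.add i1).add i2).add i3) hpl
    refine e1.trans ?_
    have e2 : ∫ z in R0 ×ˢ R0, ((K0 + 2) + 2 * om1 z.1 + 2 * om1 z.2 + ∑ q ∈ Ty, g q z) ∂ν =
        (∫ z in R0 ×ˢ R0, (K0 + 2) ∂ν) + (∫ z in R0 ×ˢ R0, 2 * om1 z.1 ∂ν) +
          (∫ z in R0 ×ˢ R0, 2 * om1 z.2 ∂ν) + ∫ z in R0 ×ˢ R0, ∑ q ∈ Ty, g q z ∂ν := by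
      rw [integral_add (f := fun z : UnitAddCircle × UnitAddCircle => (K0 + 2) + 2 * om1 z.1 + 2 * om1 z.2)
          ((i0.add i1).add i2) i3,
        integral_add (f := fun z : UnitAddCircle × UnitAddCircle => (K0 + 2) + 2 * om1 z.1) (i0.add i1) i2,
        integral_add i0 i1]
    rw [e2, integral_const_mul, integral_const_mul, integral_finsetSum _ fun q _ => hgi q]
    have e3 : ∑ q ∈ Ty, ∫ z in R0 ×ˢ R0, g q z ∂ν ≤ 2 * (4 ^ k * Jm) * BT := by
      refine (sum_le_sum hgb).trans ?_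
      rw [sum_const, nsmul_eq_mul, hTyc]
      exact le_of_eq (by ring)
    have e4 : ∫ z in R0 ×ˢ R0, (K0 + 2) ∂ν ≤ (K0 + 2) * (volume.real R) ^ 2 := by
      rw [setIntegral_const, smul_eq_mul, hν, measureReal_prod_prod, mul_comm]
      refine mul_le_mul_of_nonneg_left ?_ (by linarith)
      rw [sq]
      exact mul_le_mul hρR0 hρR0 measureReal_nonneg hρ0
    linarith
  -- assembly
  have hsplit1 : ∫ z in R ×ˢ R, F z ∂ν = (∫ z in R1 ×ˢ R, F z ∂ν) + ∫ z in R0 ×ˢ R, F z ∂ν := by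
    rw [← setIntegral_union ?_ (hR0.prod hR) (hFi _) (hFi _), ← Set.union_prod, hR0d, Set.union_sdiff_cancel hsub]
    exact Set.Disjoint.set_prod_left (Set.disjoint_sdiff_right) _ _
  have hsplit2 : ∫ z in R0 ×ˢ R, F z ∂ν = (∫ z in R0 ×ˢ R1, F z ∂ν) + ∫ z in R0 ×ˢ R0, F z ∂ν := by
    rw [← setIntegral_union ?_ (hR0.prod hR0) (hFi _) (hFi _), ← Set.prod_union]
    · congr 2
      rw [hR0d, Set.union_sdiff_cancel hsub]
    · exact Set.Disjoint.set_prod_right (Set.disjoint_sdiff_right) _ _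
  have hfin : ∫ y in R, ∫ y' in R, ((labc A A δ y y').card : ℝ) = ∫ z in R ×ˢ R, F z ∂ν := by
    rw [hν, setIntegral_prod _ (hFi _)]
  rw [hfin, hsplit1, hsplit2]
  linarith

end Pool.Agent.Helper5.LE
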