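import Pool.Agent.Helper5.LE.Defs
import Pool.Agent.Helper25.MOB.E1
import Pool.Agent.Helper25.MOB.Pair
import Pool.Agent.Helper25.MOB.Pt

/-!
# Block LE-R2: the number of rich classes; conversion of radii

`rich_card`: let `x = Q0 t`, `C q = cl t q`, `ν q = vol (R ∩ C q)`, `s = ∑_{q ∈ T} ν q`. `vol (C q) ≤ 2 t q ≤ 4 x` (`volume_cl_le`), `vol (C q ∩ C q') ≤ 8 t^2 q q' ≤ 32 x^2` for `q ≠ q'` (`volume_cl_inter_le`), `ν q ≥ κ' q t ≥ κ' x`. Cauchy-Schwarz for the function `∑ 1_{C q}` on `R` (see the private lemma in `MOB/E1`, copy it): `s^2 ≤ vol R (s + |T|^2 32 x^2)`. With `|T| κ' x ≤ s ≤ 4 |T| x`: `(|T| κ' x)^2 ≤ ρ (4 |T| x + 32 |T|^2 x^2)`; if `|T| x > 0` divide: `|T| x κ'^2 ≤ 4 ρ + 32 ρ |T| x`, and `32 ρ ≤ κ'^2 / 2`.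
`cl_mono`, `exists_dyadic`: monotonicity in the radius; `2^j'` the smallest power of two `≥ N s` (`N s ≥ 1`).
-/

set_option autoImplicit false

namespace Pool.Agent.Helper5.LE

open MeasureTheory Finset
open Pool.Agent.Helper25.MOB

/-- The square of the integral of a bounded nonnegative function supported in `E`. -/
private theorem sqint71 (E : Set UnitAddCircle) (hE : MeasurableSet E) {g : UnitAddCircle → ℝ}
    (hg : Measurable g) {B : ℝ} (hgB : ∀ z, g z ≤ B) (hg0 : ∀ z, 0 ≤ g z)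
    (hgE : ∀ z, z ∉ E → g z = 0) :
    (∫ z, g z) ^ 2 ≤ volume.real E * ∫ z, g z ^ 2 := by
  have hB0 : 0 ≤ B := (hg0 0).trans (hgB 0)
  have i1 : Integrable g := by
    refine Integrable.of_bound hg.aestronglyMeasurable B (Filter.Eventually.of_forall fun z => ?_)
    rw [Real.norm_eq_abs, abs_of_nonneg (hg0 z)]
    exact hgB z
  have i2 : Integrable fun z => g z ^ 2 := by
    refine Integrable.of_bound (hg.pow_const 2).aestronglyMeasurable (B ^ 2)
      (Filter.Eventually.of_forall fun z => ?_)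
    rw [Real.norm_eq_abs, abs_of_nonneg (sq_nonneg _)]
    exact pow_le_pow_left₀ (hg0 z) (hgB z) 2
  have i3 : Integrable (E.indicator (fun _ => (1 : ℝ)) : UnitAddCircle → ℝ) :=
    (integrable_const 1).indicator hE
  have e3 : ∫ z, E.indicator (fun _ => (1 : ℝ)) z = volume.real E := by
    rw [integral_indicator hE]
    simp
  -- for every `t`, `0 ≤ ∫ (g - t 1_E)^2`
  have key : ∀ t : ℝ, 0 ≤ (∫ z, g z ^ 2) - 2 * t * (∫ z, g z) + t ^ 2 * volume.real E := by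
    intro t
    have h0 : 0 ≤ ∫ z, (g z - t * E.indicator (fun _ => (1 : ℝ)) z) ^ 2 :=
      integral_nonneg fun z => sq_nonneg _
    have h1 : ∀ z, (g z - t * E.indicator (fun _ => (1 : ℝ)) z) ^ 2 =
        g z ^ 2 - 2 * t * g z + t ^ 2 * E.indicator (fun _ => (1 : ℝ)) z := by
      intro z
      by_cases hz : z ∈ E
      · rw [Set.indicator_of_mem hz]
        ring
      · rw [Set.indicator_of_notMem hz, hgE z hz]
        ring
    rw [integral_congr_ae (Filter.Eventually.of_forall h1)] at h0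
    have i5 : Integrable fun z => g z ^ 2 - 2 * t * g z := i2.sub (i1.const_mul (2 * t))
    rw [integral_add i5 (i3.const_mul (t ^ 2)),
      integral_sub i2 (i1.const_mul (2 * t)), integral_const_mul, integral_const_mul, e3] at h0
    exact h0
  have hE0 : 0 ≤ volume.real E := measureReal_nonneg
  have hg2 : 0 ≤ ∫ z, g z ^ 2 := integral_nonneg fun z => sq_nonneg _
  have hgi : 0 ≤ ∫ z, g z := integral_nonneg hg0
  rcases hE0.eq_or_lt with h | h
  · -- volume zero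
    have hk : ∀ t : ℝ, 2 * t * (∫ z, g z) ≤ ∫ z, g z ^ 2 := fun t => by
      have := key t
      rw [← h] at this
      linarith
    have hz : ∫ z, g z = 0 := by
      by_contra hne
      have hpos : 0 < ∫ z, g z := lt_of_le_of_ne hgi (Ne.symm hne)
      have h2 := hk (((∫ z, g z ^ 2) + 1) / (2 * ∫ z, g z))
      have h3 : 2 * (((∫ z, g z ^ 2) + 1) / (2 * ∫ z, g z)) * (∫ z, g z) =
          (∫ z, g z ^ 2) + 1 := by
        field_simp
      rw [h3] at h2
      linarith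
    rw [hz, ← h]
    simp
  · have h2 := key ((∫ z, g z) / volume.real E)
    have h3 : (∫ z, g z ^ 2) - 2 * ((∫ z, g z) / volume.real E) * (∫ z, g z) +
        ((∫ z, g z) / volume.real E) ^ 2 * volume.real E =
        (∫ z, g z ^ 2) - (∫ z, g z) ^ 2 / volume.real E := by
      field_simp
      ring
    rw [h3, sub_nonneg, div_le_iff₀ h] at h2
    linarith

private theorem ind71 (A : Set UnitAddCircle) (hA : MeasurableSet A) :
    Integrable (A.indicator (fun _ => (1 : ℝ)) : UnitAddCircle → ℝ) :=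
  (integrable_const 1).indicator hA

private theorem intind71 (A : Set UnitAddCircle) (hA : MeasurableSet A) :
    ∫ z, A.indicator (fun _ => (1 : ℝ)) z = volume.real A := by
  rw [integral_indicator hA]
  simp

/-- Cauchy-Schwarz for the sum of the masses. -/
private theorem csum71 (R : Set UnitAddCircle) (hR : MeasurableSet R) (T : Finset ℕ)
    (C : ℕ → Set UnitAddCircle) (hC : ∀ q ∈ T, MeasurableSet (C q)) {x : ℝ}
    (hov : ∀ q ∈ T, ∀ q' ∈ T, q ≠ q' → volume.real (C q ∩ C q') ≤ 32 * x ^ 2) :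
    (∑ q ∈ T, volume.real (R ∩ C q)) ^ 2 ≤ volume.real (R ∩ ⋃ q ∈ T, C q) *
      (∑ q ∈ T, volume.real (R ∩ C q) + (T.card : ℝ) ^ 2 * (32 * x ^ 2)) := by
  classical
  have hRC : ∀ q ∈ T, MeasurableSet (R ∩ C q) := fun q hq => hR.inter (hC q hq)
  obtain ⟨g, hg⟩ : ∃ g : UnitAddCircle → ℝ, ∀ z, g z =
      ∑ q ∈ T, (R ∩ C q).indicator (fun _ => (1 : ℝ)) z := ⟨_, fun _ => rfl⟩
  have hge : g = fun z => ∑ q ∈ T, (R ∩ C q).indicator (fun _ => (1 : ℝ)) z := funext hg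
  have hEm : MeasurableSet (R ∩ ⋃ q ∈ T, C q) :=
    hR.inter (Finset.measurableSet_biUnion T hC)
  have hgm : Measurable g := by
    rw [hge]
    exact Finset.measurable_sum _ fun q hq => measurable_const.indicator (hRC q hq)
  have hg0 : ∀ z, 0 ≤ g z := fun z => by
    rw [hg]
    exact Finset.sum_nonneg fun q _ => Set.indicator_nonneg (fun _ _ => zero_le_one) z
  have hgB : ∀ z, g z ≤ T.card := fun z => by
    rw [hg]
    calc ∑ q ∈ T, (R ∩ C q).indicator (fun _ => (1 : ℝ)) z ≤ ∑ _q ∈ T, (1 : ℝ) :=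
          Finset.sum_le_sum fun q _ => Set.indicator_le_self' (fun _ _ => zero_le_one) z
      _ = T.card := by simp
  have hgE : ∀ z, z ∉ R ∩ ⋃ q ∈ T, C q → g z = 0 := fun z hz => by
    rw [hg]
    refine Finset.sum_eq_zero fun q hq => Set.indicator_of_notMem (fun h => hz ?_) _
    exact ⟨h.1, Set.mem_biUnion (show q ∈ (T : Set ℕ) from hq) h.2⟩
  have h := sqint71 _ hEm hgm hgB hg0 hgE
  have e1 : ∫ z, g z = ∑ q ∈ T, volume.real (R ∩ C q) := by
    rw [hge, integral_finsetSum _ fun q hq => ind71 _ (hRC q hq)]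
    exact Finset.sum_congr rfl fun q hq => intind71 _ (hRC q hq)
  have e2 : ∫ z, g z ^ 2 = ∑ q ∈ T, ∑ q' ∈ T, volume.real ((R ∩ C q) ∩ (R ∩ C q')) := by
    have e3 : ∀ z, g z ^ 2 = ∑ q ∈ T, ∑ q' ∈ T,
        ((R ∩ C q) ∩ (R ∩ C q')).indicator (fun _ => (1 : ℝ)) z := by
      intro z
      rw [hg, sq, Finset.sum_mul_sum]
      refine Finset.sum_congr rfl fun q _ => Finset.sum_congr rfl fun q' _ => ?_
      by_cases h1 : z ∈ R ∩ C q
      · by_cases h2 : z ∈ R ∩ C q'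
        · rw [Set.indicator_of_mem h1, Set.indicator_of_mem h2,
            Set.indicator_of_mem (show z ∈ (R ∩ C q) ∩ (R ∩ C q') from ⟨h1, h2⟩), one_mul]
        · rw [Set.indicator_of_notMem h2,
            Set.indicator_of_notMem (show z ∉ (R ∩ C q) ∩ (R ∩ C q') from fun h3 => h2 h3.2),
            mul_zero]
      · rw [Set.indicator_of_notMem h1,
          Set.indicator_of_notMem (show z ∉ (R ∩ C q) ∩ (R ∩ C q') from fun h3 => h1 h3.1),
          zero_mul]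
    rw [integral_congr_ae (Filter.Eventually.of_forall e3),
      integral_finsetSum _ fun q hq => integrable_finsetSum _ fun q' hq' =>
        ind71 _ ((hRC q hq).inter (hRC q' hq'))]
    refine Finset.sum_congr rfl fun q hq => ?_
    rw [integral_finsetSum _ fun q' hq' => ind71 _ ((hRC q hq).inter (hRC q' hq'))]
    exact Finset.sum_congr rfl fun q' hq' => intind71 _ ((hRC q hq).inter (hRC q' hq'))
  have e4 : ∀ q ∈ T, ∀ q' ∈ T, volume.real ((R ∩ C q) ∩ (R ∩ C q')) ≤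
      (if q = q' then volume.real (R ∩ C q) else 0) + 32 * x ^ 2 := by
    intro q hq q' hq'
    have hx : 0 ≤ 32 * x ^ 2 := by positivity
    by_cases hqq : q = q'
    · rw [if_pos hqq]
      have : volume.real ((R ∩ C q) ∩ (R ∩ C q')) ≤ volume.real (R ∩ C q) :=
        measureReal_mono Set.inter_subset_left
      linarith
    · rw [if_neg hqq, zero_add]
      refine (measureReal_mono ?_).trans (hov q hq q' hq' hqq)
      exact fun z hz => ⟨hz.1.2, hz.2.2⟩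
  have e5 : ∫ z, g z ^ 2 ≤ ∑ q ∈ T, volume.real (R ∩ C q) + (T.card : ℝ) ^ 2 * (32 * x ^ 2) := by
    rw [e2]
    calc ∑ q ∈ T, ∑ q' ∈ T, volume.real ((R ∩ C q) ∩ (R ∩ C q')) ≤
          ∑ q ∈ T, ∑ q' ∈ T, ((if q = q' then volume.real (R ∩ C q) else 0) + 32 * x ^ 2) :=
          Finset.sum_le_sum fun q hq => Finset.sum_le_sum fun q' hq' => e4 q hq q' hq'
      _ = ∑ q ∈ T, (volume.real (R ∩ C q) + T.card * (32 * x ^ 2)) := by
          refine Finset.sum_congr rfl fun q hq => ?_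
          rw [Finset.sum_add_distrib, Finset.sum_ite_eq, if_pos hq, Finset.sum_const,
            nsmul_eq_mul]
      _ = ∑ q ∈ T, volume.real (R ∩ C q) + (T.card : ℝ) ^ 2 * (32 * x ^ 2) := by
          rw [Finset.sum_add_distrib, Finset.sum_const, nsmul_eq_mul]
          ring
  rw [e1] at h
  exact h.trans (mul_le_mul_of_nonneg_left e5 measureReal_nonneg)

theorem rich_card {R : Set UnitAddCircle} (hR : MeasurableSet R) {T : Finset ℕ} {Q0 : ℕ}
    {t κ' : ℝ} (hQ0 : 1 ≤ Q0) (hQ : T ⊆ Ico Q0 (2 * Q0)) (ht : 0 < t) (hκ : 0 < κ')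
    (hrich : ∀ q ∈ T, κ' * (q * t) ≤ volume.real (R ∩ cl t q))
    (hρ : 64 * volume.real R ≤ κ' ^ 2) :
    (T.card : ℝ) * (Q0 * t) ≤ 8 * volume.real R / κ' ^ 2 := by
  obtain ⟨x, hx⟩ : ∃ x : ℝ, x = Q0 * t := ⟨_, rfl⟩
  obtain ⟨ρ, hρd⟩ : ∃ ρ, ρ = volume.real R := ⟨_, rfl⟩
  have hQ0' : (1 : ℝ) ≤ Q0 := by exact_mod_cast hQ0
  have hx0 : 0 < x := by
    rw [hx]
    positivity
  have hρ0 : 0 ≤ ρ := by
    rw [hρd]
    exact measureReal_nonneg
  have hlo : ∀ q ∈ T, (Q0 : ℝ) ≤ q := fun q hq => by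
    exact_mod_cast (mem_Ico.1 (hQ hq)).1
  have hhi : ∀ q ∈ T, (q : ℝ) ≤ 2 * Q0 := fun q hq => by
    exact_mod_cast (mem_Ico.1 (hQ hq)).2.le
  have hov : ∀ q ∈ T, ∀ q' ∈ T, q ≠ q' →
      volume.real (cl t q ∩ cl t q') ≤ 32 * x ^ 2 := by
    intro q hq q' hq' hne
    refine (volume_cl_inter_le ht.le hne).trans ?_
    have h1 : (q : ℝ) * q' ≤ (2 * Q0) * (2 * Q0) :=
      mul_le_mul (hhi q hq) (hhi q' hq') (Nat.cast_nonneg _) (by positivity)
    have h2 : 8 * t ^ 2 * ((q : ℝ) * q') ≤ 8 * t ^ 2 * ((2 * Q0) * (2 * Q0)) :=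
      mul_le_mul_of_nonneg_left h1 (by positivity)
    rw [hx]
    calc 8 * t ^ 2 * q * q' = 8 * t ^ 2 * ((q : ℝ) * q') := by ring
      _ ≤ 8 * t ^ 2 * ((2 * Q0) * (2 * Q0)) := h2
      _ = 32 * (Q0 * t) ^ 2 := by ring
  have hcs := csum71 R hR T (fun q => cl t q) (fun q _ => measurableSet_cl t q) (x := x) hov
  obtain ⟨s, hs⟩ : ∃ s, s = ∑ q ∈ T, volume.real (R ∩ cl t q) := ⟨_, rfl⟩
  rw [← hs] at hcs
  obtain ⟨n, hn⟩ : ∃ n : ℝ, n = T.card := ⟨_, rfl⟩
  rw [← hn] at hcs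
  have hn0 : 0 ≤ n := by
    rw [hn]
    exact Nat.cast_nonneg _
  have hs1 : n * (κ' * x) ≤ s := by
    rw [hs, hn, ← nsmul_eq_mul, ← Finset.sum_const]
    refine Finset.sum_le_sum fun q hq => ?_
    refine le_trans ?_ (hrich q hq)
    refine mul_le_mul_of_nonneg_left ?_ hκ.le
    rw [hx]
    exact mul_le_mul_of_nonneg_right (hlo q hq) ht.le
  have hs2 : s ≤ n * (4 * x) := by
    rw [hs, hn, ← nsmul_eq_mul, ← Finset.sum_const]
    refine Finset.sum_le_sum fun q hq => ?_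
    refine ((measureReal_mono Set.inter_subset_right).trans (volume_cl_le ht.le q)).trans ?_
    rw [hx]
    have := hhi q hq
    nlinarith
  have hs0 : 0 ≤ s := le_trans (by positivity) hs1
  have hU : volume.real (R ∩ ⋃ q ∈ T, cl t q) ≤ ρ := by
    rw [hρd]
    exact measureReal_mono Set.inter_subset_left
  have h1 : s ^ 2 ≤ ρ * (s + n ^ 2 * (32 * x ^ 2)) :=
    hcs.trans (mul_le_mul_of_nonneg_right hU (by positivity))
  have h2 : (n * (κ' * x)) ^ 2 ≤ s ^ 2 := pow_le_pow_left₀ (by positivity) hs1 2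
  have h3 : ρ * (s + n ^ 2 * (32 * x ^ 2)) ≤ ρ * (n * (4 * x) + n ^ 2 * (32 * x ^ 2)) :=
    mul_le_mul_of_nonneg_left (by linarith) hρ0
  obtain ⟨y, hy⟩ : ∃ y : ℝ, y = n * x := ⟨_, rfl⟩
  have hy0 : 0 ≤ y := by
    rw [hy]
    positivity
  have h4 : κ' ^ 2 * y ^ 2 ≤ 4 * ρ * y + 32 * ρ * y ^ 2 := by
    rw [hy]
    calc κ' ^ 2 * (n * x) ^ 2 = (n * (κ' * x)) ^ 2 := by ring
      _ ≤ ρ * (n * (4 * x) + n ^ 2 * (32 * x ^ 2)) := (h2.trans h1).trans h3
      _ = 4 * ρ * (n * x) + 32 * ρ * (n * x) ^ 2 := by ring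
  rw [← hρd] at hρ
  have h5 : 64 * ρ * y ^ 2 ≤ κ' ^ 2 * y ^ 2 := mul_le_mul_of_nonneg_right hρ (sq_nonneg y)
  rw [← hx, ← hn, ← hρd, ← hy, le_div_iff₀ (by positivity)]
  rcases hy0.eq_or_lt with h | h
  · rw [← h, zero_mul]
    positivity
  · have h6 : y * (y * κ' ^ 2) ≤ y * (8 * ρ) := by nlinarith
    exact le_of_mul_le_mul_left h6 h

theorem cl_mono {t t' : ℝ} (h : t ≤ t') (q : ℕ) : cl t q ⊆ cl t' q := by
  rintro z ⟨a, ha, hz⟩
  exact ⟨a, ha, hz.trans h⟩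

theorem exists_dyadic {N : ℕ} (hN : 0 < N) {s : ℝ} (hs : 1 ≤ N * s) :
    ∃ j : ℕ, s ≤ 2 ^ j / N ∧ (2 : ℝ) ^ j / N ≤ 2 * s := by
  obtain ⟨n, h1, h2⟩ := exists_nat_pow_near hs one_lt_two
  have hN' : (0 : ℝ) < N := by exact_mod_cast hN
  refine ⟨n + 1, ?_, ?_⟩
  · rw [le_div_iff₀ hN']
    linarith
  · rw [div_le_iff₀ hN', pow_succ]
    linarith

end Pool.Agent.Helper5.LE
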