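import Pool.Agent.Helper5.LE.RA
import Pool.Agent.Helper5.LE.RB

/-!
# Block LE-R3: the abstract structure theorem

A pair `(q, j)` is rich if `1 ≤ q`, `q 2^j r ≤ W` and `κ' (q 2^(j+1) r) ≤ vol (R ∩ cl (2^(j+1) r) q)`. Only finitely many (`q ≤ W / r`, `j < Jm`). Let `R1 = R ∩ ⋃_{(q,j) rich} cl (2^(j+1) r) q` (measurable, `measurableSet_cl`). `hpoor` of `main_ineq`: if `(q, j)` is rich then `(R \ R1) ∩ cl = ∅`; if `q = 0` then `cl t 0 = ∅` (`pt_zero`); else the measure is `< κ' (...)` by definition. `main_ineq` and `hI`, `herr` give `I0 / 2 ≤ 128 c^2 τ r S^(2k) √(ρ1 ρ)`, i.e. `(I0 / (256 c^2 τ r S^(2k)))^2 ≤ ρ1 ρ`.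
Pigeonhole: for `i, j < Jm` let `T i j` be the set of the `q ∈ [2^i, 2 * 2^i)` with `(q, j)` rich; every rich `(q, j)` has `j < Jm` and `q ∈ [2^i, 2^(i+1))` with `2^i r ≤ W`, so `i < Jm` (`hJ`). `ρ1 ≤ ∑_{i,j < Jm} vol (R ∩ ⋃_{q ∈ T i j} cl (2^(j+1) r) q)`, so one of the `Jm^2` terms is `≥ ρ1 / Jm^2` (`Jm ≥ 1` since otherwise `ρ1 = 0`, contradiction with `I0 > 0`). `rich_card` with `Q0 = 2^i`, `t = 2^(j+1) r` bounds `|T i j|`.
-/

set_option autoImplicit false

namespace Pool.Agent.Helper5.LE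

open MeasureTheory Finset
open Pool.Agent.Helper25.MOB

theorem struct_abs {S k τ Jm : ℕ} {r W Nb κ' K0 I0 : ℝ} (H : Hyp S k τ r W Nb κ') (hK : 1 ≤ K0)
    (hKW : 2 * (cc k : ℝ) ^ 6 * (S : ℝ) ^ (2 * k) * r ≤ K0 * W)
    (hJ : ∀ j : ℕ, 2 ^ j * r ≤ W → j < Jm) (hκ : 0 < κ') {R : Set UnitAddCircle}
    (hR : MeasurableSet R) (hρ0 : 0 < volume.real R) (hρ : (S : ℝ) ^ k * volume.real R ≤ 1)
    (hρ2 : 64 * volume.real R ≤ κ' ^ 2) (hI0 : 0 < I0)
    (hI : I0 ≤ ∫ y in R, ∫ y' in R,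
      ((labc (PP S (range k)) (PP S (range k)) (r * S ^ k) y y').card : ℝ))
    (herr : (K0 + 2) * (volume.real R) ^ 2 +
        4 * volume.real R * (∫ y in R, (om (cc k * S ^ k) (r * S ^ k) y : ℝ)) +
        2 * (4 ^ k * Jm) * (r * (S : ℝ) ^ (2 * k) * volume.real R *
          (64 * cc k ^ 3 * (S : ℝ) ^ k * volume.real R + 6 * τ * cc k ^ 6 * κ' +
            64 * cc k ^ 2 * (τ : ℝ) ^ 2 / √S)) ≤ I0 / 2) :
    ∃ (i j : ℕ) (T : Finset ℕ), T ⊆ Ico (2 ^ i) (2 * 2 ^ i) ∧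
      (T.card : ℝ) * ((2 ^ i : ℕ) * (2 ^ (j + 1) * r)) ≤ 8 * volume.real R / κ' ^ 2 ∧
      (I0 / (256 * cc k ^ 2 * τ * r * (S : ℝ) ^ (2 * k))) ^ 2 ≤
        (Jm : ℝ) ^ 2 *
          (volume.real (R ∩ ⋃ q ∈ T, cl (2 ^ (j + 1) * r) q) * volume.real R) := by
  classical
  have hr : 0 < r := H.hr
  -- the rich sets
  set T : ℕ → ℕ → Finset ℕ := fun i j => (Ico (2 ^ i) (2 * 2 ^ i)).filter fun q =>
    (q : ℝ) * 2 ^ j * r ≤ W ∧ κ' * (q * (2 ^ (j + 1) * r)) ≤
      volume.real (R ∩ cl (2 ^ (j + 1) * r) q) with hT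
  set U : ℕ → ℕ → Set UnitAddCircle := fun i j => R ∩ ⋃ q ∈ T i j, cl (2 ^ (j + 1) * r) q with hU
  set R1 : Set UnitAddCircle := ⋃ v ∈ range Jm ×ˢ range Jm, U v.1 v.2 with hR1
  have hUm : ∀ i j, MeasurableSet (U i j) := fun i j =>
    hR.inter (Finset.measurableSet_biUnion _ fun q _ => measurableSet_cl _ q)
  have hR1m : MeasurableSet R1 := Finset.measurableSet_biUnion _ fun v _ => hUm v.1 v.2
  have hsub : R1 ⊆ R := by
    intro y hy
    simp only [hR1, Set.mem_iUnion] at hy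
    obtain ⟨v, _, hv⟩ := hy
    exact hv.1
  have hpoor : ∀ q j : ℕ, (q : ℝ) * 2 ^ j * r ≤ W →
      volume.real ((R \ R1) ∩ cl (2 ^ (j + 1) * r) q) ≤ κ' * (q * 2 ^ (j + 1) * r) := by
    intro q j hq
    rcases Nat.eq_zero_or_pos q with h0 | h1
    · subst h0
      have e : cl (2 ^ (j + 1) * r) 0 = ∅ := by
        ext z
        simp [cl, pt_zero]
      rw [e]
      simp
    · by_cases hrich : κ' * (q * (2 ^ (j + 1) * r)) ≤ volume.real (R ∩ cl (2 ^ (j + 1) * r) q)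
      · have hq1 : (1 : ℝ) ≤ q := by exact_mod_cast h1
        have h2j : (1 : ℝ) ≤ 2 ^ j := one_le_pow₀ (by norm_num)
        have hj : j < Jm := by
          apply hJ
          refine le_trans ?_ hq
          apply mul_le_mul_of_nonneg_right _ hr.le
          calc (2 : ℝ) ^ j = 1 * 2 ^ j := (one_mul _).symm
            _ ≤ q * 2 ^ j := mul_le_mul_of_nonneg_right hq1 (by positivity)
        have hl1 : 2 ^ (Nat.log 2 q) ≤ q := Nat.pow_log_le_self 2 (by omega)
        have hl2 : q < 2 ^ (Nat.log 2 q + 1) := Nat.lt_pow_succ_log_self (by norm_num) q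
        have hi : Nat.log 2 q < Jm := by
          apply hJ
          refine le_trans ?_ hq
          apply mul_le_mul_of_nonneg_right _ hr.le
          calc (2 : ℝ) ^ (Nat.log 2 q) = ((2 ^ (Nat.log 2 q) : ℕ) : ℝ) := by push_cast; rfl
            _ ≤ q := by exact_mod_cast hl1
            _ = q * 1 := (mul_one _).symm
            _ ≤ q * 2 ^ j := mul_le_mul_of_nonneg_left h2j (by positivity)
        have hqT : q ∈ T (Nat.log 2 q) j := by
          rw [hT]
          refine Finset.mem_filter.2 ⟨Finset.mem_Ico.2 ⟨hl1, ?_⟩, hq, hrich⟩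
          rw [pow_succ] at hl2
          omega
        have hempty : (R \ R1) ∩ cl (2 ^ (j + 1) * r) q = ∅ := by
          ext y
          simp only [Set.mem_inter_iff, Set.mem_sdiff, Set.mem_empty_iff_false, iff_false, not_and,
            and_imp]
          intro hy hy1 hy2
          apply hy1
          have hv : ((Nat.log 2 q, j) : ℕ × ℕ) ∈ range Jm ×ˢ range Jm :=
            Finset.mem_product.2 ⟨Finset.mem_range.2 hi, Finset.mem_range.2 hj⟩
          exact Set.mem_biUnion (Finset.mem_coe.2 hv)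
            (⟨hy, Set.mem_biUnion (Finset.mem_coe.2 hqT) hy2⟩ : y ∈ U (Nat.log 2 q) j)
        rw [hempty]
        simp only [measureReal_empty]
        positivity
      · have h3 : volume.real ((R \ R1) ∩ cl (2 ^ (j + 1) * r) q) ≤
            volume.real (R ∩ cl (2 ^ (j + 1) * r) q) :=
          measureReal_mono (Set.inter_subset_inter_left _ Set.sdiff_subset) (measure_ne_top _ _)
        have h4 := not_le.1 hrich
        calc volume.real ((R \ R1) ∩ cl (2 ^ (j + 1) * r) q)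
            ≤ κ' * (q * (2 ^ (j + 1) * r)) := h3.trans h4.le
          _ = κ' * (q * 2 ^ (j + 1) * r) := by rw [mul_assoc (q : ℝ)]
  have hmain := main_ineq H hK hKW hJ hR hR1m hsub hρ hpoor
  have hS0 : (0 : ℝ) < S := by
    have := H.hS
    exact_mod_cast (by omega : 0 < S)
  have hτ0 : (0 : ℝ) < τ := by
    have := H.hτ
    exact_mod_cast (by omega : 0 < τ)
  have hc0 : (0 : ℝ) < cc k := by
    unfold cc
    positivity
  have hD : 0 < 256 * (cc k : ℝ) ^ 2 * τ * r * (S : ℝ) ^ (2 * k) := by positivity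
  have hsq : I0 / (256 * (cc k : ℝ) ^ 2 * τ * r * (S : ℝ) ^ (2 * k)) ≤
      √(volume.real R1 * volume.real R) := by
    rw [div_le_iff₀ hD]
    have h5 := hI.trans (hmain.trans (add_le_add_right herr _))
    nlinarith [h5]
  have hsq2 : (I0 / (256 * (cc k : ℝ) ^ 2 * τ * r * (S : ℝ) ^ (2 * k))) ^ 2 ≤
      volume.real R1 * volume.real R := by
    have h6 : 0 ≤ volume.real R1 * volume.real R := by positivity
    calc (I0 / (256 * (cc k : ℝ) ^ 2 * τ * r * (S : ℝ) ^ (2 * k))) ^ 2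
        ≤ (√(volume.real R1 * volume.real R)) ^ 2 := pow_le_pow_left₀ (by positivity) hsq 2
      _ = volume.real R1 * volume.real R := Real.sq_sqrt h6
  -- `ρ1 > 0`
  have hρ1 : 0 < volume.real R1 := by
    by_contra hcon
    have h7 : volume.real R1 = 0 := le_antisymm (not_lt.1 hcon) measureReal_nonneg
    rw [h7, zero_mul] at hsq2
    have h8 : 0 < (I0 / (256 * (cc k : ℝ) ^ 2 * τ * r * (S : ℝ) ^ (2 * k))) ^ 2 := by positivity
    linarith
  have hsum : volume.real R1 ≤ ∑ v ∈ range Jm ×ˢ range Jm, volume.real (U v.1 v.2) :=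
    measureReal_biUnion_finset_le _ _
  have hJm : 0 < Jm := by
    rcases Nat.eq_zero_or_pos Jm with h | h
    · exfalso
      rw [h] at hsum
      simp at hsum
      linarith
    · exact h
  have hJm0 : (0 : ℝ) < Jm := by exact_mod_cast hJm
  obtain ⟨v, hv, hv2⟩ : ∃ v ∈ range Jm ×ˢ range Jm,
      volume.real R1 ≤ (Jm : ℝ) ^ 2 * volume.real (U v.1 v.2) := by
    by_contra hcon
    push Not at hcon
    have hne : (range Jm ×ˢ range Jm).Nonempty :=
      ⟨(0, 0), Finset.mem_product.2 ⟨Finset.mem_range.2 hJm, Finset.mem_range.2 hJm⟩⟩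
    have h9 : ∑ v ∈ range Jm ×ˢ range Jm, (Jm : ℝ) ^ 2 * volume.real (U v.1 v.2) <
        ∑ _v ∈ range Jm ×ˢ range Jm, volume.real R1 := Finset.sum_lt_sum_of_nonempty hne hcon
    rw [← Finset.mul_sum, Finset.sum_const, Finset.card_product, Finset.card_range, nsmul_eq_mul] at h9
    have h10 : (Jm : ℝ) ^ 2 * volume.real R1 ≤
        (Jm : ℝ) ^ 2 * ∑ v ∈ range Jm ×ˢ range Jm, volume.real (U v.1 v.2) :=
      mul_le_mul_of_nonneg_left hsum (by positivity)
    push_cast at h9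
    nlinarith [h9, h10]
  refine ⟨v.1, v.2, T v.1 v.2, Finset.filter_subset _ _, ?_, ?_⟩
  · exact rich_card hR (Q0 := 2 ^ v.1) (t := 2 ^ (v.2 + 1) * r) Nat.one_le_two_pow
      (Finset.filter_subset _ _) (by positivity) hκ
      (fun q hq => (Finset.mem_filter.1 hq).2.2) hρ2
  · calc (I0 / (256 * (cc k : ℝ) ^ 2 * τ * r * (S : ℝ) ^ (2 * k))) ^ 2
        ≤ volume.real R1 * volume.real R := hsq2
      _ ≤ ((Jm : ℝ) ^ 2 * volume.real (U v.1 v.2)) * volume.real R :=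
          mul_le_mul_of_nonneg_right hv2 hρ0.le
      _ = (Jm : ℝ) ^ 2 * (volume.real (U v.1 v.2) * volume.real R) := by ring

end Pool.Agent.Helper5.LE
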