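import Pool.Agent.Helper5.LE.Defs
import Pool.Agent.Helper5.LE.PB
import Pool.Agent.Helper25.MOB.X0

/-!
# Block LE-X1: the parameters as functions of `N`

`κ = 1/(3(k+1))` (so `k κ = 1/3 - κ`), `e = κ/100`, `S = ⌊N^κ⌋`, `r = N^(e-1)`, `τ = 2^(7(k+1))`, `W = N^(9e) ρ`, `κ' = N^(-10e)`, `K0 = N^(-7e) S^(2k) / (N ρ)`, `Nb = N^2`, `Jm = log₂ N + 1`. Real asymptotics only (`rpow_ev`, `rpow_ev_lt`, `log_ev` of `MOB/X0`).

`SSpow_ev`: `N^κ / 2 ≤ S ≤ N^κ`, raise to the power `m`; `2^(-m) ≥ N^(-e/8)` for large `N`.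
`hyp_ev`, with `ρ ≤ N^(-1/3-100κ)` (all other conditions are upper bounds on `ρ`):
`hsmall`: `r S^k ≤ N^(e-1+1/3-κ)`. `h3`: `8c² S^(3k) r ≤ 8c² N^(1-3κ+e-1)`. `h16`: `16c³ S^k W ≤ 16c³ N^(1/3-κ+9e-1/3-100κ)`. `h4`: `4W² ≤ 4N^(18e-2/3-200κ)` and `r S^(k-1) ≥ N^(e-1+1/3-2κ-e/8)` (`(k-1)κ = 1/3 - 2κ`). `hWS`: `r S^(2k-1) ≥ N^(e-1+2/3-3κ-e/8)` (`(2k-1)κ = 2/3 - 3κ`) against `W ≤ N^(9e-1/3-100κ)`. `hNb1`: `c ≤ N^(1+e)`. `hNb2`: `W ≤ N^(1+e)`. `hNb3`: `8c² S W³ ≤ 8c² N^(κ+27e-1-300κ)` and `r² Nb = N^(2e)`. `hdiv`: `n ≤ N² < S^(7(k+1))` since `S^(7(k+1)) ≥ N^(7/3-e/8)`; `PP_dvd`.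
`1 ≤ K0`: `N ρ ≤ N^(2/3-100κ)`, `N^(-7e) S^(2k) ≥ N^(2/3-2κ-e/8-7e)`. `K0 W = N^(2e-1) S^(2k) ≥ 2c⁶ S^(2k) N^(e-1)`. `hJ`: `2^j ≤ W / r = N^(8e+1) ρ ≤ N`. `S^k ρ ≤ 1`, `64 ρ ≤ N^(-20e)`: clear.
-/

set_option autoImplicit false

namespace Pool.Agent.Helper5.LE

open MeasureTheory Finset Filter
open Pool.Agent.Helper25.MOB

/-- `κ = 1/(3(k+1))`. -/
noncomputable def kap (k : ℕ) : ℝ := 1 / (3 * (k + 1))

/-- `e = κ/100`. -/
noncomputable def ep (k : ℕ) : ℝ := kap k / 100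

/-- `S = ⌊N^κ⌋`. -/
noncomputable def SS (k N : ℕ) : ℕ := ⌊(N : ℝ) ^ kap k⌋₊

/-- `r = N^(e-1)`. -/
noncomputable def rr (k N : ℕ) : ℝ := (N : ℝ) ^ (ep k - 1)

/-- `τ = 2^(7(k+1))`. -/
def tt (k : ℕ) : ℕ := 2 ^ (7 * (k + 1))

/-- `M = ⌊N / (c S^k)⌋`. -/
noncomputable def MMs (k N : ℕ) : ℕ := N / (cc k * SS k N ^ k)

/-- `W = N^(9e) ρ`. -/
noncomputable def WW (k N : ℕ) (ρ : ℝ) : ℝ := (N : ℝ) ^ (9 * ep k) * ρ

/-- `κ' = N^(-10e)`. -/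
noncomputable def kp (k N : ℕ) : ℝ := (N : ℝ) ^ (-(10 * ep k))

/-- `K0 = N^(-7e) S^(2k) / (N ρ)`. -/
noncomputable def KK (k N : ℕ) (ρ : ℝ) : ℝ :=
  (N : ℝ) ^ (-(7 * ep k)) * (SS k N : ℝ) ^ (2 * k) / (N * ρ)

/-- `Jm = log₂ N + 1`. -/
def JJ (N : ℕ) : ℕ := Nat.log 2 N + 1

private theorem kap_pos93 (k : ℕ) : 0 < kap k := by
  unfold kap
  positivity

private theorem kap_mul93 (k : ℕ) : (k : ℝ) * kap k = 1 / 3 - kap k := by
  unfold kap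
  have : (3 * ((k : ℝ) + 1)) ≠ 0 := by positivity
  field_simp
  ring

private theorem tend93 {a : ℝ} (h : 0 < a) :
    Tendsto (fun N : ℕ => (N : ℝ) ^ a) atTop atTop :=
  (tendsto_rpow_atTop h).comp tendsto_natCast_atTop_atTop

theorem SSpow_ev {k : ℕ} (hk : 1 ≤ k) (m : ℕ) : ∀ᶠ N : ℕ in atTop, 2 ≤ SS k N ∧
    (SS k N : ℝ) ^ m ≤ (N : ℝ) ^ (m * kap k) ∧
    (N : ℝ) ^ (m * kap k - ep k / 8) ≤ (SS k N : ℝ) ^ m := by
  have _ := hk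
  have hκ := kap_pos93 k
  have he : 0 < ep k / 8 := by unfold ep; positivity
  filter_upwards [(tend93 hκ).eventually_ge_atTop 2, rpow_ev (2 ^ m) (a := 0) he,
    eventually_ge_atTop 1] with N h1 h2 h3
  have hN : (0 : ℝ) < N := by exact_mod_cast h3
  have h4 : (SS k N : ℝ) ≤ (N : ℝ) ^ kap k := Nat.floor_le (by positivity)
  have h5 : (N : ℝ) ^ kap k < SS k N + 1 := Nat.lt_floor_add_one _
  have h6 : (N : ℝ) ^ kap k ≤ 2 * SS k N := by linarith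
  have hpow : ((N : ℝ) ^ kap k) ^ m = (N : ℝ) ^ (m * kap k) := by
    rw [← Real.rpow_natCast, ← Real.rpow_mul hN.le, mul_comm]
  refine ⟨Nat.le_floor (by exact_mod_cast h1), ?_, ?_⟩
  · rw [← hpow]
    exact pow_le_pow_left₀ (Nat.cast_nonneg _) h4 m
  · have h7 : ((N : ℝ) ^ kap k) ^ m ≤ (2 * SS k N) ^ m :=
      pow_le_pow_left₀ (by positivity) h6 m
    rw [hpow, mul_pow] at h7
    rw [Real.rpow_zero, mul_one] at h2
    rw [Real.rpow_sub hN, div_le_iff₀ (Real.rpow_pos_of_pos hN _)]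
    calc (N : ℝ) ^ ((m : ℝ) * kap k) ≤ 2 ^ m * (SS k N : ℝ) ^ m := h7
      _ ≤ (N : ℝ) ^ (ep k / 8) * (SS k N : ℝ) ^ m :=
          mul_le_mul_of_nonneg_right h2 (by positivity)
      _ = (SS k N : ℝ) ^ m * (N : ℝ) ^ (ep k / 8) := mul_comm _ _

theorem hyp_ev {k : ℕ} (hk : 1 ≤ k) : ∀ᶠ N : ℕ in atTop, ∀ ρ : ℝ, 0 < ρ →
    ρ ≤ (N : ℝ) ^ (-1 / 3 - 100 * kap k) →
    Hyp (SS k N) k (tt k) (rr k N) (WW k N ρ) ((N : ℝ) ^ 2) (kp k N) ∧ 1 ≤ KK k N ρ ∧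
      2 * (cc k : ℝ) ^ 6 * (SS k N : ℝ) ^ (2 * k) * rr k N ≤ KK k N ρ * WW k N ρ ∧
      (∀ j : ℕ, 2 ^ j * rr k N ≤ WW k N ρ → j < JJ N) ∧ 0 < kp k N ∧
      (SS k N : ℝ) ^ k * ρ ≤ 1 ∧ 64 * ρ ≤ kp k N ^ 2 := by
  have hκ := kap_pos93 k
  have hkκ := kap_mul93 k
  have he : ep k = kap k / 100 := rfl
  have hκ1 : kap k ≤ 1 / 6 := by
    have h1 : (1 : ℝ) ≤ k := by exact_mod_cast hk
    nlinarith
  have hc0 : (0 : ℝ) < cc k := by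
    unfold cc
    positivity
  set c : ℝ := (cc k : ℝ) with hcdef
  filter_upwards [SSpow_ev hk k, SSpow_ev hk (3 * k), SSpow_ev hk (k - 1),
    SSpow_ev hk (2 * k - 1), SSpow_ev hk (2 * k), SSpow_ev hk (7 * (k + 1)), SSpow_ev hk 1,
    rpow_ev 16 (a := ep k - 1 + (1 / 3 - kap k)) (b := 0) (by linarith),
    rpow_ev_lt (8 * c ^ 2) (c := 1) (a := ep k - 3 * kap k) (b := 0) one_pos (by linarith),
    rpow_ev_lt (16 * c ^ 3) (c := 1) (a := 9 * ep k - 101 * kap k) (b := 0) one_pos (by linarith),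
    rpow_ev_lt 4 (c := 1) (a := 18 * ep k - 2 / 3 - 200 * kap k)
      (b := ep k - 1 + (1 / 3 - 2 * kap k - ep k / 8)) one_pos (by linarith),
    rpow_ev c (a := 0) (b := 1 + ep k) (by linarith),
    rpow_ev (8 * c ^ 2) (a := kap k + (27 * ep k - 1 - 300 * kap k)) (b := 2 * ep k)
      (by linarith),
    rpow_ev (2 * c ^ 6) (a := ep k - 1) (b := 2 * ep k - 1) (by linarith),
    rpow_ev 64 (a := -1 / 3 - 100 * kap k) (b := -(20 * ep k)) (by linarith),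
    rpow_ev_lt 1 (c := 1) (a := 2) (b := 7 / 3 - ep k / 8) one_pos (by linarith),
    eventually_ge_atTop 1] with N hS1 hS2 hS3 hS4 hS5 hS6 hS7 g1 g2 g3 g4 g5 g6 g7 g8 g9 hN1
  intro ρ hρ hρ1
  have hN : (0 : ℝ) < N := by exact_mod_cast hN1
  have hN1' : (1 : ℝ) ≤ N := by exact_mod_cast hN1
  have hmono : ∀ {a b : ℝ}, a ≤ b → (N : ℝ) ^ a ≤ (N : ℝ) ^ b := fun h =>
    Real.rpow_le_rpow_of_exponent_le hN1' h
  have hadd : ∀ a b : ℝ, (N : ℝ) ^ a * (N : ℝ) ^ b = (N : ℝ) ^ (a + b) := fun a b =>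
    (Real.rpow_add hN a b).symm
  have hpos : ∀ a : ℝ, 0 < (N : ℝ) ^ a := fun a => Real.rpow_pos_of_pos hN a
  have hN2 : ((N : ℝ) ^ 2 : ℝ) = (N : ℝ) ^ (2 : ℝ) := by
    rw [← Real.rpow_natCast]
    norm_num
  have hk1 : ((k - 1 : ℕ) : ℝ) * kap k = 1 / 3 - 2 * kap k := by
    rw [Nat.cast_sub hk]
    push_cast
    linarith
  have h2k1 : ((2 * k - 1 : ℕ) : ℝ) * kap k = 2 / 3 - 3 * kap k := by
    rw [Nat.cast_sub (by omega)]
    push_cast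
    linarith
  have h3k : ((3 * k : ℕ) : ℝ) * kap k = 1 - 3 * kap k := by
    push_cast
    linarith
  have h2k : ((2 * k : ℕ) : ℝ) * kap k = 2 / 3 - 2 * kap k := by
    push_cast
    linarith
  have h7k : ((7 * (k + 1) : ℕ) : ℝ) * kap k = 7 / 3 := by
    push_cast
    linarith
  obtain ⟨hS, hS1, -⟩ := hS1
  obtain ⟨-, hS2, -⟩ := hS2
  obtain ⟨-, -, hS3⟩ := hS3
  obtain ⟨-, -, hS4⟩ := hS4
  obtain ⟨-, -, hS5⟩ := hS5
  obtain ⟨-, -, hS6⟩ := hS6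
  obtain ⟨-, hS7, -⟩ := hS7
  rw [hkκ] at hS1
  rw [h3k] at hS2
  rw [hk1] at hS3
  rw [h2k1] at hS4
  rw [h2k] at hS5
  rw [h7k] at hS6
  rw [pow_one, Nat.cast_one, one_mul] at hS7
  rw [one_mul] at g2 g3 g4 g9
  rw [Real.rpow_zero] at g1 g2 g3 g5
  rw [one_mul] at g9
  set s : ℝ := (SS k N : ℝ) with hsdef
  have hs0 : (0 : ℝ) < s := by
    have h2s : (2 : ℝ) ≤ (SS k N : ℝ) := by exact_mod_cast hS
    exact lt_of_lt_of_le (by norm_num) h2s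
  have hr0 : 0 < rr k N := hpos _
  have hW0 : 0 < WW k N ρ := mul_pos (hpos _) hρ
  have hW1 : WW k N ρ ≤ (N : ℝ) ^ (9 * ep k - 1 / 3 - 100 * kap k) := by
    unfold WW
    calc (N : ℝ) ^ (9 * ep k) * ρ ≤ (N : ℝ) ^ (9 * ep k) * (N : ℝ) ^ (-1 / 3 - 100 * kap k) :=
          mul_le_mul_of_nonneg_left hρ1 (hpos _).le
      _ = (N : ℝ) ^ (9 * ep k - 1 / 3 - 100 * kap k) := by
          rw [hadd]
          congr 1
          ring
  have hKW : KK k N ρ * WW k N ρ = (N : ℝ) ^ (2 * ep k - 1) * s ^ (2 * k) := by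
    unfold KK WW
    have e1 : (N : ℝ) ^ (2 * ep k - 1) = (N : ℝ) ^ (-(7 * ep k)) * (N : ℝ) ^ (9 * ep k) / N := by
      rw [hadd, Real.rpow_sub hN, Real.rpow_one]
      congr 2
      ring
    rw [e1, ← hsdef]
    field_simp
  refine ⟨⟨hk, hS, Nat.one_le_two_pow, hr0, hW0, (hpos _).le, ?_, ?_, ?_, ?_, ?_, ?_, ?_, ?_, ?_⟩,
    ?_, ?_, ?_, hpos _, ?_, ?_⟩
  · -- hsmall
    have h : rr k N * s ^ k ≤ (N : ℝ) ^ (ep k - 1 + (1 / 3 - kap k)) := by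
      rw [← hadd]
      exact mul_le_mul_of_nonneg_left hS1 (hpos _).le
    linarith
  · -- h3
    calc 8 * c ^ 2 * s ^ (3 * k) * rr k N
        ≤ 8 * c ^ 2 * (N : ℝ) ^ (1 - 3 * kap k) * rr k N :=
          mul_le_mul_of_nonneg_right (mul_le_mul_of_nonneg_left hS2 (by positivity)) hr0.le
      _ = 8 * c ^ 2 * (N : ℝ) ^ (ep k - 3 * kap k) := by
          rw [mul_assoc]
          unfold rr
          rw [hadd]
          congr 2
          ring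
      _ < 1 := g2
  · -- h16
    calc 16 * c ^ 3 * s ^ k * WW k N ρ
        ≤ 16 * c ^ 3 * (N : ℝ) ^ (1 / 3 - kap k) * (N : ℝ) ^ (9 * ep k - 1 / 3 - 100 * kap k) :=
          mul_le_mul (mul_le_mul_of_nonneg_left hS1 (by positivity)) hW1 hW0.le
            (by positivity)
      _ = 16 * c ^ 3 * (N : ℝ) ^ (9 * ep k - 101 * kap k) := by
          rw [mul_assoc, hadd]
          congr 2
          ring
      _ < 1 := g3
  · -- h4
    calc 4 * WW k N ρ ^ 2 ≤ 4 * ((N : ℝ) ^ (9 * ep k - 1 / 3 - 100 * kap k)) ^ 2 :=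
          mul_le_mul_of_nonneg_left (pow_le_pow_left₀ hW0.le hW1 2) (by norm_num)
      _ = 4 * (N : ℝ) ^ (18 * ep k - 2 / 3 - 200 * kap k) := by
          rw [pow_two, hadd]
          congr 2
          ring
      _ < (N : ℝ) ^ (ep k - 1 + (1 / 3 - 2 * kap k - ep k / 8)) := g4
      _ = (N : ℝ) ^ (ep k - 1) * (N : ℝ) ^ (1 / 3 - 2 * kap k - ep k / 8) := (hadd _ _).symm
      _ ≤ rr k N * s ^ (k - 1) := mul_le_mul_of_nonneg_left hS3 (hpos _).le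
  · -- hWS
    calc WW k N ρ ≤ (N : ℝ) ^ (9 * ep k - 1 / 3 - 100 * kap k) := hW1
      _ ≤ (N : ℝ) ^ (ep k - 1 + (2 / 3 - 3 * kap k - ep k / 8)) := hmono (by linarith)
      _ = (N : ℝ) ^ (ep k - 1) * (N : ℝ) ^ (2 / 3 - 3 * kap k - ep k / 8) := (hadd _ _).symm
      _ ≤ rr k N * s ^ (2 * k - 1) := mul_le_mul_of_nonneg_left hS4 (hpos _).le
  · -- hNb1
    rw [mul_one] at g5
    refine g5.trans (le_of_eq ?_)
    rw [hN2]
    unfold rr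
    rw [hadd]
    congr 1
    ring
  · -- hNb2
    rw [hN2]
    unfold rr
    rw [hadd]
    exact hW1.trans (hmono (by linarith))
  · -- hNb3
    calc 8 * c ^ 2 * s * WW k N ρ ^ 3
        ≤ 8 * c ^ 2 * (N : ℝ) ^ kap k * ((N : ℝ) ^ (9 * ep k - 1 / 3 - 100 * kap k)) ^ 3 :=
          mul_le_mul (mul_le_mul_of_nonneg_left hS7 (by positivity))
            (pow_le_pow_left₀ hW0.le hW1 3) (by positivity) (by positivity)
      _ = 8 * c ^ 2 * (N : ℝ) ^ (kap k + (27 * ep k - 1 - 300 * kap k)) := by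
          rw [mul_assoc (8 * c ^ 2), pow_three, hadd, hadd, hadd]
          congr 2
          ring
      _ ≤ (N : ℝ) ^ (2 * ep k) := g6
      _ = rr k N ^ 2 * (N : ℝ) ^ 2 := by
          rw [hN2]
          unfold rr
          rw [pow_two, hadd, hadd]
          congr 1
          ring
  · -- hdiv
    intro I _ n hn hnN
    refine PP_dvd hS hn ?_
    have h : (n : ℝ) < (SS k N : ℝ) ^ (7 * (k + 1)) := by
      rw [hN2] at hnN
      exact (hnN.trans_lt g9).trans_le hS6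
    exact_mod_cast h
  · -- 1 ≤ KK
    unfold KK
    rw [one_le_div (mul_pos hN hρ)]
    calc (N : ℝ) * ρ ≤ N * (N : ℝ) ^ (-1 / 3 - 100 * kap k) :=
          mul_le_mul_of_nonneg_left hρ1 hN.le
      _ = (N : ℝ) ^ (1 + (-1 / 3 - 100 * kap k)) := by
          rw [← hadd, Real.rpow_one]
      _ ≤ (N : ℝ) ^ (-(7 * ep k) + (2 / 3 - 2 * kap k - ep k / 8)) := hmono (by linarith)
      _ = (N : ℝ) ^ (-(7 * ep k)) * (N : ℝ) ^ (2 / 3 - 2 * kap k - ep k / 8) := (hadd _ _).symm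
      _ ≤ (N : ℝ) ^ (-(7 * ep k)) * s ^ (2 * k) := mul_le_mul_of_nonneg_left hS5 (hpos _).le
  · -- KW
    rw [hKW]
    calc 2 * c ^ 6 * s ^ (2 * k) * rr k N = (2 * c ^ 6 * (N : ℝ) ^ (ep k - 1)) * s ^ (2 * k) := by
          unfold rr
          ring
      _ ≤ (N : ℝ) ^ (2 * ep k - 1) * s ^ (2 * k) :=
          mul_le_mul_of_nonneg_right g7 (by positivity)
  · -- hJ
    intro j hj
    have h1 : (2 : ℝ) ^ j ≤ N := by
      have h2 : (N : ℝ) ^ (9 * ep k - 1 / 3 - 100 * kap k) ≤ (N : ℝ) * rr k N := by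
        have h3 : (N : ℝ) * rr k N = (N : ℝ) ^ (1 + (ep k - 1)) := by
          unfold rr
          rw [← hadd, Real.rpow_one]
        rw [h3]
        exact hmono (by linarith)
      exact le_of_mul_le_mul_right ((hj.trans hW1).trans h2) hr0
    have h2 : 2 ^ j ≤ N := by exact_mod_cast h1
    unfold JJ
    have := (Nat.le_log_iff_pow_le (b := 2) (by norm_num) (by omega)).2 h2
    omega
  · -- S^k ρ ≤ 1
    calc s ^ k * ρ ≤ (N : ℝ) ^ (1 / 3 - kap k) * (N : ℝ) ^ (-1 / 3 - 100 * kap k) :=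
          mul_le_mul hS1 hρ1 hρ.le (hpos _).le
      _ = (N : ℝ) ^ (1 / 3 - kap k + (-1 / 3 - 100 * kap k)) := hadd _ _
      _ ≤ (N : ℝ) ^ (0 : ℝ) := hmono (by linarith)
      _ = 1 := Real.rpow_zero _
  · -- 64 ρ
    calc 64 * ρ ≤ 64 * (N : ℝ) ^ (-1 / 3 - 100 * kap k) :=
          mul_le_mul_of_nonneg_left hρ1 (by norm_num)
      _ ≤ (N : ℝ) ^ (-(20 * ep k)) := g8
      _ = kp k N ^ 2 := by
          unfold kp
          rw [pow_two, hadd]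
          congr 1
          ring

end Pool.Agent.Helper5.LE
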